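import Mathlib

set_option autoImplicit false
set_option linter.unusedSectionVars false
set_option linter.unusedVariables false
set_option linter.unusedSimpArgs false

namespace Pool.Agent.Helper296

open RingTheory.Sequence IsLocalRing
open scoped Pointwise

section cyc

variable {T : Type*} [CommRing T] [IsLocalRing T]
variable {M : Type*} [AddCommGroup M] [Module T M]

/-- cyclic socle modulo K -/
def CycS (K : Submodule T M) : Prop :=
  ∃ e : M, (∀ a ∈ maximalIdeal T, a • e ∈ K) ∧
    ∀ n : M, (∀ a ∈ maximalIdeal T, a • n ∈ K) → ∃ c : T, n - c • e ∈ K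

lemma mem_sup_smul_top {K : Submodule T M} {x : T} {v : M} :
    v ∈ K ⊔ x • (⊤ : Submodule T M) ↔ ∃ κ ∈ K, ∃ m : M, v = κ + x • m := by
  rw [Submodule.mem_sup]
  constructor
  · rintro ⟨κ, hκ, z, hz, rfl⟩
    obtain ⟨m, -, rfl⟩ := (Submodule.mem_smul_pointwise_iff_exists _ _ _).mp hz
    exact ⟨κ, hκ, m, rfl⟩
  · rintro ⟨κ, hκ, m, rfl⟩
    exact ⟨κ, hκ, x • m, Submodule.smul_mem_pointwise_smul _ _ _ trivial, rfl⟩

lemma transport_aux {K : Submodule T M} {x y : T}
    (hxr : ∀ n : M, x • n ∈ K → n ∈ K) {e e' : M}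
    (he : ∃ κ ∈ K, y • e = κ + x • e')
    (hm : ∀ a ∈ maximalIdeal T, a • e ∈ K ⊔ x • (⊤ : Submodule T M)) :
    ∀ a ∈ maximalIdeal T, a • e' ∈ K ⊔ y • (⊤ : Submodule T M) := by
  intro a ha
  obtain ⟨κ, hκ, hye⟩ := he
  obtain ⟨κ₂, hκ₂, m₁, hm₁⟩ := mem_sup_smul_top.mp (hm a ha)
  have h1 : x • (a • e' - y • m₁) = y • κ₂ - a • κ := by
    have h2 : x • (a • e') = a • (y • e) - a • κ := by
      rw [hye, smul_add, add_sub_cancel_left, smul_comm]
    have h3 : a • (y • e) = y • κ₂ + y • (x • m₁) := by
      rw [smul_comm, hm₁, smul_add]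
    rw [smul_sub, h2, h3, smul_comm x y m₁]
    abel
  have h4 : a • e' - y • m₁ ∈ K := by
    apply hxr
    rw [h1]
    exact K.sub_mem (K.smul_mem _ hκ₂) (K.smul_mem _ hκ)
  exact mem_sup_smul_top.mpr ⟨_, h4, m₁, by abel⟩

lemma transport {K : Submodule T M} {x y : T} (hx : x ∈ maximalIdeal T) (hy : y ∈ maximalIdeal T)
    (hxr : ∀ n : M, x • n ∈ K → n ∈ K) (hyr : ∀ n : M, y • n ∈ K → n ∈ K)
    (h : CycS (K ⊔ x • (⊤ : Submodule T M))) : CycS (K ⊔ y • (⊤ : Submodule T M)) := by
  obtain ⟨e, he, hgen⟩ := h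
  obtain ⟨κ, hκ, e', hye⟩ := mem_sup_smul_top.mp (he y hy)
  refine ⟨e', transport_aux hxr ⟨κ, hκ, hye⟩ he, ?_⟩
  intro n hn
  obtain ⟨κ₃, hκ₃, n', hxn⟩ := mem_sup_smul_top.mp (hn x hx)
  have h1 := transport_aux hyr ⟨κ₃, hκ₃, hxn⟩ hn
  obtain ⟨c, hc⟩ := hgen n' h1
  obtain ⟨κ₄, hκ₄, z, hz⟩ := mem_sup_smul_top.mp hc
  refine ⟨c, ?_⟩
  have h2 : n' = c • e + κ₄ + x • z := by
    rw [add_assoc, ← hz]; abel
  have h3 : x • (n - c • e' - y • z) = κ₃ + c • κ + y • κ₄ := by
    rw [smul_sub, smul_sub, hxn, h2, smul_add, smul_add, smul_comm y c e, hye, smul_add,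
      smul_comm y x z, smul_comm c x e']
    abel
  have h4 : n - c • e' - y • z ∈ K := by
    apply hxr
    rw [h3]
    exact K.add_mem (K.add_mem hκ₃ (K.smul_mem _ hκ)) (K.smul_mem _ hκ₄)
  exact mem_sup_smul_top.mpr ⟨_, h4, z, by abel⟩

lemma cycS_quot {K₀ : Submodule T M} (L : Submodule T (M ⧸ K₀)) :
    CycS L ↔ CycS (L.comap K₀.mkQ) := by
  constructor
  · rintro ⟨e, he, hgen⟩
    obtain ⟨e, rfl⟩ := K₀.mkQ_surjective e
    refine ⟨e, ?_, ?_⟩
    · intro a ha
      rw [Submodule.mem_comap, map_smul]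
      exact he a ha
    · intro n hn
      obtain ⟨c, hc⟩ := hgen (K₀.mkQ n) (fun a ha => by
        have := hn a ha
        rwa [Submodule.mem_comap, map_smul] at this)
      refine ⟨c, ?_⟩
      rw [Submodule.mem_comap, map_sub, map_smul]
      exact hc
  · rintro ⟨e, he, hgen⟩
    refine ⟨K₀.mkQ e, ?_, ?_⟩
    · intro a ha
      have := he a ha
      rwa [Submodule.mem_comap, map_smul] at this
    · intro n hn
      obtain ⟨n, rfl⟩ := K₀.mkQ_surjective n
      obtain ⟨c, hc⟩ := hgen n (fun a ha => by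
        rw [Submodule.mem_comap, map_smul]
        exact hn a ha)
      refine ⟨c, ?_⟩
      rwa [Submodule.mem_comap, map_sub, map_smul] at hc

lemma comap_mkQ_smul_top (I : Ideal T) (K₀ : Submodule T M) :
    (I • (⊤ : Submodule T (M ⧸ K₀))).comap K₀.mkQ = I • (⊤ : Submodule T M) ⊔ K₀ := by
  have h1 : (I • (⊤ : Submodule T (M ⧸ K₀))) = (I • (⊤ : Submodule T M)).map K₀.mkQ := by
    rw [Submodule.map_smul'', Submodule.map_top, Submodule.range_mkQ]
  rw [h1, Submodule.comap_map_mkQ, sup_comm]

lemma ofList_cons_smul_top (x : T) (xs : List T) :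
    (Ideal.ofList (x :: xs) • ⊤ : Submodule T M) = Ideal.ofList xs • ⊤ ⊔ x • (⊤ : Submodule T M) := by
  rw [Ideal.ofList_cons_smul, sup_comm]

end cyc

section exch

universe u

variable {T : Type*} [CommRing T] [IsLocalRing T] [IsNoetherianRing T]
variable {k : Type*} [Field k] [Infinite k] [Algebra k T] {V : Type*} [AddCommGroup V] [Module k V]

lemma exists_regular_elt (lam : V →ₗ[k] T)
    {N : Type*} [AddCommGroup N] [Module T N] [Module.Finite T N]
    {x : T} (hx : IsSMulRegular N x) {n : ℕ}
    (hxn : x ^ n ∈ Ideal.span (Set.range lam) ⊔ Module.annihilator T N) :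
    ∃ v, IsSMulRegular N (lam v) := by
  classical
  have hfin : (associatedPrimes T N).Finite := associatedPrimes.finite T N
  let F : Ideal T → Subspace k V := fun p => (p.restrictScalars k).comap lam
  have hF : ∀ (p : Ideal T) v, v ∈ F p ↔ lam v ∈ p := fun p v => Iff.rfl
  have htop : (⊤ : Subspace k V) ∉ hfin.toFinset.image F := by
    rw [Finset.mem_image]
    rintro ⟨p, hp, hpF⟩
    rw [Set.Finite.mem_toFinset] at hp
    have h1 : Ideal.span (Set.range lam) ≤ p := by
      rw [Ideal.span_le]
      rintro _ ⟨v, rfl⟩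
      have : v ∈ F p := by rw [hpF]; trivial
      exact this
    have h2 : Module.annihilator T N ≤ p := by
      have := IsAssociatedPrime.annihilator_le hp
      rwa [Submodule.annihilator_top] at this
    have h3 : x ^ n ∈ p := (sup_le h1 h2) hxn
    have h4 : x ∈ p := by
      have : p.IsPrime := hp.isPrime
      exact this.mem_of_pow_mem _ h3
    have h5 : x ∈ (⋃ p ∈ associatedPrimes T N, (p : Set T)) := by
      simp only [Set.mem_iUnion]
      exact ⟨p, hp, h4⟩
    rw [biUnion_associatedPrimes_eq_compl_regular] at h5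
    exact h5 hx
  have h6 := Subspace.biUnion_ne_univ_of_top_notMem htop
  rw [Set.ne_univ_iff_exists_notMem] at h6
  obtain ⟨v, hv⟩ := h6
  refine ⟨v, ?_⟩
  by_contra hreg
  have h7 : lam v ∈ (⋃ p ∈ associatedPrimes T N, (p : Set T)) := by
    rw [biUnion_associatedPrimes_eq_compl_regular]
    exact hreg
  simp only [Set.mem_iUnion] at h7
  obtain ⟨p, hp, hvp⟩ := h7
  apply hv
  simp only [Set.mem_iUnion, Finset.mem_image, Set.Finite.mem_toFinset]
  exact ⟨F p, ⟨p, hp, rfl⟩, hvp⟩

theorem exchange (lam : V →ₗ[k] T) (hlam : ∀ v, lam v ∈ maximalIdeal T) (xs : List T) :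
    ∀ (M : Type u) [AddCommGroup M] [Module T M] [Module.Finite T M],
      (∀ x ∈ xs, x ∈ maximalIdeal T) → IsRegular M xs →
      (∀ x ∈ xs, ∃ n : ℕ, x ^ n ∈ Ideal.span (Set.range lam) ⊔ Module.annihilator T M) →
      ∃ vs : List V, vs.length = xs.length ∧ IsRegular M (vs.map lam) ∧
        (CycS (Ideal.ofList xs • ⊤ : Submodule T M) → CycS (Ideal.ofList (vs.map lam) • ⊤ : Submodule T M)) := by
  induction xs with
  | nil =>
    intro M _ _ _ _ hreg _
    exact ⟨[], rfl, hreg, fun h => h⟩
  | cons x xs ih =>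
    intro M _ _ _ hmem hreg hpow
    have hmem' : ∀ y ∈ xs, y ∈ maximalIdeal T := fun y hy => hmem y (List.mem_cons_of_mem _ hy)
    have h1 : IsRegular M (xs ++ [x]) := IsLocalRing.isRegular_of_perm hreg (by
      exact (List.perm_append_singleton x xs).symm)
    obtain ⟨h2a, h2b⟩ := (isWeaklyRegular_append_iff M xs [x]).mp h1.toIsWeaklyRegular
    rw [isWeaklyRegular_singleton_iff] at h2b
    obtain ⟨n, hn⟩ := hpow x List.mem_cons_self
    have hann : Module.annihilator T M ≤ Module.annihilator T (M ⧸ (Ideal.ofList xs • ⊤ : Submodule T M)) :=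
      LinearMap.annihilator_le_of_surjective _ (Submodule.mkQ_surjective _)
    obtain ⟨v, hv⟩ := exists_regular_elt lam h2b (sup_le_sup_left hann _ hn)
    have h3w : IsWeaklyRegular M (xs ++ [lam v]) := by
      rw [isWeaklyRegular_append_iff, isWeaklyRegular_singleton_iff]
      exact ⟨h2a, hv⟩
    have hMne : Nontrivial M := hreg.nontrivial
    have h3 : IsRegular M (xs ++ [lam v]) :=
      IsRegular.of_isWeaklyRegular_of_mem_maximalIdeal M (by
        intro y hy
        rw [List.mem_append, List.mem_singleton] at hy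
        rcases hy with hy | rfl
        · exact hmem' y hy
        · exact hlam v) h3w
    have h4 : IsRegular M (lam v :: xs) := IsLocalRing.isRegular_of_perm h3 (List.perm_append_singleton _ _)
    obtain ⟨h5a, h5b⟩ := (isRegular_cons_iff M (lam v) xs).mp h4
    have hann' : Module.annihilator T M ≤ Module.annihilator T (QuotSMulTop (lam v) M) :=
      LinearMap.annihilator_le_of_surjective _ (Submodule.mkQ_surjective _)
    obtain ⟨vs, hlen, hvreg, hcyc⟩ := ih (QuotSMulTop (lam v) M) hmem' h5b (by
      intro y hy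
      obtain ⟨n, hn⟩ := hpow y (List.mem_cons_of_mem _ hy)
      exact ⟨n, sup_le_sup_left hann' _ hn⟩)
    refine ⟨v :: vs, by simp [hlen], ?_, ?_⟩
    · rw [List.map_cons, isRegular_cons_iff]
      exact ⟨h5a, hvreg⟩
    · intro hc
      rw [ofList_cons_smul_top] at hc
      have hxr : ∀ n : M, x • n ∈ (Ideal.ofList xs • ⊤ : Submodule T M) → n ∈ (Ideal.ofList xs • ⊤ : Submodule T M) :=
        (isSMulRegular_quotient_iff_mem_of_smul_mem _ _).mp h2b
      have hyr : ∀ n : M, lam v • n ∈ (Ideal.ofList xs • ⊤ : Submodule T M) → n ∈ (Ideal.ofList xs • ⊤ : Submodule T M) :=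
        (isSMulRegular_quotient_iff_mem_of_smul_mem _ _).mp hv
      have hc2 := transport (hmem x List.mem_cons_self) (hlam v) hxr hyr hc
      rw [← comap_mkQ_smul_top, ← cycS_quot] at hc2
      have hc3 := hcyc hc2
      rw [cycS_quot] at hc3
      rw [List.map_cons, ofList_cons_smul_top, ← comap_mkQ_smul_top]
      exact hc3

/-- regular sequences from linear forms are linearly independent -/
lemma linInd_of_regular (lam : V →ₗ[k] T) {M : Type*} [AddCommGroup M] [Module T M] [Module.Finite T M]
    (vs : List V) (h : IsRegular M (vs.map lam)) : LinearIndependent k (fun i : Fin vs.length => vs[i]) := by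
  induction vs with
  | nil =>
    have : IsEmpty (Fin ([] : List V).length) := Fin.isEmpty
    exact linearIndependent_empty_type
  | cons v vs ih =>
    rw [List.map_cons] at h
    have h1 : IsRegular M ((vs.map lam) ++ [lam v]) := IsLocalRing.isRegular_of_perm h (List.perm_append_singleton _ _).symm
    obtain ⟨h2a, h2b⟩ := (isWeaklyRegular_append_iff M (vs.map lam) [lam v]).mp h1.toIsWeaklyRegular
    rw [isWeaklyRegular_singleton_iff] at h2b
    have h3 : (⊤ : Submodule T M) ≠ Ideal.ofList (vs.map lam) • ⊤ := by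
      intro h4
      apply h1.top_ne_smul
      apply le_antisymm _ le_top
      rw [Ideal.ofList_append, Submodule.sup_smul, ← h4]
      exact le_sup_left
    have h5 : IsRegular M (vs.map lam) := ⟨h2a, h3⟩
    have h6 : (fun i : Fin (v :: vs).length => (v :: vs)[i]) = Fin.cons (α := fun _ => V) v (fun i : Fin vs.length => vs[i]) := by
      funext i
      refine Fin.cases ?_ (fun j => ?_) i
      · rfl
      · rfl
    rw [h6, linearIndependent_finCons]
    refine ⟨ih h5, ?_⟩
    intro hv
    have h7 : lam v ∈ Ideal.ofList (vs.map lam) := by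
      have : ∀ w ∈ Submodule.span k (Set.range (fun i : Fin vs.length => vs[i])), lam w ∈ Ideal.ofList (vs.map lam) := by
        intro w hw
        induction hw using Submodule.span_induction with
        | mem x hx =>
          obtain ⟨i, rfl⟩ := hx
          apply Ideal.subset_span
          exact List.mem_map_of_mem (List.getElem_mem _)
        | zero => rw [map_zero]; exact Ideal.zero_mem _
        | add x y _ _ hx hy => rw [map_add]; exact Ideal.add_mem _ hx hy
        | smul a x _ hx =>
          rw [map_smul, Algebra.smul_def]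
          exact Ideal.mul_mem_left _ _ hx
      exact this v hv
    apply h3
    symm
    rw [eq_top_iff]
    intro m _
    apply mem_of_isSMulRegular_quotient_of_smul_mem h2b
    exact Submodule.smul_mem_smul h7 trivial

end exch

section free

universe u

variable {A : Type*} [CommRing A] [IsLocalRing A] [IsNoetherianRing A]
variable {B : Type*} [AddCommGroup B] [Module A B] [Module.Finite A B]

/-- intersection of J + (s^N) -/
lemma mem_of_forall_pow {J : Ideal A} {s : A} (hs : s ∈ maximalIdeal A) {a : A}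
    (h : ∀ N : ℕ, a ∈ J ⊔ Ideal.span {s ^ N}) : a ∈ J := by
  have h1 : (⨅ i : ℕ, (maximalIdeal A) ^ i • ⊤ : Submodule A (A ⧸ J)) = ⊥ :=
    Ideal.iInf_pow_smul_eq_bot_of_isLocalRing _ (IsLocalRing.maximalIdeal.isMaximal A).ne_top
  have h2 : (Ideal.Quotient.mk J a) ∈ (⨅ i : ℕ, (maximalIdeal A) ^ i • ⊤ : Submodule A (A ⧸ J)) := by
    rw [Submodule.mem_iInf]
    intro N
    obtain ⟨y, hy, z, hz, hyz⟩ := Submodule.mem_sup.mp (h N)
    rw [Ideal.mem_span_singleton'] at hz
    obtain ⟨w, rfl⟩ := hz
    have h3 : (Ideal.Quotient.mk J a) = s ^ N • (Ideal.Quotient.mk J w) := by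
      rw [← hyz, map_add, Ideal.Quotient.eq_zero_iff_mem.mpr hy, zero_add, mul_comm]
      rfl
    rw [h3]
    exact Submodule.smul_mem_smul (Ideal.pow_mem_pow hs N) trivial
  rw [h1, Submodule.mem_bot] at h2
  exact Ideal.Quotient.eq_zero_iff_mem.mp h2

/-- going down one step -/
lemma free_step {ι : Type*} [Fintype ι] (b : ι → B) {J : Ideal A} {s : A} (hs : s ∈ maximalIdeal A)
    (hreg : ∀ n : B, s • n ∈ (J • ⊤ : Submodule A B) → n ∈ (J • ⊤ : Submodule A B))
    (hP : ∀ a : ι → A, ∑ j, a j • b j ∈ ((J ⊔ Ideal.span {s}) • ⊤ : Submodule A B) → ∀ j, a j ∈ J ⊔ Ideal.span {s}) :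
    ∀ a : ι → A, ∑ j, a j • b j ∈ (J • ⊤ : Submodule A B) → ∀ j, a j ∈ J := by
  have key : ∀ (N : ℕ) (a : ι → A), ∑ j, a j • b j ∈ (J • ⊤ : Submodule A B) → ∀ j, a j ∈ J ⊔ Ideal.span {s ^ N} := by
    intro N
    induction N with
    | zero =>
      intro a _ j
      apply Ideal.mem_sup_right
      simp
    | succ N ih =>
      intro a ha
      have h1 := hP a (Submodule.smul_mono_left le_sup_left ha)
      have h2 : ∀ j, ∃ c ∈ J, ∃ a', a j = c + s * a' := by
        intro j
        obtain ⟨y, hy, z, hz, hyz⟩ := Submodule.mem_sup.mp (h1 j)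
        rw [Ideal.mem_span_singleton'] at hz
        obtain ⟨w, rfl⟩ := hz
        exact ⟨y, hy, w, by rw [← hyz, mul_comm]⟩
      choose c hc a' ha' using h2
      have h3 : s • ∑ j, a' j • b j = ∑ j, a j • b j - ∑ j, c j • b j := by
        rw [Finset.smul_sum, ← Finset.sum_sub_distrib]
        apply Finset.sum_congr rfl
        intro j _
        rw [ha' j, add_smul, add_sub_cancel_left, mul_smul]
      have h4 : ∑ j, a' j • b j ∈ (J • ⊤ : Submodule A B) := by
        apply hreg
        rw [h3]
        apply Submodule.sub_mem _ ha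
        apply Submodule.sum_mem
        intro j _
        exact Submodule.smul_mem_smul (hc j) trivial
      intro j
      obtain ⟨y, hy, z, hz, hyz⟩ := Submodule.mem_sup.mp (ih a' h4 j)
      rw [Ideal.mem_span_singleton'] at hz
      obtain ⟨w, rfl⟩ := hz
      have h5 : a j = (c j + s * y) + w * s ^ (N + 1) := by
        rw [ha' j, ← hyz]; ring
      rw [h5]
      exact Submodule.add_mem_sup (J.add_mem (hc j) (J.mul_mem_left _ hy)) (Ideal.mem_span_singleton'.mpr ⟨w, rfl⟩)
  intro a ha j
  exact mem_of_forall_pow hs (fun N => key N a ha j)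

/-- minimal generating families -/
lemma exists_min_gen : ∃ (D : ℕ) (b : Fin D → B), Submodule.span A (Set.range b) = ⊤ ∧
    ∀ a : Fin D → A, ∑ j, a j • b j ∈ (maximalIdeal A • ⊤ : Submodule A B) → ∀ j, a j ∈ maximalIdeal A := by
  classical
  have hex : ∃ D : ℕ, ∃ b : Fin D → B, Submodule.span A (Set.range b) = ⊤ := by
    obtain ⟨n, s, hs⟩ := Module.Finite.exists_fin (R := A) (M := B)
    exact ⟨n, s, hs⟩
  obtain ⟨b, hb⟩ := Nat.find_spec hex
  refine ⟨Nat.find hex, b, hb, ?_⟩
  intro a ha j0
  by_contra hj0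
  have hunit : IsUnit (a j0) := by
    rwa [IsLocalRing.mem_maximalIdeal, mem_nonunits_iff, not_not] at hj0
  have hD : Nat.find hex ≠ 0 := by
    intro h0
    have := j0.2
    omega
  obtain ⟨D', hD'⟩ := Nat.exists_eq_succ_of_ne_zero hD
  generalize hDD : Nat.find hex = D at b hb a ha j0 hj0 hunit hD hD'
  subst hD'
  have h1 : (⊤ : Submodule A B) ≤ Submodule.span A (Set.range (fun i => b (j0.succAbove i))) := by
    apply Submodule.le_of_le_smul_of_le_jacobson_bot (I := maximalIdeal A) (Module.Finite.fg_top)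
    · rw [IsLocalRing.jacobson_eq_maximalIdeal _ bot_ne_top]
    · have h2 : b j0 ∈ Submodule.span A (Set.range (fun i => b (j0.succAbove i))) ⊔ maximalIdeal A • (⊤ : Submodule A B) := by
        obtain ⟨u, hu⟩ := hunit
        have h3 : b j0 = (-(↑u⁻¹ : A)) • (∑ i, a (j0.succAbove i) • b (j0.succAbove i)) + (↑u⁻¹ : A) • ∑ j, a j • b j := by
          rw [Fin.sum_univ_succAbove _ j0, smul_add, ← hu, smul_smul, Units.inv_mul, one_smul, neg_smul]
          abel
        rw [h3]
        apply Submodule.add_mem_sup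
        · apply Submodule.smul_mem
          apply Submodule.sum_mem
          intro i _
          apply Submodule.smul_mem
          apply Submodule.subset_span
          exact ⟨i, rfl⟩
        · exact Submodule.smul_mem _ _ ha
      rw [← hb, Submodule.span_le]
      rintro _ ⟨j, rfl⟩
      rcases Fin.eq_self_or_eq_succAbove j0 j with h | ⟨i, h⟩
      · rw [h, hb]; exact h2
      · rw [h]
        apply Submodule.mem_sup_left
        apply Submodule.subset_span
        exact ⟨i, rfl⟩
  have h4 := Nat.find_min hex (m := D') (by rw [hDD]; exact Nat.lt_succ_self _)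
  exact h4 ⟨fun i => b (j0.succAbove i), top_le_iff.mp h1⟩

theorem free_of_regular (ss : List A) (hss : Ideal.ofList ss = maximalIdeal A) (hreg : IsWeaklyRegular B ss) :
    Module.Free A B := by
  obtain ⟨D, b, hb, hP⟩ := exists_min_gen (A := A) (B := B)
  have key : ∀ (i : ℕ), i ≤ ss.length → ∀ a : Fin D → A,
      ∑ j, a j • b j ∈ (Ideal.ofList (ss.take (ss.length - i)) • ⊤ : Submodule A B) →
      ∀ j, a j ∈ Ideal.ofList (ss.take (ss.length - i)) := by
    intro i
    induction i with
    | zero =>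
      intro _
      rw [Nat.sub_zero, List.take_length, hss]
      exact hP
    | succ i ih =>
      intro hi
      set m := ss.length - (i + 1) with hm
      have hm1 : ss.length - i = m + 1 := by omega
      have hmlt : m < ss.length := by omega
      have ih' := ih (by omega)
      rw [hm1] at ih'
      have htake : Ideal.ofList (ss.take (m + 1)) = Ideal.ofList (ss.take m) ⊔ Ideal.span {ss[m]} := by
        rw [List.take_succ_eq_append_getElem hmlt, Ideal.ofList_append, Ideal.ofList_singleton]
      rw [htake] at ih'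
      have hs : ss[m] ∈ maximalIdeal A := by
        rw [← hss]
        exact Ideal.subset_span (List.getElem_mem _)
      apply free_step b hs _ ih'
      have := hreg.regular_mod_prev m hmlt
      exact (isSMulRegular_quotient_iff_mem_of_smul_mem _ _).mp this
  have h0 := key ss.length le_rfl
  rw [Nat.sub_self, List.take_zero, Ideal.ofList_nil, Submodule.bot_smul] at h0
  have hli : LinearIndependent A b := by
    rw [Fintype.linearIndependent_iff]
    intro a ha
    exact fun j => by simpa using h0 a (by rw [ha]; exact Submodule.zero_mem _) j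
  exact Module.Free.of_basis (Module.Basis.mk hli hb.ge)

end free

end Pool.Agent.Helper296
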