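import Mathlib

set_option autoImplicit false
set_option linter.unusedSectionVars false
set_option linter.unusedVariables false
set_option linter.unusedSimpArgs false

namespace Pool.Agent.Helper296

open Equiv Equiv.Perm

section lists

variable {E : Type*} [Monoid E] {d : ℕ}

lemma take_congr' {f g : Fin d → E} {p : ℕ} (h : ∀ j : Fin d, (j : ℕ) < p → f j = g j) :
    (List.ofFn f).take p = (List.ofFn g).take p := by
  apply List.ext_getElem
  · simp
  · intro i h1 h2
    simp only [List.getElem_take, List.getElem_ofFn]
    apply h
    simp only [List.length_take, List.length_ofFn] at h1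
    simp only
    omega

lemma drop_congr' {f g : Fin d → E} {p : ℕ} (h : ∀ j : Fin d, p ≤ (j : ℕ) → f j = g j) :
    (List.ofFn f).drop p = (List.ofFn g).drop p := by
  apply List.ext_getElem
  · simp
  · intro i h1 h2
    simp only [List.getElem_drop, List.getElem_ofFn]
    apply h
    simp only
    omega

lemma prod_take_succ (f : Fin d → E) {p : ℕ} (hp : p < d) :
    ((List.ofFn f).take (p + 1)).prod = ((List.ofFn f).take p).prod * f ⟨p, hp⟩ := by
  rw [List.take_succ_eq_append_getElem (by simpa using hp), List.prod_append, List.prod_singleton, List.getElem_ofFn]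

lemma prod_drop (f : Fin d → E) {p : ℕ} (hp : p < d) :
    ((List.ofFn f).drop p).prod = f ⟨p, hp⟩ * ((List.ofFn f).drop (p + 1)).prod := by
  rw [List.drop_eq_getElem_cons (by simpa using hp), List.prod_cons, List.getElem_ofFn]

lemma prod_split (f : Fin d → E) (k : Fin d) :
    (List.ofFn f).prod = ((List.ofFn f).take k).prod * f k * ((List.ofFn f).drop (k + 1)).prod := by
  conv_lhs => rw [← List.take_append_drop (k : ℕ) (List.ofFn f)]
  rw [List.prod_append, prod_drop f k.2, mul_assoc]

end lists

section inv

variable {E : Type*} [Ring E] {G : Type*} [AddCommGroup G] {d : ℕ}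

lemma alt_zero (i k : Fin d) (hik : i ≠ k) (F : Perm (Fin d) → G)
    (hF : ∀ π, F (π * swap i k) = F π) : ∑ π, sign π • F π = 0 := by
  classical
  refine Finset.sum_involution (fun π _ => π * swap i k) ?_ ?_ ?_ ?_
  · intro π _
    rw [hF, Perm.sign_mul, sign_swap hik]
    simp
  · intro π _ _ h
    have h1 : swap i k = 1 := by
      have := congrArg (fun x => π⁻¹ * x) h
      simpa using this
    exact hik (swap_eq_one_iff.mp h1)
  · intro π _; exact Finset.mem_univ _
  · intro π _
    simp [mul_assoc]

/-- antisymmetrised trace -/
def AT (τ : E →+ G) (M0 : E) (X : Fin d → Fin d → E) : G :=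
  ∑ π : Perm (Fin d), sign π • τ (M0 * (List.ofFn (fun j => X j (π j))).prod)

lemma AT_update_add (τ : E →+ G) (M0 : E) (Y : Fin d → Fin d → E) (k : Fin d) (u v : Fin d → E) :
    AT τ M0 (Function.update Y k (fun b => u b + v b)) =
      AT τ M0 (Function.update Y k u) + AT τ M0 (Function.update Y k v) := by
  unfold AT
  rw [← Finset.sum_add_distrib]
  apply Finset.sum_congr rfl
  intro π _
  rw [← smul_add, ← map_add]
  congr 2
  have hh : ∀ w : Fin d → E, (List.ofFn (fun j => Function.update Y k w j (π j))).prod =
      ((List.ofFn (fun j => Y j (π j))).take k).prod * w (π k) * ((List.ofFn (fun j => Y j (π j))).drop (k + 1)).prod := by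
    intro w
    rw [prod_split _ k]
    congr 1
    · congr 1
      · congr 1
        apply take_congr'
        intro j hj
        rw [Function.update_of_ne]
        rintro rfl
        omega
      · simp
    · congr 1
      apply drop_congr'
      intro j hj
      rw [Function.update_of_ne]
      rintro rfl
      omega
  rw [hh, hh, hh]
  noncomm_ring

/-- the one step lemma -/
lemma AT_bracket (τ : E →+ G) (hτ : ∀ x y, τ (x * y) = τ (y * x)) (M0 : E) (M : Fin d → E)
    (hM0 : ∀ a, M0 * M a = M a * M0) (hM : ∀ a b, M a * M b = M b * M a)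
    (Y : Fin d → Fin d → E) (k : Fin d) (ω : E)
    (hY : ∀ j, j ≠ k → ∀ a b, M a * Y j b - Y j b * M a = M b * Y j a - Y j a * M b) :
    AT τ M0 (Function.update Y k (fun b => ω * M b - M b * ω)) = 0 := by
  classical
  set f : Perm (Fin d) → Fin d → E := fun π j => if j = k then ω else Y j (π j) with hf
  set Q : ℕ → Perm (Fin d) → E := fun p π =>
    M0 * ((List.ofFn (f π)).take p).prod * M (π k) * ((List.ofFn (f π)).drop p).prod with hQ
  set q : ℕ → G := fun p => ∑ π : Perm (Fin d), sign π • τ (Q p π) with hq
  have hstep : ∀ (p : ℕ) (hp : p < d), p ≠ k → q p = q (p + 1) := by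
    intro p hp hpk
    rw [← sub_eq_zero, hq]
    simp only
    rw [← Finset.sum_sub_distrib]
    simp_rw [← smul_sub, ← map_sub]
    have hpk' : (⟨p, hp⟩ : Fin d) ≠ k := by
      intro h
      apply hpk
      rw [← h]
    apply alt_zero ⟨p, hp⟩ k hpk'
    have hdiff : ∀ π, Q p π - Q (p + 1) π = M0 * ((List.ofFn (f π)).take p).prod *
        (M (π k) * Y ⟨p, hp⟩ (π ⟨p, hp⟩) - Y ⟨p, hp⟩ (π ⟨p, hp⟩) * M (π k)) * ((List.ofFn (f π)).drop (p + 1)).prod := by
      intro π
      have hfp : f π ⟨p, hp⟩ = Y ⟨p, hp⟩ (π ⟨p, hp⟩) := by
        simp only [hf]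
        rw [if_neg hpk']
      rw [hQ]
      simp only
      rw [prod_drop _ hp, prod_take_succ _ hp, hfp]
      noncomm_ring
    intro π
    rw [hdiff, hdiff]
    have e1 : (π * swap ⟨p, hp⟩ k) k = π ⟨p, hp⟩ := by simp
    have e2 : (π * swap ⟨p, hp⟩ k) ⟨p, hp⟩ = π k := by simp
    have e3 : ∀ j, j ≠ ⟨p, hp⟩ → f (π * swap ⟨p, hp⟩ k) j = f π j := by
      intro j hj
      simp only [hf]
      split_ifs with h
      · rfl
      · rw [Perm.mul_apply, swap_apply_of_ne_of_ne hj h]
    have e4 : (List.ofFn (f (π * swap ⟨p, hp⟩ k))).take p = (List.ofFn (f π)).take p := by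
      apply take_congr'
      intro j hj
      apply e3
      rintro rfl
      exact absurd hj (lt_irrefl _)
    have e5 : (List.ofFn (f (π * swap ⟨p, hp⟩ k))).drop (p + 1) = (List.ofFn (f π)).drop (p + 1) := by
      apply drop_congr'
      intro j hj
      apply e3
      rintro rfl
      simp at hj
    rw [e1, e2, e4, e5, hY _ hpk']
  have hwrap : q d = q 0 := by
    rw [hq]
    simp only
    apply Finset.sum_congr rfl
    intro π _
    congr 1
    rw [hQ]
    simp only
    rw [List.take_of_length_le (by simp), List.drop_of_length_le (by simp), List.prod_nil, mul_one,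
      List.take_zero, List.drop_zero, List.prod_nil, mul_one, hτ, ← mul_assoc, hM0]
  have hlow : ∀ p : ℕ, p ≤ k → q p = q 0 := by
    intro p
    induction p with
    | zero => intro _; rfl
    | succ p ih =>
      intro hp
      rw [← hstep p (by omega) (by omega)]
      exact ih (by omega)
  have hhigh : ∀ p : ℕ, (k : ℕ) + 1 + p ≤ d → q ((k : ℕ) + 1 + p) = q ((k : ℕ) + 1) := by
    intro p
    induction p with
    | zero => intro _; rfl
    | succ p ih =>
      intro hp
      rw [← ih (by omega)]
      exact (hstep ((k : ℕ) + 1 + p) (by omega) (by omega)).symm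
  have hk := k.2
  have h1 : q ((k : ℕ) + 1) = q k := by
    rw [hlow k le_rfl, ← hwrap, ← hhigh (d - (k + 1)) (by omega)]
    congr 1
    omega
  have h2 : AT τ M0 (Function.update Y k (fun b => ω * M b - M b * ω)) = q ((k : ℕ) + 1) - q k := by
    unfold AT
    rw [hq]
    simp only
    rw [← Finset.sum_sub_distrib]
    apply Finset.sum_congr rfl
    intro π _
    rw [← smul_sub, ← map_sub]
    congr 2
    rw [hQ]
    simp only
    rw [prod_split _ k, prod_drop _ k.2, prod_take_succ _ k.2]
    have e0 : f π ⟨(k : ℕ), k.2⟩ = ω := by simp [hf]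
    have e1 : (List.ofFn (fun j => Function.update Y k (fun b => ω * M b - M b * ω) j (π j))).take k =
        (List.ofFn (f π)).take k := by
      apply take_congr'
      intro j hj
      have hjk : j ≠ k := by rintro rfl; exact absurd hj (lt_irrefl _)
      rw [Function.update_of_ne hjk, hf]
      simp only
      rw [if_neg hjk]
    have e2 : (List.ofFn (fun j => Function.update Y k (fun b => ω * M b - M b * ω) j (π j))).drop (k + 1) =
        (List.ofFn (f π)).drop (k + 1) := by
      apply drop_congr'
      intro j hj
      have hjk : j ≠ k := by rintro rfl; simp at hj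
      rw [Function.update_of_ne hjk, hf]
      simp only
      rw [if_neg hjk]
    rw [e0, e1, e2, Function.update_self]
    noncomm_ring
  rw [h2, h1, sub_self]

theorem AT_inv (τ : E →+ G) (hτ : ∀ x y, τ (x * y) = τ (y * x)) (M0 : E) (M : Fin d → E)
    (hM0 : ∀ a, M0 * M a = M a * M0) (hM : ∀ a b, M a * M b = M b * M a)
    (X X' : Fin d → Fin d → E) (ω : Fin d → E)
    (hX : ∀ j a b, M a * X j b - X j b * M a = M b * X j a - X j a * M b)
    (hX' : ∀ j b, X' j b = X j b + (ω j * M b - M b * ω j)) :
    AT τ M0 X' = AT τ M0 X := by
  classical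
  have hX's : ∀ j a b, M a * X' j b - X' j b * M a = M b * X' j a - X' j a * M b := by
    intro j a b
    rw [hX', hX']
    have h1 := hX j a b
    have h2 := hM a b
    have h3 : M a * (ω j * M b - M b * ω j) - (ω j * M b - M b * ω j) * M a =
        M b * (ω j * M a - M a * ω j) - (ω j * M a - M a * ω j) * M b := by
      have : M a * (ω j * M b - M b * ω j) - (ω j * M b - M b * ω j) * M a -
        (M b * (ω j * M a - M a * ω j) - (ω j * M a - M a * ω j) * M b) =
          ω j * (M a * M b - M b * M a) - (M a * M b - M b * M a) * ω j := by noncomm_ring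
      rw [← sub_eq_zero, this, h2, sub_self, mul_zero, zero_mul, sub_zero]
    rw [mul_add, add_mul, mul_add, add_mul]
    have h4 : M a * X j b + M a * (ω j * M b - M b * ω j) - (X j b * M a + (ω j * M b - M b * ω j) * M a) =
       (M a * X j b - X j b * M a) + (M a * (ω j * M b - M b * ω j) - (ω j * M b - M b * ω j) * M a) := by abel
    rw [h4, h1, h3]
    abel
  have key : ∀ s : Finset (Fin d), AT τ M0 (fun j => if j ∈ s then X' j else X j) = AT τ M0 X := by
    intro s
    induction s using Finset.induction_on with
    | empty => simp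
    | insert k s hks ih =>
      have h1 : (fun j => if j ∈ insert k s then X' j else X j) =
          Function.update (fun j => if j ∈ s then X' j else X j) k (fun b => X k b + (ω k * M b - M b * ω k)) := by
        funext j
        by_cases hj : j = k
        · subst hj
          rw [Function.update_self]
          simp only [Finset.mem_insert_self, if_true]
          funext b
          exact hX' j b
        · rw [Function.update_of_ne hj]
          simp [Finset.mem_insert, hj]
      have h2 : Function.update (fun j => if j ∈ s then X' j else X j) k (fun b => X k b) = (fun j => if j ∈ s then X' j else X j) := by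
        funext j
        by_cases hj : j = k
        · subst hj
          rw [Function.update_self]
          simp [hks]
        · rw [Function.update_of_ne hj]
      rw [h1, AT_update_add, h2, ih, AT_bracket τ hτ M0 M hM0 hM, add_zero]
      intro j hj a b
      split_ifs
      · exact hX's j a b
      · exact hX j a b
  have := key Finset.univ
  simpa using this

end inv

end Pool.Agent.Helper296
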