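import Pool.Agent.Helper296.Alg2

set_option autoImplicit false
set_option linter.unusedSectionVars false
set_option linter.unusedVariables false
set_option linter.unusedSimpArgs false

namespace Pool.Agent.Helper296

section derext

/-- dual numbers, as a type without preassigned algebra structures -/
def Eps (S : Type*) := TrivSqZeroExt S S

instance (S : Type*) [CommRing S] : CommRing (Eps S) := inferInstanceAs (CommRing (TrivSqZeroExt S S))

/-- the ring homomorphism attached to a derivation -/
def epsHom {R S : Type*} [CommRing R] [CommRing S] (ι : R →+* S) (D : R → R)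
    (hadd : ∀ a b, D (a + b) = D a + D b) (hmul : ∀ a b, D (a * b) = a * D b + b * D a) : R →+* Eps S where
  toFun r := ((ι r, ι (D r)) : S × S)
  map_one' := by
    have h1 : D 1 = 0 := by
      have := hmul 1 1
      simpa using this
    rw [h1, map_one, map_zero]
    rfl
  map_mul' a b := by
    rw [hmul, map_mul, map_add, map_mul, map_mul]
    refine TrivSqZeroExt.ext ?_ ?_
    · show ι a * ι b = ι a * ι b
      rfl
    · show ι a * ι (D b) + ι b * ι (D a) = ι a • ι (D b) + MulOpposite.op (ι b) • ι (D a)
      rw [smul_eq_mul, MulOpposite.smul_eq_mul_unop, MulOpposite.unop_op]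
      ring
  map_zero' := by
    have h1 : D 0 = 0 := by
      have := hmul 0 0
      simpa using this
    rw [h1, map_zero]
    rfl
  map_add' a b := by
    rw [hadd, map_add, map_add]
    rfl

def epsFst (S : Type*) [CommRing S] : Eps S →+* S where
  toFun x := TrivSqZeroExt.fst x
  map_one' := rfl
  map_mul' _ _ := rfl
  map_zero' := rfl
  map_add' _ _ := rfl

def epsSnd (S : Type*) [CommRing S] : Eps S → S := fun x => TrivSqZeroExt.snd x

lemma epsSnd_add {S : Type*} [CommRing S] (x y : Eps S) : epsSnd S (x + y) = epsSnd S x + epsSnd S y := rfl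

lemma epsSnd_mul {S : Type*} [CommRing S] (x y : Eps S) :
    epsSnd S (x * y) = epsFst S x * epsSnd S y + epsFst S y * epsSnd S x := by
  have h : epsSnd S (x * y) = epsFst S x • epsSnd S y + MulOpposite.op (epsFst S y) • epsSnd S x := rfl
  rw [h, smul_eq_mul, MulOpposite.smul_eq_mul_unop, MulOpposite.unop_op]
  ring

lemma eps_ext {S : Type*} [CommRing S] {x y : Eps S} (h1 : epsFst S x = epsFst S y) (h2 : epsSnd S x = epsSnd S y) :
    x = y := TrivSqZeroExt.ext h1 h2

/-- derivations extend along formally smooth maps -/
lemma der_ext {R S : Type*} [CommRing R] [CommRing S] [Algebra R S] [Algebra.FormallySmooth R S]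
    (D : R → R) (hadd : ∀ a b, D (a + b) = D a + D b) (hmul : ∀ a b, D (a * b) = a * D b + b * D a) :
    ∃ δ : S → S, (∀ a b, δ (a + b) = δ a + δ b) ∧ (∀ a b, δ (a * b) = a * δ b + b * δ a) ∧
      ∀ r, δ (algebraMap R S r) = algebraMap R S (D r) := by
  let _i : Algebra R (Eps S) := (epsHom (algebraMap R S) D hadd hmul).toAlgebra
  let g : Eps S →ₐ[R] S := { epsFst S with commutes' := fun r => rfl }
  have hg : Function.Surjective g := fun s => ⟨((s, 0) : S × S), rfl⟩
  have hker : IsNilpotent (RingHom.ker (g : Eps S →+* S)) := by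
    refine ⟨2, ?_⟩
    rw [pow_two, Ideal.zero_eq_bot, eq_bot_iff, Ideal.mul_le]
    intro x hx y hy
    have hx' : epsFst S x = 0 := hx
    have hy' : epsFst S y = 0 := hy
    rw [Ideal.mem_bot]
    apply eps_ext
    · rw [map_mul, hx', zero_mul, map_zero]
    · rw [epsSnd_mul, hx', hy', zero_mul, zero_mul, add_zero]; rfl
  let L : S →ₐ[R] Eps S := Algebra.FormallySmooth.liftOfSurjective (AlgHom.id R S) g hg hker
  have hL : ∀ s, epsFst S (L s) = s := fun s =>
    Algebra.FormallySmooth.liftOfSurjective_apply (AlgHom.id R S) g hg hker s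
  refine ⟨fun s => epsSnd S (L s), ?_, ?_, ?_⟩
  · intro a b
    show epsSnd S (L (a + b)) = _
    rw [map_add, epsSnd_add]
  · intro a b
    show epsSnd S (L (a * b)) = a * epsSnd S (L b) + b * epsSnd S (L a)
    rw [map_mul, epsSnd_mul, hL, hL]
  · intro r
    show epsSnd S (L (algebraMap R S r)) = _
    rw [AlgHom.commutes L r]; rfl

/-- an algebraically closed field with compatible derivations -/
theorem exists_closed_field (T : Type) [CommRing T] [IsDomain T] [CharZero T] {d : ℕ}
    (D : Fin d → T → T) (hadd : ∀ k a b, D k (a + b) = D k a + D k b)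
    (hmul : ∀ k a b, D k (a * b) = a * D k b + b * D k a) :
    ∃ (K : Type) (_ : Field K) (_ : IsAlgClosed K) (_ : CharZero K) (ι : T →+* K) (δ : Fin d → K → K),
      Function.Injective ι ∧ (∀ k a b, δ k (a + b) = δ k a + δ k b) ∧
      (∀ k a b, δ k (a * b) = a * δ k b + b * δ k a) ∧ ∀ k t, δ k (ι t) = ι (D k t) := by
  have h0 : CharZero (FractionRing T) := IsFractionRing.charZero T
  have h1 : Algebra.FormallyEtale T (FractionRing T) := Algebra.FormallyEtale.of_isLocalization (nonZeroDivisors T)
  have h2 : Algebra.FormallyEtale (FractionRing T) (AlgebraicClosure (FractionRing T)) :=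
    Algebra.FormallyEtale.of_isSeparable _ _
  have h3 : Algebra.FormallyEtale T (AlgebraicClosure (FractionRing T)) :=
    Algebra.FormallyEtale.comp T (FractionRing T) (AlgebraicClosure (FractionRing T))
  have h4 := fun k => der_ext (S := AlgebraicClosure (FractionRing T)) (D k) (hadd k) (hmul k)
  choose δ hδ1 hδ2 hδ3 using h4
  refine ⟨AlgebraicClosure (FractionRing T), inferInstance, inferInstance,
    algebraRat.charZero _, algebraMap T _, δ, ?_, hδ1, hδ2, hδ3⟩
  rw [IsScalarTower.algebraMap_eq T (FractionRing T) (AlgebraicClosure (FractionRing T))]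
  exact (algebraMap (FractionRing T) (AlgebraicClosure (FractionRing T))).injective.comp (IsFractionRing.injective T (FractionRing T))

end derext

end Pool.Agent.Helper296
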