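import Pool.Agent.Helper296.Tri

set_option autoImplicit false
set_option linter.unusedSectionVars false
set_option linter.unusedVariables false
set_option linter.unusedSimpArgs false

namespace Pool.Agent.Helper296

open IsLocalRing

section chain

variable {T : Type*} [CommRing T] [IsLocalRing T] [IsNoetherianRing T]

/-- a derivation with finitely generated span killing the parameters is zero -/
lemma chain_zero {M : Type*} [AddCommGroup M] [Module T M] (D : T → M)
    (hadd : ∀ a b, D (a + b) = D a + D b) (hmul : ∀ a b, D (a * b) = a • D b + b • D a)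
    {d : ℕ} (w : Fin d → T) (hwm : ∀ j, w j ∈ maximalIdeal T) (hw : ∀ j, D (w j) = 0)
    (hexp : ∀ t, ∃ (c : T) (h : Fin d → T), t = c + ∑ j, h j * w j ∧ D c = 0)
    (S : Set M) (hSfin : S.Finite) (hS : ∀ t, D t ∈ Submodule.span T S) : ∀ t, D t = 0 := by
  set N : Submodule T M := Submodule.span T (Set.range D) with hN
  have hle : N ≤ Submodule.span T S := by
    rw [hN, Submodule.span_le]
    rintro _ ⟨t, rfl⟩
    exact hS t
  have hfg : N.FG := Submodule.FG.of_le ⟨hSfin.toFinset, by simp⟩ hle
  have h0 : D 0 = 0 := by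
    have := hadd 0 0
    simpa using this
  have hsum : ∀ (f : Fin d → T), D (∑ l, f l) = ∑ l, D (f l) := fun f =>
    map_sum (⟨⟨D, h0⟩, hadd⟩ : T →+ M) f Finset.univ
  have hm : N ≤ maximalIdeal T • N := by
    conv_lhs => rw [hN]
    rw [Submodule.span_le]
    rintro _ ⟨t, rfl⟩
    obtain ⟨c, h, ht, hc⟩ := hexp t
    rw [ht, hadd, hc, zero_add, hsum]
    apply Submodule.sum_mem
    intro j _
    rw [hmul, hw, smul_zero, zero_add]
    exact Submodule.smul_mem_smul (hwm j) (Submodule.subset_span ⟨_, rfl⟩)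
  have hN0 : N = ⊥ := Submodule.eq_bot_of_le_smul_of_le_jacobson_bot _ N hfg hm (by
    rw [IsLocalRing.jacobson_eq_maximalIdeal _ bot_ne_top])
  intro t
  have : D t ∈ N := Submodule.subset_span ⟨t, rfl⟩
  rwa [hN0, Submodule.mem_bot] at this

lemma chain_rule {A : Type*} [CommRing A] [Algebra A T] [Module.Finite A T] {K : Type*} [CommRing K]
    (ι χ : T →+* K) (hχ : ∀ a : A, χ (algebraMap A T a) = ι (algebraMap A T a))
    {d : ℕ} (pt : Fin d → T → T) (hadd : ∀ k a b, pt k (a + b) = pt k a + pt k b)
    (hmul : ∀ k a b, pt k (a * b) = a * pt k b + b * pt k a)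
    (w : Fin d → T) (hwm : ∀ j, w j ∈ maximalIdeal T) (hdw : ∀ k j, pt k (w j) = if k = j then 1 else 0)
    (hexp : ∀ t, ∃ (a : A) (h : Fin d → T), t = algebraMap A T a + ∑ j, h j * w j ∧ ∀ k, pt k (algebraMap A T a) = 0)
    {ν : Type*} [Fintype ν] (y : ν → A) (dA : ν → A → A)
    (hchain : ∀ k a, pt k (algebraMap A T a) = ∑ l, algebraMap A T (dA l a) * pt k (algebraMap A T (y l)))
    (δ : Fin d → K → K) (hδadd : ∀ k a b, δ k (a + b) = δ k a + δ k b)
    (hδmul : ∀ k a b, δ k (a * b) = a * δ k b + b * δ k a) (hδ : ∀ k t, δ k (ι t) = ι (pt k t)) (k : Fin d) (t : T) :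
    δ k (χ t) = ∑ j, χ (pt j t) * δ k (χ (w j)) := by
  classical
  let _m : Module T K := Module.compHom K χ
  have hsm : ∀ (a : T) (x : K), a • x = χ a * x := fun a x => rfl
  set D : T → K := fun t => δ k (χ t) - ∑ j, χ (pt j t) * δ k (χ (w j)) with hD
  have hDadd : ∀ a b, D (a + b) = D a + D b := by
    intro a b
    simp only [hD, map_add, hδadd, hadd, add_mul, Finset.sum_add_distrib]
    ring
  have hDmul : ∀ a b, D (a * b) = a • D b + b • D a := by
    intro a b
    rw [hsm, hsm]
    simp only [hD, map_mul, hδmul, hmul, map_add, add_mul, Finset.sum_add_distrib, mul_sub, Finset.mul_sum]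
    have e1 : ∀ x y : T, ∑ j, χ x * χ (pt j y) * δ k (χ (w j)) = ∑ j, χ x * (χ (pt j y) * δ k (χ (w j))) := fun x y =>
      Finset.sum_congr rfl (fun j _ => by ring)
    rw [e1, e1]
    ring
  have hDw : ∀ j, D (w j) = 0 := by
    intro j
    simp only [hD]
    rw [Finset.sum_eq_single j]
    · rw [hdw, if_pos rfl, map_one, one_mul, sub_self]
    · intro i _ hij
      rw [hdw, if_neg hij, map_zero, zero_mul]
    · intro h; exact absurd (Finset.mem_univ j) h
  have hDA : ∀ a : A, D (algebraMap A T a) = ∑ l, (algebraMap A T (dA l a)) • D (algebraMap A T (y l)) := by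
    intro a
    simp only [hD, hsm]
    have e1 : δ k (χ (algebraMap A T a)) = ∑ l, χ (algebraMap A T (dA l a)) * δ k (χ (algebraMap A T (y l))) := by
      rw [hχ, hδ, hchain, map_sum]
      apply Finset.sum_congr rfl
      intro l _
      rw [map_mul, hχ, hχ, hδ]
    have e2 : ∑ j, χ (pt j (algebraMap A T a)) * δ k (χ (w j)) =
        ∑ l, χ (algebraMap A T (dA l a)) * ∑ j, χ (pt j (algebraMap A T (y l))) * δ k (χ (w j)) := by
      simp_rw [hchain _ a, map_sum, map_mul, Finset.sum_mul, Finset.mul_sum]
      rw [Finset.sum_comm]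
      apply Finset.sum_congr rfl
      intro l _
      apply Finset.sum_congr rfl
      intro j _
      ring
    rw [e1, e2, ← Finset.sum_sub_distrib]
    apply Finset.sum_congr rfl
    intro l _
    ring
  have hDexp : ∀ t, ∃ (c : T) (h : Fin d → T), t = c + ∑ j, h j * w j ∧ D c = 0 := by
    intro t
    obtain ⟨a, h, ht, ha⟩ := hexp t
    refine ⟨algebraMap A T a, h, ht, ?_⟩
    simp only [hD]
    rw [hχ, hδ, ha, map_zero, zero_sub, neg_eq_zero]
    apply Finset.sum_eq_zero
    intro j _
    rw [ha, map_zero, zero_mul]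
  obtain ⟨U, hU⟩ := (Module.Finite.fg_top : (⊤ : Submodule A T).FG)
  set S : Set K := (D '' (U : Set T)) ∪ Set.range (fun l => D (algebraMap A T (y l))) with hS
  have hSfin : S.Finite := (U.finite_toSet.image D).union (Set.finite_range _)
  have hSspan : ∀ t, D t ∈ Submodule.span T S := by
    intro t
    have ht : t ∈ Submodule.span A (U : Set T) := by rw [hU]; trivial
    induction ht using Submodule.span_induction with
    | mem x hx => exact Submodule.subset_span (Or.inl ⟨x, hx, rfl⟩)
    | zero =>
      have : D 0 = 0 := by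
        have := hDadd 0 0
        simpa using this
      rw [this]; exact Submodule.zero_mem _
    | add x y _ _ hx hy => rw [hDadd]; exact Submodule.add_mem _ hx hy
    | smul a x _ hx =>
      rw [Algebra.smul_def, hDmul, hDA]
      apply Submodule.add_mem
      · exact Submodule.smul_mem _ _ hx
      · apply Submodule.smul_mem
        apply Submodule.sum_mem
        intro l _
        apply Submodule.smul_mem
        exact Submodule.subset_span (Or.inr ⟨l, rfl⟩)
  have := chain_zero D hDadd hDmul w hwm hDw hDexp S hSfin hSspan t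
  simp only [hD] at this
  exact sub_eq_zero.mp this

end chain

section TT

lemma list_expand {T E : Type*} [CommRing T] [Ring E] [Algebra T E] {ν : Type*} [Fintype ν] {d : ℕ}
    (c : Fin d → ν → T) (G : Fin d → ν → E) :
    (List.ofFn fun j => ∑ l, c j l • G j l).prod =
      ∑ L : Fin d → ν, (∏ j, c j (L j)) • (List.ofFn fun j => G j (L j)).prod := by
  classical
  have h := MultilinearMap.map_sum (α := fun _ : Fin d => ν) (MultilinearMap.mkPiAlgebraFin T d E) (fun j l => c j l • G j l)
  simp only [MultilinearMap.mkPiAlgebraFin_apply] at h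
  rw [h]
  apply Finset.sum_congr rfl
  intro L _
  have h2 := (MultilinearMap.mkPiAlgebraFin T d E).map_smul_univ (fun j => c j (L j)) (fun j => G j (L j))
  simp only [MultilinearMap.mkPiAlgebraFin_apply] at h2
  exact h2

/-- Jacobian determinant -/
def Jac {T : Type*} [CommRing T] {d : ℕ} (pt : Fin d → T → T) (t : Fin d → T) : T :=
  Matrix.det (Matrix.of fun m k => pt k (t m))

lemma iota_AT {T K : Type*} [CommRing T] [CommRing K] (ι : T →+* K) {D d : ℕ}
    (M0 : Matrix (Fin D) (Fin D) T) (X : Fin d → Fin d → Matrix (Fin D) (Fin D) T) :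
    ι (AT (Matrix.traceAddMonoidHom (Fin D) T) M0 X) =
      AT (Matrix.traceAddMonoidHom (Fin D) K) (M0.map ι) (fun j b => (X j b).map ι) := by
  unfold AT
  rw [map_sum]
  apply Finset.sum_congr rfl
  intro π _
  rw [Units.smul_def, Units.smul_def, map_zsmul]
  congr 1
  have h1 : ∀ M : Matrix (Fin D) (Fin D) T, ι (Matrix.trace M) = Matrix.trace (M.map ι) := by
    intro M
    simp [Matrix.trace, map_sum]
  show ι (Matrix.trace (n := Fin D) _) = Matrix.trace (n := Fin D) _
  rw [h1]
  congr 1
  have h2 : ∀ M : Matrix (Fin D) (Fin D) T, M.map ι = ι.mapMatrix M := fun M => rfl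
  simp only [h2]
  rw [map_mul, map_list_prod, List.map_ofFn]
  rfl

lemma reorg {T S Λ : Type*} [CommRing T] [Fintype S] [Fintype Λ] (sg : S → ℤˣ) (P Q : S → Λ → T) :
    ∑ σ, sg σ • ∑ π, sg π • ∑ L, P σ L * Q π L = ∑ L, (∑ π, sg π • Q π L) * (∑ σ, sg σ • P σ L) := by
  simp_rw [Units.smul_def, zsmul_eq_mul, Finset.sum_mul_sum, Finset.mul_sum]
  calc ∑ σ, ∑ π, ∑ L, ((sg σ : ℤ) : T) * (((sg π : ℤ) : T) * (P σ L * Q π L))
      = ∑ σ, ∑ L, ∑ π, ((sg σ : ℤ) : T) * (((sg π : ℤ) : T) * (P σ L * Q π L)) := by
        apply Finset.sum_congr rfl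
        intro σ _
        exact Finset.sum_comm
    _ = ∑ L, ∑ σ, ∑ π, ((sg σ : ℤ) : T) * (((sg π : ℤ) : T) * (P σ L * Q π L)) := Finset.sum_comm
    _ = ∑ L, ∑ π, ∑ σ, ((sg σ : ℤ) : T) * (((sg π : ℤ) : T) * (P σ L * Q π L)) := by
        apply Finset.sum_congr rfl
        intro L _
        exact Finset.sum_comm
    _ = _ := by
        apply Finset.sum_congr rfl
        intro L _
        apply Finset.sum_congr rfl
        intro π _
        apply Finset.sum_congr rfl
        intro σ _
        ring

theorem exists_TT {A B T : Type} [CommRing A] [CommRing B] [CommRing T] [IsDomain T] [CharZero T] [IsLocalRing T]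
    [IsNoetherianRing T] [Algebra A B] [Algebra A T] [Module.Finite A T] (π : B →ₐ[A] T) (s : T →+* B)
    (hs : ∀ t, π (s t) = t) {D : ℕ} (e : Module.Basis (Fin D) A B)
    (hnil : ∀ b, π b = 0 → ∃ N : ℕ, b ^ N ∈ (RingHom.ker (algebraMap A T)).map (algebraMap A B))
    {d : ℕ} (pt : Fin d → T → T) (hadd : ∀ k a b, pt k (a + b) = pt k a + pt k b)
    (hmul : ∀ k a b, pt k (a * b) = a * pt k b + b * pt k a)
    (w : Fin d → T) (hwm : ∀ j, w j ∈ maximalIdeal T) (hdw : ∀ k j, pt k (w j) = if k = j then 1 else 0)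
    (hexp : ∀ t, ∃ (a : A) (h : Fin d → T), t = algebraMap A T a + ∑ j, h j * w j ∧ ∀ k, pt k (algebraMap A T a) = 0)
    {ν : Type} [Fintype ν] (y : ν → A) (dA : ν → A → A)
    (hchain : ∀ k a, pt k (algebraMap A T a) = ∑ l, algebraMap A T (dA l a) * pt k (algebraMap A T (y l))) :
    ∃ TT : B → T, (∀ b b', TT (b + b') = TT b + TT b') ∧
      (∀ a b, TT (algebraMap A B a * b) = algebraMap A T a * TT b) ∧
      (∀ b, TT b ∈ Submodule.span A (Set.range fun L : Fin d → ν => Jac pt (fun j => algebraMap A T (y (L j))))) ∧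
      (∀ b, π b = 0 → TT b = 0) ∧
      ∀ t : Fin d → A, TT (s (Jac pt (fun j => algebraMap A T (t j)))) =
        ((d.factorial * D : ℕ) : T) * Jac pt (fun j => algebraMap A T (t j)) := by
  classical
  set M : B →+* Matrix (Fin D) (Fin D) T :=
    (algebraMap A T).mapMatrix.comp ((Algebra.leftMulMatrix e : B →ₐ[A] Matrix (Fin D) (Fin D) A) : B →+* Matrix (Fin D) (Fin D) A) with hM
  have hMapp : ∀ b, M b = (Algebra.leftMulMatrix e b).map (algebraMap A T) := fun b => rfl
  have hMA : ∀ a : A, M (algebraMap A B a) = Matrix.scalar (Fin D) (algebraMap A T a) := by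
    intro a
    rw [hMapp, AlgHom.commutes]
    ext i j
    simp only [Matrix.map_apply, Matrix.algebraMap_matrix_apply, Matrix.scalar_apply, Matrix.diagonal_apply]
    split_ifs
    · rfl
    · exact map_zero _
  have hMnil : ∀ b, π b = 0 → IsNilpotent (M b) := by
    intro b hb
    obtain ⟨N, hN⟩ := hnil b hb
    refine ⟨N, ?_⟩
    rw [← map_pow]
    have hle : (RingHom.ker (algebraMap A T)).map (algebraMap A B) ≤ RingHom.ker M := by
      rw [Ideal.map_le_iff_le_comap]
      intro a ha
      rw [Ideal.mem_comap, RingHom.mem_ker, hMA, (RingHom.mem_ker).mp ha, map_zero]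
    exact hle hN
  obtain ⟨K, _, _, _, ι, δ, hι, hδadd, hδmul, hδ⟩ := exists_closed_field T pt hadd hmul
  set μ : B →+* Matrix (Fin D) (Fin D) K := ι.mapMatrix.comp M with hμ
  have hμapp : ∀ b, μ b = (M b).map ι := fun b => rfl
  obtain ⟨χ, hχtr, hχsc, hχnil, hχform⟩ := AT_formula (d := d) μ
  have hχA : ∀ i (a : A), χ i (algebraMap A B a) = ι (algebraMap A T a) := by
    intro i a
    apply hχsc
    rw [hμapp, hMA]
    ext i j
    simp only [Matrix.map_apply, Matrix.scalar_apply, Matrix.diagonal_apply]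
    split_ifs
    · rfl
    · exact map_zero _
  have hχP : ∀ i b, π b = 0 → χ i b = 0 := by
    intro i b hb
    apply hχnil
    obtain ⟨N, hN⟩ := hMnil b hb
    refine ⟨N, ?_⟩
    show (ι.mapMatrix (M b)) ^ N = 0
    rw [← map_pow, hN, map_zero]
  have hχs : ∀ i (a : A), ((χ i).comp s) (algebraMap A T a) = ι (algebraMap A T a) := by
    intro i a
    rw [← hχA i a, RingHom.comp_apply, ← sub_eq_zero, ← map_sub]
    apply hχP
    rw [map_sub, hs, AlgHom.commutes, sub_self]
  have hcr : ∀ i k t, δ k (((χ i).comp s) t) = ∑ j, ((χ i).comp s) (pt j t) * δ k (((χ i).comp s) (w j)) := by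
    intro i k t
    exact chain_rule ι ((χ i).comp s) (hχs i) pt hadd hmul w hwm hdw hexp y dA hchain δ hδadd hδmul hδ k t
  -- the functional
  set TT : B → T := fun b => ∑ σ : Equiv.Perm (Fin d), Equiv.Perm.sign σ •
    AT (Matrix.traceAddMonoidHom (Fin D) T) (M b) (fun j b' => (M (s (w b'))).map (pt (σ j))) with hTT
  have hιTT : ∀ b, ι (TT b) = (d.factorial : K) * ∑ i, χ i b * Matrix.det (Matrix.of (fun m j => δ j (χ i (s (w m))))) := by
    intro b
    simp only [hTT]
    rw [map_sum]
    have h1 : ∀ σ : Equiv.Perm (Fin d), ι (Equiv.Perm.sign σ •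
        AT (Matrix.traceAddMonoidHom (Fin D) T) (M b) (fun j b' => (M (s (w b'))).map (pt (σ j)))) =
        ∑ i, χ i b * Matrix.det (Matrix.of (fun m j => δ j (χ i (s (w m))))) := by
      intro σ
      rw [Units.smul_def, map_zsmul, iota_AT]
      have h2 : (fun (j b' : Fin d) => ((M (s (w b'))).map (pt (σ j))).map ι) =
          fun j b' => mder (δ (σ j)) (μ (s (w b'))) := by
        funext j b'
        ext i i'
        simp only [mder, Matrix.map_apply, hμapp]
        exact (hδ _ _).symm
      rw [h2]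
      have h3 := hχform (fun j => δ (σ j)) (fun k => hδadd _) (fun k => hδmul _) b (fun m => s (w m))
      have h4 : (Matrix.traceAddMonoidHom (Fin D) K) = trA := rfl
      rw [h4, ← hμapp, h3]
      have h5 : ∀ i, Matrix.det (Matrix.of (fun m j => δ (σ j) (χ i (s (w m))))) =
          (Equiv.Perm.sign σ : ℤ) * Matrix.det (Matrix.of (fun m j => δ j (χ i (s (w m))))) := by
        intro i
        rw [← Matrix.det_permute' σ]
        rfl
      simp_rw [h5]
      rw [zsmul_eq_mul, Finset.mul_sum]
      apply Finset.sum_congr rfl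
      intro i _
      have h6 : ((Equiv.Perm.sign σ : ℤ) : K) * ((Equiv.Perm.sign σ : ℤ) : K) = 1 := by
        rw [← Int.cast_mul]
        have : ((Equiv.Perm.sign σ : ℤ)) * ((Equiv.Perm.sign σ : ℤ)) = 1 := by
          rw [← Units.val_mul, Int.units_mul_self]; rfl
        rw [this]; simp
      calc ((Equiv.Perm.sign σ : ℤ) : K) * (χ i b * (((Equiv.Perm.sign σ : ℤ) : K) * Matrix.det (Matrix.of (fun m j => δ j (χ i (s (w m)))))))
          = (((Equiv.Perm.sign σ : ℤ) : K) * ((Equiv.Perm.sign σ : ℤ) : K)) * (χ i b * Matrix.det (Matrix.of (fun m j => δ j (χ i (s (w m)))))) := by ring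
        _ = _ := by rw [h6, one_mul]
    rw [Finset.sum_congr rfl (fun σ _ => h1 σ), Finset.sum_const, Finset.card_univ, Fintype.card_perm,
      Fintype.card_fin, nsmul_eq_mul]
  refine ⟨TT, ?_, ?_, ?_, ?_, ?_⟩
  · intro b b'
    apply hι
    rw [map_add, hιTT, hιTT, hιTT, ← mul_add, ← Finset.sum_add_distrib]
    congr 1
    apply Finset.sum_congr rfl
    intro i _
    rw [map_add, add_mul]
  · intro a b
    apply hι
    rw [map_mul, hιTT, hιTT, Finset.mul_sum, Finset.mul_sum, Finset.mul_sum]
    apply Finset.sum_congr rfl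
    intro i _
    rw [map_mul, hχA]
    ring
  · intro b
    set ρ : B → Matrix (Fin D) (Fin D) A := fun b' => Algebra.leftMulMatrix e b' with hρ
    have htrmap : ∀ N : Matrix (Fin D) (Fin D) A, algebraMap A T (Matrix.trace N) = Matrix.trace (N.map (algebraMap A T)) := by
      intro N
      simp [Matrix.trace, map_sum]
    have hG : ∀ k b', (M b').map (pt k) = ∑ l, (pt k (algebraMap A T (y l))) • ((ρ b').map (dA l)).map (algebraMap A T) := by
      intro k b'
      ext i j
      rw [Matrix.sum_apply]
      simp only [Matrix.map_apply, Matrix.smul_apply, smul_eq_mul, hMapp, hρ]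
      rw [hchain]
      apply Finset.sum_congr rfl
      intro l _
      rw [mul_comm]
    set c : Equiv.Perm (Fin d) → (Fin d → ν) → A := fun π L =>
      Matrix.trace (ρ b * (List.ofFn fun j => (ρ (s (w (π j)))).map (dA (L j))).prod) with hc
    have hprod : ∀ σ π : Equiv.Perm (Fin d),
        Matrix.trace (M b * (List.ofFn fun j => (M (s (w (π j)))).map (pt (σ j))).prod) =
        ∑ L : Fin d → ν, (∏ j, pt (σ j) (algebraMap A T (y (L j)))) * algebraMap A T (c π L) := by
      intro σ π
      simp_rw [hG]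
      rw [list_expand (fun j l => pt (σ j) (algebraMap A T (y l))) (fun j l => ((ρ (s (w (π j)))).map (dA l)).map (algebraMap A T)),
        Finset.mul_sum, Matrix.trace_sum]
      apply Finset.sum_congr rfl
      intro L _
      rw [mul_smul_comm, Matrix.trace_smul, smul_eq_mul]
      congr 1
      simp only [hc]
      rw [htrmap]
      congr 1
      have h2 : ∀ N : Matrix (Fin D) (Fin D) A, N.map (algebraMap A T) = (algebraMap A T).mapMatrix N := fun N => rfl
      simp only [h2]
      rw [map_mul, map_list_prod, List.map_ofFn]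
      rfl
    have hJ : ∀ L : Fin d → ν, Jac pt (fun j => algebraMap A T (y (L j))) =
        ∑ σ : Equiv.Perm (Fin d), Equiv.Perm.sign σ • ∏ j, pt (σ j) (algebraMap A T (y (L j))) := by
      intro L
      unfold Jac
      rw [← Matrix.det_transpose, Matrix.det_apply]
      rfl
    have hTTb : TT b = ∑ L : Fin d → ν, (∑ π : Equiv.Perm (Fin d), Equiv.Perm.sign π • c π L) • Jac pt (fun j => algebraMap A T (y (L j))) := by
      simp only [hTT]
      unfold AT
      have h1 : ∀ σ π : Equiv.Perm (Fin d), (Matrix.traceAddMonoidHom (Fin D) T) (M b * (List.ofFn fun j => (M (s (w (π j)))).map (pt (σ j))).prod) =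
        ∑ L : Fin d → ν, (∏ j, pt (σ j) (algebraMap A T (y (L j)))) * algebraMap A T (c π L) := fun σ π => hprod σ π
      simp_rw [h1, hJ, Algebra.smul_def]
      rw [reorg]
      apply Finset.sum_congr rfl
      intro L _
      congr 1
      rw [map_sum]
      apply Finset.sum_congr rfl
      intro π _
      rw [Units.smul_def, Units.smul_def, map_zsmul]
    rw [hTTb]
    apply Submodule.sum_mem
    intro L _
    apply Submodule.smul_mem
    exact Submodule.subset_span ⟨L, rfl⟩
  · intro b hb
    apply hι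
    rw [hιTT, map_zero]
    have : ∑ i, χ i b * Matrix.det (Matrix.of (fun m j => δ j (χ i (s (w m))))) = 0 := by
      apply Finset.sum_eq_zero
      intro i _
      rw [hχP i b hb, zero_mul]
    rw [this, mul_zero]
  · intro t
    apply hι
    rw [hιTT]
    have h1 : ∀ i, χ i (s (Jac pt (fun j => algebraMap A T (t j)))) * Matrix.det (Matrix.of (fun m j => δ j (χ i (s (w m))))) =
        ι (Jac pt (fun j => algebraMap A T (t j))) := by
      intro i
      have h2 : χ i (s (Jac pt (fun j => algebraMap A T (t j)))) =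
          Matrix.det (Matrix.of (fun m k => (χ i).comp s (pt k (algebraMap A T (t m))))) := by
        show (χ i).comp s (Matrix.det _) = _
        rw [RingHom.map_det]
        rfl
      have h3 : ι (Jac pt (fun j => algebraMap A T (t j))) = Matrix.det (Matrix.of (fun m k => ι (pt k (algebraMap A T (t m))))) := by
        show ι (Matrix.det _) = _
        rw [RingHom.map_det]
        rfl
      rw [h2, h3, ← Matrix.det_mul]
      congr 1
      ext m k
      rw [Matrix.mul_apply]
      simp only [Matrix.of_apply]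
      rw [← hδ, ← hχs i, hcr]
      rfl
    rw [Finset.sum_congr rfl (fun i _ => h1 i), Finset.sum_const, Finset.card_univ, Fintype.card_fin,
      nsmul_eq_mul, map_mul, map_natCast, Nat.cast_mul, mul_assoc]

end TT

end Pool.Agent.Helper296
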