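import Pool.Agent.Helper296.Alg4
import Pool.Agent.Helper296.Alg1

set_option autoImplicit false
set_option linter.unusedSectionVars false
set_option linter.unusedVariables false
set_option linter.unusedSimpArgs false

namespace Pool.Agent.Helper296

open IsLocalRing

section contraction

theorem q_contract {A B T : Type*} [CommRing A] [CommRing B] [CommRing T] [IsDomain T]
    [Algebra A B] [Algebra A T] (π : B →ₐ[A] T) (s : T → B)
    (hs : ∀ t, π (s t) = t) {D : ℕ} (e : Module.Basis (Fin D) A B)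
    (hnil : ∀ b, π b = 0 → ∃ N : ℕ, b ^ N ∈ (RingHom.ker (algebraMap A T)).map (algebraMap A B))
    (hD : IsUnit (D : A)) {κ : Type*} [Fintype κ] (c : κ → A) (a : A) (t : κ → T)
    (h : algebraMap A T a = ∑ i, algebraMap A T (c i) * t i) :
    ∃ a' : κ → A, algebraMap A T a = ∑ i, algebraMap A T (c i) * algebraMap A T (a' i) := by
  classical
  set M : B →+* Matrix (Fin D) (Fin D) T :=
    (algebraMap A T).mapMatrix.comp ((Algebra.leftMulMatrix e : B →ₐ[A] Matrix (Fin D) (Fin D) A) : B →+* Matrix (Fin D) (Fin D) A) with hM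
  have hMapp : ∀ b, M b = (Algebra.leftMulMatrix e b).map (algebraMap A T) := fun b => rfl
  have hMA : ∀ a : A, M (algebraMap A B a) = Matrix.scalar (Fin D) (algebraMap A T a) := by
    intro a
    rw [hMapp, AlgHom.commutes]
    ext i j
    simp only [Matrix.map_apply, Matrix.algebraMap_matrix_apply, Matrix.scalar_apply, Matrix.diagonal_apply]
    split_ifs
    · rfl
    · exact map_zero _
  have hMnil : ∀ b, π b = 0 → IsNilpotent (M b) := by
    intro b hb
    obtain ⟨N, hN⟩ := hnil b hb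
    refine ⟨N, ?_⟩
    rw [← map_pow]
    have hle : (RingHom.ker (algebraMap A T)).map (algebraMap A B) ≤ RingHom.ker M := by
      rw [Ideal.map_le_iff_le_comap]
      intro a ha
      rw [Ideal.mem_comap, RingHom.mem_ker, hMA, (RingHom.mem_ker).mp ha, map_zero]
    exact hle hN
  set b : B := algebraMap A B a - ∑ i, algebraMap A B (c i) * s (t i) with hb
  have hπb : π b = 0 := by
    rw [hb, map_sub, map_sum, AlgHom.commutes, h, sub_eq_zero]
    apply Finset.sum_congr rfl
    intro i _
    rw [map_mul, AlgHom.commutes, hs]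
  have htr0 : Matrix.trace (M b) = 0 := by
    have := Matrix.isNilpotent_trace_of_isNilpotent (hMnil b hπb)
    exact this.eq_zero
  have hMb : Matrix.trace (M b) = (D : T) * algebraMap A T a - ∑ i, algebraMap A T (c i) * Matrix.trace (M (s (t i))) := by
    rw [hb, map_sub, map_sum, Matrix.trace_sub, Matrix.trace_sum, hMA]
    congr 1
    · simp [Matrix.trace]
    · apply Finset.sum_congr rfl
      intro i _
      rw [map_mul, hMA, Matrix.scalar_apply, ← Matrix.smul_eq_diagonal_mul, Matrix.trace_smul, smul_eq_mul]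
  obtain ⟨u, hu⟩ := hD
  refine ⟨fun i => (↑u⁻¹ : A) * Matrix.trace (Algebra.leftMulMatrix e (s (t i))), ?_⟩
  have htrM : ∀ b, Matrix.trace (M b) = algebraMap A T (Matrix.trace (Algebra.leftMulMatrix e b)) := by
    intro b
    rw [hMapp]
    simp [Matrix.trace, map_sum]
  rw [hMb, sub_eq_zero] at htr0
  have hDT : (D : T) = algebraMap A T (u : A) := by rw [hu, map_natCast]
  have h1 : algebraMap A T a = algebraMap A T (↑u⁻¹ : A) * ((D : T) * algebraMap A T a) := by
    rw [hDT, ← mul_assoc, ← map_mul, Units.inv_mul, map_one, one_mul]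
  rw [h1, htr0, Finset.mul_sum]
  apply Finset.sum_congr rfl
  intro i _
  rw [htrM, map_mul]
  ring

end contraction

section derint

lemma der_zero_aux {O T : Type*} [CommRing O] [CommRing T] [IsDomain T] [Algebra O T]
    (hn : ∀ n : ℕ, n ≠ 0 → IsUnit (n : O)) (θ : Derivation O T T) (t : T) :
    ∀ (n : ℕ) (P : Polynomial O), P.Monic → P.natDegree ≤ n → Polynomial.aeval t P = 0 → θ t = 0 := by
  intro n
  induction n with
  | zero =>
    intro P hP hdeg h0
    have : P = 1 := hP.natDegree_eq_zero.mp (Nat.le_zero.mp hdeg)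
    rw [this, map_one] at h0
    exact absurd h0 one_ne_zero
  | succ n ih =>
    intro P hP hdeg h0
    by_cases hlt : P.natDegree ≤ n
    · exact ih P hP hlt h0
    have hdeg' : P.natDegree = n + 1 := by omega
    have h1 : Polynomial.aeval t (Polynomial.derivative P) • θ t = 0 := by
      rw [← Derivation.map_aeval, h0, map_zero]
    rw [smul_eq_mul, mul_eq_zero] at h1
    rcases h1 with h1 | h1
    · obtain ⟨u, hu⟩ := hn (n + 1) (Nat.succ_ne_zero n)
      apply ih (Polynomial.C (↑u⁻¹ : O) * Polynomial.derivative P)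
      · apply Polynomial.monic_of_natDegree_le_of_coeff_eq_one n
        · refine (Polynomial.natDegree_C_mul_le _ _).trans ?_
          refine (Polynomial.natDegree_derivative_le _).trans ?_
          omega
        · rw [Polynomial.coeff_C_mul, Polynomial.coeff_derivative]
          have : P.coeff (n + 1) = 1 := by
            rw [← hdeg']; exact hP.coeff_natDegree
          rw [this, one_mul]
          have h2 : ((n : O) + 1) = (u : O) := by rw [hu]; push_cast; ring
          rw [h2, Units.inv_mul]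
      · refine (Polynomial.natDegree_C_mul_le _ _).trans ?_
        refine (Polynomial.natDegree_derivative_le _).trans ?_
        omega
      · rw [map_mul, h1, mul_zero]
    · exact h1

lemma der_zero {O T : Type*} [CommRing O] [CommRing T] [IsDomain T] [Algebra O T] [Algebra.IsIntegral O T]
    (hn : ∀ n : ℕ, n ≠ 0 → IsUnit (n : O)) (θ : Derivation O T T) (t : T) : θ t = 0 := by
  obtain ⟨P, hP, h0⟩ := Algebra.IsIntegral.isIntegral (R := O) t
  exact der_zero_aux hn θ t P.natDegree P hP le_rfl h0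

lemma der_pow {k T : Type*} [CommRing k] [CommRing T] [Algebra k T] (D : Derivation k T T) (J : Ideal T) (n : ℕ) :
    ∀ x ∈ J ^ (n + 1), D x ∈ J ^ n := by
  induction n with
  | zero => intro x _; simp
  | succ n ih =>
    intro x hx
    rw [pow_succ] at hx
    induction hx using Submodule.mul_induction_on' with
    | mem_mul_mem y hy z hz =>
      rw [Derivation.leibniz]
      apply Ideal.add_mem
      · rw [smul_eq_mul]
        exact Ideal.mul_mem_right _ _ hy
      · rw [smul_eq_mul, mul_comm, pow_succ]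
        exact Ideal.mul_mem_mul (ih y hy) hz
    | add y _ z _ hy hz => rw [map_add]; exact Ideal.add_mem _ hy hz

end derint

section socle

/-- elements outside an m-primary ideal with cyclic socle generate the socle -/
lemma socle_mem {T : Type*} [CommRing T] [IsLocalRing T] (I : Ideal T) (N : ℕ)
    (hN : (maximalIdeal T) ^ N ≤ I) (hc : CycS (T := T) (M := T) I) {J s : T}
    (hJ : ∀ a ∈ maximalIdeal T, a * J ∈ I) (hs : s ∉ I) : ∃ b : T, J - b * s ∈ I := by
  classical
  obtain ⟨e, he, hgen⟩ := hc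
  have hex : ∃ n : ℕ, ∀ z ∈ (maximalIdeal T) ^ n, z * s ∈ I := ⟨N, fun z hz => I.mul_mem_right _ (hN hz)⟩
  have hpos : Nat.find hex ≠ 0 := by
    intro h0
    have := Nat.find_spec hex
    rw [h0] at this
    apply hs
    have := this 1 (by simp)
    simpa using this
  obtain ⟨n, hn⟩ := Nat.exists_eq_succ_of_ne_zero hpos
  have hmin := Nat.find_min hex (m := n) (by omega)
  push Not at hmin
  obtain ⟨z, hz, hzs⟩ := hmin
  have hy : ∀ a ∈ maximalIdeal T, a • (z * s) ∈ I := by
    intro a ha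
    have := Nat.find_spec hex
    rw [hn] at this
    rw [smul_eq_mul, ← mul_assoc]
    apply this
    rw [Nat.succ_eq_add_one, pow_succ, mul_comm a z]
    exact Ideal.mul_mem_mul hz ha
  obtain ⟨c, hc⟩ := hgen (z * s) hy
  obtain ⟨c', hc'⟩ := hgen J (fun a ha => hJ a ha)
  have hunit : IsUnit c := by
    by_contra hnu
    apply hzs
    have h1 : c • e ∈ I := he c ((mem_maximalIdeal c).mpr hnu)
    have h2 := I.add_mem hc h1
    simpa using h2
  obtain ⟨u, rfl⟩ := hunit
  refine ⟨c' * ↑u⁻¹ * z, ?_⟩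
  have h3 : J - c' * ↑u⁻¹ * z * s = (J - c' • e) - (c' * ↑u⁻¹) * (z * s - (u : T) • e) := by
    simp only [smul_eq_mul]
    have : c' * ↑u⁻¹ * (z * s - (u : T) * e) = c' * ↑u⁻¹ * z * s - c' * (↑u⁻¹ * (u : T)) * e := by ring
    rw [this, Units.inv_mul]
    ring
  rw [h3]
  exact I.sub_mem hc' (I.mul_mem_left _ hc)

open scoped TensorProduct

lemma finite_quot {k T : Type*} [Field k] [CommRing T] [IsLocalRing T] [Algebra k T] {d : ℕ}
    (w : Fin d → T) (hwm : ∀ j, w j ∈ maximalIdeal T)
    (hpoly : ∀ (N : ℕ) (a : T), ∃ p ∈ Algebra.adjoin k (Set.range w), a - p ∈ (maximalIdeal T) ^ N)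
    (I : Ideal T) (N : ℕ) (hN : (maximalIdeal T) ^ N ≤ I) : Module.Finite k (T ⧸ I) := by
  have htop : Algebra.adjoin k (Set.range (fun j => Ideal.Quotient.mkₐ k I (w j))) = ⊤ := by
    rw [eq_top_iff]
    rintro x -
    obtain ⟨a, rfl⟩ := Ideal.Quotient.mk_surjective x
    obtain ⟨p, hp, hap⟩ := hpoly N a
    have h1 : Ideal.Quotient.mk I a = Ideal.Quotient.mkₐ k I p := by
      rw [← sub_eq_zero]
      show Ideal.Quotient.mk I a - Ideal.Quotient.mk I p = 0
      rw [← map_sub]
      exact Ideal.Quotient.eq_zero_iff_mem.mpr (hN hap)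
    rw [h1]
    have h2 : (Algebra.adjoin k (Set.range w)).map (Ideal.Quotient.mkₐ k I) = Algebra.adjoin k (Set.range (fun j => Ideal.Quotient.mkₐ k I (w j))) := by
      rw [AlgHom.map_adjoin, ← Set.range_comp]
      rfl
    rw [← h2]
    exact ⟨p, hp, rfl⟩
  have hfg := fg_adjoin_of_finite (R := k) (Set.finite_range (fun j => Ideal.Quotient.mkₐ k I (w j))) (by
    rintro _ ⟨j, rfl⟩
    have hnil : (Ideal.Quotient.mkₐ k I (w j)) ^ N = 0 := by
      rw [← map_pow]
      exact Ideal.Quotient.eq_zero_iff_mem.mpr (hN (Ideal.pow_mem_pow (hwm j) N))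
    refine ⟨Polynomial.X ^ N, Polynomial.monic_X_pow N, ?_⟩
    rw [Polynomial.eval₂_pow, Polynomial.eval₂_X, hnil])
  rw [htop] at hfg
  exact ⟨hfg⟩

/-- contraction of the first factor -/
noncomputable def ctr {k Q : Type*} [Field k] [CommRing Q] [Algebra k Q] (φ : Q →ₗ[k] k) : Q ⊗[k] Q →ₗ[k] Q :=
  (TensorProduct.lid k Q).toLinearMap ∘ₗ (LinearMap.rTensor Q φ)

lemma ctr_tmul {k Q : Type*} [Field k] [CommRing Q] [Algebra k Q] (φ : Q →ₗ[k] k) (u v : Q) :
    ctr φ (u ⊗ₜ[k] v) = φ u • v := by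
  simp [ctr]

lemma socle_aux {k Q : Type*} [Field k] [CommRing Q] [Algebra k Q] [Module.Finite k Q]
    (δ : Q ⊗[k] Q) (hδ : ∀ a : Q, (a ⊗ₜ[k] (1 : Q)) * δ = ((1 : Q) ⊗ₜ[k] a) * δ) (a : Q) (ha : IsNilpotent a) :
    a * Algebra.TensorProduct.lmul' (S := Q) k δ = 0 := by
  classical
  let e := Module.finBasis k Q
  -- properties of contractions
  have h1 : ∀ (φ : Q →ₗ[k] k) (b : Q) (x : Q ⊗[k] Q), ctr φ (((1 : Q) ⊗ₜ[k] b) * x) = b * ctr φ x := by
    intro φ b x
    induction x using TensorProduct.induction_on with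
    | zero => simp
    | tmul u v => rw [Algebra.TensorProduct.tmul_mul_tmul, ctr_tmul, ctr_tmul, one_mul, mul_smul_comm]
    | add x y hx hy => rw [mul_add, map_add, hx, hy, map_add, mul_add]
  have h2 : ∀ (φ : Q →ₗ[k] k) (b : Q) (x : Q ⊗[k] Q), ctr φ ((b ⊗ₜ[k] (1 : Q)) * x) = ctr (φ ∘ₗ LinearMap.mulLeft k b) x := by
    intro φ b x
    induction x using TensorProduct.induction_on with
    | zero => simp
    | tmul u v => rw [Algebra.TensorProduct.tmul_mul_tmul, ctr_tmul, ctr_tmul, one_mul]; rfl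
    | add x y hx hy => rw [mul_add, map_add, hx, hy, map_add]
  have h3 : ∀ x : Q ⊗[k] Q, Algebra.TensorProduct.lmul' (S := Q) k x = ∑ i, e i * ctr (e.coord i) x := by
    intro x
    induction x using TensorProduct.induction_on with
    | zero => simp
    | tmul u v =>
      rw [Algebra.TensorProduct.lmul'_apply_tmul]
      simp only [ctr_tmul]
      conv_lhs => rw [← e.sum_repr u, Finset.sum_mul]
      apply Finset.sum_congr rfl
      intro i _
      rw [smul_mul_assoc, mul_smul_comm]
      rfl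
    | add x y hx hy =>
      rw [map_add, hx, hy, ← Finset.sum_add_distrib]
      apply Finset.sum_congr rfl
      intro i _
      rw [map_add, mul_add]
  set tr : Q →ₗ[k] k := ∑ i, (e.coord i) ∘ₗ LinearMap.mulLeft k (e i) with htr
  have htr' : tr = Algebra.trace k Q := by
    ext x
    rw [htr, LinearMap.sum_apply, Algebra.trace_eq_matrix_trace e, Matrix.trace]
    apply Finset.sum_congr rfl
    intro i _
    rw [Matrix.diag_apply, Algebra.leftMulMatrix_eq_repr_mul, mul_comm]
    rfl
  have hctrsum : ∀ (f : Fin (Module.finrank k Q) → (Q →ₗ[k] k)) (x : Q ⊗[k] Q), ∑ i, ctr (f i) x = ctr (∑ i, f i) x := by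
    intro f x
    induction x using TensorProduct.induction_on with
    | zero => simp
    | tmul u v => simp only [ctr_tmul, LinearMap.sum_apply, Finset.sum_smul]
    | add x y hx hy => simp only [map_add, Finset.sum_add_distrib, hx, hy]
  have h4 : Algebra.TensorProduct.lmul' (S := Q) k δ = ctr tr δ := by
    rw [h3, htr, ← hctrsum]
    apply Finset.sum_congr rfl
    intro i _
    rw [← h1, ← hδ, h2]
  have h5 : tr ∘ₗ LinearMap.mulLeft k a = 0 := by
    ext x
    rw [htr']
    show Algebra.trace k Q (a * x) = 0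
    have hnil : IsNilpotent (a * x) := (Commute.all a x).isNilpotent_mul_right ha
    have := Algebra.isNilpotent_trace_of_isNilpotent (R := k) hnil
    exact this.eq_zero
  rw [h4, ← h1, ← hδ, h2, h5]
  have : ∀ x : Q ⊗[k] Q, ctr (0 : Q →ₗ[k] k) x = 0 := by
    intro x
    simp [ctr]
  exact this δ

lemma jac_aux {k T Q : Type*} [Field k] [CommRing T] [IsLocalRing T] [Algebra k T] [CommRing Q] [Algebra k Q]
    [Module.Finite k Q] (q : T →ₐ[k] Q) {d : ℕ}
    (pt : Fin d → Derivation k T T) (w : Fin d → T)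
    (hdw : ∀ i j, pt i (w j) = if i = j then 1 else 0) (hwm : ∀ j, w j ∈ maximalIdeal T)
    (hpoly : ∀ (N : ℕ) (a : T), ∃ p ∈ Algebra.adjoin k (Set.range w), a - p ∈ (maximalIdeal T) ^ N)
    (hq : Function.Surjective q) (N : ℕ) (hN : ∀ x ∈ (maximalIdeal T) ^ N, q x = 0) (l : Fin d → T) (hl : ∀ i, q (l i) = 0)
    (a : T) (ha : a ∈ maximalIdeal T) : q a * q (Jac (fun i => pt i) l) = 0 := by
  classical
  let mu : Q ⊗[k] Q →ₐ[k] Q := Algebra.TensorProduct.lmul' (S := Q) k
  have hmu : ∀ u v, mu (u ⊗ₜ[k] v) = u * v := fun u v => Algebra.TensorProduct.lmul'_apply_tmul u v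
  let Dl : Fin d → Q ⊗[k] Q := fun i => (q (w i)) ⊗ₜ[k] (1 : Q) - (1 : Q) ⊗ₜ[k] (q (w i))
  have claim0 : ∀ p ∈ Algebra.adjoin k (Set.range w), ∃ h : Fin d → Q ⊗[k] Q,
      (q p) ⊗ₜ[k] (1 : Q) - (1 : Q) ⊗ₜ[k] (q p) = ∑ i, h i * Dl i ∧ ∀ i, mu (h i) = q (pt i p) := by
    intro p hp
    induction hp using Algebra.adjoin_induction with
    | mem x hx =>
      obtain ⟨j, rfl⟩ := hx
      refine ⟨Pi.single j 1, ?_, ?_⟩
      · rw [Finset.sum_eq_single j]
        · simp [Dl]
        · intro i _ hij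
          rw [Pi.single_eq_of_ne hij, zero_mul]
        · intro h; exact absurd (Finset.mem_univ j) h
      · intro i
        rw [hdw]
        by_cases hij : i = j
        · subst hij; simp
        · rw [Pi.single_eq_of_ne hij, if_neg hij, map_zero, map_zero]
    | algebraMap c =>
      refine ⟨0, ?_, ?_⟩
      · rw [AlgHom.commutes]
        simp [Algebra.algebraMap_eq_smul_one, TensorProduct.smul_tmul]
      · intro i
        simp
    | add x y _ _ hx hy =>
      obtain ⟨h1, h2, h3⟩ := hx
      obtain ⟨g1, g2, g3⟩ := hy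
      refine ⟨h1 + g1, ?_, ?_⟩
      · simp only [Pi.add_apply, add_mul, Finset.sum_add_distrib]
        rw [← h2, ← g2, map_add, TensorProduct.add_tmul, TensorProduct.tmul_add]
        abel
      · intro i
        rw [Pi.add_apply, map_add, h3, g3, map_add, map_add]
    | mul x y _ _ hx hy =>
      obtain ⟨h1, h2, h3⟩ := hx
      obtain ⟨g1, g2, g3⟩ := hy
      refine ⟨fun i => ((q x) ⊗ₜ[k] (1 : Q)) * g1 i + ((1 : Q) ⊗ₜ[k] (q y)) * h1 i, ?_, ?_⟩
      · simp only [add_mul, mul_assoc, Finset.sum_add_distrib]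
        rw [← Finset.mul_sum, ← Finset.mul_sum, ← h2, ← g2]
        simp only [mul_sub, Algebra.TensorProduct.tmul_mul_tmul, one_mul, mul_one, map_mul]
        rw [mul_comm (q y) (q x)]
        abel
      · intro i
        rw [map_add, map_mul, map_mul, h3, g3, hmu, hmu, mul_one, one_mul, Derivation.leibniz, map_add,
          smul_eq_mul, smul_eq_mul, map_mul, map_mul]
  have claim : ∀ p : T, ∃ h : Fin d → Q ⊗[k] Q,
      (q p) ⊗ₜ[k] (1 : Q) - (1 : Q) ⊗ₜ[k] (q p) = ∑ i, h i * Dl i ∧ ∀ i, mu (h i) = q (pt i p) := by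
    intro x
    obtain ⟨p, hp, hxp⟩ := hpoly (N + 1) x
    obtain ⟨h, h1, h2⟩ := claim0 p hp
    have e1 : q x = q p := by
      rw [← sub_eq_zero, ← map_sub]
      exact hN _ (Ideal.pow_le_pow_right (Nat.le_succ N) hxp)
    refine ⟨h, by rw [e1]; exact h1, ?_⟩
    intro i
    rw [h2 i, ← sub_eq_zero, ← map_sub, ← map_sub]
    have : pt i p - pt i x = - pt i (x - p) := by rw [map_sub]; abel
    rw [map_sub, this, map_neg, hN _ (der_pow (pt i) _ N _ hxp), neg_zero]
  choose h hh1 hh2 using fun j => claim (l j)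
  -- determinant
  let Hm : Matrix (Fin d) (Fin d) (Q ⊗[k] Q) := Matrix.of fun m i => h m i
  have hkill : ∀ i, Hm.det * Dl i = 0 := by
    have e1 : Hm.mulVec Dl = 0 := by
      funext m
      show ∑ i, h m i * Dl i = 0
      rw [← hh1, hl]
      simp
    have e2 : (Hm.adjugate * Hm).mulVec Dl = 0 := by
      rw [← Matrix.mulVec_mulVec, e1, Matrix.mulVec_zero]
    rw [Matrix.adjugate_mul, Matrix.smul_mulVec, Matrix.one_mulVec] at e2
    intro i
    exact congrFun e2 i
  have hδ : ∀ b : Q, (b ⊗ₜ[k] (1 : Q)) * Hm.det = ((1 : Q) ⊗ₜ[k] b) * Hm.det := by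
    intro b
    obtain ⟨p, rfl⟩ := hq b
    obtain ⟨g, g1, _⟩ := claim p
    rw [← sub_eq_zero, ← sub_mul, g1, Finset.sum_mul]
    apply Finset.sum_eq_zero
    intro i _
    rw [mul_assoc, mul_comm (Dl i), hkill, mul_zero]
  have hmudet : mu Hm.det = q (Jac (fun i => pt i) l) := by
    show mu (Matrix.det _) = q (Matrix.det _)
    have e1 := RingHom.map_det (mu : Q ⊗[k] Q →+* Q) Hm
    have e2 := RingHom.map_det (q : T →+* Q) (Matrix.of fun m i => pt i (l m))
    rw [show mu (Matrix.det Hm) = (mu : Q ⊗[k] Q →+* Q) (Matrix.det Hm) from rfl, e1]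
    rw [show q (Matrix.det (Matrix.of fun m i => pt i (l m))) = (q : T →+* Q) (Matrix.det (Matrix.of fun m i => pt i (l m))) from rfl, e2]
    congr 1
    ext m i
    exact hh2 m i
  have hanil : IsNilpotent (q a) := ⟨N, by rw [← map_pow]; exact hN _ (Ideal.pow_mem_pow ha N)⟩
  have := socle_aux Hm.det hδ (q a) hanil
  rw [← hmudet]
  exact this

theorem jac_socle {k T : Type*} [Field k] [CommRing T] [IsLocalRing T] [Algebra k T] {d : ℕ}
    (pt : Fin d → Derivation k T T) (w : Fin d → T)
    (hdw : ∀ i j, pt i (w j) = if i = j then 1 else 0) (hwm : ∀ j, w j ∈ maximalIdeal T)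
    (hpoly : ∀ (N : ℕ) (a : T), ∃ p ∈ Algebra.adjoin k (Set.range w), a - p ∈ (maximalIdeal T) ^ N)
    (I : Ideal T) (N : ℕ) (hN : (maximalIdeal T) ^ N ≤ I) (l : Fin d → T) (hl : ∀ i, l i ∈ I)
    (a : T) (ha : a ∈ maximalIdeal T) : a * Jac (fun i => pt i) l ∈ I := by
  have hfin := finite_quot w hwm hpoly I N hN
  have := jac_aux (Ideal.Quotient.mkₐ k I) pt w hdw hwm hpoly Ideal.Quotient.mk_surjective N
    (fun x hx => Ideal.Quotient.eq_zero_iff_mem.mpr (hN hx)) l (fun i => Ideal.Quotient.eq_zero_iff_mem.mpr (hl i)) a ha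
  rw [← map_mul] at this
  exact Ideal.Quotient.eq_zero_iff_mem.mp this

end socle

end Pool.Agent.Helper296
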