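import Mathlib
/-!
Bourin's question: `|||A^p B^q + B^p A^q||| <= |||A^(p+q) + B^(p+q)|||` for all positive semidefinite
matrices, all `p, q > 0` and all unitarily invariant norms.

Key lemma (`zdiag`, `zlem`): for an isometry `G`, `a = A^t`, `0 < t < 1/2`,
`2 Tr G* a S^(1-2t) a G <= 4t Tr G* A G + (1-2t)(Tr G* S G + c)`, `c` a Ky Fan bound for `S`;
proved with the isometry `W = 2 a G tau^(-1) - G`, where `tau C + C tau = 2 D`, `C = G* a G`,
`D = G* a^2 G`. With `S = (A+B)/2` and operator concavity of `x^(1-2t)` this bounds the Ky Fan sums of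
`A^t B^(1-2t) A^t + B^t A^(1-2t) B^t` by those of `A + B`.

Proof by helper296; pieces formalised by helpers 474 (J1), 439 (J2), 530 (J3), 972 (J4), 338 (J5),
869 (J6), 104 (J7), 374 (J8), 207/301 (J9), 687 (J10), 899 (J11), 487 (J12), 940 (J13); the reduction
through `A^t S^(1-2t) A^t` goes back to helper728.
-/
set_option autoImplicit false
open scoped ComplexOrder MatrixOrder Matrix.Norms.L2Operator
open Matrix
namespace Pool.Agent.Helper296.Bourin

section J1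


theorem lyap_diag {k : ℕ} (A : Matrix (Fin k) (Fin k) ℂ) (hA : A.IsHermitian) :
    ∃ V : Matrix (Fin k) (Fin k) ℂ, Vᴴ * V = 1 ∧ V * Vᴴ = 1 ∧
      A = V * diagonal (fun i => ((hA.eigenvalues i : ℝ) : ℂ)) * Vᴴ := by
  refine ⟨(hA.eigenvectorUnitary : Matrix (Fin k) (Fin k) ℂ), ?_, ?_, ?_⟩
  · exact Unitary.coe_star_mul_self hA.eigenvectorUnitary
  · exact Unitary.coe_mul_star_self hA.eigenvectorUnitary
  · have h := hA.spectral_theorem
    rw [Unitary.conjStarAlgAut_apply] at h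
    exact h



theorem lyap {k : ℕ} (C D : Matrix (Fin k) (Fin k) ℂ) (hC : C.PosDef) (hD : D.PosDef) :
    ∃ U : Matrix (Fin k) (Fin k) ℂ, Uᴴ * U = 1 ∧ U * Uᴴ = 1 ∧ ∃ θ : Fin k → ℝ, (∀ i, 0 < θ i) ∧
      ∀ i j, ((θ i + θ j : ℝ) : ℂ) * (Uᴴ * C * U) i j = 2 * (Uᴴ * D * U) i j := by
  obtain ⟨V, hV1, hV2, hCV⟩ := lyap_diag C hC.isHermitian
  obtain ⟨c, hc⟩ : ∃ c : Fin k → ℝ, c = hC.isHermitian.eigenvalues := ⟨_, rfl⟩
  have hcpos : ∀ i, 0 < c i := by intro i; rw [hc]; exact hC.eigenvalues_pos i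
  rw [← hc] at hCV
  have hcc : ∀ i j, ((c i : ℂ) + (c j : ℂ)) ≠ 0 := by
    intro i j
    have h1 : (0:ℝ) < c i + c j := add_pos (hcpos i) (hcpos j)
    exact_mod_cast h1.ne'
  obtain ⟨M, hM⟩ : ∃ M, M = Vᴴ * D * V := ⟨_, rfl⟩
  obtain ⟨Z, hZ⟩ : ∃ Z : Matrix (Fin k) (Fin k) ℂ, ∀ i j, Z i j = 2 * M i j / ((c i : ℂ) + (c j : ℂ)) :=
    ⟨Matrix.of fun i j => 2 * M i j / ((c i : ℂ) + (c j : ℂ)), fun i j => rfl⟩
  have hMh : Mᴴ = M := by
    rw [hM, conjTranspose_mul, conjTranspose_mul, conjTranspose_conjTranspose, hD.isHermitian.eq,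
      Matrix.mul_assoc]
  have hZh : Zᴴ = Z := by
    ext i j
    rw [conjTranspose_apply, hZ, hZ]
    have h1 : star (M j i) = M i j := by
      have := congrFun (congrFun hMh i) j
      rwa [conjTranspose_apply] at this
    rw [star_div₀, star_mul', h1]
    simp [add_comm]
  have hZM : Z * diagonal (fun i => (c i : ℂ)) + diagonal (fun i => (c i : ℂ)) * Z = (2:ℂ) • M := by
    ext i j
    rw [Matrix.add_apply, Matrix.mul_diagonal, Matrix.diagonal_mul, Matrix.smul_apply, hZ]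
    have := hcc i j
    simp only [smul_eq_mul]
    field_simp
    ring
  obtain ⟨τ, hτ⟩ : ∃ τ, τ = V * Z * Vᴴ := ⟨_, rfl⟩
  have hτh : τ.IsHermitian := by
    unfold Matrix.IsHermitian
    rw [hτ, conjTranspose_mul, conjTranspose_mul, conjTranspose_conjTranspose, hZh, Matrix.mul_assoc]
  have hlyap : τ * C + C * τ = (2:ℂ) • D := by
    have h1 : τ * C = V * (Z * diagonal (fun i => (c i : ℂ))) * Vᴴ := by
      rw [hτ, hCV]
      calc V * Z * Vᴴ * (V * diagonal (fun i => (c i : ℂ)) * Vᴴ)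
          = V * Z * (Vᴴ * V) * diagonal (fun i => (c i : ℂ)) * Vᴴ := by simp only [Matrix.mul_assoc]
        _ = _ := by rw [hV1]; simp only [Matrix.mul_assoc, Matrix.one_mul]
    have h2 : C * τ = V * (diagonal (fun i => (c i : ℂ)) * Z) * Vᴴ := by
      rw [hτ, hCV]
      calc V * diagonal (fun i => (c i : ℂ)) * Vᴴ * (V * Z * Vᴴ)
          = V * diagonal (fun i => (c i : ℂ)) * (Vᴴ * V) * Z * Vᴴ := by simp only [Matrix.mul_assoc]
        _ = _ := by rw [hV1]; simp only [Matrix.mul_assoc, Matrix.one_mul]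
    rw [h1, h2, ← Matrix.add_mul, ← Matrix.mul_add, hZM, hM, Matrix.mul_smul, Matrix.smul_mul]
    congr 1
    calc V * (Vᴴ * D * V) * Vᴴ = (V * Vᴴ) * D * (V * Vᴴ) := by simp only [Matrix.mul_assoc]
      _ = D := by rw [hV2, Matrix.one_mul, Matrix.mul_one]
  obtain ⟨U, hU1, hU2, hτU⟩ := lyap_diag τ hτh
  obtain ⟨θ, hθ⟩ : ∃ θ : Fin k → ℝ, θ = hτh.eigenvalues := ⟨_, rfl⟩
  rw [← hθ] at hτU
  have key : ∀ i j, ((θ i + θ j : ℝ) : ℂ) * (Uᴴ * C * U) i j = 2 * (Uᴴ * D * U) i j := by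
    have h1 : diagonal (fun i => (θ i : ℂ)) * (Uᴴ * C * U) + (Uᴴ * C * U) * diagonal (fun i => (θ i : ℂ))
        = (2:ℂ) • (Uᴴ * D * U) := by
      have h2 : Uᴴ * (τ * C + C * τ) * U = Uᴴ * ((2:ℂ) • D) * U := by rw [hlyap]
      rw [Matrix.mul_smul, Matrix.smul_mul] at h2
      rw [← h2, Matrix.mul_add, Matrix.add_mul, hτU]
      congr 1
      · calc diagonal (fun i => (θ i : ℂ)) * (Uᴴ * C * U)
            = (1 : Matrix (Fin k) (Fin k) ℂ) * diagonal (fun i => (θ i : ℂ)) * (Uᴴ * C * U) := by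
              rw [Matrix.one_mul]
          _ = Uᴴ * (U * diagonal (fun i => (θ i : ℂ)) * Uᴴ * C) * U := by
              rw [← hU1]; simp only [Matrix.mul_assoc]
      · calc (Uᴴ * C * U) * diagonal (fun i => (θ i : ℂ))
            = (Uᴴ * C * U) * diagonal (fun i => (θ i : ℂ)) * (1 : Matrix (Fin k) (Fin k) ℂ) := by
              rw [Matrix.mul_one]
          _ = Uᴴ * (C * (U * diagonal (fun i => (θ i : ℂ)) * Uᴴ)) * U := by
              rw [← hU1]; simp only [Matrix.mul_assoc]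
    intro i j
    have h3 := congrFun (congrFun h1 i) j
    rw [Matrix.add_apply, Matrix.mul_diagonal, Matrix.diagonal_mul, Matrix.smul_apply] at h3
    simp only [smul_eq_mul] at h3
    rw [← h3]
    push_cast
    ring
  have hinj : Function.Injective U.mulVec := by
    intro x y hxy
    have h1 : Uᴴ.mulVec (U.mulVec x) = Uᴴ.mulVec (U.mulVec y) := by rw [hxy]
    rwa [Matrix.mulVec_mulVec, Matrix.mulVec_mulVec, hU1, Matrix.one_mulVec, Matrix.one_mulVec] at h1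
  refine ⟨U, hU1, hU2, θ, ?_, key⟩
  intro i
  have hCi : 0 < (Uᴴ * C * U) i i := (hC.conjTranspose_mul_mul_same hinj).diag_pos
  have hDi : 0 < (Uᴴ * D * U) i i := (hD.conjTranspose_mul_mul_same hinj).diag_pos
  have hk := key i i
  rw [Complex.pos_iff] at hCi hDi
  have hre := congrArg Complex.re hk
  rw [Complex.mul_re, Complex.mul_re, ← hCi.2, ← hDi.2] at hre
  simp only [Complex.ofReal_re, Complex.ofReal_im, mul_zero, sub_zero, Complex.re_ofNat,
    Complex.im_ofNat] at hre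
  nlinarith [hCi.1, hDi.1]


end J1

section J2


theorem young_op_scalar (s t θ : ℝ) (hs : 0 ≤ s) (ht0 : 0 < t) (ht1 : t < 1 / 2) (hθ : 0 < θ) :
    θ ^ 2 * s ^ (1 - 2 * t) ≤ (1 - 2 * t) * s + 2 * t * θ ^ (1 / t) := by
  have h := Real.geom_mean_le_arith_mean2_weighted (w₁ := 1 - 2 * t) (w₂ := 2 * t)
    (p₁ := s) (p₂ := θ ^ (1 / t)) (by linarith) (by linarith) hs (Real.rpow_nonneg hθ.le _)
    (by ring)
  have h2 : (θ ^ (1 / t)) ^ (2 * t) = θ ^ 2 := by
    rw [← Real.rpow_mul hθ.le, ← Real.rpow_natCast]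
    congr 1
    field_simp
    norm_num
  rw [h2] at h
  linarith


theorem young_op {n : ℕ} (S : Matrix (Fin n) (Fin n) ℂ) (hS : 0 ≤ S) (t θ : ℝ) (ht0 : 0 < t)
    (ht1 : t < 1 / 2) (hθ : 0 < θ) :
    (θ ^ 2) • S ^ (1 - 2 * t) ≤ (1 - 2 * t) • S + (2 * t * θ ^ (1 / t)) • (1 : Matrix (Fin n) (Fin n) ℂ) := by
  have hsa : IsSelfAdjoint S := IsSelfAdjoint.of_nonneg hS
  have hc1 : ContinuousOn (fun x : ℝ => x ^ (1 - 2 * t)) (spectrum ℝ S) :=
    (Real.continuous_rpow_const (by linarith)).continuousOn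
  have e1 : (θ ^ 2) • S ^ (1 - 2 * t) = cfc (fun x : ℝ => θ ^ 2 * x ^ (1 - 2 * t)) S := by
    rw [CFC.rpow_eq_cfc_real hS, ← cfc_smul (θ ^ 2) (fun x : ℝ => x ^ (1 - 2 * t)) S hc1]
    rfl
  have e2 : (1 - 2 * t) • S + (2 * t * θ ^ (1 / t)) • (1 : Matrix (Fin n) (Fin n) ℂ)
      = cfc (fun x : ℝ => (1 - 2 * t) * x + 2 * t * θ ^ (1 / t)) S := by
    rw [cfc_add_const (2 * t * θ ^ (1 / t)) (fun x : ℝ => (1 - 2 * t) * x) S
      (by fun_prop) hsa, Algebra.algebraMap_eq_smul_one]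
    congr 1
    have := cfc_smul (1 - 2 * t) (fun x : ℝ => x) S (by fun_prop)
    rw [cfc_id' ℝ S hsa] at this
    exact this.symm
  rw [e1, e2]
  apply cfc_mono
  · intro x hx
    have hx0 : 0 ≤ x := spectrum_nonneg_of_nonneg hS hx
    exact young_op_scalar x t θ hx0 ht0 ht1 hθ
  · exact continuousOn_const.mul hc1
  · exact ((continuous_const.mul continuous_id).add continuous_const).continuousOn


end J2

section J3


theorem tangent_op_scalar (p θ x : ℝ) (hp : 2 ≤ p) (hθ : 0 < θ) (hx : 0 ≤ x) :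
    ((p - 1) * θ ^ (p - 2)) * (x * x) ≤ x ^ p + ((p - 2) * θ ^ (p - 1)) * x := by
  have h1 := one_add_mul_self_le_rpow_one_add (s := x / θ - 1) (p := p - 1)
    (by have : 0 ≤ x / θ := by positivity
        linarith) (by linarith)
  have h2 : 1 + (x / θ - 1) = x / θ := by ring
  rw [h2, Real.div_rpow hx hθ.le, le_div_iff₀ (by positivity)] at h1
  have h3 : θ ^ (p - 1) = θ ^ (p - 2) * θ := by
    rw [← Real.rpow_add_one hθ.ne']; congr 1; ring
  have h4 : x ^ (p - 1) * x = x ^ p := by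
    rcases hx.eq_or_lt with h | h
    · rw [← h, Real.zero_rpow (by linarith : p ≠ 0)]; simp
    · rw [← Real.rpow_add_one h.ne']; congr 1; ring
  have h5 := mul_le_mul_of_nonneg_right h1 hx
  rw [h4] at h5
  have h6 : (1 + (p - 1) * (x / θ - 1)) * θ ^ (p - 1) * x =
      (p - 1) * θ ^ (p - 2) * (x * x) - ((p - 2) * θ ^ (p - 1)) * x := by
    rw [h3]
    field_simp
    ring
  rw [h6] at h5
  linarith


theorem tangent_op {n : ℕ} (a : Matrix (Fin n) (Fin n) ℂ) (ha : 0 ≤ a) (p θ : ℝ) (hp : 2 ≤ p)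
    (hθ : 0 < θ) :
    ((p - 1) * θ ^ (p - 2)) • (a * a) ≤ a ^ p + ((p - 2) * θ ^ (p - 1)) • a := by
  have hsa : IsSelfAdjoint a := IsSelfAdjoint.of_nonneg ha
  have hpc : Continuous (fun x : ℝ => x ^ p) := Real.continuous_rpow_const (by linarith)
  have h1 : a ^ p = cfc (fun x : ℝ => x ^ p) a := CFC.rpow_eq_cfc_real ha
  have h2 : a * a = cfc (fun x : ℝ => x * x) a := by
    rw [cfc_mul (fun x : ℝ => x) (fun x : ℝ => x) a (by fun_prop) (by fun_prop), cfc_id' ℝ a]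
  have h3 : ((p - 1) * θ ^ (p - 2)) • (a * a) =
      cfc (fun x : ℝ => ((p - 1) * θ ^ (p - 2)) * (x * x)) a := by
    rw [h2, cfc_const_mul ((p - 1) * θ ^ (p - 2)) (fun x : ℝ => x * x) a (by fun_prop)]
  have h4 : ((p - 2) * θ ^ (p - 1)) • a = cfc (fun x : ℝ => ((p - 2) * θ ^ (p - 1)) * x) a := by
    rw [cfc_const_mul ((p - 2) * θ ^ (p - 1)) (fun x : ℝ => x) a (by fun_prop), cfc_id' ℝ a]
  have h5 : a ^ p + ((p - 2) * θ ^ (p - 1)) • a =
      cfc (fun x : ℝ => x ^ p + ((p - 2) * θ ^ (p - 1)) * x) a := by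
    rw [h1, h4, cfc_add a (fun x : ℝ => x ^ p) (fun x : ℝ => ((p - 2) * θ ^ (p - 1)) * x)
      hpc.continuousOn (by fun_prop)]
  rw [h3, h5]
  refine cfc_mono (fun x hx => ?_) (by fun_prop)
    ((hpc.continuousOn).add (by fun_prop))
  exact tangent_op_scalar p θ x hp hθ (spectrum_nonneg_of_nonneg ha hx)


end J3

section J4


lemma zd972_psd {n k : ℕ} (M : Matrix (Fin n) (Fin n) ℂ) (hM : M.PosSemidef)
    (V : Matrix (Fin n) (Fin k) ℂ) (l : Fin k) : 0 ≤ ((Vᴴ * M * V) l l).re := by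
  have h := hM.conjTranspose_mul_mul_same V
  have h2 := h.diag_nonneg (i := l)
  exact (Complex.le_def.mp h2).1

lemma zd972_le {n k : ℕ} (M N : Matrix (Fin n) (Fin n) ℂ) (h : M ≤ N)
    (V : Matrix (Fin n) (Fin k) ℂ) (l : Fin k) :
    ((Vᴴ * M * V) l l).re ≤ ((Vᴴ * N * V) l l).re := by
  have h1 := zd972_psd (N - M) (Matrix.le_iff.mp h) V l
  rw [Matrix.mul_sub, Matrix.sub_mul, Matrix.sub_apply, Complex.sub_re] at h1
  linarith

lemma zd972_smul {n k : ℕ} (r : ℝ) (M : Matrix (Fin n) (Fin n) ℂ)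
    (V : Matrix (Fin n) (Fin k) ℂ) (l : Fin k) :
    ((Vᴴ * (r • M) * V) l l).re = r * ((Vᴴ * M * V) l l).re := by
  rw [Matrix.mul_smul, Matrix.smul_mul, Matrix.smul_apply, Complex.smul_re, smul_eq_mul]

lemma zd972_add {n k : ℕ} (M N : Matrix (Fin n) (Fin n) ℂ)
    (V : Matrix (Fin n) (Fin k) ℂ) (l : Fin k) :
    ((Vᴴ * (M + N) * V) l l).re = ((Vᴴ * M * V) l l).re + ((Vᴴ * N * V) l l).re := by
  rw [Matrix.mul_add, Matrix.add_mul, Matrix.add_apply, Complex.add_re]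

lemma zd972_par {n k : ℕ} (S : Matrix (Fin n) (Fin n) ℂ) (hS : S.PosSemidef)
    (G W : Matrix (Fin n) (Fin k) ℂ) :
    ((G + W)ᴴ * S * (G + W)).trace.re ≤ 2 * (Gᴴ * S * G).trace.re + 2 * (Wᴴ * S * W).trace.re := by
  have h0 : 0 ≤ ((G - W)ᴴ * S * (G - W)).trace.re := by
    rw [Matrix.trace, Complex.re_sum]
    exact Finset.sum_nonneg (fun l _ => zd972_psd S hS (G - W) l)
  have h1 : ((G + W)ᴴ * S * (G + W)) + ((G - W)ᴴ * S * (G - W))
      = (2:ℝ) • (Gᴴ * S * G) + (2:ℝ) • (Wᴴ * S * W) := by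
    rw [two_smul, two_smul, conjTranspose_add, conjTranspose_sub]
    simp only [Matrix.add_mul, Matrix.mul_add, Matrix.sub_mul, Matrix.mul_sub]
    abel
  have h2 := congrArg (fun M => (Matrix.trace M).re) h1
  simp only [Matrix.trace_add, Complex.add_re, Matrix.trace_smul, Complex.smul_re, smul_eq_mul] at h2
  linarith


theorem zdiag {n k : ℕ} (a S A R : Matrix (Fin n) (Fin n) ℂ) (ha : a.IsHermitian) (hS : S.PosSemidef)
    (t c : ℝ) (ht0 : 0 < t) (ht1 : t < 1 / 2) (θ : Fin k → ℝ) (hθ : ∀ i, 0 < θ i)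
    (hR : ∀ θ : ℝ, 0 < θ → (θ ^ 2) • R ≤ (1 - 2 * t) • S + (2 * t * θ ^ (1 / t)) • (1 : Matrix (Fin n) (Fin n) ℂ))
    (hA : ∀ θ : ℝ, 0 < θ → ((1 / t - 1) * θ ^ (1 / t - 2)) • (a * a) ≤ A + ((1 / t - 2) * θ ^ (1 / t - 1)) • a)
    (G : Matrix (Fin n) (Fin k) ℂ) (hG : Gᴴ * G = 1)
    (hL : ∀ i j, ((θ i + θ j : ℝ) : ℂ) * (Gᴴ * a * G) i j = 2 * (Gᴴ * (a * a) * G) i j)
    (hc : ∀ W : Matrix (Fin n) (Fin k) ℂ, Wᴴ * W = 1 → (Wᴴ * S * W).trace.re ≤ c) :
    2 * (Gᴴ * (a * R * a) * G).trace.re ≤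
      4 * t * (Gᴴ * A * G).trace.re + (1 - 2 * t) * ((Gᴴ * S * G).trace.re + c) := by
  set V : Matrix (Fin n) (Fin k) ℂ := a * G with hV
  have hVH : Vᴴ = Gᴴ * a := by rw [hV, conjTranspose_mul, ha.eq]
  set D : Matrix (Fin k) (Fin k) ℂ := Matrix.diagonal (fun i => ((2 / θ i : ℝ) : ℂ)) with hD
  have hDH : Dᴴ = D := by
    rw [hD, Matrix.diagonal_conjTranspose]
    congr 1
    funext i
    simp
  set X : Matrix (Fin n) (Fin k) ℂ := V * D with hX
  have hXH : Xᴴ = D * Vᴴ := by rw [hX, conjTranspose_mul, hDH]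
  set W : Matrix (Fin n) (Fin k) ℂ := X - G with hW
  -- (1)
  have hθc : ∀ i, ((θ i : ℝ) : ℂ) ≠ 0 := fun i => by
    exact_mod_cast (hθ i).ne'
  have e1 : Xᴴ * X = D * (Gᴴ * (a * a) * G) * D := by
    rw [hXH, hX, hVH, hV]; simp only [Matrix.mul_assoc]
  have e2 : Xᴴ * G = D * (Gᴴ * a * G) := by
    rw [hXH, hVH]; simp only [Matrix.mul_assoc]
  have e3 : Gᴴ * X = (Gᴴ * a * G) * D := by
    rw [hX, hV]; simp only [Matrix.mul_assoc]
  have e4 : Xᴴ * X = Xᴴ * G + Gᴴ * X := by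
    rw [e1, e2, e3]
    ext i j
    rw [Matrix.add_apply, hD, Matrix.mul_diagonal, Matrix.diagonal_mul, Matrix.diagonal_mul,
      Matrix.mul_diagonal]
    have h := hL i j
    have hi := hθc i
    have hj := hθc j
    push_cast at h ⊢
    have h' : (Gᴴ * (a * a) * G) i j = ((θ i : ℂ) + θ j) * (Gᴴ * a * G) i j / 2 := by
      rw [h]; ring
    rw [h']
    field_simp
    ring
  have hWW : Wᴴ * W = 1 := by
    rw [hW, conjTranspose_sub, Matrix.sub_mul, Matrix.mul_sub, Matrix.mul_sub, e4, hG]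
    abel
  have hcW := hc W hWW
  -- (4)
  have h4 := zd972_par S hS G W
  have hGW : G + W = X := by rw [hW]; abel
  rw [hGW] at h4
  -- notations
  have hXS : ∀ l, ((Xᴴ * S * X) l l).re = (2 / θ l) ^ 2 * ((Vᴴ * S * V) l l).re := by
    intro l
    have : Xᴴ * S * X = D * (Vᴴ * S * V) * D := by
      rw [hXH, hX]; simp only [Matrix.mul_assoc]
    rw [this, hD, Matrix.mul_diagonal, Matrix.diagonal_mul]
    have e : ((2 / θ l : ℝ) : ℂ) * (Vᴴ * S * V) l l * ((2 / θ l : ℝ) : ℂ)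
        = (((2 / θ l) ^ 2 : ℝ) : ℂ) * (Vᴴ * S * V) l l := by
      push_cast; ring
    rw [e, Complex.re_ofReal_mul]
  have hVV : Vᴴ * V = Gᴴ * (a * a) * G := by rw [hVH, hV]; simp only [Matrix.mul_assoc]
  have hVR : Vᴴ * R * V = Gᴴ * (a * R * a) * G := by rw [hVH, hV]; simp only [Matrix.mul_assoc]
  have hr : ∀ l, 2 * ((Gᴴ * (a * R * a) * G) l l).re ≤
      (1 - 2 * t) / 2 * ((Xᴴ * S * X) l l).re + 4 * t * ((Gᴴ * A * G) l l).re := by
    intro l
    have hl := hθ l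
    have h1 := zd972_le _ _ (hR (θ l) hl) V l
    rw [zd972_add, zd972_smul, zd972_smul, zd972_smul, Matrix.mul_one, hVV, hVR] at h1
    have h2 := zd972_le _ _ (hA (θ l) hl) G l
    rw [zd972_add, zd972_smul, zd972_smul] at h2
    have h3 := congrArg Complex.re (hL l l)
    rw [Complex.re_ofReal_mul] at h3
    have h3' : θ l * ((Gᴴ * a * G) l l).re = ((Gᴴ * (a * a) * G) l l).re := by
      have e : ((2:ℂ) * (Gᴴ * (a * a) * G) l l).re = 2 * ((Gᴴ * (a * a) * G) l l).re := by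
        simp
      rw [e] at h3
      linarith
    have p1 : θ l ^ (1 / t - 1) = θ l ^ (1 / t - 2) * θ l := by
      rw [← Real.rpow_add_one hl.ne']
      congr 1; ring
    have p2 : θ l ^ (1 / t) = θ l ^ (1 / t - 2) * θ l ^ 2 := by
      rw [← Real.rpow_add_natCast hl.ne']
      congr 1; push_cast; ring
    rw [hXS l]
    set r := ((Gᴴ * (a * R * a) * G) l l).re
    set s := ((Vᴴ * S * V) l l).re
    set q := ((Gᴴ * (a * a) * G) l l).re
    set m := ((Gᴴ * a * G) l l).re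
    set α := ((Gᴴ * A * G) l l).re
    set P := θ l ^ (1 / t - 2)
    rw [p1] at h2
    rw [p2] at h1
    have h5 : P * q ≤ α := by
      have e : (1 / t - 2) * (P * θ l) * m = (1 / t - 2) * P * q := by rw [← h3']; ring
      rw [e] at h2
      linarith
    have hsq : 0 < θ l ^ 2 := by positivity
    have h6 : r ≤ (1 - 2 * t) * (s / θ l ^ 2) + 2 * t * (P * q) := by
      have e : θ l ^ 2 * r ≤ θ l ^ 2 * ((1 - 2 * t) * (s / θ l ^ 2) + 2 * t * (P * q)) := by
        have e2 : θ l ^ 2 * ((1 - 2 * t) * (s / θ l ^ 2) + 2 * t * (P * q))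
            = (1 - 2 * t) * s + 2 * t * (P * θ l ^ 2) * q := by
          field_simp
        rw [e2]
        exact h1
      exact le_of_mul_le_mul_left e hsq
    have h7 : (2 / θ l) ^ 2 * s = 4 * (s / θ l ^ 2) := by
      field_simp
      ring
    rw [h7]
    nlinarith [mul_le_mul_of_nonneg_left h5 ht0.le]
  have hsum : 2 * (Gᴴ * (a * R * a) * G).trace.re ≤
      (1 - 2 * t) / 2 * (Xᴴ * S * X).trace.re + 4 * t * (Gᴴ * A * G).trace.re := by
    simp only [Matrix.trace, Matrix.diag_apply, Complex.re_sum]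
    rw [Finset.mul_sum, Finset.mul_sum, Finset.mul_sum, ← Finset.sum_add_distrib]
    exact Finset.sum_le_sum (fun l _ => hr l)
  have h8 : (1 - 2 * t) / 2 * (Xᴴ * S * X).trace.re ≤
      (1 - 2 * t) / 2 * (2 * (Gᴴ * S * G).trace.re + 2 * c) := by
    refine mul_le_mul_of_nonneg_left ?_ (by linarith)
    linarith
  nlinarith [hsum, h8]


end J4

section J5







theorem h338_inj {n k : ℕ} (G : Matrix (Fin n) (Fin k) ℂ) (hG : Gᴴ * G = 1) :
    Function.Injective G.mulVec := by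
  intro x y hxy
  have h1 : Gᴴ.mulVec (G.mulVec x) = Gᴴ.mulVec (G.mulVec y) := by
    show Gᴴ.mulVec (G.mulVec x) = Gᴴ.mulVec (G.mulVec y)
    have : G.mulVec x = G.mulVec y := hxy
    rw [this]
  rw [Matrix.mulVec_mulVec, Matrix.mulVec_mulVec, hG, Matrix.one_mulVec, Matrix.one_mulVec] at h1
  exact h1

theorem h338_tr {n k : ℕ} (G : Matrix (Fin n) (Fin k) ℂ) (U : Matrix (Fin k) (Fin k) ℂ)
    (hU : U * Uᴴ = 1) (Y : Matrix (Fin n) (Fin n) ℂ) :
    ((G * U)ᴴ * Y * (G * U)).trace = (Gᴴ * Y * G).trace := by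
  rw [Matrix.conjTranspose_mul]
  have : Uᴴ * Gᴴ * Y * (G * U) = Uᴴ * ((Gᴴ * Y * G) * U) := by
    simp only [Matrix.mul_assoc]
  rw [this, Matrix.trace_mul_comm, Matrix.mul_assoc, hU, Matrix.mul_one]


theorem zlem {n k : ℕ} (A S : Matrix (Fin n) (Fin n) ℂ) (hA : A.PosDef) (hS : S.PosSemidef)
    (t c : ℝ) (ht0 : 0 < t) (ht1 : t < 1 / 2) (G : Matrix (Fin n) (Fin k) ℂ) (hG : Gᴴ * G = 1)
    (hc : ∀ W : Matrix (Fin n) (Fin k) ℂ, Wᴴ * W = 1 → (Wᴴ * S * W).trace.re ≤ c) :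
    2 * (Gᴴ * (A ^ t * S ^ (1 - 2 * t) * A ^ t) * G).trace.re ≤
      4 * t * (Gᴴ * A * G).trace.re + (1 - 2 * t) * ((Gᴴ * S * G).trace.re + c) := by
  obtain ⟨a, haa⟩ : ∃ a, a = A ^ t := ⟨_, rfl⟩
  have hAs : IsStrictlyPositive A := hA.isStrictlyPositive
  have has : IsStrictlyPositive a := by
    rw [haa]; exact IsStrictlyPositive.rpow A t hAs
  have hap : a.PosDef := has.posDef
  have haH : aᴴ = a := hap.1
  have hA0 : (0 : Matrix (Fin n) (Fin n) ℂ) ≤ A := hAs.nonneg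
  have ha0 : (0 : Matrix (Fin n) (Fin n) ℂ) ≤ a := has.nonneg
  have hAa : a ^ (1 / t) = A := by
    rw [haa, one_div]
    exact CFC.rpow_rpow_inv A t ht0.ne' hAs
  have hinj := h338_inj G hG
  have hainj : Function.Injective (a * G).mulVec := by
    intro x y hxy
    have hxy' : (a * G).mulVec x = (a * G).mulVec y := hxy
    rw [← Matrix.mulVec_mulVec, ← Matrix.mulVec_mulVec] at hxy'
    apply hinj
    exact (Matrix.mulVec_injective_of_isUnit hap.isUnit) hxy'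
  have hC : (Gᴴ * a * G).PosDef := hap.conjTranspose_mul_mul_same hinj
  have hD : (Gᴴ * (a * a) * G).PosDef := by
    have h1 : ((a * G)ᴴ * (1 : Matrix (Fin n) (Fin n) ℂ) * (a * G)).PosDef :=
      Matrix.PosDef.one.conjTranspose_mul_mul_same hainj
    have h2 : (a * G)ᴴ * (1 : Matrix (Fin n) (Fin n) ℂ) * (a * G) = Gᴴ * (a * a) * G := by
      rw [Matrix.conjTranspose_mul, haH, Matrix.mul_one]
      simp only [Matrix.mul_assoc]
    rw [h2] at h1
    exact h1
  obtain ⟨U, hU1, hU2, θ, hθ, hL⟩ := lyap _ _ hC hD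
  have hG1 : (G * U)ᴴ * (G * U) = 1 := by
    rw [Matrix.conjTranspose_mul]
    have : Uᴴ * Gᴴ * (G * U) = Uᴴ * ((Gᴴ * G) * U) := by simp only [Matrix.mul_assoc]
    rw [this, hG, Matrix.one_mul, hU1]
  have hp : (2 : ℝ) ≤ 1 / t := by
    rw [le_div_iff₀ ht0]; linarith
  have key := zdiag a S A (S ^ (1 - 2 * t)) hap.1 hS t c ht0 ht1 θ hθ
    (fun θ' hθ' => young_op S hS.nonneg t θ' ht0 ht1 hθ')
    (fun θ' hθ' => by
      have h := tangent_op a ha0 (1 / t) θ' hp hθ'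
      rw [hAa] at h
      exact h)
    (G * U) hG1
    (by
      intro i j
      have h := hL i j
      have e1 : (G * U)ᴴ * a * (G * U) = Uᴴ * (Gᴴ * a * G) * U := by
        rw [Matrix.conjTranspose_mul]; simp only [Matrix.mul_assoc]
      have e2 : (G * U)ᴴ * (a * a) * (G * U) = Uᴴ * (Gᴴ * (a * a) * G) * U := by
        rw [Matrix.conjTranspose_mul]; simp only [Matrix.mul_assoc]
      rw [e1, e2]
      exact h)
    hc
  rw [h338_tr G U hU2, h338_tr G U hU2, h338_tr G U hU2] at key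
  rw [← haa]
  exact key



end J5

section J6



theorem conc {n : ℕ} (A B : Matrix (Fin n) (Fin n) ℂ) (hA : 0 ≤ A) (hB : 0 ≤ B) (r : ℝ)
    (hr0 : 0 ≤ r) (hr1 : r ≤ 1) :
    A ^ r + B ^ r ≤ (2 : ℝ) • ((1 / 2 : ℝ) • (A + B)) ^ r := by
  have h0 := CFC.concaveOn_rpow (A := Matrix (Fin n) (Fin n) ℂ) (p := r) ⟨hr0, hr1⟩
  have h : (1 / 2 : ℝ) • A ^ r + (1 / 2 : ℝ) • B ^ r ≤ ((1 / 2 : ℝ) • A + (1 / 2 : ℝ) • B) ^ r :=
    h0.2 (Set.mem_Ici.2 hA) (Set.mem_Ici.2 hB) (by norm_num) (by norm_num) (by norm_num)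
  rw [← smul_add, ← smul_add] at h
  have h2 := smul_le_smul_of_nonneg_left h (zero_le_two : (0 : ℝ) ≤ 2)
  rw [smul_smul] at h2
  have h3 : (2 : ℝ) * (1 / 2) = 1 := by norm_num
  rw [h3, one_smul] at h2
  exact h2


end J6

section J7




theorem q296_trmono {n k : ℕ} {X Y : Matrix (Fin n) (Fin n) ℂ} (h : X ≤ Y)
    (G : Matrix (Fin n) (Fin k) ℂ) :
    (Gᴴ * X * G).trace.re ≤ (Gᴴ * Y * G).trace.re := by
  have h1 : (Y - X).PosSemidef := Matrix.le_iff.mp h
  have h2 := h1.conjTranspose_mul_mul_same G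
  have h3 := h2.trace_nonneg
  have h4 : 0 ≤ (Gᴴ * (Y - X) * G).trace.re := (Complex.le_def.mp h3).1
  have h5 : Gᴴ * (Y - X) * G = Gᴴ * Y * G - Gᴴ * X * G := by
    rw [Matrix.mul_sub, Matrix.sub_mul]
  rw [h5, Matrix.trace_sub, Complex.sub_re] at h4
  linarith

theorem q296_tradd {n k : ℕ} (X Y : Matrix (Fin n) (Fin n) ℂ)
    (G : Matrix (Fin n) (Fin k) ℂ) :
    (Gᴴ * (X + Y) * G).trace.re = (Gᴴ * X * G).trace.re + (Gᴴ * Y * G).trace.re := by
  rw [Matrix.mul_add, Matrix.add_mul, Matrix.trace_add, Complex.add_re]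

theorem q296_trsmul {n k : ℕ} (r : ℝ) (X : Matrix (Fin n) (Fin n) ℂ)
    (G : Matrix (Fin n) (Fin k) ℂ) :
    (Gᴴ * (r • X) * G).trace.re = r * (Gᴴ * X * G).trace.re := by
  rw [Matrix.mul_smul, Matrix.smul_mul, Matrix.trace_smul, Complex.real_smul, Complex.re_ofReal_mul]

theorem q296_split {n : ℕ} (A : Matrix (Fin n) (Fin n) ℂ) (hA : A.PosDef) (t : ℝ) :
    A ^ t * A ^ (1 - 2 * t) * A ^ t = A := by
  have hu : IsUnit A := hA.isUnit
  have h0 : 0 ≤ A := hA.posSemidef.nonneg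
  rw [← CFC.rpow_add hu, ← CFC.rpow_add hu]
  have : t + (1 - 2 * t) + t = 1 := by ring
  rw [this, CFC.rpow_one A h0]

theorem q296_conj {n : ℕ} (A X Y : Matrix (Fin n) (Fin n) ℂ) (t : ℝ) (h : X ≤ Y) :
    A ^ t * X * A ^ t ≤ A ^ t * Y * A ^ t := by
  have hsa : IsSelfAdjoint (A ^ t) := IsSelfAdjoint.of_nonneg CFC.rpow_nonneg
  exact hsa.conjugate_le_conjugate h


theorem mbound {n k : ℕ} (A B : Matrix (Fin n) (Fin n) ℂ) (hA : A.PosDef) (hB : B.PosDef)
    (t c : ℝ) (ht0 : 0 < t) (ht1 : t < 1 / 2) (G : Matrix (Fin n) (Fin k) ℂ) (hG : Gᴴ * G = 1)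
    (hc : ∀ W : Matrix (Fin n) (Fin k) ℂ, Wᴴ * W = 1 → (Wᴴ * (A + B) * W).trace.re ≤ c) :
    (Gᴴ * (A ^ t * B ^ (1 - 2 * t) * A ^ t + B ^ t * A ^ (1 - 2 * t) * B ^ t) * G).trace.re ≤ c := by
  have hA0 : 0 ≤ A := hA.posSemidef.nonneg
  have hB0 : 0 ≤ B := hB.posSemidef.nonneg
  have hS : ((1 / 2 : ℝ) • (A + B)).PosSemidef :=
    (hA.posSemidef.add hB.posSemidef).smul (by norm_num)
  have hcon := conc A B hA0 hB0 (1 - 2 * t) (by linarith) (by linarith)
  set S := (1 / 2 : ℝ) • (A + B) with hSdef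
  have hc2 : ∀ W : Matrix (Fin n) (Fin k) ℂ, Wᴴ * W = 1 → (Wᴴ * S * W).trace.re ≤ c / 2 := by
    intro W hW
    have := hc W hW
    rw [hSdef, q296_trsmul]
    linarith
  have zA := zlem A S hA hS t (c / 2) ht0 ht1 G hG hc2
  have zB := zlem B S hB hS t (c / 2) ht0 ht1 G hG hc2
  have mA := q296_trmono (q296_conj A _ _ t hcon) G
  have mB := q296_trmono (q296_conj B _ _ t hcon) G
  have eA : A ^ t * (A ^ (1 - 2 * t) + B ^ (1 - 2 * t)) * A ^ t
      = A + A ^ t * B ^ (1 - 2 * t) * A ^ t := by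
    rw [mul_add, add_mul, q296_split A hA t]
  have eB : B ^ t * (A ^ (1 - 2 * t) + B ^ (1 - 2 * t)) * B ^ t
      = B ^ t * A ^ (1 - 2 * t) * B ^ t + B := by
    rw [mul_add, add_mul, q296_split B hB t]
  have sA : A ^ t * ((2 : ℝ) • S ^ (1 - 2 * t)) * A ^ t
      = (2 : ℝ) • (A ^ t * S ^ (1 - 2 * t) * A ^ t) := by
    rw [mul_smul_comm, smul_mul_assoc]
  have sB : B ^ t * ((2 : ℝ) • S ^ (1 - 2 * t)) * B ^ t
      = (2 : ℝ) • (B ^ t * S ^ (1 - 2 * t) * B ^ t) := by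
    rw [mul_smul_comm, smul_mul_assoc]
  rw [eA, sA, q296_tradd, q296_trsmul] at mA
  rw [eB, sB, q296_tradd, q296_trsmul] at mB
  have hy : (Gᴴ * S * G).trace.re = 1 / 2 * ((Gᴴ * A * G).trace.re + (Gᴴ * B * G).trace.re) := by
    rw [hSdef, q296_trsmul, q296_tradd]
  have hcG := hc G hG
  rw [q296_tradd] at hcG
  rw [q296_tradd]
  rw [hy] at zA zB
  have hm : 4 * t * ((Gᴴ * A * G).trace.re + (Gᴴ * B * G).trace.re) ≤ 4 * t * c :=
    mul_le_mul_of_nonneg_left hcG (by linarith)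
  nlinarith [zA, zB, mA, mB, hcG, hm]


end J7

section J8



theorem j8_cs {n k : ℕ} (X Y : Matrix (Fin n) (Fin k) ℂ) :
    (Xᴴ * Y).trace.re ≤ (1 / 2) * ((Xᴴ * X).trace.re + (Yᴴ * Y).trace.re) := by
  have h0 : 0 ≤ ((X - Y)ᴴ * (X - Y)).trace := (posSemidef_conjTranspose_mul_self (X - Y)).trace_nonneg
  have h1 : 0 ≤ ((X - Y)ᴴ * (X - Y)).trace.re := (Complex.le_def.1 h0).1
  have h2 : ((X - Y)ᴴ * (X - Y)).trace =
      (Xᴴ * X).trace - (Xᴴ * Y).trace - (Yᴴ * X).trace + (Yᴴ * Y).trace := by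
    rw [conjTranspose_sub, Matrix.sub_mul, Matrix.mul_sub, Matrix.mul_sub, trace_sub, trace_sub,
      trace_sub]
    ring
  have h3 : (Yᴴ * X).trace.re = (Xᴴ * Y).trace.re := by
    have h4 : Yᴴ * X = (Xᴴ * Y)ᴴ := by
      rw [conjTranspose_mul, conjTranspose_conjTranspose]
    rw [h4, trace_conjTranspose]
    simp
  rw [h2] at h1
  simp only [Complex.add_re, Complex.sub_re] at h1
  rw [h3] at h1
  linarith

theorem j8_herm {n : ℕ} (A : Matrix (Fin n) (Fin n) ℂ) (x : ℝ) : (A ^ x)ᴴ = A ^ x := by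
  have h : (0 : Matrix (Fin n) (Fin n) ℂ) ≤ A ^ x := CFC.rpow_nonneg
  exact (IsSelfAdjoint.of_nonneg h).star_eq

theorem j8_half {n : ℕ} (A : Matrix (Fin n) (Fin n) ℂ) (hA : A.PosDef) :
    A ^ (1 / 2 : ℝ) * A ^ (1 / 2 : ℝ) = A := by
  have hu : IsUnit A := hA.isUnit
  have h0 : (0 : Matrix (Fin n) (Fin n) ℂ) ≤ A := hA.posSemidef.nonneg
  rw [← CFC.rpow_add hu]
  norm_num
  exact CFC.rpow_one A h0


theorem kyfan_pd {n k : ℕ} (A B : Matrix (Fin n) (Fin n) ℂ) (hA : A.PosDef) (hB : B.PosDef)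
    (t c : ℝ) (ht0 : 0 < t) (ht1 : t < 1 / 2) (G G' : Matrix (Fin n) (Fin k) ℂ) (hG : Gᴴ * G = 1)
    (hG' : G'ᴴ * G' = 1)
    (hc : ∀ W : Matrix (Fin n) (Fin k) ℂ, Wᴴ * W = 1 → (Wᴴ * (A + B) * W).trace.re ≤ c) :
    (Gᴴ * (A ^ t * B ^ (1 - t) + B ^ t * A ^ (1 - t)) * G').trace.re ≤ c := by
  have hAu : IsUnit A := hA.isUnit
  have hBu : IsUnit B := hB.isUnit
  set s : ℝ := (1 - 2 * t) / 2 with hs
  have e1 : (1 - t : ℝ) = s + 1 / 2 := by rw [hs]; ring
  have e2 : (1 - 2 * t : ℝ) = s + s := by rw [hs]; ring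
  have hM := mbound A B hA hB t c ht0 ht1 G hG hc
  have hc' := hc G' hG'
  rw [e2, CFC.rpow_add hAu, CFC.rpow_add hBu] at hM
  rw [e1, CFC.rpow_add hAu, CFC.rpow_add hBu]
  have c1 := j8_cs ((A ^ t * B ^ s)ᴴ * G) (B ^ (1 / 2 : ℝ) * G')
  have c2 := j8_cs ((B ^ t * A ^ s)ᴴ * G) (A ^ (1 / 2 : ℝ) * G')
  have l1 : ((A ^ t * B ^ s)ᴴ * G)ᴴ * (B ^ (1 / 2 : ℝ) * G') =
      Gᴴ * (A ^ t * (B ^ s * B ^ (1 / 2 : ℝ))) * G' := by
    rw [conjTranspose_mul, conjTranspose_conjTranspose]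
    simp only [Matrix.mul_assoc]
  have l2 : ((B ^ t * A ^ s)ᴴ * G)ᴴ * (A ^ (1 / 2 : ℝ) * G') =
      Gᴴ * (B ^ t * (A ^ s * A ^ (1 / 2 : ℝ))) * G' := by
    rw [conjTranspose_mul, conjTranspose_conjTranspose]
    simp only [Matrix.mul_assoc]
  have l3 : ((A ^ t * B ^ s)ᴴ * G)ᴴ * ((A ^ t * B ^ s)ᴴ * G) =
      Gᴴ * (A ^ t * (B ^ s * B ^ s) * A ^ t) * G := by
    rw [conjTranspose_mul, conjTranspose_conjTranspose, conjTranspose_mul, j8_herm, j8_herm]
    simp only [Matrix.mul_assoc]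
  have l4 : ((B ^ t * A ^ s)ᴴ * G)ᴴ * ((B ^ t * A ^ s)ᴴ * G) =
      Gᴴ * (B ^ t * (A ^ s * A ^ s) * B ^ t) * G := by
    rw [conjTranspose_mul, conjTranspose_conjTranspose, conjTranspose_mul, j8_herm, j8_herm]
    simp only [Matrix.mul_assoc]
  have l5 : (B ^ (1 / 2 : ℝ) * G')ᴴ * (B ^ (1 / 2 : ℝ) * G') = G'ᴴ * B * G' := by
    rw [conjTranspose_mul, j8_herm, Matrix.mul_assoc, ← Matrix.mul_assoc (B ^ (1 / 2 : ℝ)),
      j8_half B hB, ← Matrix.mul_assoc]
  have l6 : (A ^ (1 / 2 : ℝ) * G')ᴴ * (A ^ (1 / 2 : ℝ) * G') = G'ᴴ * A * G' := by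
    rw [conjTranspose_mul, j8_herm, Matrix.mul_assoc, ← Matrix.mul_assoc (A ^ (1 / 2 : ℝ)),
      j8_half A hA, ← Matrix.mul_assoc]
  rw [l1, l3, l5] at c1
  rw [l2, l4, l6] at c2
  rw [Matrix.mul_add, Matrix.add_mul, trace_add, Complex.add_re] at hM hc' ⊢
  linarith


end J8

section J9



theorem kp_cont {n : ℕ} (t : ℝ) (ht : 0 < t) :
    ContinuousOn (fun a : Matrix (Fin n) (Fin n) ℂ => a ^ t) {a | 0 ≤ a} := by
  lift t to NNReal using ht.le
  have h := CFC.continuousOn_nnrpow (A := Matrix (Fin n) (Fin n) ℂ) t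
  refine h.congr fun a ha => ?_
  exact (CFC.nnrpow_eq_rpow (by exact_mod_cast ht)).symm

theorem kp_cs {n k : ℕ} (X Y : Matrix (Fin n) (Fin k) ℂ) :
    2 * (Xᴴ * Y).trace.re ≤ (Xᴴ * X).trace.re + (Yᴴ * Y).trace.re := by
  have h := (Matrix.posSemidef_conjTranspose_mul_self (X - Y)).trace_nonneg
  have h1 : (X - Y)ᴴ * (X - Y) = Xᴴ * X - Xᴴ * Y - (Yᴴ * X - Yᴴ * Y) := by
    rw [Matrix.conjTranspose_sub, Matrix.sub_mul, Matrix.mul_sub, Matrix.mul_sub]
  rw [h1, Matrix.trace_sub, Matrix.trace_sub, Matrix.trace_sub] at h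
  have h2 := (Complex.le_def.1 h).1
  have h3 : (Yᴴ * X).trace.re = (Xᴴ * Y).trace.re := by
    have h4 : (Yᴴ * X) = (Xᴴ * Y)ᴴ := by
      rw [Matrix.conjTranspose_mul, Matrix.conjTranspose_conjTranspose]
    rw [h4, Matrix.trace_conjTranspose]
    exact Complex.conj_re _
  simp only [Complex.zero_re, Complex.sub_re] at h2
  linarith

theorem kp_half {n k : ℕ} (P R : Matrix (Fin n) (Fin n) ℂ) (hP : Pᴴ = P) (hR : Rᴴ = R)
    (c : ℝ) (G G' : Matrix (Fin n) (Fin k) ℂ) (hG : Gᴴ * G = 1)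
    (hG' : G'ᴴ * G' = 1)
    (hc : ∀ W : Matrix (Fin n) (Fin k) ℂ, Wᴴ * W = 1 → (Wᴴ * (P * P + R * R) * W).trace.re ≤ c) :
    (Gᴴ * (P * R + R * P) * G').trace.re ≤ c := by
  have h1 := kp_cs (P * G) (R * G')
  have h2 := kp_cs (R * G) (P * G')
  have e1 : (P * G)ᴴ * (R * G') = Gᴴ * (P * R) * G' := by
    rw [Matrix.conjTranspose_mul, hP]; simp only [Matrix.mul_assoc]
  have e2 : (R * G)ᴴ * (P * G') = Gᴴ * (R * P) * G' := by
    rw [Matrix.conjTranspose_mul, hR]; simp only [Matrix.mul_assoc]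
  have e3 : (P * G)ᴴ * (P * G) = Gᴴ * (P * P) * G := by
    rw [Matrix.conjTranspose_mul, hP]; simp only [Matrix.mul_assoc]
  have e4 : (R * G)ᴴ * (R * G) = Gᴴ * (R * R) * G := by
    rw [Matrix.conjTranspose_mul, hR]; simp only [Matrix.mul_assoc]
  have e5 : (P * G')ᴴ * (P * G') = G'ᴴ * (P * P) * G' := by
    rw [Matrix.conjTranspose_mul, hP]; simp only [Matrix.mul_assoc]
  have e6 : (R * G')ᴴ * (R * G') = G'ᴴ * (R * R) * G' := by
    rw [Matrix.conjTranspose_mul, hR]; simp only [Matrix.mul_assoc]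
  rw [e1, e3, e6] at h1
  rw [e2, e4, e5] at h2
  have h3 := hc G hG
  have h4 := hc G' hG'
  rw [Matrix.mul_add, Matrix.add_mul, Matrix.trace_add, Complex.add_re] at h3 h4 ⊢
  linarith


theorem kyfan_psd {n k : ℕ} (A B : Matrix (Fin n) (Fin n) ℂ) (hA : 0 ≤ A) (hB : 0 ≤ B)
    (t c : ℝ) (ht0 : 0 < t) (ht1 : t ≤ 1 / 2) (G G' : Matrix (Fin n) (Fin k) ℂ) (hG : Gᴴ * G = 1)
    (hG' : G'ᴴ * G' = 1)
    (hc : ∀ W : Matrix (Fin n) (Fin k) ℂ, Wᴴ * W = 1 → (Wᴴ * (A + B) * W).trace.re ≤ c) :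
    (Gᴴ * (A ^ t * B ^ (1 - t) + B ^ t * A ^ (1 - t)) * G').trace.re ≤ c := by
  rcases ht1.eq_or_lt with h | hlt
  · subst h
    have h1 : (1 : ℝ) - 1 / 2 = 1 / 2 := by norm_num
    rw [h1]
    have hs : ∀ M : Matrix (Fin n) (Fin n) ℂ, 0 ≤ M → (M ^ (1 / 2 : ℝ))ᴴ = M ^ (1 / 2 : ℝ) ∧
        M ^ (1 / 2 : ℝ) * M ^ (1 / 2 : ℝ) = M := by
      intro M hM
      constructor
      · exact (IsSelfAdjoint.of_nonneg (CFC.rpow_nonneg (a := M) (y := (1 / 2 : ℝ)))).star_eq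
      · rw [← CFC.sqrt_eq_rpow]
        exact CFC.sqrt_mul_sqrt_self M hM
    refine kp_half (A ^ (1 / 2 : ℝ)) (B ^ (1 / 2 : ℝ)) (hs A hA).1 (hs B hB).1 c G G' hG hG' ?_
    intro W hW
    rw [(hs A hA).2, (hs B hB).2]
    exact hc W hW
  · -- limit
    have hpos : ∀ M : Matrix (Fin n) (Fin n) ℂ, 0 ≤ M → ∀ ε : ℝ, 0 < ε →
        (M + (ε : ℂ) • (1 : Matrix (Fin n) (Fin n) ℂ)).PosDef := by
      intro M hM ε hε
      exact Matrix.PosDef.posSemidef_add (Matrix.nonneg_iff_posSemidef.1 hM)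
        (Matrix.PosDef.one.smul (by exact_mod_cast hε))
    have key : ∀ ε : ℝ, 0 < ε →
        (Gᴴ * ((A + (ε : ℂ) • (1 : Matrix (Fin n) (Fin n) ℂ)) ^ t *
            (B + (ε : ℂ) • (1 : Matrix (Fin n) (Fin n) ℂ)) ^ (1 - t) +
          (B + (ε : ℂ) • (1 : Matrix (Fin n) (Fin n) ℂ)) ^ t *
            (A + (ε : ℂ) • (1 : Matrix (Fin n) (Fin n) ℂ)) ^ (1 - t)) * G').trace.re ≤
          c + 2 * k * ε := by
      intro ε hε
      refine kyfan_pd _ _ (hpos A hA ε hε) (hpos B hB ε hε) t _ ht0 hlt G G' hG hG' ?_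
      intro W hW
      have h1 : A + (ε : ℂ) • (1 : Matrix (Fin n) (Fin n) ℂ) +
          (B + (ε : ℂ) • (1 : Matrix (Fin n) (Fin n) ℂ)) =
          (A + B) + ((2 * ε : ℝ) : ℂ) • (1 : Matrix (Fin n) (Fin n) ℂ) := by
        push_cast
        rw [two_mul, add_smul]
        abel
      rw [h1, Matrix.mul_add, Matrix.add_mul, Matrix.trace_add, Complex.add_re, Matrix.mul_smul,
        Matrix.smul_mul, Matrix.mul_one, hW, Matrix.trace_smul, Matrix.trace_one]
      have h2 := hc W hW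
      simp only [Fintype.card_fin, smul_eq_mul]
      have h3 : (((2 * ε : ℝ) : ℂ) * (k : ℂ)).re = 2 * k * ε := by
        rw [Complex.re_ofReal_mul, Complex.natCast_re]
        ring
      rw [h3]
      linarith
    have hlim1 : ∀ M : Matrix (Fin n) (Fin n) ℂ, 0 ≤ M → ∀ s : ℝ, 0 < s →
        Filter.Tendsto (fun ε : ℝ => (M + (ε : ℂ) • (1 : Matrix (Fin n) (Fin n) ℂ)) ^ s)
          (nhdsWithin 0 (Set.Ioi 0)) (nhds (M ^ s)) := by
      intro M hM s hs
      have h1 := (kp_cont (n := n) s hs) M hM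
      refine h1.tendsto.comp ?_
      rw [tendsto_nhdsWithin_iff]
      constructor
      · have h2 : Continuous (fun ε : ℝ => M + (ε : ℂ) • (1 : Matrix (Fin n) (Fin n) ℂ)) :=
          continuous_const.add (Complex.continuous_ofReal.smul continuous_const)
        have h3 := (h2.tendsto 0).mono_left (nhdsWithin_le_nhds (s := Set.Ioi 0))
        simpa using h3
      · filter_upwards [self_mem_nhdsWithin] with ε hε
        exact Matrix.nonneg_iff_posSemidef.2 (hpos M hM ε hε).posSemidef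
    have hlim : Filter.Tendsto (fun ε : ℝ =>
        (Gᴴ * ((A + (ε : ℂ) • (1 : Matrix (Fin n) (Fin n) ℂ)) ^ t *
            (B + (ε : ℂ) • (1 : Matrix (Fin n) (Fin n) ℂ)) ^ (1 - t) +
          (B + (ε : ℂ) • (1 : Matrix (Fin n) (Fin n) ℂ)) ^ t *
            (A + (ε : ℂ) • (1 : Matrix (Fin n) (Fin n) ℂ)) ^ (1 - t)) * G').trace.re)
        (nhdsWithin 0 (Set.Ioi 0))
        (nhds (Gᴴ * (A ^ t * B ^ (1 - t) + B ^ t * A ^ (1 - t)) * G').trace.re) := by
      have hφ : Continuous (fun M : Matrix (Fin n) (Fin n) ℂ => (Gᴴ * M * G').trace.re) := by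
        fun_prop
      have ht2 : 0 < 1 - t := by linarith
      exact (hφ.tendsto _).comp
        (((hlim1 A hA t ht0).mul (hlim1 B hB _ ht2)).add ((hlim1 B hB t ht0).mul (hlim1 A hA _ ht2)))
    have hlim2 : Filter.Tendsto (fun ε : ℝ => c + 2 * k * ε) (nhdsWithin 0 (Set.Ioi 0)) (nhds c) := by
      have h2 : Continuous (fun ε : ℝ => c + 2 * (k : ℝ) * ε) := by fun_prop
      have h3 := (h2.tendsto 0).mono_left (nhdsWithin_le_nhds (s := Set.Ioi 0))
      simpa using h3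
    refine le_of_tendsto_of_tendsto hlim hlim2 ?_
    filter_upwards [self_mem_nhdsWithin] with ε hε
    exact key ε hε


end J9

section J10



theorem svd {n : ℕ} (X : Matrix (Fin n) (Fin n) ℂ) :
    ∃ U ∈ Matrix.unitaryGroup (Fin n) ℂ, ∃ V ∈ Matrix.unitaryGroup (Fin n) ℂ, ∃ s : Fin n → ℝ,
      Antitone s ∧ (∀ i, 0 ≤ s i) ∧ X = U * Matrix.diagonal (fun i => (s i : ℂ)) * V := by
  classical
  let E := EuclideanSpace ℂ (Fin n)
  let A : E →ₗ[ℂ] E := Matrix.toEuclideanLin X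
  have hn : Module.finrank ℂ E = n := by simp [E]
  have hT := A.isSymmetric_adjoint_comp_self
  let b : OrthonormalBasis (Fin n) ℂ E := hT.eigenvectorBasis hn
  let lam : Fin n → ℝ := hT.eigenvalues hn
  have hTb : ∀ i, LinearMap.adjoint A (A (b i)) = (lam i : ℂ) • b i := fun i =>
    hT.apply_eigenvectorBasis hn i
  have hlam : Antitone lam := hT.eigenvalues_antitone hn
  have hin : ∀ i j, inner ℂ (A (b i)) (A (b j)) = (lam j : ℂ) * inner ℂ (b i) (b j) := by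
    intro i j
    rw [← LinearMap.adjoint_inner_right, hTb, inner_smul_right]
  let f : Fin n → E := fun i => A (b i)
  have horth : Pairwise fun i j => inner ℂ (f i) (f j) = 0 := by
    intro i j hij
    show inner ℂ (A (b i)) (A (b j)) = 0
    rw [hin, b.orthonormal.inner_eq_zero hij, mul_zero]
  have hnorm : ∀ i, ‖f i‖ ^ 2 = lam i := by
    intro i
    have h1 : (inner ℂ (f i) (f i) : ℂ) = (lam i : ℂ) := by
      show inner ℂ (A (b i)) (A (b i)) = _
      rw [hin]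
      have : (inner ℂ (b i) (b i) : ℂ) = 1 := by
        rw [inner_self_eq_norm_sq_to_K, b.orthonormal.1 i]
        simp
      rw [this, mul_one]
    rw [inner_self_eq_norm_sq_to_K] at h1
    have h2 : ((‖f i‖ ^ 2 : ℝ) : ℂ) = (lam i : ℂ) := by
      rw [← h1]
      push_cast
      rfl
    exact Complex.ofReal_injective h2
  let c : OrthonormalBasis (Fin n) ℂ E :=
    InnerProductSpace.gramSchmidtOrthonormalBasis (by rw [hn, Fintype.card_fin]) f
  have hc : ∀ i, f i = ((‖f i‖ : ℝ) : ℂ) • c i := by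
    intro i
    by_cases h0 : f i = 0
    · rw [h0, norm_zero]
      simp
    · have h1 : c i = ((‖f i‖⁻¹ : ℝ) : ℂ) • f i := by
        have := InnerProductSpace.gramSchmidtOrthonormalBasis_apply_of_orthogonal
          (𝕜 := ℂ) (by rw [hn, Fintype.card_fin]) horth h0
        simpa using this
      rw [h1, smul_smul]
      have h2 : ‖f i‖ ≠ 0 := norm_ne_zero_iff.2 h0
      have h3 : ((‖f i‖ : ℝ) : ℂ) * ((‖f i‖⁻¹ : ℝ) : ℂ) = 1 := by
        rw [← Complex.ofReal_mul, mul_inv_cancel₀ h2, Complex.ofReal_one]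
      rw [h3, one_smul]
  let e : OrthonormalBasis (Fin n) ℂ E := EuclideanSpace.basisFun (Fin n) ℂ
  let W : Matrix (Fin n) (Fin n) ℂ := e.toBasis.toMatrix b
  let U : Matrix (Fin n) (Fin n) ℂ := e.toBasis.toMatrix c
  have hW : W ∈ Matrix.unitaryGroup (Fin n) ℂ := e.toMatrix_orthonormalBasis_mem_unitary b
  have hU : U ∈ Matrix.unitaryGroup (Fin n) ℂ := e.toMatrix_orthonormalBasis_mem_unitary c
  have hWa : ∀ i j, W i j = b j i := by
    intro i j
    simp only [W, e, Module.Basis.toMatrix_apply]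
    rfl
  have hUa : ∀ i j, U i j = c j i := by
    intro i j
    simp only [U, e, Module.Basis.toMatrix_apply]
    rfl
  have hXW : X * W = U * Matrix.diagonal (fun i => ((‖f i‖ : ℝ) : ℂ)) := by
    ext i j
    rw [Matrix.mul_diagonal, hUa]
    have h1 : (X * W) i j = (f j) i := by
      show _ = (Matrix.toEuclideanLin X (b j)) i
      rw [Matrix.mul_apply, Matrix.toLpLin_apply]
      simp only [Matrix.mulVec, dotProduct, hWa]
    rw [h1]
    conv_lhs => rw [hc j]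
    show ((‖f j‖ : ℝ) : ℂ) * (c j) i = (c j) i * ((‖f j‖ : ℝ) : ℂ)
    ring
  refine ⟨U, hU, star W, ?_, fun i => ‖f i‖, ?_, fun i => norm_nonneg _, ?_⟩
  · exact Unitary.star_mem hW
  · intro i j hij
    have h1 := hlam hij
    rw [← hnorm, ← hnorm] at h1
    exact le_of_sq_le_sq h1 (norm_nonneg _)
  · rw [← hXW, mul_assoc, Matrix.mem_unitaryGroup_iff.1 hW, mul_one]


end J10

section J11


theorem gd_abel (W d : ℕ → ℝ) (m : ℕ) : ∑ k ∈ Finset.range m, W k * d k =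
    W m * (∑ k ∈ Finset.range m, d k) +
      ∑ k ∈ Finset.range m, (W k - W (k + 1)) * ∑ j ∈ Finset.range (k + 1), d j := by
  induction m with
  | zero => simp
  | succ m ih =>
    rw [Finset.sum_range_succ, ih, Finset.sum_range_succ (fun k => (W k - W (k + 1)) *
      ∑ j ∈ Finset.range (k + 1), d j), Finset.sum_range_succ d m]
    ring

theorem gd_part {n : ℕ} (d' : ℕ → ℝ) (k : ℕ) (hk : k ≤ n) :
    ∑ i ∈ Finset.univ.filter (fun i : Fin n => (i : ℕ) < k), d' i = ∑ i ∈ Finset.range k, d' i := by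
  rw [Finset.sum_filter, Fin.sum_univ_eq_sum_range (fun i => if i < k then d' i else 0) n,
    ← Finset.sum_filter]
  congr 1
  ext i
  simp only [Finset.mem_filter, Finset.mem_range]
  omega

theorem gd_weak {n : ℕ} (w s y : Fin n → ℝ) (hw : Antitone w) (hw0 : ∀ i, 0 ≤ w i)
    (hsy : ∀ k : ℕ, ∑ i ∈ Finset.univ.filter (fun i : Fin n => (i : ℕ) < k), s i ≤
      ∑ i ∈ Finset.univ.filter (fun i : Fin n => (i : ℕ) < k), y i) :
    ∑ i, w i * s i ≤ ∑ i, w i * y i := by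
  let W : ℕ → ℝ := fun k => if h : k < n then w ⟨k, h⟩ else 0
  let d : ℕ → ℝ := fun k => if h : k < n then y ⟨k, h⟩ - s ⟨k, h⟩ else 0
  have hWi : ∀ i : Fin n, W i = w i := fun i => by simp [W]
  have hdi : ∀ i : Fin n, d i = y i - s i := fun i => by simp [d]
  have hD : ∀ k ≤ n, 0 ≤ ∑ j ∈ Finset.range k, d j := by
    intro k hk
    rw [← gd_part (n := n) d k hk]
    simp only [hdi, Finset.sum_sub_distrib]
    exact sub_nonneg.2 (hsy k)
  have hWa : ∀ k < n, 0 ≤ W k - W (k + 1) := by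
    intro k hk
    by_cases hk' : k + 1 < n
    · simp only [W, hk, hk', dif_pos]
      exact sub_nonneg.2 (hw (Fin.mk_le_mk.2 (Nat.le_succ k)))
    · simp only [W, hk, hk', dif_pos, dif_neg, not_false_eq_true, sub_zero]
      exact hw0 _
  have hWn : W n = 0 := by simp [W]
  have h1 : 0 ≤ ∑ k ∈ Finset.range n, W k * d k := by
    rw [gd_abel, hWn, zero_mul, zero_add]
    refine Finset.sum_nonneg fun k hk => ?_
    rw [Finset.mem_range] at hk
    exact mul_nonneg (hWa k hk) (hD (k + 1) hk)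
  rw [← Fin.sum_univ_eq_sum_range (fun k => W k * d k) n] at h1
  simp only [hWi, hdi, mul_sub, Finset.sum_sub_distrib] at h1
  linarith


theorem gauge_dom {n : ℕ} (g : (Fin n → ℝ) → ℝ) (hh : ∀ (c : ℝ) x, g (c • x) = |c| * g x)
    (ht : ∀ x y, g (x + y) ≤ g x + g y) (hperm : ∀ (π : Equiv.Perm (Fin n)) x, g (x ∘ π) = g x)
    (hsign : ∀ (ε : Fin n → ℝ), (∀ i, ε i = 1 ∨ ε i = -1) → ∀ x, g (ε * x) = g x)
    (s y : Fin n → ℝ) (hs : Antitone s) (hs0 : ∀ i, 0 ≤ s i) (hy : Antitone y) (hy0 : ∀ i, 0 ≤ y i)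
    (hsy : ∀ k : ℕ, ∑ i ∈ Finset.univ.filter (fun i : Fin n => (i : ℕ) < k), s i ≤
      ∑ i ∈ Finset.univ.filter (fun i : Fin n => (i : ℕ) < k), y i) :
    g s ≤ g y := by
  classical
  set F : Set (Fin n → ℝ) := Set.range (fun p : (Fin n → Bool) × Equiv.Perm (Fin n) =>
    (fun i => (if p.1 i then (1:ℝ) else -1)) * (y ∘ p.2)) with hF
  have hFfin : F.Finite := Set.finite_range _
  have hmem : s ∈ convexHull ℝ F := by
    by_contra hcon
    have hclosed : IsClosed (convexHull ℝ F) := hFfin.isClosed_convexHull (𝕜 := ℝ)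
    obtain ⟨f, u, hfu, hus⟩ : ∃ (f : (Fin n → ℝ) →L[ℝ] ℝ) (u : ℝ),
        (∀ a ∈ convexHull ℝ F, f a < u) ∧ u < f s :=
      _root_.geometric_hahn_banach_closed_point (E := Fin n → ℝ) (convex_convexHull ℝ F) hclosed hcon
    set z : Fin n → ℝ := fun i => f (Pi.single i 1) with hz
    have hfx : ∀ x : Fin n → ℝ, f x = ∑ i, z i * x i := by
      intro x
      have h1 : x = ∑ i, x i • (Pi.single i 1 : Fin n → ℝ) := by
        funext j
        simp [Finset.sum_apply, Pi.single_apply]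
      conv_lhs => rw [h1]
      rw [map_sum]
      refine Finset.sum_congr rfl fun i _ => ?_
      rw [map_smul, smul_eq_mul, mul_comm]
    set σ : Equiv.Perm (Fin n) := Tuple.sort (fun i => -|z i|) with hσ
    have hmono : Antitone (fun j => |z (σ j)|) := by
      intro a b hab
      have := Tuple.monotone_sort (fun i => -|z i|) hab
      simp only [Function.comp_apply] at this
      exact neg_le_neg_iff.1 this
    set ε : Fin n → Bool := fun i => decide (0 ≤ z i) with hε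
    have haF : ((fun i => (if ε i then (1:ℝ) else -1)) * (y ∘ (σ⁻¹ : Equiv.Perm (Fin n)))) ∈ F :=
      ⟨(ε, σ⁻¹), rfl⟩
    have h2 := hfu _ (subset_convexHull ℝ F haF)
    rw [hfx] at h2 hus
    have h3 : ∀ i, z i * (((fun i => (if ε i then (1:ℝ) else -1)) *
        (y ∘ (σ⁻¹ : Equiv.Perm (Fin n)))) i) = |z i| * y (σ⁻¹ i) := by
      intro i
      simp only [Pi.mul_apply, Function.comp_apply, hε, decide_eq_true_eq]
      by_cases hzi : 0 ≤ z i
      · rw [if_pos hzi, abs_of_nonneg hzi, one_mul]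
      · rw [if_neg hzi, abs_of_neg (not_le.1 hzi)]
        ring
    simp only [h3] at h2
    have h4 : ∑ i, |z i| * y (σ⁻¹ i) = ∑ j, |z (σ j)| * y j := by
      rw [← Equiv.sum_comp σ]
      refine Finset.sum_congr rfl fun j _ => ?_
      simp
    have h5 : ∑ j, |z (σ j)| * s j ≤ ∑ j, |z (σ j)| * y j :=
      gd_weak (fun j => |z (σ j)|) s y hmono (fun _ => abs_nonneg _) hsy
    have h6 : ∑ i, |z i| * s i ≤ ∑ j, |z (σ j)| * s j := by
      have hmv : Monovary (fun j => |z (σ j)|) s := hmono.monovary hs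
      have h7 := hmv.sum_comp_perm_mul_le_sum_mul (σ := σ⁻¹)
      simpa using h7
    have h8 : ∑ i, z i * s i ≤ ∑ i, |z i| * s i :=
      Finset.sum_le_sum fun i _ => mul_le_mul_of_nonneg_right (le_abs_self _) (hs0 i)
    linarith
  have hconv : Convex ℝ {x | g x ≤ g y} := by
    intro a ha b hb t t' ht0 ht0' htt
    have ha' : g a ≤ g y := ha
    have hb' : g b ≤ g y := hb
    change g (t • a + t' • b) ≤ g y
    refine (ht _ _).trans ?_
    rw [hh, hh, abs_of_nonneg ht0, abs_of_nonneg ht0']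
    calc t * g a + t' * g b ≤ t * g y + t' * g y := by gcongr
      _ = g y := by rw [← add_mul, htt, one_mul]
  refine convexHull_min ?_ hconv hmem
  rintro _ ⟨p, rfl⟩
  change g _ ≤ g y
  rw [hsign _ (fun i => by by_cases h : p.1 i <;> simp [h]), hperm]


end J11

section J12


theorem kyfan_max_m_le {n k : ℕ} (W : Matrix (Fin n) (Fin k) ℂ) (hW : Wᴴ * W = 1) (i : Fin n) :
    ∑ j, Complex.normSq (W i j) ≤ 1 := by
  obtain ⟨P, hP⟩ : ∃ P : Matrix (Fin n) (Fin n) ℂ, P = W * Wᴴ := ⟨_, rfl⟩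
  have hPP : P * P = P := by
    rw [hP, Matrix.mul_assoc, ← Matrix.mul_assoc Wᴴ W Wᴴ, hW, Matrix.one_mul]
  have hPH : Pᴴ = P := by
    rw [hP, Matrix.conjTranspose_mul, Matrix.conjTranspose_conjTranspose]
  have hii : P i i = ((∑ j, Complex.normSq (W i j) : ℝ) : ℂ) := by
    rw [hP, Matrix.mul_apply, Complex.ofReal_sum]
    refine Finset.sum_congr rfl fun j _ => ?_
    rw [Matrix.conjTranspose_apply]
    exact Complex.mul_conj _
  have h1 : P i i = ((∑ l, Complex.normSq (P i l) : ℝ) : ℂ) := by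
    conv_lhs => rw [← hPP]
    rw [Matrix.mul_apply, Complex.ofReal_sum]
    refine Finset.sum_congr rfl fun l _ => ?_
    have : P l i = star (P i l) := by
      conv_lhs => rw [← hPH]
      rw [Matrix.conjTranspose_apply]
    rw [this]
    exact Complex.mul_conj _
  obtain ⟨m, hm⟩ : ∃ m : ℝ, m = ∑ j, Complex.normSq (W i j) := ⟨_, rfl⟩
  rw [← hm] at hii ⊢
  have hm0 : 0 ≤ m := by
    rw [hm]; exact Finset.sum_nonneg fun j _ => Complex.normSq_nonneg _
  rw [hii] at h1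
  have h2 : m = ∑ l, Complex.normSq (P i l) := by exact_mod_cast h1
  have h3 : Complex.normSq (P i i) ≤ ∑ l, Complex.normSq (P i l) :=
    Finset.single_le_sum (f := fun l => Complex.normSq (P i l))
      (fun l _ => Complex.normSq_nonneg _) (Finset.mem_univ i)
  rw [hii, Complex.normSq_ofReal, ← h2] at h3
  by_contra hcon
  push Not at hcon
  nlinarith

theorem kyfan_max_sum {n k : ℕ} (W : Matrix (Fin n) (Fin k) ℂ) (hW : Wᴴ * W = 1) :
    ∑ i, ∑ j, Complex.normSq (W i j) = k := by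
  rw [Finset.sum_comm]
  have h1 : ∀ j, ∑ i, Complex.normSq (W i j) = 1 := by
    intro j
    have h2 : (Wᴴ * W) j j = 1 := by rw [hW]; simp
    rw [Matrix.mul_apply] at h2
    have h3 : ∑ i, Wᴴ j i * W i j = ((∑ i, Complex.normSq (W i j) : ℝ) : ℂ) := by
      rw [Complex.ofReal_sum]
      refine Finset.sum_congr rfl fun i _ => ?_
      rw [Matrix.conjTranspose_apply, mul_comm]
      exact Complex.mul_conj _
    rw [h3] at h2
    exact_mod_cast h2
  simp [h1]

theorem kyfan_max_trace {n k : ℕ} (y : Fin n → ℝ) (W : Matrix (Fin n) (Fin k) ℂ) :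
    (Wᴴ * Matrix.diagonal (fun i => (y i : ℂ)) * W).trace.re =
      ∑ i, y i * ∑ j, Complex.normSq (W i j) := by
  have h1 : (Wᴴ * Matrix.diagonal (fun i => (y i : ℂ)) * W).trace =
      ((∑ i, y i * ∑ j, Complex.normSq (W i j) : ℝ) : ℂ) := by
    have hj : ∀ j, (Wᴴ * Matrix.diagonal (fun i => (y i : ℂ)) * W) j j =
        ∑ i, star (W i j) * (y i : ℂ) * W i j := by
      intro j
      rw [Matrix.mul_apply]
      refine Finset.sum_congr rfl fun i _ => ?_
      rw [Matrix.mul_diagonal, Matrix.conjTranspose_apply]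
    have ht : (Wᴴ * Matrix.diagonal (fun i => (y i : ℂ)) * W).trace =
        ∑ j, ∑ i, star (W i j) * (y i : ℂ) * W i j := by
      unfold Matrix.trace
      exact Finset.sum_congr rfl fun j _ => hj j
    rw [ht, Finset.sum_comm, Complex.ofReal_sum]
    refine Finset.sum_congr rfl fun i _ => ?_
    rw [Finset.mul_sum, Complex.ofReal_sum]
    refine Finset.sum_congr rfl fun j _ => ?_
    rw [Complex.ofReal_mul]
    have h2 : (star (W i j)) * W i j = ((Complex.normSq (W i j) : ℝ) : ℂ) := by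
      rw [mul_comm]; exact Complex.mul_conj _
    rw [← h2]
    ring
  rw [h1, Complex.ofReal_re]


theorem kyfan_max {n k : ℕ} (hk : k ≤ n) (y : Fin n → ℝ) (hy : Antitone y) (hy0 : ∀ i, 0 ≤ y i)
    (W : Matrix (Fin n) (Fin k) ℂ) (hW : Wᴴ * W = 1) :
    (Wᴴ * Matrix.diagonal (fun i => (y i : ℂ)) * W).trace.re ≤
      ∑ i ∈ Finset.univ.filter (fun i : Fin n => (i : ℕ) < k), y i := by
  rw [kyfan_max_trace]
  obtain ⟨m, hm⟩ : ∃ m : Fin n → ℝ, m = fun i => ∑ j, Complex.normSq (W i j) := ⟨_, rfl⟩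
  have hm1 : ∀ i, m i ≤ 1 := fun i => by rw [hm]; exact kyfan_max_m_le W hW i
  have hm0 : ∀ i, 0 ≤ m i := fun i => by
    rw [hm]; exact Finset.sum_nonneg fun j _ => Complex.normSq_nonneg _
  have hms : ∑ i, m i = k := by rw [hm]; exact kyfan_max_sum W hW
  have hgoal : ∑ i, y i * ∑ j, Complex.normSq (W i j) = ∑ i, y i * m i := by rw [hm]
  rw [hgoal, Finset.sum_filter]
  have hcard : ∑ i : Fin n, (if (i : ℕ) < k then (1 : ℝ) else 0) = k := by
    rw [← Finset.sum_filter, Finset.sum_const, nsmul_eq_mul, mul_one]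
    have h1 : (Finset.univ.filter (fun i : Fin n => (i : ℕ) < k)).card = k := by
      have h2 : Finset.univ.filter (fun i : Fin n => (i : ℕ) < k) =
          (Finset.univ : Finset (Fin k)).map (Fin.castLEEmb hk) := by
        ext i
        simp only [Finset.mem_filter, Finset.mem_univ, true_and, Finset.mem_map]
        constructor
        · intro hi
          exact ⟨⟨i, hi⟩, rfl⟩
        · rintro ⟨j, rfl⟩
          exact j.2
      rw [h2, Finset.card_map, Finset.card_univ, Fintype.card_fin]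
    exact_mod_cast h1
  rcases Nat.eq_zero_or_pos k with h0 | hpos
  · -- k = 0
    subst h0
    have hz : ∀ i, m i = 0 := by
      intro i
      have h1 : ∑ i, m i = 0 := by rw [hms]; simp
      exact (Finset.sum_eq_zero_iff_of_nonneg (fun i _ => hm0 i)).1 h1 i (Finset.mem_univ i)
    simp [hz]
  · obtain ⟨c, hc⟩ : ∃ c : ℝ, c = y ⟨k - 1, by omega⟩ := ⟨_, rfl⟩
    have hpt : ∀ i : Fin n, y i * m i ≤ (if (i : ℕ) < k then y i else 0) +
        c * (m i - (if (i : ℕ) < k then (1 : ℝ) else 0)) := by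
      intro i
      split_ifs with hi
      · have h1 : c ≤ y i := by
          rw [hc]
          apply hy
          show (i : ℕ) ≤ k - 1
          omega
        nlinarith [hm1 i, mul_nonneg (sub_nonneg.2 h1) (sub_nonneg.2 (hm1 i))]
      · have h1 : y i ≤ c := by
          rw [hc]
          apply hy
          show k - 1 ≤ (i : ℕ)
          omega
        nlinarith [mul_nonneg (sub_nonneg.2 h1) (hm0 i)]
    have h2 := Finset.sum_le_sum fun i (_ : i ∈ Finset.univ) => hpt i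
    rw [Finset.sum_add_distrib, ← Finset.mul_sum, Finset.sum_sub_distrib, hms, hcard, sub_self,
      mul_zero, add_zero] at h2
    exact h2


end J12

section J13






theorem fan_gperm {n : ℕ} (π : Equiv.Perm (Fin n)) :
    (1 : Matrix (Fin n) (Fin n) ℂ).submatrix π id ∈ Matrix.unitaryGroup (Fin n) ℂ := by
  rw [Matrix.mem_unitaryGroup_iff]
  ext i j
  simp [Matrix.mul_apply, Matrix.star_eq_conjTranspose, Matrix.one_apply, eq_comm]

theorem fan_gperm' {n : ℕ} (π : Equiv.Perm (Fin n)) :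
    (1 : Matrix (Fin n) (Fin n) ℂ).submatrix id π ∈ Matrix.unitaryGroup (Fin n) ℂ := by
  rw [Matrix.mem_unitaryGroup_iff']
  ext i j
  simp [Matrix.mul_apply, Matrix.star_eq_conjTranspose, Matrix.one_apply, eq_comm]

theorem fan_permdiag {n : ℕ} (π : Equiv.Perm (Fin n)) (v : Fin n → ℂ) :
    Matrix.diagonal (fun i => v (π i)) = (1 : Matrix (Fin n) (Fin n) ℂ).submatrix π id *
      Matrix.diagonal v * (1 : Matrix (Fin n) (Fin n) ℂ).submatrix id π := by
  ext i j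
  rw [Matrix.mul_apply]
  simp only [Matrix.mul_diagonal, Matrix.submatrix_apply, id, Matrix.one_apply,
    Matrix.diagonal_apply, mul_ite, mul_one, mul_zero, ite_mul, one_mul, zero_mul]
  rw [Finset.sum_ite_eq' Finset.univ (π j)]
  by_cases hij : i = j
  · subst hij
    simp
  · simp [hij]

theorem fan_signdiag {n : ℕ} (ε : Fin n → ℝ) (hε : ∀ i, ε i = 1 ∨ ε i = -1) :
    Matrix.diagonal (fun i => ((ε i : ℝ) : ℂ)) ∈ Matrix.unitaryGroup (Fin n) ℂ := by
  rw [Matrix.mem_unitaryGroup_iff, Matrix.star_eq_conjTranspose, Matrix.diagonal_conjTranspose,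
    Matrix.diagonal_mul_diagonal, ← Matrix.diagonal_one]
  congr 1
  funext i
  rcases hε i with h | h <;> simp [h]

theorem fan_sum_castLE {n k : ℕ} (hk : k ≤ n) (s : Fin n → ℝ) :
    ∑ j : Fin k, s (Fin.castLE hk j) =
      ∑ i ∈ Finset.univ.filter (fun i : Fin n => (i : ℕ) < k), s i := by
  refine Finset.sum_bij (fun j _ => Fin.castLE hk j) ?_ ?_ ?_ ?_
  · intro j _
    simp
  · intro a _ b _ hab
    exact Fin.castLE_injective hk hab
  · intro i hi
    rw [Finset.mem_filter] at hi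
    exact ⟨⟨i, hi.2⟩, Finset.mem_univ _, Fin.ext rfl⟩
  · intro j _
    rfl

theorem fan_E {n k : ℕ} (hk : k ≤ n) :
    ((1 : Matrix (Fin n) (Fin n) ℂ).submatrix id (Fin.castLE hk))ᴴ *
      (1 : Matrix (Fin n) (Fin n) ℂ).submatrix id (Fin.castLE hk) = 1 := by
  ext i j
  simp [Matrix.mul_apply, Matrix.one_apply, eq_comm]

theorem fan_Etr {n k : ℕ} (hk : k ≤ n) (s : Fin n → ℝ) :
    (((1 : Matrix (Fin n) (Fin n) ℂ).submatrix id (Fin.castLE hk))ᴴ *
      Matrix.diagonal (fun i => (s i : ℂ)) *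
      (1 : Matrix (Fin n) (Fin n) ℂ).submatrix id (Fin.castLE hk)).trace.re =
      ∑ i ∈ Finset.univ.filter (fun i : Fin n => (i : ℕ) < k), s i := by
  rw [← fan_sum_castLE hk, Matrix.trace, Complex.re_sum]
  apply Finset.sum_congr rfl
  intro j _
  rw [Matrix.diag_apply, Matrix.mul_apply]
  simp [Matrix.mul_diagonal, Matrix.one_apply]

/-- two sided Ky Fan inequality -/
theorem fan_two {n k : ℕ} (hk : k ≤ n) (y : Fin n → ℝ) (hy : Antitone y) (hy0 : ∀ i, 0 ≤ y i)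
    (A B : Matrix (Fin n) (Fin k) ℂ) (hA : Aᴴ * A = 1) (hB : Bᴴ * B = 1) :
    (Aᴴ * Matrix.diagonal (fun i => (y i : ℂ)) * B).trace.re ≤
      ∑ i ∈ Finset.univ.filter (fun i : Fin n => (i : ℕ) < k), y i := by
  have h1 := kyfan_max hk y hy hy0 A hA
  have h2 := kyfan_max hk y hy hy0 B hB
  have hD : (Matrix.diagonal (fun i => (y i : ℂ))).PosSemidef := by
    rw [Matrix.posSemidef_diagonal_iff]
    intro i
    exact_mod_cast hy0 i
  have h3 := (hD.conjTranspose_mul_mul_same (A - B)).trace_nonneg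
  have h3' := (Complex.le_def.1 h3).1
  have hDH : (Matrix.diagonal (fun i => (y i : ℂ)))ᴴ = Matrix.diagonal (fun i => (y i : ℂ)) :=
    hD.isHermitian
  have h4 : (Bᴴ * Matrix.diagonal (fun i => (y i : ℂ)) * A).trace.re =
      (Aᴴ * Matrix.diagonal (fun i => (y i : ℂ)) * B).trace.re := by
    have : Bᴴ * Matrix.diagonal (fun i => (y i : ℂ)) * A =
        (Aᴴ * Matrix.diagonal (fun i => (y i : ℂ)) * B)ᴴ := by
      rw [Matrix.conjTranspose_mul, Matrix.conjTranspose_mul, Matrix.conjTranspose_conjTranspose,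
        hDH, Matrix.mul_assoc]
    rw [this, Matrix.trace_conjTranspose]
    simp
  have h5 : ((A - B)ᴴ * Matrix.diagonal (fun i => (y i : ℂ)) * (A - B)).trace.re =
      (Aᴴ * Matrix.diagonal (fun i => (y i : ℂ)) * A).trace.re -
      (Aᴴ * Matrix.diagonal (fun i => (y i : ℂ)) * B).trace.re -
      (Bᴴ * Matrix.diagonal (fun i => (y i : ℂ)) * A).trace.re +
      (Bᴴ * Matrix.diagonal (fun i => (y i : ℂ)) * B).trace.re := by
    rw [Matrix.conjTranspose_sub, Matrix.sub_mul, Matrix.sub_mul, Matrix.mul_sub, Matrix.mul_sub]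
    simp only [Matrix.trace_sub, Complex.sub_re]
    ring
  rw [h5, h4] at h3'
  simp only [Complex.zero_re] at h3'
  linarith

theorem fan_unit_mul {n k : ℕ} (U : Matrix (Fin n) (Fin n) ℂ)
    (hU : U ∈ Matrix.unitaryGroup (Fin n) ℂ) (W : Matrix (Fin n) (Fin k) ℂ) (hW : Wᴴ * W = 1) :
    (U * W)ᴴ * (U * W) = 1 := by
  have h1 : Uᴴ * U = 1 := by
    have := Matrix.mem_unitaryGroup_iff'.1 hU
    rwa [Matrix.star_eq_conjTranspose] at this
  calc (U * W)ᴴ * (U * W) = Wᴴ * (Uᴴ * U) * W := by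
        rw [Matrix.conjTranspose_mul]
        simp only [Matrix.mul_assoc]
    _ = 1 := by rw [h1, Matrix.mul_one, hW]


theorem fan {n : ℕ} (N : Matrix (Fin n) (Fin n) ℂ → ℝ)
    (hh : ∀ (c : ℂ) (X : Matrix (Fin n) (Fin n) ℂ), N (c • X) = ‖c‖ * N X)
    (ht : ∀ X Y, N (X + Y) ≤ N X + N Y)
    (hu : ∀ U ∈ Matrix.unitaryGroup (Fin n) ℂ, ∀ V ∈ Matrix.unitaryGroup (Fin n) ℂ,
        ∀ X, N (U * X * V) = N X)
    (X T : Matrix (Fin n) (Fin n) ℂ) (hT : 0 ≤ T)
    (h : ∀ (k : ℕ) (G G' : Matrix (Fin n) (Fin k) ℂ), Gᴴ * G = 1 → G'ᴴ * G' = 1 → ∀ c : ℝ,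
      (∀ W : Matrix (Fin n) (Fin k) ℂ, Wᴴ * W = 1 → (Wᴴ * T * W).trace.re ≤ c) →
      (Gᴴ * X * G').trace.re ≤ c) :
    N X ≤ N T := by
  obtain ⟨U, hU, V, hV, s, hs, hs0, hX⟩ := svd X
  obtain ⟨U', hU', V', hV', y, hy, hy0, hTT⟩ := svd T
  have hNX : N X = N (Matrix.diagonal (fun i => (s i : ℂ))) := by
    rw [hX]
    exact hu U hU V hV _
  have hNT : N T = N (Matrix.diagonal (fun i => (y i : ℂ))) := by
    rw [hTT]
    exact hu U' hU' V' hV' _
  rw [hNX, hNT]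
  have hUs : Uᴴ ∈ Matrix.unitaryGroup (Fin n) ℂ := by
    have := Unitary.star_mem hU
    rwa [Matrix.star_eq_conjTranspose] at this
  have hVs : Vᴴ ∈ Matrix.unitaryGroup (Fin n) ℂ := by
    have := Unitary.star_mem hV
    rwa [Matrix.star_eq_conjTranspose] at this
  have hUs' : U'ᴴ ∈ Matrix.unitaryGroup (Fin n) ℂ := by
    have := Unitary.star_mem hU'
    rwa [Matrix.star_eq_conjTranspose] at this
  have hUU : Uᴴ * U = 1 := by
    have := Matrix.mem_unitaryGroup_iff'.1 hU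
    rwa [Matrix.star_eq_conjTranspose] at this
  have hVV : V * Vᴴ = 1 := by
    have := Matrix.mem_unitaryGroup_iff.1 hV
    rwa [Matrix.star_eq_conjTranspose] at this
  refine gauge_dom (fun x => N (Matrix.diagonal (fun i => ((x i : ℝ) : ℂ)))) ?_ ?_ ?_ ?_ s y hs hs0
    hy hy0 ?_
  · intro c x
    have : Matrix.diagonal (fun i => (((c • x) i : ℝ) : ℂ)) =
        (c : ℂ) • Matrix.diagonal (fun i => ((x i : ℝ) : ℂ)) := by
      rw [← Matrix.diagonal_smul]
      congr 1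
      funext i
      simp
    show N _ = |c| * N _
    rw [this, hh]
    simp
  · intro x z
    have : Matrix.diagonal (fun i => (((x + z) i : ℝ) : ℂ)) =
        Matrix.diagonal (fun i => ((x i : ℝ) : ℂ)) + Matrix.diagonal (fun i => ((z i : ℝ) : ℂ)) := by
      rw [Matrix.diagonal_add]
      congr 1
      funext i
      simp
    show N _ ≤ N _ + N _
    rw [this]
    exact ht _ _
  · intro π x
    have := fan_permdiag π (fun i => ((x i : ℝ) : ℂ))
    show N (Matrix.diagonal (fun i => ((x (π i) : ℝ) : ℂ))) = N _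
    rw [this]
    exact hu _ (fan_gperm π) _ (fan_gperm' π) _
  · intro ε hε x
    have : Matrix.diagonal (fun i => (((ε * x) i : ℝ) : ℂ)) =
        Matrix.diagonal (fun i => ((ε i : ℝ) : ℂ)) * Matrix.diagonal (fun i => ((x i : ℝ) : ℂ)) *
          1 := by
      rw [Matrix.mul_one, Matrix.diagonal_mul_diagonal]
      congr 1
      funext i
      simp
    show N _ = N _
    rw [this]
    exact hu _ (fan_signdiag ε hε) _ (one_mem _) _
  · -- partial sums
    have main : ∀ k : ℕ, k ≤ n →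
        ∑ i ∈ Finset.univ.filter (fun i : Fin n => (i : ℕ) < k), s i ≤
        ∑ i ∈ Finset.univ.filter (fun i : Fin n => (i : ℕ) < k), y i := by
      intro k hk
      have h1 := h k (U * (1 : Matrix (Fin n) (Fin n) ℂ).submatrix id (Fin.castLE hk))
        (Vᴴ * (1 : Matrix (Fin n) (Fin n) ℂ).submatrix id (Fin.castLE hk))
        (fan_unit_mul U hU _ (fan_E hk)) (fan_unit_mul Vᴴ hVs _ (fan_E hk))
        (∑ i ∈ Finset.univ.filter (fun i : Fin n => (i : ℕ) < k), y i) ?_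
      · have h2 : (U * (1 : Matrix (Fin n) (Fin n) ℂ).submatrix id (Fin.castLE hk))ᴴ * X *
            (Vᴴ * (1 : Matrix (Fin n) (Fin n) ℂ).submatrix id (Fin.castLE hk)) =
            ((1 : Matrix (Fin n) (Fin n) ℂ).submatrix id (Fin.castLE hk))ᴴ *
            Matrix.diagonal (fun i => (s i : ℂ)) *
            (1 : Matrix (Fin n) (Fin n) ℂ).submatrix id (Fin.castLE hk) := by
          rw [hX, Matrix.conjTranspose_mul]
          calc _ = ((1 : Matrix (Fin n) (Fin n) ℂ).submatrix id (Fin.castLE hk))ᴴ * (Uᴴ * U) *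
                Matrix.diagonal (fun i => (s i : ℂ)) * (V * Vᴴ) *
                (1 : Matrix (Fin n) (Fin n) ℂ).submatrix id (Fin.castLE hk) := by
                simp only [Matrix.mul_assoc]
            _ = _ := by rw [hUU, hVV, Matrix.mul_one, Matrix.mul_one]
        rw [h2, fan_Etr] at h1
        exact h1
      · intro W hW
        have h3 : Wᴴ * T * W = (U'ᴴ * W)ᴴ * Matrix.diagonal (fun i => (y i : ℂ)) * (V' * W) := by
          rw [hTT, Matrix.conjTranspose_mul, Matrix.conjTranspose_conjTranspose]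
          simp only [Matrix.mul_assoc]
        rw [h3]
        exact fan_two hk y hy hy0 _ _ (fan_unit_mul _ hUs' _ hW) (fan_unit_mul _ hV' _ hW)
    intro k
    rcases le_total k n with hk | hk
    · exact main k hk
    · have hf : Finset.univ.filter (fun i : Fin n => (i : ℕ) < k) =
          Finset.univ.filter (fun i : Fin n => (i : ℕ) < n) := by
        ext i
        simp only [Finset.mem_filter, Finset.mem_univ, true_and]
        constructor
        · intro _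
          exact i.2
        · intro _
          exact lt_of_lt_of_le i.2 hk
      rw [hf]
      exact main n le_rfl


end J13

theorem spec_rpow_eq {n : ℕ} (A : Matrix (Fin n) (Fin n) ℂ) (hA : A.PosSemidef) (p : ℝ) :
    (hA.isHermitian.eigenvectorUnitary : Matrix (Fin n) (Fin n) ℂ)
            * Matrix.diagonal (fun i => Complex.ofReal (hA.isHermitian.eigenvalues i ^ p))
            * star (hA.isHermitian.eigenvectorUnitary : Matrix (Fin n) (Fin n) ℂ) = A ^ p := by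
  have h1 : A ^ p = cfc (fun x : ℝ => x ^ p) A :=
    CFC.rpow_eq_cfc_real (a := A) (y := p) (Matrix.nonneg_iff_posSemidef.mpr hA)
  rw [h1, hA.isHermitian.cfc_eq, Matrix.IsHermitian.cfc, Unitary.conjStarAlgAut_apply]
  rfl

theorem kyfan_all {n k : ℕ} (A B : Matrix (Fin n) (Fin n) ℂ) (hA : 0 ≤ A) (hB : 0 ≤ B)
    (t c : ℝ) (ht0 : 0 < t) (ht1 : t < 1) (G G' : Matrix (Fin n) (Fin k) ℂ) (hG : Gᴴ * G = 1)
    (hG' : G'ᴴ * G' = 1)
    (hc : ∀ W : Matrix (Fin n) (Fin k) ℂ, Wᴴ * W = 1 → (Wᴴ * (A + B) * W).trace.re ≤ c) :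
    (Gᴴ * (A ^ t * B ^ (1 - t) + B ^ t * A ^ (1 - t)) * G').trace.re ≤ c := by
  rcases le_or_gt t (1 / 2) with h | h
  · exact kyfan_psd A B hA hB t c ht0 h G G' hG hG' hc
  · have h2 := kyfan_psd A B hA hB (1 - t) c (by linarith) (by linarith) G' G hG' hG hc
    have hsa : ∀ (c : Matrix (Fin n) (Fin n) ℂ) (y : ℝ), (c ^ y)ᴴ = c ^ y := fun c y =>
      (IsSelfAdjoint.of_nonneg (CFC.rpow_nonneg (a := c) (y := y))).star_eq
    have e : (Gᴴ * (A ^ t * B ^ (1 - t) + B ^ t * A ^ (1 - t)) * G') =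
        (G'ᴴ * (A ^ (1 - t) * B ^ (1 - (1 - t)) + B ^ (1 - t) * A ^ (1 - (1 - t))) * G)ᴴ := by
      simp only [conjTranspose_mul, conjTranspose_add, hsa, conjTranspose_conjTranspose]
      rw [show (1 : ℝ) - (1 - t) = t by ring]
      rw [Matrix.mul_assoc, add_comm (A ^ t * B ^ (1 - t))]
    rw [e, trace_conjTranspose]
    simpa using h2

theorem main (n : ℕ) (A B : Matrix (Fin n) (Fin n) ℂ) (hA : A.PosSemidef) (hB : B.PosSemidef)
    (p q : ℝ) (hp : 0 < p) (hq : 0 < q)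
    (N : Matrix (Fin n) (Fin n) ℂ → ℝ)
    (hh : ∀ (c : ℂ) (X : Matrix (Fin n) (Fin n) ℂ), N (c • X) = ‖c‖ * N X)
    (ht : ∀ X Y, N (X + Y) ≤ N X + N Y)
    (hu : ∀ U ∈ Matrix.unitaryGroup (Fin n) ℂ, ∀ V ∈ Matrix.unitaryGroup (Fin n) ℂ,
        ∀ X, N (U * X * V) = N X) :
    N ((hA.isHermitian.eigenvectorUnitary : Matrix (Fin n) (Fin n) ℂ)
            * Matrix.diagonal (fun i => Complex.ofReal (hA.isHermitian.eigenvalues i ^ p))
            * star (hA.isHermitian.eigenvectorUnitary : Matrix (Fin n) (Fin n) ℂ)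
          * ((hB.isHermitian.eigenvectorUnitary : Matrix (Fin n) (Fin n) ℂ)
            * Matrix.diagonal (fun i => Complex.ofReal (hB.isHermitian.eigenvalues i ^ q))
            * star (hB.isHermitian.eigenvectorUnitary : Matrix (Fin n) (Fin n) ℂ))
        + (hB.isHermitian.eigenvectorUnitary : Matrix (Fin n) (Fin n) ℂ)
            * Matrix.diagonal (fun i => Complex.ofReal (hB.isHermitian.eigenvalues i ^ p))
            * star (hB.isHermitian.eigenvectorUnitary : Matrix (Fin n) (Fin n) ℂ)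
          * ((hA.isHermitian.eigenvectorUnitary : Matrix (Fin n) (Fin n) ℂ)
            * Matrix.diagonal (fun i => Complex.ofReal (hA.isHermitian.eigenvalues i ^ q))
            * star (hA.isHermitian.eigenvectorUnitary : Matrix (Fin n) (Fin n) ℂ)))
        ≤ N ((hA.isHermitian.eigenvectorUnitary : Matrix (Fin n) (Fin n) ℂ)
            * Matrix.diagonal (fun i => Complex.ofReal (hA.isHermitian.eigenvalues i ^ (p + q)))
            * star (hA.isHermitian.eigenvectorUnitary : Matrix (Fin n) (Fin n) ℂ)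
          + (hB.isHermitian.eigenvectorUnitary : Matrix (Fin n) (Fin n) ℂ)
            * Matrix.diagonal (fun i => Complex.ofReal (hB.isHermitian.eigenvalues i ^ (p + q)))
            * star (hB.isHermitian.eigenvectorUnitary : Matrix (Fin n) (Fin n) ℂ)) := by
  rw [spec_rpow_eq A hA p, spec_rpow_eq B hB q, spec_rpow_eq B hB p, spec_rpow_eq A hA q,
    spec_rpow_eq A hA (p + q), spec_rpow_eq B hB (p + q)]
  have hA0 : 0 ≤ A := Matrix.nonneg_iff_posSemidef.mpr hA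
  have hB0 : 0 ≤ B := Matrix.nonneg_iff_posSemidef.mpr hB
  have hs : 0 < p + q := by linarith
  have h0 : 0 ≤ p / (p + q) := by positivity
  have h1 : 0 ≤ 1 - p / (p + q) := by
    rw [sub_nonneg, div_le_one hs]; linarith
  have e1 : (p + q) * (p / (p + q)) = p := by field_simp
  have e2 : (p + q) * (1 - p / (p + q)) = q := by field_simp; ring
  have ea1 : A ^ p = (A ^ (p + q)) ^ (p / (p + q)) := by
    rw [CFC.rpow_rpow_of_exponent_nonneg A _ _ hs.le h0 hA0, e1]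
  have ea2 : A ^ q = (A ^ (p + q)) ^ (1 - p / (p + q)) := by
    rw [CFC.rpow_rpow_of_exponent_nonneg A _ _ hs.le h1 hA0, e2]
  have eb1 : B ^ p = (B ^ (p + q)) ^ (p / (p + q)) := by
    rw [CFC.rpow_rpow_of_exponent_nonneg B _ _ hs.le h0 hB0, e1]
  have eb2 : B ^ q = (B ^ (p + q)) ^ (1 - p / (p + q)) := by
    rw [CFC.rpow_rpow_of_exponent_nonneg B _ _ hs.le h1 hB0, e2]
  apply fan N hh ht hu _ _ (add_nonneg CFC.rpow_nonneg CFC.rpow_nonneg)
  intro k G G' hG hG' c hc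
  rw [ea1, ea2, eb1, eb2]
  exact kyfan_all _ _ CFC.rpow_nonneg CFC.rpow_nonneg _ c (by positivity)
    (by rw [div_lt_one hs]; linarith) G G' hG hG' hc

end Pool.Agent.Helper296.Bourin
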