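import Pool.Agent.Helper296.Div

set_option autoImplicit false
set_option linter.unusedSectionVars false
set_option linter.unusedVariables false
set_option linter.unusedSimpArgs false

namespace Pool.Agent.Helper296

open scoped ENNReal BigOperators
open MvPowerSeries

variable {σ : Type*} [Fintype σ]

/-- convergent power series: finite norm for some positive radius -/
def IsConv (a : MvPowerSeries σ ℂ) : Prop := ∃ r : ℝ≥0∞, r ≠ 0 ∧ r ≠ ∞ ∧ nrm (fun _ => r) a ≠ ∞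

lemma nrm_ne_top_mono {w w' : σ → ℝ≥0∞} (h : ∀ i, w i ≤ w' i) {a : MvPowerSeries σ ℂ}
    (ha : nrm w' a ≠ ∞) : nrm w a ≠ ∞ := ne_top_of_le_ne_top ha (nrm_mono h a)

lemma IsConv.add {a b : MvPowerSeries σ ℂ} (ha : IsConv a) (hb : IsConv b) : IsConv (a + b) := by
  obtain ⟨r, hr, hr', h1⟩ := ha
  obtain ⟨s, hs, hs', h2⟩ := hb
  refine ⟨min r s, (lt_min (pos_iff_ne_zero.mpr hr) (pos_iff_ne_zero.mpr hs)).ne', ?_, ?_⟩
  · exact ne_top_of_le_ne_top hr' (min_le_left _ _)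
  · refine ne_top_of_le_ne_top (ENNReal.add_ne_top.mpr ⟨?_, ?_⟩) (nrm_add_le a b)
    · exact nrm_ne_top_mono (fun _ => min_le_left _ _) h1
    · exact nrm_ne_top_mono (fun _ => min_le_right _ _) h2

lemma IsConv.mul {a b : MvPowerSeries σ ℂ} (ha : IsConv a) (hb : IsConv b) : IsConv (a * b) := by
  obtain ⟨r, hr, hr', h1⟩ := ha
  obtain ⟨s, hs, hs', h2⟩ := hb
  refine ⟨min r s, (lt_min (pos_iff_ne_zero.mpr hr) (pos_iff_ne_zero.mpr hs)).ne', ?_, ?_⟩
  · exact ne_top_of_le_ne_top hr' (min_le_left _ _)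
  · refine ne_top_of_le_ne_top (ENNReal.mul_ne_top ?_ ?_) (nrm_mul_le a b)
    · exact nrm_ne_top_mono (fun _ => min_le_left _ _) h1
    · exact nrm_ne_top_mono (fun _ => min_le_right _ _) h2

lemma isConv_C (c : ℂ) : IsConv (C c : MvPowerSeries σ ℂ) :=
  ⟨1, one_ne_zero, ENNReal.one_ne_top, by rw [nrm_C]; simp⟩

lemma isConv_monomial (α : σ →₀ ℕ) (c : ℂ) : IsConv (monomial α c : MvPowerSeries σ ℂ) := by
  refine ⟨1, one_ne_zero, ENNReal.one_ne_top, ?_⟩
  rw [nrm_monomial]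
  exact ENNReal.mul_ne_top (by simp) (mono_ne_top (fun _ => ENNReal.one_ne_top) α)

variable (σ) in
/-- The algebra of convergent power series -/
def Conv : Subalgebra ℂ (MvPowerSeries σ ℂ) where
  carrier := {a | IsConv a}
  mul_mem' := IsConv.mul
  add_mem' := IsConv.add
  algebraMap_mem' c := by
    rw [← c_eq_algebraMap]
    exact isConv_C c

lemma mem_Conv {a : MvPowerSeries σ ℂ} : a ∈ Conv σ ↔ IsConv a := Iff.rfl

/-- common radius for a finite family -/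
lemma exists_common_radius {ι : Type*} (s : Finset ι) (f : ι → MvPowerSeries σ ℂ)
    (hf : ∀ i ∈ s, IsConv (f i)) (r₀ : ℝ≥0∞) (hr₀ : r₀ ≠ 0) :
    ∃ r : ℝ≥0∞, r ≠ 0 ∧ r ≠ ∞ ∧ r ≤ r₀ ∧ ∀ i ∈ s, nrm (fun _ => r) (f i) ≠ ∞ := by
  classical
  induction s using Finset.induction_on with
  | empty =>
    refine ⟨min r₀ 1, (lt_min (pos_iff_ne_zero.mpr hr₀) one_pos).ne', ?_, min_le_left _ _, by simp⟩
    exact ne_top_of_le_ne_top ENNReal.one_ne_top (min_le_right _ _)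
  | insert a s ha ih =>
    obtain ⟨r, hr, hr', hrr, h⟩ := ih (fun i hi => hf i (Finset.mem_insert_of_mem hi))
    obtain ⟨t, ht, ht', h2⟩ := hf a (Finset.mem_insert_self _ _)
    refine ⟨min r t, (lt_min (pos_iff_ne_zero.mpr hr) (pos_iff_ne_zero.mpr ht)).ne', ?_,
      (min_le_left _ _).trans hrr, ?_⟩
    · exact ne_top_of_le_ne_top hr' (min_le_left _ _)
    · intro i hi
      rcases Finset.mem_insert.mp hi with rfl | hi
      · exact nrm_ne_top_mono (fun _ => min_le_right _ _) h2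
      · exact nrm_ne_top_mono (fun _ => min_le_left _ _) (h i hi)

section Noeth

/-- an injection of a fintype in the primes -/
noncomputable def pr (i : σ) : ℕ := Nat.nth Nat.Prime (Fintype.equivFin σ i)

lemma pr_prime (i : σ) : (pr i).Prime := Nat.prime_nth_prime _

lemma pr_inj : Function.Injective (pr : σ → ℕ) := by
  intro i j h
  have := Nat.nth_injective Nat.infinite_setOfPred_prime h
  exact (Fintype.equivFin σ).injective (Fin.ext this)

/-- numerical code of an exponent -/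
noncomputable def NN (α : σ →₀ ℕ) : ℕ := mono (pr : σ → ℕ) α

lemma NN_pos (α : σ →₀ ℕ) : 0 < NN α :=
  Finset.prod_pos (fun i _ => pow_pos (pr_prime i).pos _)

lemma NN_factorization (α : σ →₀ ℕ) (j : σ) : (NN α).factorization (pr j) = α j := by
  classical
  unfold NN mono
  rw [Nat.factorization_prod (fun i _ => pow_ne_zero _ (pr_prime i).ne_zero)]
  simp only [Nat.factorization_pow, Finsupp.coe_finsetSum, Finset.sum_apply, Finsupp.smul_apply]
  rw [Finset.sum_eq_single j]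
  · simp [(pr_prime j).factorization_self]
  · intro b _ hb
    have : (pr b).factorization (pr j) = 0 := by
      apply Nat.factorization_eq_zero_of_not_dvd
      rw [Nat.prime_dvd_prime_iff_eq (pr_prime j) (pr_prime b)]
      exact fun h => hb (pr_inj h.symm)
    simp [this]
  · simp

lemma NN_inj : Function.Injective (NN : (σ →₀ ℕ) → ℕ) := by
  intro α β h
  ext j
  rw [← NN_factorization α j, h, NN_factorization]

/-- weights -/
noncomputable def pw (s : ℕ) : σ → ℝ≥0∞ := fun i => ((pr i : ℝ≥0∞) ^ s)⁻¹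

lemma pw_ne_zero (s : ℕ) (i : σ) : pw s i ≠ 0 := by
  unfold pw
  rw [Ne, ENNReal.inv_eq_zero]
  exact ENNReal.pow_ne_top (ENNReal.natCast_ne_top _)

lemma pw_ne_top (s : ℕ) (i : σ) : pw s i ≠ ∞ := by
  unfold pw
  rw [Ne, ENNReal.inv_eq_top]
  exact pow_ne_zero _ (by exact_mod_cast (pr_prime i).ne_zero)

lemma mono_pw (s : ℕ) (α : σ →₀ ℕ) : mono (pw s) α = ((NN α : ℝ≥0∞) ^ s)⁻¹ := by
  unfold mono pw NN mono
  push_cast
  rw [← Finset.prod_pow]
  rw [ENNReal.prod_inv_distrib]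
  · apply Finset.prod_congr rfl
    intro i _
    rw [← ENNReal.inv_pow, ← pow_mul, ← pow_mul, mul_comm]
  · intro i _ j _ _
    left
    exact pow_ne_zero _ (pow_ne_zero _ (by exact_mod_cast (pr_prime i).ne_zero))

lemma pw_anti {s t : ℕ} (h : s ≤ t) (i : σ) : pw t i ≤ pw s i := by
  unfold pw
  rw [ENNReal.inv_le_inv]
  apply pow_le_pow_right₀ _ h
  exact_mod_cast (pr_prime i).one_lt.le

lemma isConv_iff_pw (a : MvPowerSeries σ ℂ) : IsConv a ↔ ∃ s, nrm (pw s) a ≠ ∞ := by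
  constructor
  · rintro ⟨r, hr, hr', h⟩
    obtain ⟨s, hs⟩ : ∃ s : ℕ, ((2 : ℝ≥0∞) ^ s)⁻¹ ≤ r := by
      have h1 : Filter.Tendsto (fun s : ℕ => ((2 : ℝ≥0∞)⁻¹) ^ s) Filter.atTop (nhds 0) :=
        ENNReal.tendsto_pow_atTop_nhds_zero_of_lt_one (by
          rw [ENNReal.inv_lt_one]; norm_num)
      have h2 := (h1.eventually (gt_mem_nhds (pos_iff_ne_zero.mpr hr))).exists
      obtain ⟨s, hs⟩ := h2
      exact ⟨s, by rw [ENNReal.inv_pow]; exact hs.le⟩
    refine ⟨s, nrm_ne_top_mono (fun i => ?_) h⟩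
    refine le_trans ?_ hs
    unfold pw
    rw [ENNReal.inv_le_inv]
    gcongr
    exact_mod_cast (pr_prime i).two_le
  · rintro ⟨s, h⟩
    refine ⟨(((∏ i : σ, pr i : ℕ) : ℝ≥0∞) ^ s)⁻¹, ?_, ?_, nrm_ne_top_mono (fun i => ?_) h⟩
    · rw [Ne, ENNReal.inv_eq_zero]
      exact ENNReal.pow_ne_top (ENNReal.natCast_ne_top _)
    · rw [Ne, ENNReal.inv_eq_top]
      apply pow_ne_zero
      have : 0 < ∏ i : σ, pr i := Finset.prod_pos (fun i _ => (pr_prime i).pos)
      exact_mod_cast this.ne'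
    · unfold pw
      rw [ENNReal.inv_le_inv]
      gcongr
      have : pr i ≤ ∏ i : σ, pr i := by
        apply Nat.le_of_dvd (Finset.prod_pos (fun i _ => (pr_prime i).pos))
        exact Finset.dvd_prod_of_mem _ (Finset.mem_univ i)
      exact this

/-- β is the initial exponent of a, with coefficient 1 -/
def IsInit (a : MvPowerSeries σ ℂ) (β : σ →₀ ℕ) : Prop :=
  coeff β a = 1 ∧ ∀ α, coeff α a ≠ 0 → NN β ≤ NN α

lemma tail_small (a : MvPowerSeries σ ℂ) (β : σ →₀ ℕ) (hβ : IsInit a β) (ha : IsConv a) :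
    ∃ s₀ : ℕ, ∀ s ≥ s₀, nrm (pw s) (monomial β 1 - a) ≤ 2⁻¹ * mono (pw s) β := by
  classical
  obtain ⟨s₁, h1⟩ := (isConv_iff_pw a).mp ha
  set c := monomial β (1 : ℂ) - a with hc
  have hcn : nrm (pw s₁) c ≠ ∞ := by
    refine ne_top_of_le_ne_top (ENNReal.add_ne_top.mpr ⟨?_, h1⟩) (nrm_sub_le _ _)
    rw [nrm_monomial]
    exact ENNReal.mul_ne_top (by simp) (mono_ne_top (pw_ne_top s₁) β)
  have hcc : ∀ α, coeff α c ≠ 0 → NN β + 1 ≤ NN α := by
    intro α hα
    have hne : α ≠ β := by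
      rintro rfl
      apply hα
      rw [hc, map_sub, coeff_monomial_same, hβ.1, sub_self]
    have h2 : coeff α a ≠ 0 := by
      intro h
      apply hα
      rw [hc, map_sub, coeff_monomial_ne hne, h, sub_self]
    have h3 := hβ.2 α h2
    exact Nat.succ_le_of_lt (lt_of_le_of_ne h3 (fun h => hne (NN_inj h.symm)))
  have key : ∀ k : ℕ, nrm (pw (s₁ + k)) c ≤ (((NN β + 1 : ℕ) : ℝ≥0∞) ^ k)⁻¹ * nrm (pw s₁) c := by
    intro k
    unfold nrm
    rw [← ENNReal.tsum_mul_left]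
    apply ENNReal.tsum_le_tsum
    intro α
    by_cases hα : coeff α c = 0
    · simp [hα]
    · have h4 := hcc α hα
      rw [mono_pw, mono_pw, pow_add, ENNReal.mul_inv]
      · calc ‖coeff α c‖ₑ * (((NN α : ℝ≥0∞) ^ s₁)⁻¹ * ((NN α : ℝ≥0∞) ^ k)⁻¹)
            ≤ ‖coeff α c‖ₑ * (((NN α : ℝ≥0∞) ^ s₁)⁻¹ * (((NN β + 1 : ℕ) : ℝ≥0∞) ^ k)⁻¹) := by
              gcongr
          _ = _ := by ring
      · left
        exact pow_ne_zero _ (by exact_mod_cast (NN_pos α).ne')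
      · right
        exact pow_ne_zero _ (by exact_mod_cast (NN_pos α).ne')
  -- now compare
  set K := nrm (pw s₁) c with hK
  set n : ℝ≥0∞ := (NN β : ℝ≥0∞) with hn
  have hn0 : n ≠ 0 := by simp [hn, (NN_pos β).ne']
  have hnt : n ≠ ∞ := ENNReal.natCast_ne_top _
  have hlt : n * (((NN β + 1 : ℕ) : ℝ≥0∞))⁻¹ < 1 := by
    rw [← div_eq_mul_inv, ENNReal.div_lt_iff (by simp) (by simp)]
    rw [one_mul, hn]
    exact_mod_cast Nat.lt_succ_self _
  have h5 : Filter.Tendsto (fun k : ℕ => (n * (((NN β + 1 : ℕ) : ℝ≥0∞))⁻¹) ^ k * (K * n ^ s₁))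
      Filter.atTop (nhds (0 * (K * n ^ s₁))) := by
    apply ENNReal.Tendsto.mul_const
    · exact ENNReal.tendsto_pow_atTop_nhds_zero_of_lt_one hlt
    · right
      exact ENNReal.mul_ne_top hcn (ENNReal.pow_ne_top hnt)
  rw [zero_mul] at h5
  have h6 := (h5.eventually (gt_mem_nhds (show (0:ℝ≥0∞) < 2⁻¹ by simp)))
  obtain ⟨k₀, hk₀⟩ := Filter.eventually_atTop.mp h6
  refine ⟨s₁ + k₀, fun s hs => ?_⟩
  obtain ⟨k, rfl⟩ := Nat.exists_eq_add_of_le (show s₁ ≤ s by omega)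
  have hk : k₀ ≤ k := by omega
  have h7 := (hk₀ k hk).le
  refine (key k).trans ?_
  rw [mono_pw]
  have hp0 : n ^ (s₁ + k) ≠ 0 := pow_ne_zero _ hn0
  have hpt : n ^ (s₁ + k) ≠ ∞ := ENNReal.pow_ne_top hnt
  rw [← div_eq_mul_inv, ENNReal.le_div_iff_mul_le (Or.inl hp0) (Or.inl hpt)]
  refine le_trans (le_of_eq ?_) h7
  rw [mul_pow, pow_add, ENNReal.inv_pow]
  ring

lemma exists_isInit (a : MvPowerSeries σ ℂ) (ha : a ≠ 0) :
    ∃ β, coeff β a ≠ 0 ∧ IsInit (C ((coeff β a)⁻¹) * a) β := by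
  classical
  obtain ⟨α₀, hα₀⟩ := (ne_zero_iff_exists_coeff_ne_zero a).mp ha
  have hne : {n | ∃ α, NN α = n ∧ coeff α a ≠ 0}.Nonempty := ⟨NN α₀, α₀, rfl, hα₀⟩
  obtain ⟨β, hβ1, hβ2⟩ := Nat.sInf_mem hne
  refine ⟨β, hβ2, ?_, ?_⟩
  · rw [coeff_C_mul, inv_mul_cancel₀ hβ2]
  · intro α hα
    rw [coeff_C_mul] at hα
    rw [hβ1]
    exact Nat.sInf_le ⟨α, rfl, right_ne_zero_of_mul hα⟩

/-- Dickson -/
lemma dickson (S : Set (σ →₀ ℕ)) : ∃ F : Finset (σ →₀ ℕ), ↑F ⊆ S ∧ ∀ α ∈ S, ∃ β ∈ F, β ≤ α := by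
  classical
  set M := {β | Minimal (· ∈ S) β} with hM
  have hanti : IsAntichain (· ≤ ·) M := by
    intro a ha b hb hab hle
    exact hab (le_antisymm hle (hb.2 ha.1 hle))
  have hfin : M.Finite := WellQuasiOrderedLE.finite_of_isAntichain hanti
  refine ⟨hfin.toFinset, ?_, ?_⟩
  · intro β hβ
    rw [Set.Finite.coe_toFinset] at hβ
    exact hβ.1
  · intro α hα
    obtain ⟨β, hβα, hβ⟩ := exists_minimal_le_of_wellFoundedLT (· ∈ S) α hα
    exact ⟨β, hfin.mem_toFinset.mpr hβ, hβα⟩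

instance instNoetherianConv : IsNoetherianRing (Conv σ) := by
  classical
  rw [isNoetherianRing_iff_ideal_fg]
  intro I
  set S : Set (σ →₀ ℕ) := {β | ∃ a ∈ I, IsInit (a : MvPowerSeries σ ℂ) β} with hS
  obtain ⟨F, hFS, hF⟩ := dickson S
  choose! b hbI hb using (fun (β : σ →₀ ℕ) (hβ : β ∈ S) => hβ)
  refine ⟨F.image b, ?_⟩
  apply le_antisymm
  · rw [Submodule.span_le]
    intro x hx
    simp only [Finset.coe_image, Set.mem_image] at hx
    obtain ⟨β, hβ, rfl⟩ := hx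
    exact hbI β (hFS hβ)
  · intro a haI
    -- common s
    obtain ⟨s₁, hs₁⟩ := (isConv_iff_pw (a : MvPowerSeries σ ℂ)).mp a.2
    have hex : ∀ β : σ →₀ ℕ, ∃ s₀ : ℕ, β ∈ F → ∀ s ≥ s₀, nrm (pw s) (monomial β 1 - (b β : MvPowerSeries σ ℂ)) ≤
        2⁻¹ * mono (pw s) β := by
      intro β
      by_cases h : β ∈ F
      · obtain ⟨s₀, h0⟩ := tail_small _ β (hb β (hFS h)) (b β).2
        exact ⟨s₀, fun _ => h0⟩
      · exact ⟨0, fun h' => absurd h' h⟩
    choose s₀ hs₀ using hex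
    set s := max s₁ (F.sup s₀) with hs
    have hs_ge : ∀ β ∈ F, s₀ β ≤ s := fun β hβ => (Finset.le_sup hβ).trans (le_max_right _ _)
    have han : nrm (pw s) (a : MvPowerSeries σ ℂ) ≠ ∞ :=
      nrm_ne_top_mono (fun i => pw_anti (le_max_left _ _) i) hs₁
    set sel : (σ →₀ ℕ) → Option F := fun α =>
      if h : ∃ β : F, (β : σ →₀ ℕ) ≤ α then some h.choose else none with hsel
    have hsel1 : ∀ α (j : F), sel α = some j → (j : σ →₀ ℕ) ≤ α := by
      intro α j hj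
      simp only [hsel] at hj
      split_ifs at hj with h
      rw [← Option.some.inj hj]
      exact h.choose_spec
    obtain ⟨q, r, hq, hr, hr0, heq⟩ := div_thm (β := fun β : F => (β : σ →₀ ℕ)) (sel := sel)
      (w := pw s) (pw_ne_zero s) (pw_ne_top s) hsel1
      (fun β => monomial (β : σ →₀ ℕ) 1 - (b β : MvPowerSeries σ ℂ)) 2⁻¹
      (by rw [ENNReal.inv_lt_one]; norm_num) (fun β => hs₀ β β.2 s (hs_ge β β.2)) a han
    simp only [sub_sub_cancel] at heq
    have hqc : ∀ j, IsConv (q j) := fun j => (isConv_iff_pw _).mpr ⟨s, hq j⟩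
    have hrc : IsConv r := (isConv_iff_pw _).mpr ⟨s, hr⟩
    have heq' : a = ∑ j : F, (⟨q j, hqc j⟩ : Conv σ) * b j + ⟨r, hrc⟩ := by
      apply Subtype.ext
      push_cast
      exact heq
    have hrI : (⟨r, hrc⟩ : Conv σ) ∈ I := by
      have : (⟨r, hrc⟩ : Conv σ) = a - ∑ j : F, (⟨q j, hqc j⟩ : Conv σ) * b j := by
        rw [eq_sub_iff_add_eq, add_comm]
        exact heq'.symm
      rw [this]
      apply I.sub_mem haI
      apply I.sum_mem
      intro j _
      exact I.mul_mem_left _ (hbI j (hFS j.2))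
    have hr00 : r = 0 := by
      by_contra hne
      obtain ⟨β, hβ0, hβ⟩ := exists_isInit r hne
      have hβS : β ∈ S := by
        refine ⟨(algebraMap ℂ (Conv σ) (coeff β r)⁻¹) * ⟨r, hrc⟩, I.mul_mem_left _ hrI, ?_⟩
        exact hβ
      obtain ⟨γ, hγF, hγβ⟩ := hF β hβS
      apply hβ0
      apply hr0
      simp only [hsel]
      rw [dif_pos ⟨⟨γ, hγF⟩, hγβ⟩]
      simp
    rw [heq']
    apply Submodule.add_mem
    · apply Submodule.sum_mem
      intro j _
      apply Submodule.smul_mem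
      apply Submodule.subset_span
      simp only [Finset.coe_image, Set.mem_image]
      exact ⟨j, j.2, rfl⟩
    · have : (⟨r, hrc⟩ : Conv σ) = 0 := Subtype.ext hr00
      rw [this]
      exact Submodule.zero_mem _

end Noeth

end Pool.Agent.Helper296
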