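import Pool.Agent.Helper296.Ring

set_option autoImplicit false
set_option linter.unusedSectionVars false
set_option linter.unusedVariables false
set_option linter.unusedSimpArgs false

namespace Pool.Agent.Helper296

open scoped ENNReal BigOperators NNReal Topology
open MvPowerSeries Filter

variable {σ τ : Type} [Fintype σ] [Fintype τ] [DecidableEq σ] [DecidableEq τ]

/-- kill the coordinates in S -/
noncomputable def killT (S : Finset σ) : σ → Conv σ := fun i => if i ∈ S then 0 else cX i

lemma at0_killT (S : Finset σ) (i : σ) : at0 (killT S i) = 0 := by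
  unfold killT; split_ifs <;> simp

noncomputable def kill (S : Finset σ) : Conv σ →ₐ[ℂ] Conv σ := sub (killT S) (at0_killT S)

lemma tev_killT (S : Finset σ) (z : σ → ℂ) : tev (killT S) z = fun i => if i ∈ S then 0 else z i := by
  ext i
  unfold tev killT
  split_ifs <;> simp

theorem sub_kill_mem (S : Finset σ) (a : Conv σ) : a - kill S a ∈ Ideal.span (cX '' (S : Set σ)) := by
  classical
  obtain ⟨r, hr, hr', h1⟩ := a.2
  set sel : (σ →₀ ℕ) → Option S := fun α =>
    if h : ∃ j : S, Finsupp.single (j : σ) 1 ≤ α then some h.choose else none with hsel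
  have hsel1 : ∀ α (j : S), sel α = some j → Finsupp.single (j : σ) 1 ≤ α := by
    intro α j hj
    simp only [hsel] at hj
    split_ifs at hj with h
    rw [← Option.some.inj hj]
    exact h.choose_spec
  obtain ⟨q, R, hq, hR, hR0, heq⟩ := div_thm (β := fun j : S => Finsupp.single (j : σ) 1) (sel := sel)
      (w := fun _ => r) (fun _ => hr) (fun _ => hr') hsel1 (fun _ => 0) 0 (by simp) (by simp) a h1
  have hqc : ∀ j, IsConv (q j) := fun j => ⟨r, hr, hr', hq j⟩
  have hRc : IsConv R := ⟨r, hr, hr', hR⟩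
  have heq' : a = ∑ j : S, (⟨q j, hqc j⟩ : Conv σ) * cX (j : σ) + ⟨R, hRc⟩ := by
    apply Subtype.ext
    push_cast
    rw [heq]
    congr 1
    apply Finset.sum_congr rfl
    intro j _
    rw [sub_zero]; rfl
  have hRz : ∀ z : σ → ℂ, gev (⟨R, hRc⟩ : Conv σ) z = gev (⟨R, hRc⟩ : Conv σ) (tev (killT S) z) := by
    intro z
    unfold gev ev
    congr 1
    ext α
    by_cases hα : sel α = none
    · congr 1
      unfold mono
      apply Finset.prod_congr rfl
      intro i _
      rw [tev_killT]
      by_cases hi : i ∈ S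
      · have : α i = 0 := by
          by_contra h
          simp only [hsel] at hα
          rw [dif_pos ⟨⟨i, hi⟩, by
            rw [Finsupp.single_le_iff]; exact Nat.one_le_iff_ne_zero.mpr h⟩] at hα
          simp at hα
        simp [this]
      · simp [hi]
    · rw [show coeff α (R : MvPowerSeries σ ℂ) = 0 from hR0 α hα]
      simp
  have hkill : kill S a = ⟨R, hRc⟩ := by
    apply gev_ext
    have hsum := gev_sum Finset.univ (fun j : S => (⟨q j, hqc j⟩ : Conv σ) * cX (j : σ))
    have hadd := gev_add (∑ j : S, (⟨q j, hqc j⟩ : Conv σ) * cX (j : σ)) ⟨R, hRc⟩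
    have hmul : ∀ᶠ z in 𝓝 (0 : σ → ℂ), ∀ j : S, gev ((⟨q j, hqc j⟩ : Conv σ) * cX (j : σ)) z =
      gev (⟨q j, hqc j⟩ : Conv σ) z * gev (cX (j : σ) : Conv σ) z := eventually_all.mpr (fun j => gev_mul _ _)
    have ht := tendsto_tev (killT S) (at0_killT S)
    filter_upwards [gev_sub' (killT S) (at0_killT S) a, ht.eventually hsum, ht.eventually hadd,
      ht.eventually hmul] with z h1 h2 h3 h4
    rw [kill, h1, hRz z]
    conv_lhs => rw [heq']
    rw [h3, h2]
    rw [Finset.sum_eq_zero, zero_add]
    intro j _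
    rw [h4 j, gev_cX, tev_killT]
    simp
  rw [hkill]
  have h5 : a - (⟨R, hRc⟩ : Conv σ) = ∑ j : S, (⟨q j, hqc j⟩ : Conv σ) * cX (j : σ) := by
    rw [sub_eq_iff_eq_add]
    exact heq'
  rw [h5]
  apply Ideal.sum_mem
  intro j _
  apply Ideal.mul_mem_left
  apply Ideal.subset_span
  exact ⟨j, j.2, rfl⟩

lemma maximalIdeal_eq_span : IsLocalRing.maximalIdeal (Conv σ) = Ideal.span (Set.range (cX : σ → Conv σ)) := by
  apply le_antisymm
  · intro a ha
    rw [mem_maximalIdeal_iff] at ha
    have h := sub_kill_mem (Finset.univ : Finset σ) a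
    have h2 : kill (Finset.univ : Finset σ) a = 0 := by
      apply gev_ext
      filter_upwards [gev_sub' (killT (Finset.univ : Finset σ)) (at0_killT _) a] with z hz
      rw [kill, hz, tev_killT]
      simp only [Finset.mem_univ, if_true]
      have : (fun _ : σ => (0:ℂ)) = 0 := rfl
      rw [this, gev_at_zero, ha, gev_zero]
    rw [h2, sub_zero] at h
    simpa using h
  · rw [Ideal.span_le]
    rintro _ ⟨i, rfl⟩
    exact (mem_maximalIdeal_iff _).mpr (at0_cX i)

/-- first order expansion -/
lemma exists_expansion (a : Conv σ) : ∃ c : σ → Conv σ, a = algebraMap ℂ _ (at0 a) + ∑ i, c i * cX i := by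
  have h : a - algebraMap ℂ _ (at0 a) ∈ Ideal.span (Set.range (cX : σ → Conv σ)) := by
    rw [← maximalIdeal_eq_span, mem_maximalIdeal_iff]
    simp
  rw [Ideal.mem_span_range_iff_exists_fun] at h
  obtain ⟨c, hc⟩ := h
  exact ⟨c, by rw [hc]; ring⟩

/-- polynomial approximation -/
lemma exists_poly (N : ℕ) (a : Conv σ) : ∃ p ∈ Algebra.adjoin ℂ (Set.range (cX : σ → Conv σ)),
    a - p ∈ (IsLocalRing.maximalIdeal (Conv σ)) ^ N := by
  induction N generalizing a with
  | zero => exact ⟨0, Subalgebra.zero_mem _, by simp⟩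
  | succ N ih =>
    obtain ⟨c, hc⟩ := exists_expansion a
    choose p hp hp' using fun i => ih (c i)
    refine ⟨algebraMap ℂ _ (at0 a) + ∑ i, p i * cX i, ?_, ?_⟩
    · apply Subalgebra.add_mem _ (Subalgebra.algebraMap_mem _ _)
      apply Subalgebra.sum_mem
      intro i _
      exact Subalgebra.mul_mem _ (hp i) (Algebra.subset_adjoin ⟨i, rfl⟩)
    · have : a - (algebraMap ℂ _ (at0 a) + ∑ i, p i * cX i) = ∑ i, (c i - p i) * cX i := by
        simp only [sub_mul, Finset.sum_sub_distrib]
        linear_combination hc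
      rw [this]
      apply Ideal.sum_mem
      intro i _
      rw [pow_succ]
      exact Ideal.mul_mem_mul (hp' i) ((mem_maximalIdeal_iff _).mpr (at0_cX i))

section rename

lemma mono_embDomain {M : Type*} [CommMonoid M] (e : σ ↪ τ) (w : τ → M) (x : σ →₀ ℕ) :
    mono w (Finsupp.embDomain e x) = mono (fun i => w (e i)) x := by
  unfold mono
  rw [← Finset.prod_subset (Finset.subset_univ (Finset.univ.map e))]
  · rw [Finset.prod_map]
    apply Finset.prod_congr rfl
    intro i _
    rw [Finsupp.embDomain_apply_self]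
  · intro j _ hj
    rw [Finsupp.embDomain_of_notMem_range]
    · simp
    · intro h
      apply hj
      obtain ⟨i, rfl⟩ := h
      simp

lemma nrm_rename (e : σ ↪ τ) (w : τ → ℝ≥0∞) (a : MvPowerSeries σ ℂ) :
    nrm w (rename e a) = nrm (fun i => w (e i)) a := by
  unfold nrm
  rw [← (Finsupp.embDomain_injective e).tsum_eq (f := fun α : τ →₀ ℕ => ‖coeff α (rename e a)‖ₑ * mono w α)]
  · congr 1
    ext x
    rw [coeff_embDomain_rename, mono_embDomain]
  · intro α hα
    by_contra h
    apply hα
    simp only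
    rw [coeff_rename_eq_zero]
    · simp
    · rintro ⟨y, hy⟩
      exact h ⟨y, by rw [Finsupp.embDomain_eq_mapDomain]; exact hy⟩

lemma ev_rename (e : σ ↪ τ) (a : MvPowerSeries σ ℂ) (z : τ → ℂ) :
    ev (rename e a) z = ev a (fun i => z (e i)) := by
  unfold ev
  rw [← (Finsupp.embDomain_injective e).tsum_eq (f := fun α : τ →₀ ℕ => coeff α (rename e a) * mono z α)]
  · congr 1
    ext x
    rw [coeff_embDomain_rename, mono_embDomain]
  · intro α hα
    by_contra h
    apply hα
    simp only
    rw [coeff_rename_eq_zero]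
    · simp
    · rintro ⟨y, hy⟩
      exact h ⟨y, by rw [Finsupp.embDomain_eq_mapDomain]; exact hy⟩

end rename

end Pool.Agent.Helper296
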