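import Pool.Agent.Helper296.PS

set_option autoImplicit false
set_option linter.unusedSectionVars false
set_option linter.unusedVariables false
set_option linter.unusedSimpArgs false

namespace Pool.Agent.Helper296

open scoped ENNReal BigOperators
open MvPowerSeries

variable {σ : Type*} [Fintype σ]

section Div

variable {ι : Type*} [Fintype ι] [DecidableEq ι] (β : ι → σ →₀ ℕ) (sel : (σ →₀ ℕ) → Option ι)

/-- quotient part -/
noncomputable def Qp (j : ι) (a : MvPowerSeries σ ℂ) : MvPowerSeries σ ℂ :=
  fun γ => if sel (γ + β j) = some j then coeff (γ + β j) a else 0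

/-- remainder part -/
noncomputable def Rp (a : MvPowerSeries σ ℂ) : MvPowerSeries σ ℂ :=
  fun γ => if sel γ = none then coeff γ a else 0

lemma coeff_Qp (j : ι) (a : MvPowerSeries σ ℂ) (γ : σ →₀ ℕ) :
    coeff γ (Qp β sel j a) = if sel (γ + β j) = some j then coeff (γ + β j) a else 0 := rfl

lemma coeff_Rp (a : MvPowerSeries σ ℂ) (γ : σ →₀ ℕ) :
    coeff γ (Rp sel a) = if sel γ = none then coeff γ a else 0 := rfl

variable {β sel}

lemma split_eq (hsel : ∀ α j, sel α = some j → β j ≤ α) (a : MvPowerSeries σ ℂ) :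
    a = ∑ j, Qp β sel j a * monomial (β j) 1 + Rp sel a := by
  classical
  ext α
  rw [map_add, map_sum]
  have h : ∀ j, coeff α (Qp β sel j a * monomial (β j) 1) =
      if sel α = some j then coeff α a else 0 := by
    intro j
    rw [coeff_mul_monomial]
    by_cases hj : sel α = some j
    · have hle := hsel α j hj
      rw [if_pos hle, coeff_Qp, tsub_add_cancel_of_le hle, if_pos hj, mul_one]
    · rw [if_neg hj]
      by_cases hle : β j ≤ α
      · rw [if_pos hle, coeff_Qp, tsub_add_cancel_of_le hle, if_neg hj, zero_mul]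
      · rw [if_neg hle]
  simp only [h, coeff_Rp]
  rcases hs : sel α with _ | j
  · simp
  · rw [Finset.sum_eq_single j]
    · simp
    · intro b _ hb
      simp [Ne.symm hb]
    · simp

variable {w : σ → ℝ≥0∞}

lemma nrm_split (a : MvPowerSeries σ ℂ) :
    ∑ j, nrm w (Qp β sel j a) * mono w (β j) + nrm w (Rp sel a) ≤ nrm w a := by
  classical
  have h1 : ∀ j, nrm w (Qp β sel j a) * mono w (β j) ≤
      ∑' α : σ →₀ ℕ, if sel α = some j then ‖coeff α a‖ₑ * mono w α else 0 := by
    intro j
    unfold nrm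
    rw [← ENNReal.tsum_mul_right]
    have : ∀ γ : σ →₀ ℕ, ‖coeff γ (Qp β sel j a)‖ₑ * mono w γ * mono w (β j) =
      (fun α : σ →₀ ℕ => if sel α = some j then ‖coeff α a‖ₑ * mono w α else 0) (γ + β j) := by
      intro γ
      rw [coeff_Qp]
      simp only
      split_ifs with h
      · rw [mul_assoc, mono_add]
      · simp
    simp_rw [this]
    exact ENNReal.tsum_comp_le_tsum_of_injective (add_left_injective (β j)) _
  have h2 : nrm w (Rp sel a) = ∑' α : σ →₀ ℕ, if sel α = none then ‖coeff α a‖ₑ * mono w α else 0 := by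
    unfold nrm
    congr 1
    ext α
    rw [coeff_Rp]
    split_ifs <;> simp
  calc ∑ j, nrm w (Qp β sel j a) * mono w (β j) + nrm w (Rp sel a)
      ≤ ∑ j, (∑' α : σ →₀ ℕ, if sel α = some j then ‖coeff α a‖ₑ * mono w α else 0) +
        ∑' α : σ →₀ ℕ, (if sel α = none then ‖coeff α a‖ₑ * mono w α else 0) := by
          rw [h2]
          gcongr with j
          exact h1 j
    _ = ∑' α : σ →₀ ℕ, (∑ j, (if sel α = some j then ‖coeff α a‖ₑ * mono w α else 0) +
        (if sel α = none then ‖coeff α a‖ₑ * mono w α else 0)) := by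
          rw [ENNReal.tsum_add, Summable.tsum_finsetSum (fun _ _ => ENNReal.summable)]
    _ ≤ nrm w a := by
          unfold nrm
          apply ENNReal.tsum_le_tsum
          intro α
          rcases hs : sel α with _ | j
          · simp
          · rw [Finset.sum_eq_single j]
            · simp
            · intro b _ hb
              simp [Ne.symm hb]
            · simp

/-- coefficientwise sum of a sequence of power series -/
noncomputable def ssum (u : ℕ → MvPowerSeries σ ℂ) : MvPowerSeries σ ℂ :=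
  fun α => ∑' k, coeff α (u k)

lemma coeff_ssum (u : ℕ → MvPowerSeries σ ℂ) (α : σ →₀ ℕ) :
    coeff α (ssum u) = ∑' k, coeff α (u k) := rfl

lemma summable_coeff (hw : ∀ i, w i ≠ 0) (hw' : ∀ i, w i ≠ ∞) (u : ℕ → MvPowerSeries σ ℂ)
    (hu : ∑' k, nrm w (u k) ≠ ∞) (α : σ →₀ ℕ) : Summable (fun k => coeff α (u k)) := by
  have h0 := mono_ne_zero hw α
  have h1 := mono_ne_top hw' α
  apply Summable.of_norm
  have : ∑' k, ‖coeff α (u k)‖ₑ ≠ ∞ := by
    have h2 : (∑' k, ‖coeff α (u k)‖ₑ) * mono w α ≠ ∞ := by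
      rw [← ENNReal.tsum_mul_right]
      exact ne_top_of_le_ne_top hu (ENNReal.tsum_le_tsum (fun k => le_nrm (u k) α))
    intro h
    rw [h, ENNReal.top_mul h0] at h2
    exact h2 rfl
  have h3 := ENNReal.summable_toReal this
  simpa using h3

lemma nrm_ssum_le (hw : ∀ i, w i ≠ 0) (hw' : ∀ i, w i ≠ ∞) (u : ℕ → MvPowerSeries σ ℂ) :
    nrm w (ssum u) ≤ ∑' k, nrm w (u k) := by
  by_cases hu : ∑' k, nrm w (u k) = ∞
  · rw [hu]; exact le_top
  unfold nrm
  rw [ENNReal.tsum_comm]
  apply ENNReal.tsum_le_tsum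
  intro α
  rw [ENNReal.tsum_mul_right]
  gcongr
  rw [coeff_ssum]
  exact enorm_tsum_le_tsum_enorm

theorem div_thm (hw : ∀ i, w i ≠ 0) (hw' : ∀ i, w i ≠ ∞)
    (hsel : ∀ α j, sel α = some j → β j ≤ α)
    (c : ι → MvPowerSeries σ ℂ) (θ : ℝ≥0∞) (hθ : θ < 1)
    (hc : ∀ j, nrm w (c j) ≤ θ * mono w (β j))
    (a : MvPowerSeries σ ℂ) (ha : nrm w a ≠ ∞) :
    ∃ (q : ι → MvPowerSeries σ ℂ) (r : MvPowerSeries σ ℂ),
      (∀ j, nrm w (q j) ≠ ∞) ∧ nrm w r ≠ ∞ ∧ (∀ α, sel α ≠ none → coeff α r = 0) ∧
      a = ∑ j, q j * (monomial (β j) 1 - c j) + r := by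
  classical
  set T : MvPowerSeries σ ℂ → MvPowerSeries σ ℂ := fun a => ∑ j, Qp β sel j a * c j with hT
  have hTn : ∀ a, nrm w (T a) ≤ θ * nrm w a := by
    intro a
    calc nrm w (T a) ≤ ∑ j, nrm w (Qp β sel j a * c j) := nrm_sum_le _ _
      _ ≤ ∑ j, θ * (nrm w (Qp β sel j a) * mono w (β j)) := by
          apply Finset.sum_le_sum
          intro j _
          refine (nrm_mul_le _ _).trans ?_
          calc nrm w (Qp β sel j a) * nrm w (c j) ≤ nrm w (Qp β sel j a) * (θ * mono w (β j)) := by
                gcongr; exact hc j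
            _ = _ := by ring
      _ = θ * ∑ j, (nrm w (Qp β sel j a) * mono w (β j)) := by rw [Finset.mul_sum]
      _ ≤ θ * nrm w a := by
          gcongr
          exact le_self_add.trans (nrm_split (β := β) (sel := sel) a)
  set u : ℕ → MvPowerSeries σ ℂ := fun k => T^[k] a with hu
  have hu1 : ∀ k, nrm w (u k) ≤ θ ^ k * nrm w a := by
    intro k
    induction k with
    | zero => simp [hu]
    | succ k ih =>
      have : u (k+1) = T (u k) := by simp only [hu, Function.iterate_succ_apply']
      rw [this, pow_succ']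
      calc nrm w (T (u k)) ≤ θ * nrm w (u k) := hTn _
        _ ≤ θ * (θ ^ k * nrm w a) := by gcongr
        _ = _ := by ring
  have hgeo : ∑' k, θ ^ k * nrm w a ≠ ∞ := by
    rw [ENNReal.tsum_mul_right, ENNReal.tsum_geometric]
    apply ENNReal.mul_ne_top _ ha
    rw [Ne, ENNReal.inv_eq_top]
    exact (tsub_pos_of_lt hθ).ne'
  have hsu : ∑' k, nrm w (u k) ≠ ∞ := ne_top_of_le_ne_top hgeo (ENNReal.tsum_le_tsum hu1)
  have hQ : ∀ j, ∑' k, nrm w (Qp β sel j (u k)) ≠ ∞ := by
    intro j
    have h0 := mono_ne_zero hw (β j)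
    have h1 : (∑' k, nrm w (Qp β sel j (u k))) * mono w (β j) ≠ ∞ := by
      rw [← ENNReal.tsum_mul_right]
      refine ne_top_of_le_ne_top hsu (ENNReal.tsum_le_tsum (fun k => ?_))
      refine le_trans ?_ (nrm_split (w := w) (β := β) (sel := sel) (u k))
      refine le_trans ?_ le_self_add
      exact Finset.single_le_sum (f := fun j => nrm w (Qp β sel j (u k)) * mono w (β j))
        (fun _ _ => zero_le) (Finset.mem_univ j)
    intro h
    rw [h, ENNReal.top_mul h0] at h1
    exact h1 rfl
  have hR : ∑' k, nrm w (Rp sel (u k)) ≠ ∞ := by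
    refine ne_top_of_le_ne_top hsu (ENNReal.tsum_le_tsum (fun k => ?_))
    refine le_trans ?_ (nrm_split (w := w) (β := β) (sel := sel) (u k))
    exact le_add_self
  refine ⟨fun j => ssum (fun k => Qp β sel j (u k)), ssum (fun k => Rp sel (u k)), ?_, ?_, ?_, ?_⟩
  · intro j
    exact ne_top_of_le_ne_top (hQ j) (nrm_ssum_le hw hw' _)
  · exact ne_top_of_le_ne_top hR (nrm_ssum_le hw hw' _)
  · intro α hα
    rw [coeff_ssum]
    simp only [coeff_Rp, if_neg hα]
    simp
  · have step : ∀ k, u k - u (k+1) = ∑ j, Qp β sel j (u k) * (monomial (β j) 1 - c j) + Rp sel (u k) := by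
      intro k
      have h1 : u (k+1) = T (u k) := by simp only [hu, Function.iterate_succ_apply']
      rw [h1]
      simp only [hT, mul_sub, Finset.sum_sub_distrib]
      conv_lhs => rw [split_eq (β := β) (sel := sel) hsel (u k)]
      have : ∀ j, Qp β sel j (∑ j, Qp β sel j (u k) * (monomial (β j)) 1 + Rp sel (u k)) = Qp β sel j (u k) := by
        intro j; rw [← split_eq (β := β) (sel := sel) hsel (u k)]
      simp only [this]
      ring
    ext α
    have hs1 : Summable (fun k => coeff α (u k)) := summable_coeff hw hw' u hsu α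
    have htel : HasSum (fun k => coeff α (u k - u (k+1))) (coeff α a) := by
      have h2 : Filter.Tendsto (fun n => coeff α (u n)) Filter.atTop (nhds 0) := hs1.tendsto_atTop_zero
      have h3 : Summable (fun k => coeff α (u k - u (k+1))) := by
        simp only [map_sub]
        exact hs1.sub ((summable_nat_add_iff 1).mpr hs1)
      rw [h3.hasSum_iff_tendsto_nat]
      have h4 : ∀ n, ∑ i ∈ Finset.range n, coeff α (u i - u (i+1)) = coeff α a - coeff α (u n) := by
        intro n
        induction n with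
        | zero => simp [hu]
        | succ n ih => rw [Finset.sum_range_succ, ih, map_sub]; ring
      simp_rw [h4]
      simpa using tendsto_const_nhds.sub h2
    rw [map_add, map_sum, coeff_ssum, ← htel.tsum_eq]
    simp_rw [step, map_add, map_sum]
    have hsR : Summable (fun k => coeff α (Rp sel (u k))) := summable_coeff hw hw' _ hR α
    have hmul : ∀ j, HasSum (fun k => coeff α (Qp β sel j (u k) * (monomial (β j) 1 - c j)))
        (coeff α (ssum (fun k => Qp β sel j (u k)) * (monomial (β j) 1 - c j))) := by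
      intro j
      simp_rw [coeff_mul]
      apply hasSum_sum
      intro p _
      apply HasSum.mul_right
      exact (summable_coeff hw hw' _ (hQ j) p.1).hasSum
    have hsQ : Summable (fun k => ∑ j, coeff α (Qp β sel j (u k) * (monomial (β j) 1 - c j))) :=
      summable_sum (fun j _ => (hmul j).summable)
    rw [hsQ.tsum_add hsR]
    congr 1
    rw [Summable.tsum_finsetSum (fun j _ => (hmul j).summable)]
    apply Finset.sum_congr rfl
    intro j _
    exact (hmul j).tsum_eq
end Div

end Pool.Agent.Helper296
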