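import Pool.Agent.Helper296.Conv

set_option autoImplicit false
set_option linter.unusedSectionVars false
set_option linter.unusedVariables false
set_option linter.unusedSimpArgs false

namespace Pool.Agent.Helper296

open scoped ENNReal BigOperators NNReal Topology
open MvPowerSeries

variable {σ : Type} [Fintype σ]

/-- evaluation of a power series at a point (by absolute summation) -/
noncomputable def ev (a : MvPowerSeries σ ℂ) (z : σ → ℂ) : ℂ :=
  ∑' α : σ →₀ ℕ, coeff α a * mono z α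

lemma enorm_mono (z : σ → ℂ) (α : σ →₀ ℕ) : ‖mono z α‖ₑ = mono (fun i => ‖z i‖ₑ) α := by
  unfold mono
  induction (Finset.univ : Finset σ) using Finset.cons_induction with
  | empty => simp
  | cons a s ha ih => rw [Finset.prod_cons, Finset.prod_cons, enorm_mul, ih, enorm_pow]

lemma tsum_enorm_le {w : σ → ℝ≥0∞} (a : MvPowerSeries σ ℂ) {z : σ → ℂ} (hz : ∀ i, ‖z i‖ₑ ≤ w i) :
    ∑' α : σ →₀ ℕ, ‖coeff α a * mono z α‖ₑ ≤ nrm w a := by
  apply ENNReal.tsum_le_tsum
  intro α
  rw [enorm_mul, enorm_mono]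
  gcongr
  exact mono_le_mono hz α

lemma summable_norm_ev {w : σ → ℝ≥0∞} {a : MvPowerSeries σ ℂ} (ha : nrm w a ≠ ∞) {z : σ → ℂ}
    (hz : ∀ i, ‖z i‖ₑ ≤ w i) : Summable (fun α : σ →₀ ℕ => ‖coeff α a * mono z α‖) := by
  have h3 := ENNReal.summable_toReal (ne_top_of_le_ne_top ha (tsum_enorm_le a hz))
  simpa using h3

lemma summable_ev {w : σ → ℝ≥0∞} {a : MvPowerSeries σ ℂ} (ha : nrm w a ≠ ∞) {z : σ → ℂ}
    (hz : ∀ i, ‖z i‖ₑ ≤ w i) : Summable (fun α : σ →₀ ℕ => coeff α a * mono z α) :=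
  (summable_norm_ev ha hz).of_norm

lemma enorm_ev_le {w : σ → ℝ≥0∞} (a : MvPowerSeries σ ℂ) {z : σ → ℂ} (hz : ∀ i, ‖z i‖ₑ ≤ w i) :
    ‖ev a z‖ₑ ≤ nrm w a :=
  (enorm_tsum_le_tsum_enorm).trans (tsum_enorm_le a hz)

section

variable {w : σ → ℝ≥0∞} {z : σ → ℂ} (hz : ∀ i, ‖z i‖ₑ ≤ w i)
include hz

lemma ev_add {a b : MvPowerSeries σ ℂ} (ha : nrm w a ≠ ∞) (hb : nrm w b ≠ ∞) :
    ev (a + b) z = ev a z + ev b z := by
  unfold ev
  rw [← (summable_ev ha hz).tsum_add (summable_ev hb hz)]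
  congr 1
  ext α
  rw [map_add, add_mul]

lemma ev_mul {a b : MvPowerSeries σ ℂ} (ha : nrm w a ≠ ∞) (hb : nrm w b ≠ ∞) :
    ev (a * b) z = ev a z * ev b z := by
  classical
  unfold ev
  set f : (σ →₀ ℕ) → ℂ := fun α => coeff α a * mono z α with hf
  set g : (σ →₀ ℕ) → ℂ := fun α => coeff α b * mono z α with hg
  have h1 : Summable (fun x => ‖f x‖) := summable_norm_ev ha hz
  have h2 : Summable (fun x => ‖g x‖) := summable_norm_ev hb hz
  have h3 : Summable fun x : (σ →₀ ℕ) × (σ →₀ ℕ) => f x.1 * g x.2 :=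
    summable_mul_of_summable_norm h1 h2
  rw [Summable.tsum_mul_tsum_eq_tsum_sum_antidiagonal h1.of_norm h2.of_norm h3]
  congr 1
  ext α
  rw [coeff_mul, Finset.sum_mul]
  apply Finset.sum_congr rfl
  intro p hp
  rw [Finset.HasAntidiagonal.mem_antidiagonal] at hp
  rw [← hp, mono_add]
  ring

end

lemma ev_monomial (α : σ →₀ ℕ) (c : ℂ) (z : σ → ℂ) : ev (monomial α c) z = c * mono z α := by
  classical
  unfold ev
  rw [tsum_eq_single α]
  · rw [coeff_monomial_same]
  · intro β hβ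
    rw [coeff_monomial_ne hβ, zero_mul]

@[simp] lemma ev_C (c : ℂ) (z : σ → ℂ) : ev (C c : MvPowerSeries σ ℂ) z = c := by
  rw [← monomial_zero_eq_C_apply, ev_monomial]; simp

@[simp] lemma ev_X (i : σ) (z : σ → ℂ) : ev (X i : MvPowerSeries σ ℂ) z = z i := by
  rw [X_def, ev_monomial, mono_single]; simp

@[simp] lemma ev_zero (z : σ → ℂ) : ev (0 : MvPowerSeries σ ℂ) z = 0 := by
  simp [ev]

@[simp] lemma ev_one (z : σ → ℂ) : ev (1 : MvPowerSeries σ ℂ) z = 1 := by
  rw [← map_one C, ev_C]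

lemma ev_neg (a : MvPowerSeries σ ℂ) (z : σ → ℂ) : ev (-a) z = - ev a z := by
  unfold ev
  rw [← tsum_neg]
  simp

/-- at the origin evaluation is the constant coefficient -/
lemma ev_at_zero (a : MvPowerSeries σ ℂ) : ev a 0 = constantCoeff a := by
  classical
  unfold ev
  rw [tsum_eq_single 0]
  · simp
  · intro β hβ
    obtain ⟨i, hi⟩ : ∃ i, β i ≠ 0 := by
      by_contra h
      push Not at h
      exact hβ (Finsupp.ext h)
    have : mono (0 : σ → ℂ) β = 0 := by
      unfold mono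
      apply Finset.prod_eq_zero (Finset.mem_univ i)
      simp [hi]
    rw [this, mul_zero]

/-- the multilinear map attached to a word -/
noncomputable def ml {k : ℕ} (v : Fin k → σ) : ContinuousMultilinearMap ℂ (fun _ : Fin k => (σ → ℂ)) ℂ :=
  (ContinuousMultilinearMap.mkPiAlgebra ℂ (Fin k) ℂ).compContinuousLinearMap
    (fun i => ContinuousLinearMap.proj (v i))

lemma ml_apply {k : ℕ} (v : Fin k → σ) (h : Fin k → (σ → ℂ)) : ml v h = ∏ i, h i (v i) := by
  simp [ml]

lemma norm_ml_le {k : ℕ} (v : Fin k → σ) : ‖ml v‖ ≤ 1 := by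
  apply ContinuousMultilinearMap.opNorm_le_bound zero_le_one
  intro m
  rw [ml_apply, one_mul, norm_prod]
  exact Finset.prod_le_prod (fun _ _ => norm_nonneg _) (fun i _ => norm_le_pi_norm _ _)

/-- total degree -/
def dg (α : σ →₀ ℕ) : ℕ := ∑ i, α i

/-- content of a word -/
noncomputable def content {k : ℕ} (v : Fin k → σ) : σ →₀ ℕ := ∑ i, Finsupp.single (v i) 1

lemma dg_add (α β : σ →₀ ℕ) : dg (α + β) = dg α + dg β := by
  simp [dg, Finset.sum_add_distrib]

lemma dg_single (i : σ) (n : ℕ) : dg (Finsupp.single i n) = n := by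
  classical
  simp [dg, Finsupp.single_apply]

lemma dg_sum {κ : Type*} (s : Finset κ) (f : κ → σ →₀ ℕ) : dg (∑ i ∈ s, f i) = ∑ i ∈ s, dg (f i) := by
  classical
  induction s using Finset.induction_on with
  | empty => simp [dg]
  | insert a s ha ih => rw [Finset.sum_insert ha, Finset.sum_insert ha, dg_add, ih]

lemma dg_content {k : ℕ} (v : Fin k → σ) : dg (content v) = k := by
  simp [content, dg_sum, dg_single]

lemma mono_sum {M : Type*} [CommMonoid M] {κ : Type*} (s : Finset κ) (f : κ → σ →₀ ℕ) (w : σ → M) :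
    mono w (∑ i ∈ s, f i) = ∏ i ∈ s, mono w (f i) := by
  classical
  induction s using Finset.induction_on with
  | empty => simp
  | insert a s ha ih => rw [Finset.sum_insert ha, Finset.prod_insert ha, mono_add, ih]

lemma mono_content {M : Type*} [CommMonoid M] {k : ℕ} (v : Fin k → σ) (w : σ → M) :
    mono w (content v) = ∏ i, w (v i) := by
  simp [content, mono_sum, mono_single]

lemma exists_word (α : σ →₀ ℕ) : ∃ v : Fin (dg α) → σ, content v = α := by
  classical
  have hcard : (Finsupp.toMultiset α).toList.length = dg α := by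
    rw [Multiset.length_toList, Finsupp.card_toMultiset, Finsupp.sum_fintype]
    · rfl
    · intro; rfl
  refine ⟨fun i => (Finsupp.toMultiset α).toList.get (i.cast hcard.symm), ?_⟩
  have h1 : ∀ l : List σ, ∀ (k : ℕ) (h : l.length = k), (content (fun i : Fin k => l.get (i.cast h.symm))) =
      Multiset.toFinsupp (l : Multiset σ) := by
    intro l k h
    subst h
    unfold content
    simp only [Fin.cast_refl, id]
    induction l with
    | nil => simp
    | cons a l ih =>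
      have h2 : ((a :: l : List σ) : Multiset σ) = {a} + (l : Multiset σ) := by simp
      rw [h2, map_add, ← ih]
      refine (Fin.sum_univ_succ (n := l.length) (fun x => Finsupp.single ((a :: l).get x) 1)).trans ?_
      simp
  rw [h1 _ _ hcard]
  simp

/-- exponents of degree k -/
noncomputable def Dk (σ : Type) [Fintype σ] (k : ℕ) : Finset (σ →₀ ℕ) := by
  classical exact Finset.finsuppAntidiag Finset.univ k

lemma mem_Dk {k : ℕ} {α : σ →₀ ℕ} : α ∈ Dk σ k ↔ dg α = k := by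
  classical
  unfold Dk dg
  simp [Finset.mem_finsuppAntidiag]

noncomputable def wd (α : σ →₀ ℕ) : Fin (dg α) → σ := (exists_word α).choose

lemma content_wd (α : σ →₀ ℕ) : content (wd α) = α := (exists_word α).choose_spec

/-- word of given length -/
noncomputable def wdk (k : ℕ) (α : σ →₀ ℕ) (h : dg α = k) : Fin k → σ := fun i => wd α (i.cast h.symm)

lemma content_wdk (k : ℕ) (α : σ →₀ ℕ) (h : dg α = k) : content (wdk k α h) = α := by
  subst h
  exact content_wd α

/-- the formal multilinear series of a power series -/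
noncomputable def fms (a : MvPowerSeries σ ℂ) : FormalMultilinearSeries ℂ (σ → ℂ) ℂ := fun k =>
  ∑ α ∈ (Dk σ k).attach, coeff α.1 a • ml (wdk k α.1 (mem_Dk.mp α.2))

lemma fms_apply (a : MvPowerSeries σ ℂ) (k : ℕ) (z : σ → ℂ) :
    (fms a k fun _ => z) = ∑ α ∈ Dk σ k, coeff α a * mono z α := by
  unfold fms
  rw [sum_apply, ← Finset.sum_attach (Dk σ k)]
  apply Finset.sum_congr rfl
  intro α _
  rw [smul_apply, ml_apply, smul_eq_mul]
  congr 1
  rw [← mono_content, content_wdk]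

lemma norm_fms_le (a : MvPowerSeries σ ℂ) (k : ℕ) : ‖fms a k‖ ≤ ∑ α ∈ Dk σ k, ‖coeff α a‖ := by
  unfold fms
  rw [← Finset.sum_attach (Dk σ k)]
  refine (norm_sum_le _ _).trans (Finset.sum_le_sum (fun α _ => ?_))
  rw [norm_smul]
  exact mul_le_of_le_one_right (norm_nonneg _) (norm_ml_le _)

lemma mono_const (r : ℝ≥0∞) (α : σ →₀ ℕ) : mono (fun _ => r) α = r ^ dg α := by
  unfold mono dg
  rw [Finset.prod_pow_eq_pow_sum]

/-- sums over exponents by degree -/
lemma hasSum_dg {E : Type*} [AddCommGroup E] [TopologicalSpace E] [ContinuousAdd E] [T3Space E]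
    {f : (σ →₀ ℕ) → E} {x : E} (h : HasSum f x) :
    HasSum (fun k => ∑ α ∈ Dk σ k, f α) x := by
  have h1 := (Equiv.hasSum_iff (Equiv.sigmaFiberEquiv (dg : (σ →₀ ℕ) → ℕ)) (f := f) (a := x)).mpr h
  have h2 := h1.sigma (g := fun k => ∑ α ∈ Dk σ k, f α) ?_
  · exact h2
  · intro k
    have h3 : ∀ c : {α : σ →₀ ℕ // dg α = k}, (f ∘ (Equiv.sigmaFiberEquiv (dg : (σ →₀ ℕ) → ℕ))) ⟨k, c⟩ = f c.1 := by
      intro c; rfl
    simp only [h3]
    have hfin : Fintype {α : σ →₀ ℕ // dg α = k} :=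
      Fintype.ofFinset (Dk σ k) (fun α => mem_Dk) 
    have h4 := hasSum_fintype (fun c : {α : σ →₀ ℕ // dg α = k} => f c.1)
    convert h4 using 1
    refine Finset.sum_bij' (fun α h => ⟨α, mem_Dk.mp h⟩) (fun c _ => c.1) ?_ ?_ ?_ ?_ ?_
    · intros; simp
    · intro c _; exact mem_Dk.mpr c.2
    · intros; rfl
    · intros; rfl
    · intros; rfl

lemma hasFPowerSeries_ev (a : MvPowerSeries σ ℂ) (r : ℝ≥0) (hr : 0 < r)
    (ha : nrm (fun _ => (r : ℝ≥0∞)) a ≠ ∞) :
    HasFPowerSeriesOnBall (ev a) (fms a) 0 r := by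
  refine ⟨?_, by exact_mod_cast hr, ?_⟩
  · apply FormalMultilinearSeries.le_radius_of_summable_norm
    have h1 : Summable (fun α : σ →₀ ℕ => ‖coeff α a‖ * (r : ℝ) ^ dg α) := by
      have h3 := ENNReal.summable_toReal ha
      simp only [mono_const] at h3
      simpa using h3
    have h2 := (hasSum_dg h1.hasSum).summable
    refine Summable.of_nonneg_of_le (fun _ => by positivity) (fun k => ?_) h2
    calc ‖fms a k‖ * (r : ℝ) ^ k ≤ (∑ α ∈ Dk σ k, ‖coeff α a‖) * (r : ℝ) ^ k := by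
          gcongr; exact norm_fms_le a k
      _ = ∑ α ∈ Dk σ k, ‖coeff α a‖ * (r : ℝ) ^ dg α := by
          rw [Finset.sum_mul]
          apply Finset.sum_congr rfl
          intro α hα
          rw [mem_Dk.mp hα]
  · intro y hy
    rw [zero_add]
    have hy' : ∀ i, ‖y i‖ₑ ≤ (r : ℝ≥0∞) := by
      intro i
      have h1 : ‖y‖ₑ < r := by rwa [Metric.mem_eball, edist_zero_right] at hy
      refine le_trans ?_ h1.le
      rw [← ofReal_norm, ← ofReal_norm]
      exact ENNReal.ofReal_le_ofReal (norm_le_pi_norm _ _)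
    have h2 := hasSum_dg (summable_ev ha hy').hasSum
    simp_rw [← fms_apply] at h2
    exact h2

lemma IsConv.exists_nnreal {a : MvPowerSeries σ ℂ} (ha : IsConv a) :
    ∃ r : ℝ≥0, 0 < r ∧ nrm (fun _ => (r : ℝ≥0∞)) a ≠ ∞ := by
  obtain ⟨r, hr, hr', h⟩ := ha
  lift r to ℝ≥0 using hr'
  exact ⟨r, by simpa using pos_iff_ne_zero.mpr hr, h⟩

theorem analyticAt_ev {a : MvPowerSeries σ ℂ} (ha : IsConv a) : AnalyticAt ℂ (ev a) 0 := by
  obtain ⟨r, hr, h⟩ := ha.exists_nnreal
  exact (hasFPowerSeries_ev a r hr h).analyticAt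

/-- uniqueness of the expansion -/
theorem eq_zero_of_ev_eventually_zero {a : MvPowerSeries σ ℂ} (ha : IsConv a)
    (h : ∀ᶠ z in 𝓝 (0 : σ → ℂ), ev a z = 0) : a = 0 := by
  classical
  obtain ⟨r, hr, h1⟩ := ha.exists_nnreal
  have h2 : HasFPowerSeriesAt (ev a) (fms a) 0 := ⟨r, hasFPowerSeries_ev a r hr h1⟩
  have h3 : HasFPowerSeriesAt (0 : (σ → ℂ) → ℂ) (fms a) 0 := h2.congr h
  have h4 : ∀ k (z : σ → ℂ), ∑ α ∈ Dk σ k, coeff α a * mono z α = 0 := by
    intro k z
    rw [← fms_apply]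
    exact h3.apply_eq_zero k z
  ext α
  rw [coeff_zero]
  set P : MvPolynomial σ ℂ := ∑ β ∈ Dk σ (dg α), MvPolynomial.monomial β (coeff β a) with hP
  have h5 : P = 0 := by
    apply MvPolynomial.funext
    intro z
    rw [map_zero, hP, map_sum, ← h4 (dg α) z]
    apply Finset.sum_congr rfl
    intro β _
    rw [MvPolynomial.eval_monomial]
    congr 1
    unfold mono
    rw [Finsupp.prod_fintype]
    intro; simp
  have h6 : MvPolynomial.coeff α P = coeff α a := by
    rw [hP, MvPolynomial.coeff_sum, Finset.sum_eq_single α]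
    · simp
    · intro b _ hb
      rw [MvPolynomial.coeff_monomial, if_neg hb]
    · intro h
      exact absurd (mem_Dk.mpr rfl) h
  rw [← h6, h5]
  simp

/-- existence of the expansion -/
theorem exists_conv_of_analyticAt {f : (σ → ℂ) → ℂ} (hf : AnalyticAt ℂ f 0) :
    ∃ a : MvPowerSeries σ ℂ, IsConv a ∧ ∀ᶠ z in 𝓝 (0 : σ → ℂ), ev a z = f z := by
  classical
  obtain ⟨p, R, hR⟩ := hf
  set n : ℕ := Fintype.card σ + 1 with hn
  -- choose radius
  obtain ⟨r, hr0, hrR⟩ : ∃ r : ℝ≥0, 0 < r ∧ ((n : ℝ≥0) * r : ℝ≥0) < p.radius := by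
    have h1 : 0 < p.radius := hR.r_pos.trans_le hR.r_le
    obtain ⟨t, ht0, htR⟩ := ENNReal.lt_iff_exists_nnreal_btwn.mp h1
    refine ⟨t / n, by
      apply div_pos
      · exact_mod_cast ht0
      · positivity, ?_⟩
    rw [mul_div_cancel₀]
    · exact htR
    · positivity
  set e : (k : ℕ) → (Fin k → σ) → ℂ := fun k v => p k (fun i => Pi.single (v i) 1) with he
  set c : MvPowerSeries σ ℂ := fun α => ∑ v : Fin (dg α) → σ, if content v = α then e (dg α) v else 0 with hc
  have hcoef : ∀ α k, dg α = k → coeff α c = ∑ v : Fin k → σ, if content v = α then e k v else 0 := by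
    intro α k h
    subst h
    rfl
  have hsumk : ∀ (k : ℕ) (F : (σ →₀ ℕ) → ℂ), ∑ α ∈ Dk σ k, coeff α c * F α = ∑ v : Fin k → σ, e k v * F (content v) := by
    intro k F
    rw [← Finset.sum_fiberwise_of_maps_to (s := Finset.univ) (t := Dk σ k) (g := content)
      (fun v _ => mem_Dk.mpr (dg_content v))]
    apply Finset.sum_congr rfl
    intro α hα
    rw [hcoef α k (mem_Dk.mp hα), Finset.sum_mul, Finset.sum_filter]
    apply Finset.sum_congr rfl
    intro v _
    split_ifs with h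
    · rw [h]
    · rw [zero_mul]
  have hnorm : ∀ k, ∑ α ∈ Dk σ k, ‖coeff α c‖ₑ * (r : ℝ≥0∞) ^ k ≤ ‖p k‖ₑ * ((n * r : ℝ≥0) : ℝ≥0∞) ^ k := by
    intro k
    have h1 : ∀ v : Fin k → σ, ‖e k v‖ₑ ≤ ‖p k‖ₑ := by
      intro v
      rw [← ofReal_norm, ← ofReal_norm]
      apply ENNReal.ofReal_le_ofReal
      refine ((p k).le_opNorm _).trans ?_
      apply mul_le_of_le_one_right (norm_nonneg _)
      apply Finset.prod_le_one (fun _ _ => norm_nonneg _)
      intro i _
      rw [Pi.norm_single]; simp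
    calc ∑ α ∈ Dk σ k, ‖coeff α c‖ₑ * (r : ℝ≥0∞) ^ k
        ≤ ∑ α ∈ Dk σ k, (∑ v : Fin k → σ, if content v = α then ‖e k v‖ₑ else 0) * (r : ℝ≥0∞) ^ k := by
          apply Finset.sum_le_sum
          intro α hα
          gcongr
          rw [hcoef α k (mem_Dk.mp hα)]
          refine (enorm_sum_le _ _).trans (Finset.sum_le_sum (fun v _ => ?_))
          split_ifs <;> simp
      _ = (∑ v : Fin k → σ, ‖e k v‖ₑ) * (r : ℝ≥0∞) ^ k := by
          rw [← Finset.sum_mul, Finset.sum_comm]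
          congr 1
          apply Finset.sum_congr rfl
          intro v _
          rw [Finset.sum_ite_eq]
          simp [mem_Dk, dg_content]
      _ ≤ (∑ v : Fin k → σ, ‖p k‖ₑ) * (r : ℝ≥0∞) ^ k := by
          gcongr with v; exact h1 v
      _ ≤ ‖p k‖ₑ * ((n * r : ℝ≥0) : ℝ≥0∞) ^ k := by
          rw [Finset.sum_const, Finset.card_univ, Fintype.card_fun, Fintype.card_fin, nsmul_eq_mul]
          push_cast
          rw [mul_pow, mul_comm _ ‖p k‖ₑ, mul_assoc]
          gcongr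
          exact_mod_cast (Nat.le_succ (Fintype.card σ))
  have hconv : nrm (fun _ => (r : ℝ≥0∞)) c ≠ ∞ := by
    unfold nrm
    simp only [mono_const]
    have h1 : ∑' α : σ →₀ ℕ, ‖coeff α c‖ₑ * (r : ℝ≥0∞) ^ dg α =
        ∑' k, ∑ α ∈ Dk σ k, ‖coeff α c‖ₑ * (r : ℝ≥0∞) ^ k := by
      rw [← (Equiv.sigmaFiberEquiv (dg : (σ →₀ ℕ) → ℕ)).tsum_eq, ENNReal.tsum_sigma']
      congr 1
      ext k
      have hfin : Fintype {α : σ →₀ ℕ // dg α = k} :=
        Fintype.ofFinset (Dk σ k) (fun α => mem_Dk) 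
      rw [tsum_fintype]
      symm
      refine Finset.sum_bij' (fun α h => ⟨α, mem_Dk.mp h⟩) (fun c _ => c.1) ?_ ?_ ?_ ?_ ?_
      · intros; simp
      · intro c _; exact mem_Dk.mpr c.2
      · intros; rfl
      · intros; rfl
      · intro α hα
        simp [Equiv.sigmaFiberEquiv, mem_Dk.mp hα]
    rw [h1]
    have h2 : Summable (fun k => ‖p k‖ * ((n * r : ℝ≥0) : ℝ) ^ k) := p.summable_norm_mul_pow hrR
    have h3 : ∑' k, ‖p k‖ₑ * ((n * r : ℝ≥0) : ℝ≥0∞) ^ k ≠ ∞ := by
      have h4 : ∀ k, ‖p k‖ₑ * ((n * r : ℝ≥0) : ℝ≥0∞) ^ k = ENNReal.ofReal (‖p k‖ * ((n * r : ℝ≥0) : ℝ) ^ k) := by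
        intro k
        rw [ENNReal.ofReal_mul (norm_nonneg _), ofReal_norm, ENNReal.ofReal_pow (NNReal.coe_nonneg _)]
        simp
      simp_rw [h4]
      exact h2.tsum_ofReal_ne_top
    exact ne_top_of_le_ne_top h3 (ENNReal.tsum_le_tsum hnorm)
  refine ⟨c, ⟨r, by simpa using hr0.ne', ENNReal.coe_ne_top, hconv⟩, ?_⟩
  -- eventually equal
  have hball : ∀ᶠ z in 𝓝 (0 : σ → ℂ), z ∈ Metric.eball (0 : σ → ℂ) (min (r : ℝ≥0∞) R) := by
    apply Metric.eball_mem_nhds
    apply lt_min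
    · exact_mod_cast hr0
    · exact hR.r_pos
  filter_upwards [hball] with z hz
  have hz' : ∀ i, ‖z i‖ₑ ≤ (r : ℝ≥0∞) := by
    intro i
    have h1 : ‖z‖ₑ < min (r : ℝ≥0∞) R := by rwa [Metric.mem_eball, edist_zero_right] at hz
    refine le_trans ?_ (h1.le.trans (min_le_left _ _))
    rw [← ofReal_norm, ← ofReal_norm]
    exact ENNReal.ofReal_le_ofReal (norm_le_pi_norm _ _)
  have h2 := hasSum_dg (summable_ev hconv hz').hasSum
  have h3 := hR.hasSum (y := z) (Metric.eball_subset_eball (min_le_right _ _) hz)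
  rw [zero_add] at h3
  have h4 : ∀ k, ∑ α ∈ Dk σ k, coeff α c * mono z α = p k (fun _ => z) := by
    intro k
    rw [hsumk k (fun α => mono z α)]
    have hz1 : z = ∑ i, z i • (Pi.single i (1:ℂ) : σ → ℂ) := by
      ext j
      simp [Pi.single_apply]
    conv_rhs => rw [show (fun _ : Fin k => z) = (fun _ : Fin k => ∑ i, z i • (Pi.single i (1:ℂ) : σ → ℂ)) from by rw [← hz1]]
    rw [(p k).map_sum]
    apply Finset.sum_congr rfl
    intro v _
    rw [(p k).map_smul_univ, smul_eq_mul, mono_content, mul_comm]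
  simp_rw [h4] at h2
  exact h2.unique h3

end Pool.Agent.Helper296
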