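import Pool.Agent.Helper296.Coord

set_option autoImplicit false
set_option linter.unusedSectionVars false
set_option linter.unusedVariables false
set_option linter.unusedSimpArgs false

namespace Pool.Agent.Helper296

open scoped ENNReal BigOperators NNReal Topology
open MvPowerSeries Filter

variable {σ τ : Type} [Fintype σ] [Fintype τ] [DecidableEq σ] [DecidableEq τ]

lemma isConv_rename (e : σ ↪ τ) {a : MvPowerSeries σ ℂ} (ha : IsConv a) : IsConv (rename e a) := by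
  obtain ⟨r, hr, hr', h⟩ := ha
  exact ⟨r, hr, hr', by rwa [nrm_rename]⟩

noncomputable def renC (e : σ ↪ τ) (a : Conv σ) : Conv τ := ⟨rename e (a : MvPowerSeries σ ℂ), isConv_rename e a.2⟩

lemma gev_renC (e : σ ↪ τ) (a : Conv σ) (z : τ → ℂ) : gev (renC e a) z = gev a (fun i => z (e i)) :=
  ev_rename e _ z

/-- splitting of exponents -/
noncomputable def EE : ((σ ⊕ τ) →₀ ℕ) ≃ (σ →₀ ℕ) × (τ →₀ ℕ) := Finsupp.sumFinsuppEquivProdFinsupp

lemma mono_EE {M : Type*} [CommMonoid M] (w : σ ⊕ τ → M) (p : (σ →₀ ℕ) × (τ →₀ ℕ)) :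
    mono w (EE.symm p) = mono (fun i => w (Sum.inl i)) p.1 * mono (fun j => w (Sum.inr j)) p.2 := by
  unfold mono
  rw [Fintype.prod_sum_type]
  simp [EE]

/-- slice of a power series -/
noncomputable def slice (R : MvPowerSeries (σ ⊕ τ) ℂ) (α : σ →₀ ℕ) : MvPowerSeries τ ℂ :=
  fun γ => coeff (EE.symm (α, γ)) R

lemma coeff_slice (R : MvPowerSeries (σ ⊕ τ) ℂ) (α : σ →₀ ℕ) (γ : τ →₀ ℕ) :
    coeff γ (slice R α) = coeff (EE.symm (α, γ)) R := rfl

lemma nrm_slice (w : σ ⊕ τ → ℝ≥0∞) (R : MvPowerSeries (σ ⊕ τ) ℂ) (α : σ →₀ ℕ) :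
    nrm (fun j => w (Sum.inr j)) (slice R α) * mono (fun i => w (Sum.inl i)) α ≤ nrm w R := by
  unfold nrm
  rw [← ENNReal.tsum_mul_right]
  have h : ∀ γ : τ →₀ ℕ, ‖coeff γ (slice R α)‖ₑ * mono (fun j => w (Sum.inr j)) γ * mono (fun i => w (Sum.inl i)) α =
      (fun δ : (σ ⊕ τ) →₀ ℕ => ‖coeff δ R‖ₑ * mono w δ) (EE.symm (α, γ)) := by
    intro γ
    simp only [mono_EE, coeff_slice]
    ring
  simp_rw [h]
  apply ENNReal.tsum_comp_le_tsum_of_injective (f := fun γ : τ →₀ ℕ => EE.symm (α, γ))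
  intro γ γ' hγ
  have := EE.symm.injective hγ
  exact (Prod.mk.inj this).2

/-- exponent attached to a bounded function -/
noncomputable def bex {N : ℕ} (α : σ → Fin N) : σ →₀ ℕ := Finsupp.equivFunOnFinite.symm (fun i => (α i : ℕ))

lemma bex_apply {N : ℕ} (α : σ → Fin N) (i : σ) : bex α i = (α i : ℕ) := rfl

lemma bex_inj {N : ℕ} : Function.Injective (bex : (σ → Fin N) → σ →₀ ℕ) := by
  intro α β h
  ext i
  have := DFunLike.congr_fun h i
  simpa [bex_apply] using this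

lemma ev_slices {w : σ ⊕ τ → ℝ≥0∞} {R : MvPowerSeries (σ ⊕ τ) ℂ} (hR : nrm w R ≠ ∞) {N : ℕ}
    (hR0 : ∀ δ : (σ ⊕ τ) →₀ ℕ, (∃ i, N ≤ δ (Sum.inl i)) → coeff δ R = 0) {Z : σ ⊕ τ → ℂ}
    (hZ : ∀ i, ‖Z i‖ₑ ≤ w i) :
    ev R Z = ∑ α : σ → Fin N, mono (fun i => Z (Sum.inl i)) (bex α) * ev (slice R (bex α)) (fun j => Z (Sum.inr j)) := by
  have hsum := summable_ev hR hZ
  have h1 : Summable (fun p : (σ →₀ ℕ) × (τ →₀ ℕ) => coeff (EE.symm p) R * mono Z (EE.symm p)) :=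
    (Equiv.summable_iff (EE (σ := σ) (τ := τ)).symm (f := fun δ => coeff δ R * mono Z δ)).mpr hsum
  unfold ev
  rw [← (EE (σ := σ) (τ := τ)).symm.tsum_eq, h1.tsum_prod]
  have h2 : ∀ α : σ →₀ ℕ, ∑' γ : τ →₀ ℕ, coeff (EE.symm (α, γ)) R * mono Z (EE.symm (α, γ)) =
      mono (fun i => Z (Sum.inl i)) α * ev (slice R α) (fun j => Z (Sum.inr j)) := by
    intro α
    unfold ev
    rw [← tsum_mul_left]
    congr 1
    ext γ
    rw [mono_EE, coeff_slice]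
    ring
  simp_rw [h2]
  rw [← bex_inj.tsum_eq, tsum_fintype]
  · rfl
  · intro α hα
    by_contra h
    apply hα
    simp only
    have h3 : slice R α = 0 := by
      ext γ
      rw [coeff_slice, coeff_zero]
      apply hR0
      by_contra h4
      push Not at h4
      apply h
      refine ⟨fun i => ⟨α i, ?_⟩, ?_⟩
      · have := h4 i
        simpa [EE] using this
      · ext i; rfl
    rw [h3, ev_zero, mul_zero]

theorem fin_thm (t : τ → Conv σ) (ht : ∀ j, at0 (t j) = 0) (I : Ideal (Conv σ)) (N : ℕ)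
    (hN : ∀ i, (cX i : Conv σ) ^ N ∈ Ideal.span (Set.range t) ⊔ I) (r₀ : ℝ≥0∞) (hr₀ : r₀ ≠ 0) :
    ∃ r s : ℝ≥0∞, r ≠ 0 ∧ r ≠ ∞ ∧ r ≤ r₀ ∧ s ≠ 0 ∧ s ≠ ∞ ∧ s ≤ r₀ ∧
      ∀ a : Conv σ, nrm (fun _ => r) (a : MvPowerSeries σ ℂ) ≠ ∞ →
        ∃ q : (σ → Fin N) → Conv τ, (∀ α, nrm (fun _ => s) (q α : MvPowerSeries τ ℂ) ≠ ∞) ∧
          a - ∑ α, sub t ht (q α) * ∏ i, cX i ^ (α i : ℕ) ∈ I := by
  classical
  -- coefficients
  have hex : ∀ i, ∃ (A : τ → Conv σ) (b : Conv σ), b ∈ I ∧ (cX i : Conv σ) ^ N = ∑ j, A j * t j + b := by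
    intro i
    obtain ⟨y, hy, b, hb, hyb⟩ := Submodule.mem_sup.mp (hN i)
    rw [Ideal.mem_span_range_iff_exists_fun] at hy
    obtain ⟨A, hA⟩ := hy
    exact ⟨A, b, hb, by rw [hA, hyb]⟩
  choose A b hb hAb using hex
  -- radius r
  obtain ⟨r, hr, hr', hrr₀, hrA⟩ := exists_common_radius (Finset.univ : Finset (σ × τ))
    (fun p => (A p.1 p.2 : MvPowerSeries σ ℂ)) (fun p _ => (A p.1 p.2).2) r₀ hr₀
  -- total norm
  set K : ℝ≥0∞ := ∑ p : σ × τ, nrm (fun _ => r) (A p.1 p.2 : MvPowerSeries σ ℂ) with hK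
  have hKt : K ≠ ∞ := by
    rw [hK]
    exact ENNReal.sum_ne_top.mpr hrA
  -- radius s
  obtain ⟨s, hs, hs', hss₀, hsK⟩ : ∃ s : ℝ≥0∞, s ≠ 0 ∧ s ≠ ∞ ∧ s ≤ r₀ ∧ K * s ≤ 2⁻¹ * r ^ N := by
    refine ⟨min (min r₀ 1) (2⁻¹ * r ^ N / (K + 1)), ?_, ?_, ?_, ?_⟩
    · apply ne_of_gt
      apply lt_min
      · exact lt_min (pos_iff_ne_zero.mpr hr₀) one_pos
      · apply ENNReal.div_pos
        · exact mul_ne_zero (by simp) (pow_ne_zero _ hr)
        · simp [hKt]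
    · exact ne_top_of_le_ne_top ENNReal.one_ne_top ((min_le_left _ _).trans (min_le_right _ _))
    · exact (min_le_left _ _).trans (min_le_left _ _)
    · calc K * min (min r₀ 1) (2⁻¹ * r ^ N / (K + 1)) ≤ (K + 1) * (2⁻¹ * r ^ N / (K + 1)) := by
            gcongr
            · exact le_self_add
            · exact min_le_right _ _
        _ ≤ 2⁻¹ * r ^ N := ENNReal.mul_div_le
  refine ⟨r, s, hr, hr', hrr₀, hs, hs', hss₀, ?_⟩
  intro a ha
  set w : σ ⊕ τ → ℝ≥0∞ := Sum.elim (fun _ => r) (fun _ => s) with hw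
  have hw0 : ∀ i, w i ≠ 0 := by rintro (i | j) <;> simp [hw, hr, hs]
  have hwt : ∀ i, w i ≠ ∞ := by rintro (i | j) <;> simp [hw, hr', hs']
  set c : σ → MvPowerSeries (σ ⊕ τ) ℂ := fun i => ∑ j, rename (Function.Embedding.inl : σ ↪ σ ⊕ τ) (A i j : MvPowerSeries σ ℂ) * X (Sum.inr j) with hc
  have hcn : ∀ i, nrm w (c i) ≤ 2⁻¹ * mono w (Finsupp.single (Sum.inl i : σ ⊕ τ) N) := by
    intro i
    rw [mono_single]
    calc nrm w (c i) ≤ ∑ j, nrm w (rename (Function.Embedding.inl : σ ↪ σ ⊕ τ) (A i j : MvPowerSeries σ ℂ) * X (Sum.inr j)) := nrm_sum_le _ _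
      _ ≤ ∑ j, nrm (fun _ => r) (A i j : MvPowerSeries σ ℂ) * s := by
          apply Finset.sum_le_sum
          intro j _
          refine (nrm_mul_le _ _).trans ?_
          rw [nrm_rename, nrm_X]
          simp [hw]
      _ = (∑ j, nrm (fun _ => r) (A i j : MvPowerSeries σ ℂ)) * s := by rw [Finset.sum_mul]
      _ ≤ K * s := by
          gcongr
          rw [hK, Fintype.sum_prod_type]
          exact Finset.single_le_sum (f := fun i => ∑ j, nrm (fun _ => r) (A i j : MvPowerSeries σ ℂ)) (fun _ _ => zero_le) (Finset.mem_univ i)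
      _ ≤ 2⁻¹ * r ^ N := hsK
      _ = _ := by simp [hw]
  set sel : ((σ ⊕ τ) →₀ ℕ) → Option σ := fun α =>
    if h : ∃ i : σ, Finsupp.single (Sum.inl i : σ ⊕ τ) N ≤ α then some h.choose else none with hsel
  have hsel1 : ∀ α (i : σ), sel α = some i → Finsupp.single (Sum.inl i : σ ⊕ τ) N ≤ α := by
    intro α i hi
    simp only [hsel] at hi
    split_ifs at hi with h
    rw [← Option.some.inj hi]
    exact h.choose_spec
  have han : nrm w (rename (Function.Embedding.inl : σ ↪ σ ⊕ τ) (a : MvPowerSeries σ ℂ)) ≠ ∞ := by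
    rw [nrm_rename]
    simpa [hw] using ha
  obtain ⟨q, R, hq, hR, hR0, heq⟩ := div_thm (β := fun i : σ => Finsupp.single (Sum.inl i : σ ⊕ τ) N) (sel := sel)
      (w := w) hw0 hwt hsel1 c 2⁻¹ (by rw [ENNReal.inv_lt_one]; norm_num) hcn _ han
  have hR0' : ∀ δ : (σ ⊕ τ) →₀ ℕ, (∃ i, N ≤ δ (Sum.inl i)) → coeff δ R = 0 := by
    rintro δ ⟨i, hi⟩
    apply hR0
    simp only [hsel]
    rw [dif_pos ⟨i, by rw [Finsupp.single_le_iff]; exact hi⟩]
    simp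
  -- convergence with respect to a constant radius
  set m : ℝ≥0∞ := min r s with hm
  have hm0 : m ≠ 0 := (lt_min (pos_iff_ne_zero.mpr hr) (pos_iff_ne_zero.mpr hs)).ne'
  have hmt : m ≠ ∞ := ne_top_of_le_ne_top hr' (min_le_left _ _)
  have hmw : ∀ i, (fun _ : σ ⊕ τ => m) i ≤ w i := by
    rintro (i | j)
    · simp [hw, hm]
    · simp [hw, hm]
  have hqc : ∀ i, IsConv (q i) := fun i => ⟨m, hm0, hmt, nrm_ne_top_mono hmw (hq i)⟩
  have hRc : IsConv R := ⟨m, hm0, hmt, nrm_ne_top_mono hmw hR⟩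
  have hslice : ∀ α : σ → Fin N, nrm (fun _ => s) (slice R (bex α)) ≠ ∞ := by
    intro α
    have h1 := nrm_slice w R (bex α)
    have h2 : mono (fun i => w (Sum.inl i)) (bex α) ≠ 0 := mono_ne_zero (fun i => hw0 _) _
    intro h
    have h3 : nrm (fun j => w (Sum.inr j)) (slice R (bex α)) = ∞ := by
      simpa [hw] using h
    rw [h3, ENNReal.top_mul h2] at h1
    exact hR (top_le_iff.mp h1)
  refine ⟨fun α => ⟨slice R (bex α), ⟨s, hs, hs', hslice α⟩⟩, hslice, ?_⟩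
  -- the algebraic identity
  set T : σ ⊕ τ → Conv σ := Sum.elim cX t with hT
  have hT0 : ∀ i, at0 (T i) = 0 := by
    rintro (i | j)
    · simp [hT]
    · simp [hT, ht]
  have hΦren : ∀ a : Conv σ, sub T hT0 (renC (Function.Embedding.inl : σ ↪ σ ⊕ τ) a) = a := by
    intro a
    apply gev_ext
    filter_upwards [gev_sub' T hT0 (renC (Function.Embedding.inl : σ ↪ σ ⊕ τ) a)] with z hz
    rw [hz, gev_renC]
    congr 1
    ext i
    simp [tev, hT]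
  have hid : renC (Function.Embedding.inl : σ ↪ σ ⊕ τ) a =
      ∑ i, (⟨q i, hqc i⟩ : Conv (σ ⊕ τ)) * ((cX (Sum.inl i)) ^ N - ∑ j, renC (Function.Embedding.inl : σ ↪ σ ⊕ τ) (A i j) * cX (Sum.inr j)) + ⟨R, hRc⟩ := by
    apply Subtype.ext
    push_cast
    refine heq.trans ?_
    congr 1
    apply Finset.sum_congr rfl
    intro i _
    congr 2
    exact (X_pow_eq _ _).symm
  have h1 := congrArg (sub T hT0) hid
  rw [hΦren, map_add, map_sum] at h1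
  have h2 : ∀ i, sub T hT0 ((⟨q i, hqc i⟩ : Conv (σ ⊕ τ)) * ((cX (Sum.inl i)) ^ N - ∑ j, renC (Function.Embedding.inl : σ ↪ σ ⊕ τ) (A i j) * cX (Sum.inr j))) =
      sub T hT0 (⟨q i, hqc i⟩ : Conv (σ ⊕ τ)) * b i := by
    intro i
    rw [map_mul, map_sub, map_pow, map_sum, sub_cX]
    congr 1
    simp only [map_mul, hΦren, sub_cX]
    have : T (Sum.inl i) = cX i := rfl
    rw [this, hAb i]
    simp [hT]
  simp_rw [h2] at h1
  have h3 : sub T hT0 (⟨R, hRc⟩ : Conv (σ ⊕ τ)) = ∑ α : σ → Fin N, sub t ht ⟨slice R (bex α), ⟨s, hs, hs', hslice α⟩⟩ * ∏ i, cX i ^ (α i : ℕ) := by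
    apply gev_ext
    have e1 : ∀ᶠ z in 𝓝 (0 : σ → ℂ), ∀ α : σ → Fin N,
        gev (sub t ht ⟨slice R (bex α), ⟨s, hs, hs', hslice α⟩⟩) z = gev ⟨slice R (bex α), ⟨s, hs, hs', hslice α⟩⟩ (tev t z) :=
      eventually_all.mpr (fun α => gev_sub' t ht _)
    have e2 : ∀ᶠ z in 𝓝 (0 : σ → ℂ), ∀ α : σ → Fin N,
        gev (sub t ht ⟨slice R (bex α), ⟨s, hs, hs', hslice α⟩⟩ * ∏ i, cX i ^ (α i : ℕ)) z =
        gev (sub t ht ⟨slice R (bex α), ⟨s, hs, hs', hslice α⟩⟩) z * gev (∏ i, cX i ^ (α i : ℕ)) z :=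
      eventually_all.mpr (fun α => gev_mul _ _)
    have e3 : ∀ᶠ z in 𝓝 (0 : σ → ℂ), ∀ α : σ → Fin N,
        gev (∏ i, cX i ^ (α i : ℕ)) z = ∏ i, gev (cX i ^ (α i : ℕ)) z :=
      eventually_all.mpr (fun α => gev_prod _ _)
    have e4 : ∀ᶠ z in 𝓝 (0 : σ → ℂ), ∀ α : σ → Fin N, ∀ i, gev (cX i ^ (α i : ℕ)) z = gev (cX i) z ^ (α i : ℕ) :=
      eventually_all.mpr (fun α => eventually_all.mpr (fun i => gev_pow _ _))
    have e5 := eventually_small (σ := σ) r hr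
    have e6 := (tendsto_tev t ht).eventually (eventually_small (σ := τ) s hs)
    filter_upwards [gev_sub' T hT0 (⟨R, hRc⟩ : Conv (σ ⊕ τ)), gev_sum Finset.univ (fun α : σ → Fin N => sub t ht ⟨slice R (bex α), ⟨s, hs, hs', hslice α⟩⟩ * ∏ i, cX i ^ (α i : ℕ)),
      e1, e2, e3, e4, e5, e6] with z z1 z2 z3 z4 z5 z6 z7 z8
    rw [z1, z2]
    have hZ : ∀ i, ‖tev T z i‖ₑ ≤ w i := by
      rintro (i | j)
      · simpa [tev, hT, hw] using z7 i
      · simpa [tev, hT, hw] using z8 j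
    have h5 : gev (⟨R, hRc⟩ : Conv (σ ⊕ τ)) (tev T z) = _ := ev_slices hR hR0' hZ
    rw [h5]
    apply Finset.sum_congr rfl
    intro α _
    rw [z4 α, z5 α, z3 α, mul_comm]
    congr 1
    unfold mono
    apply Finset.prod_congr rfl
    intro i _
    rw [z6 α i]
    simp [tev, hT, bex_apply]
  rw [h3] at h1
  have h4 : a - ∑ α : σ → Fin N, sub t ht ⟨slice R (bex α), ⟨s, hs, hs', hslice α⟩⟩ * ∏ i, cX i ^ (α i : ℕ) =
      ∑ i, sub T hT0 (⟨q i, hqc i⟩ : Conv (σ ⊕ τ)) * b i := by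
    rw [sub_eq_iff_eq_add]
    exact h1
  rw [h4]
  apply Ideal.sum_mem
  intro i _
  exact I.mul_mem_left _ (hb i)

end Pool.Agent.Helper296
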