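import Pool.Agent.Helper296.Nss1

set_option autoImplicit false
set_option linter.unusedSectionVars false
set_option linter.unusedVariables false
set_option linter.unusedSimpArgs false

namespace Pool.Agent.Helper296

open scoped ENNReal BigOperators NNReal Topology
open MvPowerSeries Filter

variable {σ : Type} [Fintype σ] [DecidableEq σ]

/-- characters from matrix representations -/
lemma exists_char {E : Type*} [CommRing E] [Algebra ℂ E] {ι : Type*} [Fintype ι] [DecidableEq ι] [Nonempty ι]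
    (Φ : E →ₐ[ℂ] Matrix ι ι ℂ) : ∃ χ : E →ₐ[ℂ] ℂ, ∀ a, Φ a = 0 → χ a = 0 := by
  classical
  have hne : RingHom.ker Φ ≠ ⊤ := by
    intro h
    have : (1 : E) ∈ RingHom.ker Φ := by rw [h]; trivial
    rw [RingHom.mem_ker, map_one] at this
    exact one_ne_zero this
  obtain ⟨M, hM, hle⟩ := Ideal.exists_le_maximal _ hne
  let _i : Field (E ⧸ M) := Ideal.Quotient.field M
  have hint : Algebra.IsIntegral ℂ (E ⧸ M) := by
    refine ⟨fun x => ?_⟩
    obtain ⟨a, rfl⟩ := Ideal.Quotient.mk_surjective x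
    refine ⟨(Φ a).charpoly, Matrix.charpoly_monic _, ?_⟩
    have h1 : Φ (Polynomial.aeval a (Φ a).charpoly) = 0 := by
      rw [← Polynomial.aeval_algHom_apply, Matrix.aeval_self_charpoly]
    have h2 : Polynomial.aeval a (Φ a).charpoly ∈ M := hle h1
    have h3 : Polynomial.aeval (Ideal.Quotient.mkₐ ℂ M a) (Φ a).charpoly = 0 := by
      rw [Polynomial.aeval_algHom_apply]
      exact Ideal.Quotient.eq_zero_iff_mem.mpr h2
    exact h3
  have hbij := IsAlgClosed.algebraMap_bijective_of_isIntegral (k := ℂ) (K := E ⧸ M)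
  let e : ℂ ≃ₐ[ℂ] (E ⧸ M) := AlgEquiv.ofBijective (Algebra.ofId ℂ (E ⧸ M)) hbij
  refine ⟨(e.symm : (E ⧸ M) →ₐ[ℂ] ℂ).comp (Ideal.Quotient.mkₐ ℂ M), ?_⟩
  intro a ha
  have h2 : a ∈ M := hle ha
  show e.symm (Ideal.Quotient.mk M a) = 0
  rw [Ideal.Quotient.eq_zero_iff_mem.mpr h2, map_zero]

/-- neighbourhoods of zero contain polydiscs -/
lemma exists_polydisc {p : (σ → ℂ) → Prop} (H : ∀ᶠ z in 𝓝 (0 : σ → ℂ), p z) :
    ∃ ε : ℝ≥0∞, ε ≠ 0 ∧ ∀ z, (∀ i, ‖z i‖ₑ ≤ ε) → p z := by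
  rw [Metric.eventually_nhds_iff] at H
  obtain ⟨δ, hδ, H⟩ := H
  refine ⟨ENNReal.ofReal (δ / 2), by simpa using hδ, ?_⟩
  intro z hz
  apply H
  rw [dist_zero_right]
  have h1 : ‖z‖ ≤ δ / 2 := by
    rw [pi_norm_le_iff_of_nonneg (by positivity)]
    intro i
    have := hz i
    rw [← ofReal_norm] at this
    exact (ENNReal.ofReal_le_ofReal_iff (by positivity)).mp this
  linarith

lemma cX_ne_zero (i : σ) : (cX i : Conv σ) ≠ 0 := by
  intro h
  have := congrArg (pd i) h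
  rw [pd_cX, map_zero] at this
  simp at this

lemma maxIdeal_unit : IsLocalRing.maximalIdeal (Conv Unit) = Ideal.span {(cX () : Conv Unit)} := by
  rw [maximalIdeal_eq_span]
  congr 1
  ext x
  constructor
  · rintro ⟨i, rfl⟩; rfl
  · intro h
    rw [Set.mem_singleton_iff] at h
    exact ⟨(), h.symm⟩

instance instDVR : IsDiscreteValuationRing (Conv Unit) := by
  have hnf : ¬ IsField (Conv Unit) := by
    intro hf
    rw [IsLocalRing.isField_iff_maximalIdeal_eq, maxIdeal_unit, Ideal.span_singleton_eq_bot] at hf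
    exact cX_ne_zero () hf
  refine ((IsDiscreteValuationRing.TFAE (Conv Unit) hnf).out 0 4).mpr ?_
  rw [maxIdeal_unit]
  exact ⟨⟨_, rfl⟩⟩

/-- injectivity of algebra maps out of Conv Unit -/
lemma injective_of_cX_ne {D : Type*} [CommRing D] [IsDomain D] (ψ : Conv Unit →+* D) (h : ψ (cX ()) ≠ 0) :
    Function.Injective ψ := by
  rw [injective_iff_map_eq_zero]
  intro a ha
  by_contra hne
  obtain ⟨n, u, hu⟩ := IsDiscreteValuationRing.eq_unit_mul_pow_irreducible hne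
    (IsDiscreteValuationRing.irreducible_of_span_eq_maximalIdeal (cX () : Conv Unit) (cX_ne_zero ()) maxIdeal_unit)
  rw [hu, map_mul, map_pow] at ha
  rcases mul_eq_zero.mp ha with h1 | h1
  · exact (u.isUnit.map ψ).ne_zero h1
  · exact pow_ne_zero n h h1

/-- the algebraic part: matrix representation with norm control, general position already chosen -/
lemma nss_prime {D : Type*} [CommRing D] [IsDomain D] (π : Conv σ →+* D) (hπ : Function.Surjective π)
    (h : Conv σ) (hh : π h ≠ 0) (h0 : at0 h = 0) (N : ℕ)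
    (hN : (IsLocalRing.maximalIdeal (Conv σ)) ^ N ≤ RingHom.ker π ⊔ Ideal.span {h}) (r₀ : ℝ≥0∞) (hr₀ : r₀ ≠ 0) :
    ∃ (r : ℝ≥0∞) (hr' : r ≠ ∞) (hr : r ≠ 0) (hrr : r ≤ r₀) (χ : (Er r hr' : Subalgebra ℂ (Conv σ)) →ₐ[ℂ] ℂ),
      (∀ a : (Er r hr' : Subalgebra ℂ (Conv σ)), π (a : Conv σ) = 0 → χ a = 0) ∧
      (∀ a : (Er r hr' : Subalgebra ℂ (Conv σ)), (a : Conv σ) = h → χ a ≠ 0) := by
  classical
  set t : Unit → Conv σ := fun _ => h with ht
  have ht0 : ∀ j, at0 (t j) = 0 := fun _ => h0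
  have hN' : ∀ i, (cX i : Conv σ) ^ N ∈ Ideal.span (Set.range t) ⊔ RingHom.ker π := by
    intro i
    have h1 : (cX i : Conv σ) ^ N ∈ RingHom.ker π ⊔ Ideal.span {h} :=
      hN (Ideal.pow_mem_pow ((mem_maximalIdeal_iff _).mpr (at0_cX i)) N)
    rw [sup_comm]
    have h2 : Set.range t = {h} := by
      ext x; constructor
      · rintro ⟨_, rfl⟩; rfl
      · intro hx; exact ⟨(), (Set.mem_singleton_iff.mp hx).symm⟩
    rw [h2]; exact h1
  let ψ : Conv Unit →+* D := π.comp (sub t ht0 : Conv Unit →+* Conv σ)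
  have hψX : ψ (cX ()) = π h := by
    show π (sub t ht0 (cX ())) = _
    rw [sub_cX]
  have hψinj : Function.Injective ψ := by
    apply injective_of_cX_ne ψ
    rw [hψX]
    exact hh
  let alg : Algebra (Conv Unit) D := ψ.toAlgebra
  have hsmul : ∀ (s : Conv Unit) (x : D), s • x = ψ s * x := fun s x => rfl
  have hamap : ∀ (s : Conv Unit), algebraMap (Conv Unit) D s = ψ s := fun s => rfl
  have htf : Module.IsTorsionFree (Conv Unit) D := by
    rw [Module.isTorsionFree_iff_algebraMap_injective]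
    exact hψinj
  -- spanning
  have hspan : ∀ (r₁ : ℝ≥0∞) (hr₁ : r₁ ≠ 0), ∃ r s : ℝ≥0∞, r ≠ 0 ∧ r ≠ ∞ ∧ r ≤ r₁ ∧ s ≠ 0 ∧ s ≠ ∞ ∧ s ≤ r₁ ∧
      ∀ a : Conv σ, nrm (fun _ => r) (a : MvPowerSeries σ ℂ) ≠ ∞ →
        ∃ q : (σ → Fin N) → Conv Unit, (∀ α, nrm (fun _ => s) (q α : MvPowerSeries Unit ℂ) ≠ ∞) ∧
          (π a) = ∑ α, q α • (π (∏ i, cX i ^ (α i : ℕ))) := by
    intro r₁ hr₁
    obtain ⟨r, s, h1, h2, h3, h4, h5, h6, h7⟩ := fin_thm t ht0 (RingHom.ker π) N hN' r₁ hr₁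
    refine ⟨r, s, h1, h2, h3, h4, h5, h6, fun a ha => ?_⟩
    obtain ⟨q, hq, hq'⟩ := h7 a ha
    refine ⟨q, hq, ?_⟩
    rw [RingHom.mem_ker, map_sub, sub_eq_zero] at hq'
    rw [hq', map_sum]
    apply Finset.sum_congr rfl
    intro α _
    rw [map_mul, hsmul]
    rfl
  have hfinm : Module.Finite (Conv Unit) D := by
    refine ⟨⟨Finset.univ.image (fun α : σ → Fin N => π (∏ i, cX i ^ (α i : ℕ))), ?_⟩⟩
    rw [eq_top_iff]
    rintro x -
    obtain ⟨a, rfl⟩ := hπ x
    obtain ⟨r₂, hr₂, hr₂', ha⟩ := a.2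
    obtain ⟨r, s, h1, h2, h3, h4, h5, h6, h7⟩ := hspan r₂ hr₂
    obtain ⟨q, _, hq⟩ := h7 a (nrm_ne_top_mono (fun _ => h3) ha)
    rw [hq]
    apply Submodule.sum_mem
    intro α _
    apply Submodule.smul_mem
    apply Submodule.subset_span
    simp
  have hfree : Module.Free (Conv Unit) D := Module.free_of_finite_type_torsion_free'
  let b := Module.Free.chooseBasis (Conv Unit) D
  have hne : Nonempty (Module.Free.ChooseBasisIndex (Conv Unit) D) := b.index_nonempty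
  let ρ := Algebra.leftMulMatrix b
  -- common radius for the entries
  obtain ⟨s₁, hs₁, hs₁', hs₁r, hent⟩ := exists_common_radius
    (Finset.univ : Finset ((σ → Fin N) × (Module.Free.ChooseBasisIndex (Conv Unit) D) × (Module.Free.ChooseBasisIndex (Conv Unit) D)))
    (fun p => ((ρ (π (∏ i, cX i ^ (p.1 i : ℕ))) p.2.1 p.2.2 : Conv Unit) : MvPowerSeries Unit ℂ))
    (fun p _ => (ρ (π (∏ i, cX i ^ (p.1 i : ℕ))) p.2.1 p.2.2).2) r₀ hr₀
  obtain ⟨r, s, hr, hr', hrr, hs, hs', hss, hmain⟩ := hspan s₁ hs₁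
  have hentry : ∀ (a : (Er r hr' : Subalgebra ℂ (Conv σ))) (i j : _), ρ (π (a : Conv σ)) i j ∈ (Er s hs' : Subalgebra ℂ (Conv Unit)) := by
    intro a i j
    obtain ⟨q, hq, hq'⟩ := hmain a a.2
    rw [hq', map_sum, Matrix.sum_apply]
    apply Subalgebra.sum_mem
    intro α _
    rw [map_smul, Matrix.smul_apply, smul_eq_mul]
    apply Subalgebra.mul_mem
    · exact hq α
    · exact nrm_ne_top_mono (fun _ => hss) (hent (α, i, j) (Finset.mem_univ _))
  -- choose a nonzero small value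
  obtain ⟨t0, ht00, ht0s⟩ : ∃ t0 : ℂ, t0 ≠ 0 ∧ ‖t0‖ₑ ≤ s := by
    refine ⟨((min s 1).toReal : ℂ), ?_, ?_⟩
    · have h1 : min s 1 ≠ 0 := (lt_min (pos_iff_ne_zero.mpr hs) one_pos).ne'
      have h2 : min s 1 ≠ ∞ := ne_top_of_le_ne_top ENNReal.one_ne_top (min_le_right _ _)
      have h3 := ENNReal.toReal_ne_zero.mpr ⟨h1, h2⟩
      exact_mod_cast h3
    · have h2 : min s 1 ≠ ∞ := ne_top_of_le_ne_top ENNReal.one_ne_top (min_le_right _ _)
      rw [← ofReal_norm, Complex.norm_real, Real.norm_eq_abs, abs_of_nonneg ENNReal.toReal_nonneg, ENNReal.ofReal_toReal h2]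
      exact min_le_left _ _
  have hz : ∀ i : Unit, ‖(fun _ : Unit => t0) i‖ₑ ≤ s := fun _ => ht0s
  let ev0 : (Er s hs' : Subalgebra ℂ (Conv Unit)) →ₐ[ℂ] ℂ := evE (hr' := hs') (fun _ : Unit => t0) hz
  let ρ' : ↥(Er r hr' : Subalgebra ℂ (Conv σ)) → Matrix (Module.Free.ChooseBasisIndex (Conv Unit) D) (Module.Free.ChooseBasisIndex (Conv Unit) D) (Er s hs' : Subalgebra ℂ (Conv Unit)) :=
    fun a i j => ⟨ρ (π (a : Conv σ)) i j, hentry a i j⟩
  have hρ'inj : Function.Injective (fun M : Matrix (Module.Free.ChooseBasisIndex (Conv Unit) D) (Module.Free.ChooseBasisIndex (Conv Unit) D) (Er s hs' : Subalgebra ℂ (Conv Unit)) =>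
      M.map (Er s hs' : Subalgebra ℂ (Conv Unit)).val) := Matrix.map_injective Subtype.val_injective
  have hρ'm : ∀ a, (ρ' a).map (Er s hs' : Subalgebra ℂ (Conv Unit)).val = ρ (π (a : Conv σ)) := fun a => rfl
  let Φ : (Er r hr' : Subalgebra ℂ (Conv σ)) →ₐ[ℂ] Matrix (Module.Free.ChooseBasisIndex (Conv Unit) D) (Module.Free.ChooseBasisIndex (Conv Unit) D) ℂ :=
    { toFun := fun a => (ρ' a).map ev0
      map_one' := by
        have : ρ' 1 = 1 := by
          apply hρ'inj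
          simp only [hρ'm]
          rw [OneMemClass.coe_one, map_one, map_one, Matrix.map_one _ (map_zero _) (map_one _)]
        rw [this, Matrix.map_one _ (map_zero _) (map_one _)]
      map_mul' := by
        intro a b
        have : ρ' (a * b) = ρ' a * ρ' b := by
          apply hρ'inj
          simp only [hρ'm, Matrix.map_mul]
          rw [MulMemClass.coe_mul, map_mul, map_mul]
        rw [this, Matrix.map_mul]
      map_zero' := by
        have : ρ' 0 = 0 := by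
          apply hρ'inj
          simp only [hρ'm]
          rw [ZeroMemClass.coe_zero, map_zero, map_zero, Matrix.map_zero _ (map_zero _)]
        rw [this, Matrix.map_zero _ (map_zero _)]
      map_add' := by
        intro a b
        have : ρ' (a + b) = ρ' a + ρ' b := by
          apply hρ'inj
          simp only [hρ'm]
          rw [AddMemClass.coe_add, map_add, map_add, Matrix.map_add _ (map_add _)]
          rfl
        rw [this, Matrix.map_add _ (map_add _)]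
      commutes' := by
        intro c
        have : ρ' (algebraMap ℂ _ c) = algebraMap ℂ _ c := by
          apply hρ'inj
          simp only [hρ'm]
          have h1 : π ((algebraMap ℂ (Er r hr' : Subalgebra ℂ (Conv σ)) c : (Er r hr' : Subalgebra ℂ (Conv σ))) : Conv σ) = algebraMap (Conv Unit) D (algebraMap ℂ (Conv Unit) c) := by
            rw [hamap]
            show _ = π (sub t ht0 (algebraMap ℂ (Conv Unit) c))
            rw [AlgHom.commutes]
            rfl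
          rw [h1, AlgHom.commutes]
          ext i j
          simp only [Matrix.map_apply, Matrix.algebraMap_matrix_apply]
          split_ifs <;> rfl
        rw [this]
        ext i j
        simp only [Matrix.map_apply, Matrix.algebraMap_matrix_apply]
        split_ifs
        · exact AlgHom.commutes _ _
        · exact map_zero _ }
  obtain ⟨χ, hχ⟩ := exists_char (E := ↥(Er r hr' : Subalgebra ℂ (Conv σ))) Φ
  refine ⟨r, hr', hr, hrr.trans hs₁r, χ, ?_, ?_⟩
  · intro a ha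
    apply hχ
    show (ρ' a).map ev0 = 0
    have : ρ' a = 0 := by
      apply hρ'inj
      simp only [hρ'm]
      rw [ha, map_zero, Matrix.map_zero _ (map_zero _)]
    rw [this, Matrix.map_zero _ (map_zero _)]
  · intro a ha hχa
    have h1 : Φ (a - algebraMap ℂ _ t0) = 0 := by
      have h2 : Φ a = algebraMap ℂ _ t0 := by
        show (ρ' a).map ev0 = _
        have h3 : ρ (π (a : Conv σ)) = algebraMap (Conv Unit) _ (cX ()) := by
          rw [ha, ← hψX, ← hamap, AlgHom.commutes]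
        ext i j
        rw [Matrix.map_apply]
        have h4 : ev0 (ρ' a i j) = gev (ρ (π (a : Conv σ)) i j) (fun _ => t0) := rfl
        rw [h4, h3, Matrix.algebraMap_matrix_apply, Matrix.algebraMap_matrix_apply]
        split_ifs
        · show gev (cX ()) _ = _
          rw [gev_cX]; rfl
        · simp
      rw [map_sub Φ a (algebraMap ℂ _ t0), h2, AlgHom.commutes, sub_self]
    have h5 := hχ _ h1
    rw [map_sub χ a (algebraMap ℂ _ t0), hχa, AlgHom.commutes, zero_sub, neg_eq_zero] at h5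
    exact ht00 h5


lemma nss_prime' (𝔮 : Ideal (Conv σ)) [h𝔮 : 𝔮.IsPrime]
    (h : Conv σ) (hh : h ∉ 𝔮) (h0 : at0 h = 0) (N : ℕ)
    (hN : (IsLocalRing.maximalIdeal (Conv σ)) ^ N ≤ 𝔮 ⊔ Ideal.span {h}) (r₀ : ℝ≥0∞) (hr₀ : r₀ ≠ 0) :
    ∃ (r : ℝ≥0∞) (hr' : r ≠ ∞) (hr : r ≠ 0) (hrr : r ≤ r₀) (χ : (Er r hr' : Subalgebra ℂ (Conv σ)) →ₐ[ℂ] ℂ),
      (∀ a : (Er r hr' : Subalgebra ℂ (Conv σ)), (a : Conv σ) ∈ 𝔮 → χ a = 0) ∧
      (∀ a : (Er r hr' : Subalgebra ℂ (Conv σ)), (a : Conv σ) = h → χ a ≠ 0) := by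
  have hDdom : IsDomain (Conv σ ⧸ 𝔮) := Ideal.Quotient.isDomain 𝔮
  obtain ⟨D, i1, i2, π, hπ, hker⟩ : ∃ (D : Type) (i1 : CommRing D) (i2 : IsDomain D) (π : Conv σ →+* D),
      Function.Surjective π ∧ RingHom.ker π = 𝔮 :=
    ⟨Conv σ ⧸ 𝔮, inferInstance, hDdom, Ideal.Quotient.mk 𝔮, Ideal.Quotient.mk_surjective, Ideal.mk_ker⟩
  have hh' : π h ≠ 0 := by
    intro h1
    apply hh
    rw [← hker]
    exact h1
  obtain ⟨r, hr', hr, hrr, χ, hχ1, hχ2⟩ := nss_prime π hπ h hh' h0 N (by rw [hker]; exact hN) r₀ hr₀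
  refine ⟨r, hr', hr, hrr, χ, ?_, hχ2⟩
  intro a ha
  apply hχ1
  rw [← hker] at ha
  exact ha

/-- the maximal ideal is the radical of ker + (h) -/
lemma max_le_radical {R : Type*} [CommRing R] [IsNoetherianRing R] [IsLocalRing R] (𝔮 : Ideal R) [h𝔮 : 𝔮.IsPrime]
    (h : R) (hh : h ∉ 𝔮) (hmax : ∀ P : Ideal R, P.IsPrime → 𝔮 < P → h ∈ P) :
    IsLocalRing.maximalIdeal R ≤ (𝔮 ⊔ Ideal.span {h}).radical := by
  have hDdom : IsDomain (R ⧸ 𝔮) := Ideal.Quotient.isDomain 𝔮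
  have hDloc : IsLocalRing (R ⧸ 𝔮) := IsLocalRing.of_surjective' (Ideal.Quotient.mk 𝔮) Ideal.Quotient.mk_surjective
  rw [Ideal.radical_eq_sInf]
  apply le_sInf
  rintro P ⟨hPle, hPp⟩
  have h𝔮P : 𝔮 ≤ P := le_sup_left.trans hPle
  have hhP : h ∈ P := hPle (Ideal.mem_sup_right (Ideal.mem_span_singleton_self h))
  have hP' : (P.map (Ideal.Quotient.mk 𝔮)).IsPrime :=
    Ideal.map_isPrime_of_surjective Ideal.Quotient.mk_surjective (by rw [Ideal.mk_ker]; exact h𝔮P)
  have h2 := prime_eq_max (D := R ⧸ 𝔮) (h := Ideal.Quotient.mk 𝔮 h) (by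
      intro h3; exact hh (Ideal.Quotient.eq_zero_iff_mem.mp h3)) (by
      intro Q hQ hQne
      have := hmax (Q.comap (Ideal.Quotient.mk 𝔮)) (Ideal.comap_isPrime _ _) (by
        refine lt_of_le_of_ne ?_ ?_
        · intro x hx
          rw [Ideal.mem_comap, Ideal.Quotient.eq_zero_iff_mem.mpr hx]
          exact Q.zero_mem
        · intro heq
          apply hQne
          rw [eq_bot_iff]
          intro x hx
          obtain ⟨y, rfl⟩ := Ideal.Quotient.mk_surjective x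
          have : y ∈ 𝔮 := by rw [heq]; exact hx
          exact Ideal.Quotient.eq_zero_iff_mem.mpr this)
      exact this) _ hP' (Ideal.mem_map_of_mem _ hhP)
  intro x hx
  have hxm : Ideal.Quotient.mk 𝔮 x ∈ IsLocalRing.maximalIdeal (R ⧸ 𝔮) := by
    rw [IsLocalRing.mem_maximalIdeal, mem_nonunits_iff] at hx ⊢
    intro hu
    apply hx
    have hlh : IsLocalHom (Ideal.Quotient.mk 𝔮) := IsLocalHom.of_surjective _ Ideal.Quotient.mk_surjective
    exact isUnit_of_map_unit (Ideal.Quotient.mk 𝔮) x hu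
  rw [← h2] at hxm
  rw [Ideal.mem_map_iff_of_surjective _ Ideal.Quotient.mk_surjective] at hxm
  obtain ⟨y, hy, hyx⟩ := hxm
  have h5 : y - x ∈ 𝔮 := by rwa [← Ideal.Quotient.eq]
  have h6 := P.sub_mem hy (h𝔮P h5)
  simpa using h6

/-- the analytic Nullstellensatz -/
theorem nss {κ : Type} [Fintype κ] (g : κ → Conv σ) (h : Conv σ)
    (H : ∀ᶠ z in 𝓝 (0 : σ → ℂ), (∀ k, gev (g k) z = 0) → gev h z = 0) :
    h ∈ (Ideal.span (Set.range g)).radical := by
  classical
  by_contra hcon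
  -- maximal prime avoiding h
  set S : Set (Ideal (Conv σ)) := {P | P.IsPrime ∧ Ideal.span (Set.range g) ≤ P ∧ h ∉ P} with hS
  have hSne : S.Nonempty := by
    rw [Ideal.radical_eq_sInf, Submodule.mem_sInf] at hcon
    push Not at hcon
    obtain ⟨P, hP, hPh⟩ := hcon
    exact ⟨P, hP.2, hP.1, hPh⟩
  obtain ⟨𝔮, h𝔮S, h𝔮max⟩ : ∃ 𝔮 : Ideal (Conv σ), 𝔮 ∈ S ∧ ∀ I ∈ S, ¬ 𝔮 < I :=
    set_has_maximal_iff_noetherian.mpr (inferInstance : IsNoetherian (Conv σ) (Conv σ)) S hSne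
  obtain ⟨h𝔮, hg𝔮, hh𝔮⟩ := h𝔮S
  have hg𝔮' : ∀ k, g k ∈ 𝔮 := fun k => hg𝔮 (Ideal.subset_span ⟨k, rfl⟩)
  have h0 : at0 h = 0 := by
    have h1 := H.self_of_nhds
    rw [← gev_at_zero]
    apply h1
    intro k
    rw [gev_at_zero, ← mem_maximalIdeal_iff]
    exact IsLocalRing.le_maximalIdeal h𝔮.ne_top (hg𝔮' k)
  have hrad : IsLocalRing.maximalIdeal (Conv σ) ≤ (𝔮 ⊔ Ideal.span {h}).radical := by
    apply max_le_radical 𝔮 h hh𝔮
    intro P hP hlt
    by_contra hhP
    exact h𝔮max P ⟨hP, hg𝔮.trans hlt.le, hhP⟩ hlt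
  obtain ⟨N, hN⟩ := Ideal.exists_radical_pow_le_of_fg (𝔮 ⊔ Ideal.span {h}) (IsNoetherian.noetherian _)
  obtain ⟨ε, hε, hH⟩ := exists_polydisc H
  obtain ⟨r₀, hr₀, hr₀', hr₀ε, hfin⟩ := exists_common_radius (Finset.univ : Finset (Option κ))
    (fun k => (Option.elim k (h : MvPowerSeries σ ℂ) (fun k => (g k : MvPowerSeries σ ℂ)))) (by
      intro k _
      cases k with
      | none => exact h.2
      | some k => exact (g k).2) ε hε
  obtain ⟨r, hr', hr, hrr, χ, hχ1, hχ2⟩ := nss_prime' 𝔮 h hh𝔮 h0 N ((Ideal.pow_right_mono hrad N).trans hN) r₀ hr₀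
  obtain ⟨hζ, hχe⟩ := char_eval hr χ
  have hhr : h ∈ (Er r hr' : Subalgebra ℂ (Conv σ)) :=
    nrm_ne_top_mono (fun _ => hrr) (hfin none (Finset.mem_univ _))
  have hgr : ∀ k, g k ∈ (Er r hr' : Subalgebra ℂ (Conv σ)) := fun k =>
    nrm_ne_top_mono (fun _ => hrr) (hfin (some k) (Finset.mem_univ _))
  apply hχ2 ⟨h, hhr⟩ rfl
  rw [hχe]
  apply hH _ (fun i => (hζ i).trans (hrr.trans hr₀ε))
  intro k
  have h1 := hχe ⟨g k, hgr k⟩
  rw [hχ1 ⟨g k, hgr k⟩ (hg𝔮' k)] at h1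
  exact h1.symm

end Pool.Agent.Helper296
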