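import Pool.Agent.Helper296.Alg5
import Pool.Agent.Helper296.Nss2

set_option autoImplicit false
set_option linter.unusedSectionVars false
set_option linter.unusedVariables false
set_option linter.unusedSimpArgs false

namespace Pool.Agent.Helper296

open IsLocalRing RingTheory.Sequence
open scoped Topology

section dim

variable {T : Type*} [CommRing T] [IsLocalRing T] [IsNoetherianRing T]

lemma primary_of_regular (d : ℕ) (w : Fin d → T) (hw : maximalIdeal T = Ideal.span (Set.range w))
    (rs : List T) (hlen : rs.length = d) (hreg : IsRegular T rs) : ∃ N : ℕ, (maximalIdeal T) ^ N ≤ Ideal.ofList rs := by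
  have h1 := ringKrullDim_add_length_eq_ringKrullDim_of_isRegular rs hreg
  have h2 : ringKrullDim T ≤ (d : WithBot ℕ∞) := by
    refine (ringKrullDim_le_spanFinrank_maximalIdeal T).trans ?_
    have h3 : (maximalIdeal T).spanFinrank ≤ d := by
      rw [hw]
      refine (Submodule.spanFinrank_span_le_ncard_of_finite (Set.finite_range w)).trans ?_
      rw [← Set.image_univ]
      refine (Set.ncard_image_le Set.finite_univ).trans ?_
      rw [Set.ncard_univ, Nat.card_eq_fintype_card, Fintype.card_fin]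
    exact_mod_cast h3
  have h3 : ringKrullDim (T ⧸ Ideal.ofList rs) ≤ 0 := by
    rw [← h1, hlen] at h2
    generalize ringKrullDim (T ⧸ Ideal.ofList rs) = x at h2
    have h4 : x + (d : WithBot ℕ∞) ≤ 0 + (d : WithBot ℕ∞) := by rwa [zero_add]
    induction x using WithBot.recBotCoe with
    | bot => exact bot_le
    | coe x =>
      have h5 : x + (d : ℕ∞) ≤ 0 + (d : ℕ∞) := by exact_mod_cast h4
      have h6 : x ≤ 0 := (ENat.add_le_add_iff_right (ENat.natCast_ne_top d)).mp h5
      exact_mod_cast h6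
  have h4 : Ring.KrullDimLE 0 (T ⧸ Ideal.ofList rs) := Ring.krullDimLE_iff.mpr (by exact_mod_cast h3)
  have h5 : maximalIdeal T ≤ (Ideal.ofList rs).radical := by
    rw [Ideal.radical_eq_sInf]
    apply le_sInf
    rintro P ⟨hPle, hP⟩
    have hP' : (P.map (Ideal.Quotient.mk (Ideal.ofList rs))).IsPrime :=
      Ideal.map_isPrime_of_surjective Ideal.Quotient.mk_surjective (by rw [Ideal.mk_ker]; exact hPle)
    have hmax := (Ring.krullDimLE_zero_iff.mp h4) _ hP'
    have hcm : (P.map (Ideal.Quotient.mk (Ideal.ofList rs))).comap (Ideal.Quotient.mk (Ideal.ofList rs)) = P := by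
      rw [Ideal.comap_map_of_surjective' _ Ideal.Quotient.mk_surjective, Ideal.mk_ker, sup_eq_left]
      exact hPle
    have hPmax : P.IsMaximal := by
      rw [← hcm]
      exact Ideal.comap_isMaximal_of_surjective _ Ideal.Quotient.mk_surjective
    rw [IsLocalRing.eq_maximalIdeal hPmax]
  obtain ⟨N, hN⟩ := Ideal.exists_radical_pow_le_of_fg (Ideal.ofList rs) (IsNoetherian.noetherian _)
  exact ⟨N, (Ideal.pow_right_mono h5 N).trans hN⟩

end dim

section coords

variable {σ : Type} [Fintype σ] [DecidableEq σ]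

lemma kill_cX_mem {S : Finset σ} {i : σ} (h : i ∈ S) : kill S (cX i) = 0 := by
  unfold kill
  rw [sub_cX]
  simp [killT, h]

lemma kill_cX_not_mem {S : Finset σ} {i : σ} (h : i ∉ S) : kill S (cX i) = cX i := by
  unfold kill
  rw [sub_cX]
  simp [killT, h]

lemma mem_span_iff_kill (S : Finset σ) (a : Conv σ) : a ∈ Ideal.span (cX '' (S : Set σ)) ↔ kill S a = 0 := by
  constructor
  · intro h
    have hle : Ideal.span (cX '' (S : Set σ)) ≤ RingHom.ker (kill S) := by
      rw [Ideal.span_le]
      rintro _ ⟨i, hi, rfl⟩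
      exact kill_cX_mem hi
    exact hle h
  · intro h
    have := sub_kill_mem S a
    rwa [h, sub_zero] at this

lemma coords_weaklyRegular (l : List σ) (hl : l.Nodup) : IsWeaklyRegular (Conv σ) (l.map (cX : σ → Conv σ)) := by
  classical
  refine ⟨fun i hi => ?_⟩
  rw [isSMulRegular_quotient_iff_mem_of_smul_mem]
  have hi' : i < l.length := by simpa using hi
  have hid : (Ideal.ofList ((l.map (cX : σ → Conv σ)).take i) • ⊤ : Submodule (Conv σ) (Conv σ)) =
      Ideal.span (cX '' ((l.take i).toFinset : Set σ)) := by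
    rw [smul_eq_mul, Ideal.mul_top]
    unfold Ideal.ofList
    congr 1
    ext x
    rw [← List.map_take]
    simp only [Set.mem_ofPred_eq, List.mem_map, List.coe_toFinset, Set.mem_image]
  rw [hid]
  intro x hx
  rw [mem_span_iff_kill] at hx ⊢
  rw [smul_eq_mul, map_mul, List.getElem_map, kill_cX_not_mem] at hx
  · exact (mul_eq_zero.mp hx).resolve_left (cX_ne_zero _)
  · rw [List.mem_toFinset]
    intro hmem
    obtain ⟨j, hj, hjeq⟩ := List.mem_take_iff_getElem.mp hmem
    have := (List.Nodup.getElem_inj_iff hl).mp hjeq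
    omega

lemma coords_regular (l : List σ) (hl : l.Nodup) : IsRegular (Conv σ) (l.map (cX : σ → Conv σ)) := by
  apply IsRegular.of_isWeaklyRegular_of_mem_maximalIdeal
  · intro r hr
    obtain ⟨i, _, rfl⟩ := List.mem_map.mp hr
    exact (mem_maximalIdeal_iff _).mpr (at0_cX i)
  · exact coords_weaklyRegular l hl

end coords

section free

variable {σ ν : Type} [Fintype σ] [DecidableEq σ] [Fintype ν] [DecidableEq ν]

lemma finite_conv (F : ν → Conv σ) (hF : ∀ l, at0 (F l) = 0) (N : ℕ)
    (hN : ∀ i, (cX i : Conv σ) ^ N ∈ Ideal.span (Set.range F)) : (sub F hF : Conv ν →+* Conv σ).Finite := by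
  classical
  let alg : Algebra (Conv ν) (Conv σ) := (sub F hF : Conv ν →+* Conv σ).toAlgebra
  show Module.Finite (Conv ν) (Conv σ)
  refine ⟨⟨Finset.univ.image (fun α : σ → Fin N => (∏ i, cX i ^ (α i : ℕ) : Conv σ)), ?_⟩⟩
  rw [eq_top_iff]
  rintro a -
  obtain ⟨r₂, hr₂, hr₂', ha⟩ := a.2
  obtain ⟨r, s, h1, h2, h3, h4, h5, h6, h7⟩ := fin_thm F hF ⊥ N (fun i => by rw [sup_bot_eq]; exact hN i) r₂ hr₂
  obtain ⟨q, _, hq⟩ := h7 a (nrm_ne_top_mono (fun _ => h3) ha)
  rw [Ideal.mem_bot, sub_eq_zero] at hq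
  rw [hq]
  apply Submodule.sum_mem
  intro α _
  have : (sub F hF (q α) * ∏ i, cX i ^ (α i : ℕ) : Conv σ) = q α • (∏ i, cX i ^ (α i : ℕ) : Conv σ) := rfl
  rw [this]
  apply Submodule.smul_mem
  apply Submodule.subset_span
  simp

/-- linear forms -/
noncomputable def lin (ν : Type) [Fintype ν] [DecidableEq ν] : (ν → ℂ) →ₗ[ℂ] Conv ν :=
  Fintype.linearCombination ℂ (cX : ν → Conv ν)

lemma lin_apply (v : ν → ℂ) : lin ν v = ∑ l, v l • (cX l : Conv ν) := rfl

lemma lin_single (l : ν) : lin ν (Pi.single l 1) = cX l := by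
  rw [lin_apply, Finset.sum_eq_single l]
  · simp
  · intro j _ hj; simp [Pi.single_apply, hj]
  · intro h; exact absurd (Finset.mem_univ l) h

lemma lin_mem (v : ν → ℂ) : lin ν v ∈ maximalIdeal (Conv ν) := by
  rw [lin_apply]
  apply Ideal.sum_mem
  intro l _
  rw [Algebra.smul_def]
  exact Ideal.mul_mem_left _ _ ((mem_maximalIdeal_iff _).mpr (at0_cX l))

/-- lists of independent linear forms of full length generate -/
lemma span_of_full {V T : Type*} [AddCommGroup V] [Module ℂ V] [FiniteDimensional ℂ V] [CommRing T] [Algebra ℂ T]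
    (lam : V →ₗ[ℂ] T) (vs : List V) (hli : LinearIndependent ℂ (fun i : Fin vs.length => vs[i]))
    (hlen : vs.length = Module.finrank ℂ V) (v : V) : lam v ∈ Ideal.ofList (vs.map lam) := by
  have hspan : Submodule.span ℂ (Set.range (fun i : Fin vs.length => vs[i])) = ⊤ := by
    apply hli.span_eq_top_of_card_eq_finrank'
    rw [Fintype.card_fin, hlen]
  have hv : v ∈ Submodule.span ℂ (Set.range (fun i : Fin vs.length => vs[i])) := by rw [hspan]; trivial
  induction hv using Submodule.span_induction with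
  | mem x hx =>
    obtain ⟨i, rfl⟩ := hx
    apply Ideal.subset_span
    exact List.mem_map_of_mem (List.getElem_mem _)
  | zero => rw [map_zero]; exact Ideal.zero_mem _
  | add x y _ _ hx hy => rw [map_add]; exact Ideal.add_mem _ hx hy
  | smul a x _ hx =>
    rw [map_smul, Algebra.smul_def]
    exact Ideal.mul_mem_left _ _ hx

theorem free_conv (hcard : Fintype.card σ = Fintype.card ν) (F : ν → Conv σ) (hF : ∀ l, at0 (F l) = 0) (N : ℕ)
    (hN : ∀ i, (cX i : Conv σ) ^ N ∈ Ideal.span (Set.range F)) :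
    letI := (sub F hF : Conv ν →+* Conv σ).toAlgebra
    Module.Finite (Conv ν) (Conv σ) ∧ Module.Free (Conv ν) (Conv σ) := by
  classical
  let alg : Algebra (Conv ν) (Conv σ) := (sub F hF : Conv ν →+* Conv σ).toAlgebra
  have hfin : Module.Finite (Conv ν) (Conv σ) := finite_conv F hF N hN
  refine ⟨hfin, ?_⟩
  -- linear forms in F
  let lam : (ν → ℂ) →ₗ[ℂ] Conv σ := (sub F hF).toLinearMap ∘ₗ lin ν
  have hlam : ∀ v, lam v = sub F hF (lin ν v) := fun v => rfl
  have hlamm : ∀ v, lam v ∈ maximalIdeal (Conv σ) := by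
    intro v
    rw [hlam, mem_maximalIdeal_iff, at0_sub, ← mem_maximalIdeal_iff]
    exact lin_mem v
  have hrange : Ideal.span (Set.range F) ≤ Ideal.span (Set.range lam) := by
    rw [Ideal.span_le]
    rintro _ ⟨l, rfl⟩
    apply Ideal.subset_span
    refine ⟨Pi.single l 1, ?_⟩
    rw [hlam, lin_single, sub_cX]
  set xs : List (Conv σ) := (Finset.univ.toList : List σ).map cX with hxs
  have hxreg : IsRegular (Conv σ) xs := coords_regular _ (Finset.nodup_toList _)
  obtain ⟨vs, hlen, hvreg, _⟩ := exchange lam hlamm xs (Conv σ) (by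
      intro x hx
      obtain ⟨i, _, rfl⟩ := List.mem_map.mp hx
      exact (mem_maximalIdeal_iff _).mpr (at0_cX i)) hxreg (by
      intro x hx
      obtain ⟨i, _, rfl⟩ := List.mem_map.mp hx
      exact ⟨N, Ideal.mem_sup_left (hrange (hN i))⟩)
  have hvslen : vs.length = Module.finrank ℂ (ν → ℂ) := by
    rw [hlen, hxs, List.length_map, Finset.length_toList, Finset.card_univ, hcard, Module.finrank_fintype_fun_eq_card]
  have hli := linInd_of_regular lam vs hvreg
  -- regular sequence in A
  have hss : Ideal.ofList (vs.map (lin ν)) = maximalIdeal (Conv ν) := by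
    apply le_antisymm
    · unfold Ideal.ofList
      rw [Ideal.span_le]
      intro x hx
      obtain ⟨v, _, rfl⟩ := List.mem_map.mp hx
      exact lin_mem v
    · rw [maximalIdeal_eq_span, Ideal.span_le]
      rintro _ ⟨l, rfl⟩
      rw [← lin_single]
      exact span_of_full (lin ν) vs hli hvslen _
  apply free_of_regular (vs.map (lin ν)) hss
  rw [← isWeaklyRegular_map_algebraMap_iff (Conv σ) (Conv σ)]
  have : (vs.map (lin ν)).map (algebraMap (Conv ν) (Conv σ)) = vs.map lam := by
    rw [List.map_map]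
    rfl
  rw [this]
  exact hvreg.toIsWeaklyRegular

theorem injective_conv (hcard : Fintype.card σ = Fintype.card ν) (F : ν → Conv σ) (hF : ∀ l, at0 (F l) = 0) (N : ℕ)
    (hN : ∀ i, (cX i : Conv σ) ^ N ∈ Ideal.span (Set.range F)) : Function.Injective (sub F hF) := by
  let alg : Algebra (Conv ν) (Conv σ) := (sub F hF : Conv ν →+* Conv σ).toAlgebra
  obtain ⟨h1, h2⟩ := free_conv hcard F hF N hN
  have h3 : FaithfulSMul (Conv ν) (Conv σ) := Module.Free.instFaithfulSMulOfNontrivial (Conv ν) (Conv σ)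
  exact FaithfulSMul.algebraMap_injective (Conv ν) (Conv σ)

end free

end Pool.Agent.Helper296
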