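import Pool.Agent.Helper296.Main1

set_option autoImplicit false
set_option linter.unusedSectionVars false
set_option linter.unusedVariables false
set_option linter.unusedSimpArgs false

namespace Pool.Agent.Helper296

open IsLocalRing RingTheory.Sequence
open scoped Pointwise

section slot

variable {T : Type*} [CommRing T] [IsLocalRing T] [IsNoetherianRing T]
variable {k : Type*} [Field k] [Infinite k] [Algebra k T] {V : Type*} [AddCommGroup V] [Module k V]

lemma exists_regular_elt' (lam : V →ₗ[k] T)
    {N : Type*} [AddCommGroup N] [Module T N] [Module.Finite T N]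
    {v₀ : V} (hx : IsSMulRegular N (lam v₀)) (S : Finset (Subspace k V)) (hS : ⊤ ∉ S) :
    ∃ v, IsSMulRegular N (lam v) ∧ ∀ p ∈ S, v ∉ p := by
  classical
  have hfin : (associatedPrimes T N).Finite := associatedPrimes.finite T N
  let F : Ideal T → Subspace k V := fun p => (p.restrictScalars k).comap lam
  have hF : ∀ (p : Ideal T) v, v ∈ F p ↔ lam v ∈ p := fun p v => Iff.rfl
  have htop : (⊤ : Subspace k V) ∉ S ∪ hfin.toFinset.image F := by
    rw [Finset.mem_union, not_or]
    refine ⟨hS, ?_⟩
    rw [Finset.mem_image]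
    rintro ⟨p, hp, hpF⟩
    rw [Set.Finite.mem_toFinset] at hp
    have h4 : lam v₀ ∈ p := by
      have : v₀ ∈ F p := by rw [hpF]; trivial
      exact this
    have h5 : lam v₀ ∈ (⋃ p ∈ associatedPrimes T N, (p : Set T)) := by
      simp only [Set.mem_iUnion]
      exact ⟨p, hp, h4⟩
    rw [biUnion_associatedPrimes_eq_compl_regular] at h5
    exact h5 hx
  have h6 := Subspace.biUnion_ne_univ_of_top_notMem htop
  rw [Set.ne_univ_iff_exists_notMem] at h6
  obtain ⟨v, hv⟩ := h6
  refine ⟨v, ?_, ?_⟩
  · by_contra hreg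
    have h7 : lam v ∈ (⋃ p ∈ associatedPrimes T N, (p : Set T)) := by
      rw [biUnion_associatedPrimes_eq_compl_regular]
      exact hreg
    simp only [Set.mem_iUnion] at h7
    obtain ⟨p, hp, hvp⟩ := h7
    apply hv
    simp only [Set.mem_iUnion, Finset.mem_union, Finset.mem_image, Set.Finite.mem_toFinset]
    exact ⟨F p, Or.inr ⟨p, hp, rfl⟩, hvp⟩
  · intro p hp hvp
    apply hv
    simp only [Set.mem_iUnion, Finset.mem_union]
    exact ⟨p, Or.inl hp, hvp⟩

lemma perm_erase {α : Type*} {d : ℕ} (f : Fin d → α) (i : Fin d) :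
    ((List.ofFn f).eraseIdx i ++ [f i]).Perm (List.ofFn f) := by
  refine (List.perm_append_singleton _ _).trans ?_
  have h := List.getElem_cons_eraseIdx_perm (l := List.ofFn f) (n := i) (by simp)
  rw [List.getElem_ofFn] at h
  exact h

lemma erase_congr {α : Type*} {d : ℕ} {f g : Fin d → α} (i : Fin d) (h : ∀ j, j ≠ i → f j = g j) :
    (List.ofFn f).eraseIdx i = (List.ofFn g).eraseIdx i := by
  apply List.ext_getElem
  · simp [List.length_eraseIdx]
  · intro m h1 h2
    rw [List.getElem_eraseIdx, List.getElem_eraseIdx]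
    split_ifs with hm
    · simp only [List.getElem_ofFn]
      apply h
      intro hh
      have := congrArg Fin.val hh
      simp only at this
      omega
    · simp only [List.getElem_ofFn]
      apply h
      intro hh
      have := congrArg Fin.val hh
      simp only at this
      omega

lemma slot (lam : V →ₗ[k] T) (hlam : ∀ v, lam v ∈ maximalIdeal T) {d : ℕ} (v : Fin d → V)
    (hv : IsRegular T (List.ofFn fun j => lam (v j))) (i : Fin d) (u : V) :
    ∃ ε : k, ε ≠ 0 ∧ IsRegular T (List.ofFn fun j => lam (Function.update v i (v i + ε • u) j)) := by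
  classical
  set L := (List.ofFn fun j => lam (v j)).eraseIdx i with hL
  have h1 : IsRegular T (L ++ [lam (v i)]) := IsLocalRing.isRegular_of_perm hv (perm_erase (fun j => lam (v j)) i).symm
  obtain ⟨h2a, h2b⟩ := (isWeaklyRegular_append_iff T L [lam (v i)]).mp h1.toIsWeaklyRegular
  rw [isWeaklyRegular_singleton_iff] at h2b
  let lam2 : (k × k) →ₗ[k] T := (LinearMap.toSpanSingleton k T (lam (v i))).coprod (LinearMap.toSpanSingleton k T (lam u))
  have hlam2 : ∀ a b, lam2 (a, b) = a • lam (v i) + b • lam u := fun a b => rfl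
  have h10 : lam2 (1, 0) = lam (v i) := by rw [hlam2, one_smul, zero_smul, add_zero]
  obtain ⟨⟨a, b⟩, hab, hS⟩ := exists_regular_elt' lam2 (N := T ⧸ (Ideal.ofList L • ⊤ : Submodule T T)) (v₀ := (1, 0))
    (by rw [h10]; exact h2b) {LinearMap.ker (LinearMap.fst k k k), LinearMap.ker (LinearMap.snd k k k)} (by
      simp only [Finset.mem_insert, Finset.mem_singleton, not_or]
      constructor
      · intro h
        have : ((1 : k), (0 : k)) ∈ LinearMap.ker (LinearMap.fst k k k) := by rw [← h]; trivial
        simp at this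
      · intro h
        have : ((0 : k), (1 : k)) ∈ LinearMap.ker (LinearMap.snd k k k) := by rw [← h]; trivial
        simp at this)
  have ha : a ≠ 0 := by
    have := hS (LinearMap.ker (LinearMap.fst k k k)) (by simp)
    simpa using this
  have hb : b ≠ 0 := by
    have := hS (LinearMap.ker (LinearMap.snd k k k)) (by simp)
    simpa using this
  refine ⟨a⁻¹ * b, mul_ne_zero (inv_ne_zero ha) hb, ?_⟩
  have h3 : lam (v i + (a⁻¹ * b) • u) = a⁻¹ • lam2 (a, b) := by
    rw [hlam2, map_add, map_smul, smul_add, smul_smul, smul_smul, inv_mul_cancel₀ ha, one_smul]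
  have h4 : IsSMulRegular (T ⧸ (Ideal.ofList L • ⊤ : Submodule T T)) (lam (v i + (a⁻¹ * b) • u)) := by
    rw [h3, show a⁻¹ • lam2 (a, b) = algebraMap k T a⁻¹ * lam2 (a, b) from Algebra.smul_def _ _]
    apply IsSMulRegular.mul _ hab
    have hu : IsUnit (algebraMap k T a⁻¹) := (IsUnit.mk0 _ (inv_ne_zero ha)).map _
    exact hu.isSMulRegular _
  have h5 : IsWeaklyRegular T (L ++ [lam (v i + (a⁻¹ * b) • u)]) := by
    rw [isWeaklyRegular_append_iff, isWeaklyRegular_singleton_iff]
    exact ⟨h2a, h4⟩
  have h6 : IsRegular T (L ++ [lam (v i + (a⁻¹ * b) • u)]) := by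
    apply IsRegular.of_isWeaklyRegular_of_mem_maximalIdeal T _ h5
    intro y hy
    rw [List.mem_append, List.mem_singleton] at hy
    rcases hy with hy | rfl
    · have := (List.eraseIdx_sublist _ _).subset hy
      rw [List.mem_ofFn] at this
      obtain ⟨j, rfl⟩ := this
      exact hlam _
    · exact hlam _
  apply IsLocalRing.isRegular_of_perm h6
  have h7 := perm_erase (fun j => lam (Function.update v i (v i + (a⁻¹ * b) • u) j)) i
  rw [Function.update_self] at h7
  have h8 : (List.ofFn fun j => lam (Function.update v i (v i + (a⁻¹ * b) • u) j)).eraseIdx i = L := by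
    rw [hL]
    apply erase_congr
    intro j hj
    rw [Function.update_of_ne hj]
  rw [h8] at h7
  exact h7

end slot

section jac

variable {T : Type*} [CommRing T] [Algebra ℂ T] {d : ℕ}

lemma Jac_update (pt : Fin d → Derivation ℂ T T) (t : Fin d → T) (i : Fin d) (x : T) :
    Jac (fun k => pt k) (Function.update t i x) =
      ((Matrix.of fun m k => pt k (t m)).updateRow i (fun k => pt k x)).det := by
  unfold Jac
  congr 1
  ext m k
  by_cases hm : m = i
  · subst hm
    rw [Matrix.updateRow_self]
    simp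
  · rw [Matrix.updateRow_ne hm]
    simp [Function.update_of_ne hm]

lemma Jac_update_add_smul (pt : Fin d → Derivation ℂ T T) (t : Fin d → T) (i : Fin d) (x y : T) (z : ℂ) :
    Jac (fun k => pt k) (Function.update t i (x + z • y)) =
      Jac (fun k => pt k) (Function.update t i x) + z • Jac (fun k => pt k) (Function.update t i y) := by
  rw [Jac_update, Jac_update, Jac_update]
  have h1 : (fun k => pt k (x + z • y)) = (fun k => pt k x) + (algebraMap ℂ T z) • (fun k => pt k y) := by
    funext k
    rw [Pi.add_apply, Pi.smul_apply, map_add, Derivation.map_smul, smul_eq_mul, Algebra.smul_def]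
  rw [h1, Matrix.det_updateRow_add, Matrix.det_updateRow_smul]
  congr 1
  exact (Algebra.smul_def _ _).symm

lemma ofList_ofFn {T : Type*} [CommRing T] {d : ℕ} (f : Fin d → T) :
    Ideal.ofList (List.ofFn f) = Ideal.span (Set.range f) := by
  unfold Ideal.ofList
  congr 1
  ext x
  simp only [Set.mem_ofPred_eq, List.mem_ofFn, Set.mem_range]

lemma smul_top_ideal {T : Type*} [CommRing T] (I : Ideal T) : (I • ⊤ : Submodule T T) = I := by
  rw [smul_eq_mul, Ideal.mul_top]

end jac

/-- cyclic socle for regular sequences -/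
lemma cycS_of_regular {T : Type*} [CommRing T] [IsLocalRing T] [IsNoetherianRing T] [Algebra ℂ T] {d : ℕ}
    (w : Fin d → T) (hw : maximalIdeal T = Ideal.span (Set.range w)) (hwreg : IsRegular T (List.ofFn w))
    (l : Fin d → T) (hlm : ∀ i, l i ∈ maximalIdeal T) (N : ℕ) (hN : (maximalIdeal T) ^ N ≤ Ideal.span (Set.range l)) :
    CycS (T := T) (M := T) (Ideal.span (Set.range l)) := by
  classical
  let lam : (Fin d → ℂ) →ₗ[ℂ] T := Fintype.linearCombination ℂ l
  have hlam : ∀ v, lam v = ∑ j, v j • l j := fun v => rfl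
  have hlams : ∀ j, lam (Pi.single j 1) = l j := by
    intro j
    rw [hlam, Finset.sum_eq_single j]
    · simp
    · intro i _ hi; simp [Pi.single_apply, hi]
    · intro h; exact absurd (Finset.mem_univ j) h
  have hlamI : ∀ v, lam v ∈ Ideal.span (Set.range l) := by
    intro v
    rw [hlam]
    apply Ideal.sum_mem
    intro j _
    rw [Algebra.smul_def]
    exact Ideal.mul_mem_left _ _ (Ideal.subset_span ⟨j, rfl⟩)
  have hIm : Ideal.span (Set.range l) ≤ maximalIdeal T := by
    rw [Ideal.span_le]
    rintro _ ⟨i, rfl⟩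
    exact hlm i
  have hwm : ∀ x ∈ List.ofFn w, x ∈ maximalIdeal T := by
    intro x hx
    rw [List.mem_ofFn] at hx
    obtain ⟨j, rfl⟩ := hx
    rw [hw]
    exact Ideal.subset_span ⟨j, rfl⟩
  have hle : Ideal.span (Set.range l) ≤ Ideal.span (Set.range lam) := by
    rw [Ideal.span_le]
    rintro _ ⟨j, rfl⟩
    exact Ideal.subset_span ⟨_, hlams j⟩
  obtain ⟨vs, hlen, hvreg, hc⟩ := exchange lam (fun v => hIm (hlamI v)) (List.ofFn w) T hwm hwreg (by
    intro x hx
    exact ⟨N, Ideal.mem_sup_left (hle (hN (Ideal.pow_mem_pow (hwm x hx) N)))⟩)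
  have h1 : CycS (Ideal.ofList (List.ofFn w) • ⊤ : Submodule T T) := by
    rw [smul_top_ideal, ofList_ofFn, ← hw]
    refine ⟨1, ?_, ?_⟩
    · intro a ha
      rw [smul_eq_mul, mul_one]; exact ha
    · intro n _
      refine ⟨n, ?_⟩
      rw [smul_eq_mul, mul_one, sub_self]
      exact Submodule.zero_mem _
  have h2 := hc h1
  rw [smul_top_ideal] at h2
  have h3 : Ideal.ofList (vs.map lam) = Ideal.span (Set.range l) := by
    apply le_antisymm
    · unfold Ideal.ofList
      rw [Ideal.span_le]
      intro x hx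
      obtain ⟨v, _, rfl⟩ := List.mem_map.mp hx
      exact hlamI v
    · rw [Ideal.span_le]
      rintro _ ⟨j, rfl⟩
      rw [← hlams]
      apply span_of_full lam vs (linInd_of_regular lam vs hvreg)
      rw [hlen, List.length_ofFn, Module.finrank_fintype_fun_eq_card, Fintype.card_fin]
  rw [h3] at h2
  exact h2

theorem main_alg {A B T : Type} [CommRing A] [IsLocalRing A] [CommRing B] [CommRing T] [IsDomain T] [CharZero T]
    [IsLocalRing T] [IsNoetherianRing T] [Algebra ℂ A] [Algebra ℂ T] [Algebra A B] [Algebra A T] [IsScalarTower ℂ A T]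
    [Module.Finite A T] (π : B →ₐ[A] T) (s : T →+* B) (hs : ∀ t, π (s t) = t) {D : ℕ} (hD : D ≠ 0)
    (e : Module.Basis (Fin D) A B)
    (hnil : ∀ b, π b = 0 → ∃ N : ℕ, b ^ N ∈ (RingHom.ker (algebraMap A T)).map (algebraMap A B))
    {d : ℕ} (pt : Fin d → Derivation ℂ T T) (w : Fin d → T) (hw : maximalIdeal T = Ideal.span (Set.range w))
    (hwreg : IsRegular T (List.ofFn w)) (hdw : ∀ k j, pt k (w j) = if k = j then 1 else 0)
    (hpoly : ∀ (N : ℕ) (a : T), ∃ p ∈ Algebra.adjoin ℂ (Set.range w), a - p ∈ (maximalIdeal T) ^ N)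
    (hexp : ∀ t : T, ∃ (z : ℂ) (h : Fin d → T), t = algebraMap ℂ T z + ∑ j, h j * w j)
    {ν : Type} [Fintype ν] [DecidableEq ν] (y : ν → A) (hloc : ∀ a ∈ maximalIdeal A, algebraMap A T a ∈ maximalIdeal T)
    (dA : ν → A → A)
    (hchain : ∀ k a, pt k (algebraMap A T a) = ∑ l, algebraMap A T (dA l a) * pt k (algebraMap A T (y l)))
    (N₀ : ℕ) (hpr : ∀ j, w j ^ N₀ ∈ Ideal.span (Set.range fun l => algebraMap A T (y l)))
    (lam : (ν → ℂ) →ₗ[ℂ] A) (hlamy : ∀ l, lam (Pi.single l 1) = y l) (hlamm : ∀ v, lam v ∈ maximalIdeal A)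
    (hJ : ∀ v : Fin d → ν → ℂ, IsRegular T (List.ofFn fun i => algebraMap A T (lam (v i))) →
       Jac (fun k => pt k) (fun i => algebraMap A T (lam (v i))) ≠ 0) :
    ∃ v : Fin d → ν → ℂ, IsRegular T (List.ofFn fun i => algebraMap A T (lam (v i))) ∧
      ∀ a ∈ maximalIdeal A, ∃ a' : Fin d → A, algebraMap A T a = ∑ i, algebraMap A T (lam (v i)) * algebraMap A T (a' i) := by
  classical
  by_contra hcon
  push Not at hcon
  let lamT : (ν → ℂ) →ₗ[ℂ] T := (IsScalarTower.toAlgHom ℂ A T).toLinearMap ∘ₗ lam
  have hlamT : ∀ v, lamT v = algebraMap A T (lam v) := fun v => rfl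
  have hlamTm : ∀ v, lamT v ∈ maximalIdeal T := fun v => hloc _ (hlamm v)
  have hwm : ∀ j, w j ∈ maximalIdeal T := by
    intro j; rw [hw]; exact Ideal.subset_span ⟨j, rfl⟩
  -- the trace functional
  obtain ⟨TT, hTTadd, hTTsm, hTTX, hTTP, hTTJ⟩ := exists_TT π s hs e hnil (fun k => pt k)
    (fun k a b => map_add _ _ _) (fun k a b => by rw [Derivation.leibniz, smul_eq_mul, smul_eq_mul]) w hwm hdw
    (by
      intro t
      obtain ⟨z, h, ht⟩ := hexp t
      refine ⟨algebraMap ℂ A z, h, ?_, ?_⟩
      · rw [← IsScalarTower.algebraMap_apply]; exact ht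
      · intro k
        rw [← IsScalarTower.algebraMap_apply, Derivation.map_algebraMap]) y dA hchain
  set X : Submodule A T := Submodule.span A (Set.range fun L : Fin d → ν => Jac (fun k => pt k) (fun j => algebraMap A T (y (L j)))) with hX
  have hXfg : X.FG := ⟨(Set.finite_range _).toFinset, by rw [Set.Finite.coe_toFinset]⟩
  have hTT0 : TT 0 = 0 := by
    have := hTTadd 0 0
    simpa using this
  have hTTsum : ∀ (f : Fin d → B), TT (∑ l, f l) = ∑ l, TT (f l) := fun f =>
    map_sum (⟨⟨TT, hTT0⟩, hTTadd⟩ : B →+ T) f Finset.univ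
  -- units
  have hunit : ∀ m : ℕ, m ≠ 0 → IsUnit (m : A) := by
    intro m hm
    have : (m : A) = algebraMap ℂ A (m : ℂ) := by rw [map_natCast]
    rw [this]
    exact (IsUnit.mk0 _ (Nat.cast_ne_zero.mpr hm)).map _
  -- claim 1
  have claim1 : ∀ v : Fin d → ν → ℂ, IsRegular T (List.ofFn fun i => lamT (v i)) →
      Jac (fun k => pt k) (fun i => lamT (v i)) ∈ maximalIdeal A • X := by
    intro v hv
    obtain ⟨N, hN⟩ := primary_of_regular d w hw _ (List.length_ofFn (f := fun i => lamT (v i))) hv
    rw [ofList_ofFn] at hN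
    set I : Ideal T := Ideal.span (Set.range fun i => lamT (v i)) with hI
    have hcyc := cycS_of_regular w hw hwreg (fun i => lamT (v i)) (fun i => hlamTm _) N hN
    obtain ⟨a, ha, hane⟩ := hcon v hv
    have haI : algebraMap A T a ∉ I := by
      intro haI
      rw [hI, Ideal.mem_span_range_iff_exists_fun] at haI
      obtain ⟨t, ht⟩ := haI
      obtain ⟨a', ha'⟩ := q_contract π (fun t => s t) hs e hnil (hunit D hD) (fun i => lam (v i)) a t (by
        rw [← ht]
        apply Finset.sum_congr rfl
        intro i _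
        rw [mul_comm, hlamT])
      exact hane a' ha'
    have hsoc : ∀ x ∈ maximalIdeal T, x * Jac (fun k => pt k) (fun i => lamT (v i)) ∈ I := by
      intro x hx
      exact jac_socle pt w hdw hwm hpoly I N hN (fun i => lamT (v i)) (fun i => Ideal.subset_span ⟨i, rfl⟩) x hx
    obtain ⟨b, hb⟩ := socle_mem I N hN hcyc hsoc haI
    rw [hI, Ideal.mem_span_range_iff_exists_fun] at hb
    obtain ⟨t, ht⟩ := hb
    -- lift to B
    set Jv := Jac (fun k => pt k) (fun i => lamT (v i)) with hJv
    have hker : π (s Jv - (algebraMap A B a * s b + ∑ i, algebraMap A B (lam (v i)) * s (t i))) = 0 := by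
      rw [map_sub, map_add, map_sum, hs, map_mul, AlgHom.commutes, hs]
      have e1 : ∑ i, π (algebraMap A B (lam (v i)) * s (t i)) = ∑ i, t i * lamT (v i) := by
        apply Finset.sum_congr rfl
        intro i _
        rw [map_mul, AlgHom.commutes, hs, hlamT, mul_comm]
      rw [e1, ht]
      ring
    have h1 := hTTP _ hker
    have h2 : TT (s Jv) = algebraMap A T a * TT (s b) + ∑ i, algebraMap A T (lam (v i)) * TT (s (t i)) := by
      have e1 : s Jv = (s Jv - (algebraMap A B a * s b + ∑ i, algebraMap A B (lam (v i)) * s (t i))) +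
        (algebraMap A B a * s b + ∑ i, algebraMap A B (lam (v i)) * s (t i)) := by ring
      rw [e1, hTTadd, h1, zero_add, hTTadd, hTTsm, hTTsum]
      congr 1
      apply Finset.sum_congr rfl
      intro i _
      exact hTTsm _ _
    have h3 : TT (s Jv) ∈ maximalIdeal A • X := by
      rw [h2]
      apply Submodule.add_mem
      · rw [← Algebra.smul_def]
        exact Submodule.smul_mem_smul ha (hTTX _)
      · apply Submodule.sum_mem
        intro i _
        rw [← Algebra.smul_def]
        exact Submodule.smul_mem_smul (hlamm _) (hTTX _)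
    have h4 : TT (s Jv) = ((d.factorial * D : ℕ) : T) * Jv := hTTJ (fun i => lam (v i))
    obtain ⟨u, hu⟩ := hunit (d.factorial * D) (mul_ne_zero (Nat.factorial_ne_zero d) hD)
    have h5 : Jv = (↑u⁻¹ : A) • TT (s Jv) := by
      rw [h4, Algebra.smul_def, ← mul_assoc]
      have : ((d.factorial * D : ℕ) : T) = algebraMap A T (u : A) := by rw [hu, map_natCast]
      rw [this, ← map_mul, Units.inv_mul, map_one, one_mul]
    rw [h5]
    exact Submodule.smul_mem _ _ h3
  -- claim 2
  have hCX : ∀ (z : ℂ) (x : T), x ∈ maximalIdeal A • X → z • x ∈ maximalIdeal A • X := by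
    intro z x hx
    have : z • x = (algebraMap ℂ A z) • x := by rw [algebraMap_smul]
    rw [this]
    exact Submodule.smul_mem _ _ hx
  have claim2 : ∀ (S : Finset (Fin d)) (v : Fin d → ν → ℂ), IsRegular T (List.ofFn fun i => lamT (v i)) →
      ∀ u : Fin d → ν → ℂ, Jac (fun k => pt k) (fun i => lamT (if i ∈ S then u i else v i)) ∈ maximalIdeal A • X := by
    intro S
    induction S using Finset.induction_on with
    | empty =>
      intro v hv u
      simpa using claim1 v hv
    | insert i S hiS ih =>
      intro v hv u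
      obtain ⟨ε, hε, hv'⟩ := slot lamT hlamTm v hv i (u i)
      have h1 := ih v hv u
      have h2 := ih _ hv' u
      have e1 : (fun j => lamT (if j ∈ S then u j else Function.update v i (v i + ε • u i) j)) =
          Function.update (fun j => lamT (if j ∈ S then u j else v j)) i (lamT (v i) + ε • lamT (u i)) := by
        funext j
        by_cases hj : j = i
        · subst hj
          rw [Function.update_self, if_neg hiS, Function.update_self, map_add, map_smul]
        · rw [Function.update_of_ne hj, Function.update_of_ne hj]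
      have e2 : Function.update (fun j => lamT (if j ∈ S then u j else v j)) i (lamT (v i)) =
          (fun j => lamT (if j ∈ S then u j else v j)) := by
        funext j
        by_cases hj : j = i
        · subst hj
          rw [Function.update_self, if_neg hiS]
        · rw [Function.update_of_ne hj]
      have e3 : Function.update (fun j => lamT (if j ∈ S then u j else v j)) i (lamT (u i)) =
          (fun j => lamT (if j ∈ insert i S then u j else v j)) := by
        funext j
        by_cases hj : j = i
        · subst hj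
          rw [Function.update_self, if_pos (Finset.mem_insert_self _ _)]
        · rw [Function.update_of_ne hj]
          simp [Finset.mem_insert, hj]
      rw [e1, Jac_update_add_smul, e2, e3] at h2
      have h3 := Submodule.sub_mem _ h2 h1
      rw [add_sub_cancel_left] at h3
      have h4 := hCX ε⁻¹ _ h3
      rw [smul_smul, inv_mul_cancel₀ hε, one_smul] at h4
      exact h4
  -- existence of regular sequences
  obtain ⟨v₀, hv₀⟩ : ∃ v : Fin d → ν → ℂ, IsRegular T (List.ofFn fun i => lamT (v i)) := by
    have hle : Ideal.span (Set.range fun l => algebraMap A T (y l)) ≤ Ideal.span (Set.range lamT) := by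
      rw [Ideal.span_le]
      rintro _ ⟨l, rfl⟩
      refine Ideal.subset_span ⟨Pi.single l 1, ?_⟩
      rw [hlamT, hlamy]
    obtain ⟨vs, hlen, hvreg, -⟩ := exchange lamT hlamTm (List.ofFn w) T (by
      intro x hx
      rw [List.mem_ofFn] at hx
      obtain ⟨j, rfl⟩ := hx
      exact hwm j) hwreg (by
      intro x hx
      rw [List.mem_ofFn] at hx
      obtain ⟨j, rfl⟩ := hx
      exact ⟨N₀, Ideal.mem_sup_left (hle (hpr j))⟩)
    rw [List.length_ofFn] at hlen
    subst hlen
    refine ⟨fun i => vs[i], ?_⟩
    have : (List.ofFn fun i : Fin vs.length => lamT vs[i]) = vs.map lamT := by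
      apply List.ext_getElem
      · simp
      · intro m h1 h2
        simp
    rw [this]
    exact hvreg
  have hXle : X ≤ maximalIdeal A • X := by
    conv_lhs => rw [hX]
    rw [Submodule.span_le]
    rintro _ ⟨L, rfl⟩
    have := claim2 Finset.univ v₀ hv₀ (fun j => Pi.single (L j) 1)
    simp only [Finset.mem_univ, if_true, hlamT, hlamy] at this
    exact this
  have hX0 : X = ⊥ := Submodule.eq_bot_of_le_smul_of_le_jacobson_bot _ X hXfg hXle (by
    rw [IsLocalRing.jacobson_eq_maximalIdeal _ bot_ne_top])
  have h1 := claim1 v₀ hv₀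
  rw [hX0, Submodule.smul_bot, Submodule.mem_bot] at h1
  exact hJ v₀ hv₀ h1

end Pool.Agent.Helper296
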