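import Pool.Agent.Helper296.Main2

set_option autoImplicit false
set_option linter.unusedSectionVars false
set_option linter.unusedVariables false
set_option linter.unusedSimpArgs false

namespace Pool.Agent.Helper296

open IsLocalRing RingTheory.Sequence Filter
open scoped Topology

section subst

variable {σ τ ρ : Type} [Fintype σ] [Fintype τ] [Fintype ρ]

lemma sub_sub' (t : σ → Conv τ) (ht : ∀ i, at0 (t i) = 0) (t' : τ → Conv ρ) (ht' : ∀ i, at0 (t' i) = 0)
    (h : ∀ i, at0 (sub t' ht' (t i)) = 0) (a : Conv σ) :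
    sub t' ht' (sub t ht a) = sub (fun i => sub t' ht' (t i)) h a := by
  apply gev_ext
  have e1 : ∀ᶠ z in 𝓝 (0 : ρ → ℂ), ∀ i, gev (sub t' ht' (t i)) z = gev (t i) (tev t' z) :=
    eventually_all.mpr (fun i => gev_sub' t' ht' (t i))
  filter_upwards [gev_sub' t' ht' (sub t ht a), (tendsto_tev t' ht').eventually (gev_sub' t ht a),
    gev_sub' (fun i => sub t' ht' (t i)) h a, e1] with z h1 h2 h3 h4
  rw [h1, h2, h3]
  congr 1
  funext i
  exact (h4 i).symm

lemma sub_id (h : ∀ i : σ, at0 (cX i : Conv σ) = 0) (a : Conv σ) : sub (cX : σ → Conv σ) h a = a := by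
  apply gev_ext
  filter_upwards [gev_sub' (cX : σ → Conv σ) h a] with z h1
  rw [h1]
  congr 1
  funext i
  exact gev_cX i z

lemma sub_congr {t t' : σ → Conv τ} (htt : t = t') (ht : ∀ i, at0 (t i) = 0) (ht' : ∀ i, at0 (t' i) = 0) (a : Conv σ) :
    sub t ht a = sub t' ht' a := by
  subst htt
  rfl

end subst

section integrality

variable {σ κ : Type} [Fintype σ] [Fintype κ] [DecidableEq σ] [DecidableEq κ]

instance instCharZeroConv {σ : Type} [Fintype σ] : CharZero (Conv σ) :=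
  charZero_of_injective_algebraMap (R := ℂ) (algebraMap ℂ (Conv σ)).injective

lemma natCast_isUnit {R : Type*} [CommRing R] [Algebra ℂ R] (m : ℕ) (hm : m ≠ 0) : IsUnit (m : R) := by
  have : (m : R) = algebraMap ℂ R (m : ℂ) := by rw [map_natCast]
  rw [this]
  exact (IsUnit.mk0 _ (Nat.cast_ne_zero.mpr hm)).map _

/-- vector fields killing a finite system are zero -/
lemma field_zero (F : κ → Conv σ) (hF : ∀ l, at0 (F l) = 0) (N : ℕ)
    (hN : ∀ i, (cX i : Conv σ) ^ N ∈ Ideal.span (Set.range F)) (c : σ → Conv σ)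
    (hc : ∀ j, ∑ k, c k * pd k (F j) = 0) (k : σ) : c k = 0 := by
  let alg : Algebra (Conv κ) (Conv σ) := (sub F hF : Conv κ →+* Conv σ).toAlgebra
  have hfin : Module.Finite (Conv κ) (Conv σ) := finite_conv F hF N hN
  let θ₀ : Derivation ℂ (Conv σ) (Conv σ) := ∑ k, c k • pd k
  have hθ₀ : ∀ x, θ₀ x = ∑ k, c k * pd k x := by
    intro x
    show (∑ k, c k • pd k : Derivation ℂ (Conv σ) (Conv σ)) x = _
    have e1 : (⇑(∑ k, c k • pd k : Derivation ℂ (Conv σ) (Conv σ)) : Conv σ → Conv σ) =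
        ∑ k, ⇑(c k • pd k : Derivation ℂ (Conv σ) (Conv σ)) :=
      map_sum Derivation.coeFnAddMonoidHom _ _
    rw [e1, Finset.sum_apply]
    rfl
  have hkill : ∀ a : Conv κ, θ₀ (sub F hF a) = 0 := by
    intro a
    rw [hθ₀]
    simp_rw [pd_sub F hF a, Finset.mul_sum]
    rw [Finset.sum_comm]
    apply Finset.sum_eq_zero
    intro i _
    have : ∑ x, c x * (sub F hF (pd i a) * pd x (F i)) = sub F hF (pd i a) * ∑ x, c x * pd x (F i) := by
      rw [Finset.mul_sum]
      apply Finset.sum_congr rfl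
      intro x _
      ring
    rw [this, hc, mul_zero]
  let θ : Derivation (Conv κ) (Conv σ) (Conv σ) :=
    Derivation.mk' { toFun := θ₀
                     map_add' := fun a b => map_add _ _ _
                     map_smul' := by
                      intro a x
                      show θ₀ (sub F hF a * x) = sub F hF a * θ₀ x
                      rw [Derivation.leibniz, hkill, smul_zero, add_zero, smul_eq_mul] }
      (by intro a b; exact Derivation.leibniz _ _ _)
  have h1 : θ (cX k) = 0 := der_zero (fun n hn => natCast_isUnit n hn) θ (cX k)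
  have h2 : θ (cX k) = ∑ j, c j * pd j (cX k) := hθ₀ _
  rw [h2, Finset.sum_eq_single k] at h1
  · rw [pd_cX, if_pos rfl, mul_one] at h1
    exact h1
  · intro j _ hj
    rw [pd_cX, if_neg hj, mul_zero]
  · intro h; exact absurd (Finset.mem_univ k) h

lemma Jac_ne_zero {d : ℕ} (l : Fin d → Conv (Fin d)) (hl : ∀ i, at0 (l i) = 0)
    (hreg : IsRegular (Conv (Fin d)) (List.ofFn l)) :
    Jac (fun k => pd k) l ≠ 0 := by
  intro h0
  unfold Jac at h0
  obtain ⟨c, hc0, hc⟩ := Matrix.exists_mulVec_eq_zero_iff.mpr h0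
  obtain ⟨N, hN⟩ := primary_of_regular d (cX : Fin d → Conv (Fin d)) maximalIdeal_eq_span (List.ofFn l) (List.length_ofFn) hreg
  rw [ofList_ofFn] at hN
  apply hc0
  funext k
  apply field_zero l hl N (fun i => hN (Ideal.pow_mem_pow ((mem_maximalIdeal_iff _).mpr (at0_cX i)) N)) c
  intro j
  have := congrFun hc j
  rw [Matrix.mulVec, dotProduct] at this
  simp only [Matrix.of_apply, Pi.zero_apply] at this
  rw [← this]
  apply Finset.sum_congr rfl
  intro x _
  rw [mul_comm]

end integrality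

section core

/-- restriction to x = 0 -/
noncomputable def resT (γ : Type) (d : ℕ) : γ ⊕ Fin d → Conv (Fin d) := Sum.elim (fun _ => 0) cX

lemma at0_resT (γ : Type) (d : ℕ) (i : γ ⊕ Fin d) : at0 (resT γ d i) = 0 := by
  rcases i with i | j
  · show at0 (0 : Conv (Fin d)) = 0
    exact map_zero _
  · exact at0_cX j

/-- the section -/
noncomputable def secT (γ : Type) [Fintype γ] (d : ℕ) : Fin d → Conv (γ ⊕ Fin d) := fun j => cX (Sum.inr j)

variable {γ : Type} [Fintype γ] [DecidableEq γ] {d : ℕ}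

lemma at0_secT (j : Fin d) : at0 (secT γ d j) = 0 := at0_cX _

lemma res_sec (t : Conv (Fin d)) : sub (resT γ d) (at0_resT γ d) (sub (secT γ d) at0_secT t) = t := by
  have h1 : (fun i => sub (resT γ d) (at0_resT γ d) (secT γ d i)) = (cX : Fin d → Conv (Fin d)) := by
    funext i
    unfold secT
    rw [sub_cX]; rfl
  rw [sub_sub' _ _ _ _ (by intro i; rw [at0_sub]; exact at0_secT i),
    sub_congr h1 _ (fun i => at0_cX i), sub_id]

lemma sec_res (b : Conv (γ ⊕ Fin d)) : sub (secT γ d) at0_secT (sub (resT γ d) (at0_resT γ d) b) =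
    kill (Finset.univ.map Function.Embedding.inl) b := by
  have h1 : (fun i => sub (secT γ d) at0_secT (resT γ d i)) = killT (Finset.univ.map (Function.Embedding.inl : γ ↪ γ ⊕ Fin d)) := by
    funext i
    unfold killT
    rcases i with i | j
    · rw [if_pos (by simp)]
      show sub (secT γ d) at0_secT 0 = 0
      exact map_zero _
    · rw [if_neg (by simp)]
      show sub (secT γ d) at0_secT (cX j) = _
      rw [sub_cX]; rfl
  rw [sub_sub' _ _ _ _ (by intro i; rw [at0_sub]; exact at0_resT γ d i), sub_congr h1 _ (at0_killT _)]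
  rfl

/-- kernel of the restriction -/
lemma ker_res (b : Conv (γ ⊕ Fin d)) (hb : sub (resT γ d) (at0_resT γ d) b = 0) :
    b ∈ Ideal.span (Set.range (fun i : γ => (cX (Sum.inl i) : Conv (γ ⊕ Fin d)))) := by
  have h1 : kill (Finset.univ.map (Function.Embedding.inl : γ ↪ γ ⊕ Fin d)) b = 0 := by
    rw [← sec_res, hb, map_zero]
  have h2 := (mem_span_iff_kill _ _).mpr h1
  refine Ideal.span_mono ?_ h2
  rintro _ ⟨i, hi, rfl⟩
  simp only [Finset.coe_map, Finset.coe_univ, Set.image_univ, Set.mem_range] at hi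
  obtain ⟨j, rfl⟩ := hi
  exact ⟨j, rfl⟩

lemma conv_exp (t : Conv (Fin d)) : ∃ (z : ℂ) (h : Fin d → Conv (Fin d)), t = algebraMap ℂ (Conv (Fin d)) z + ∑ j, h j * cX j := by
  obtain ⟨c, hc⟩ := exists_expansion t
  exact ⟨at0 t, c, hc⟩

variable {ν : Type} [Fintype ν] [DecidableEq ν]

/-- the restricted map -/
noncomputable def rst (F : ν → Conv (γ ⊕ Fin d)) : ν → Conv (Fin d) := fun l => sub (resT γ d) (at0_resT γ d) (F l)

lemma at0_rst (F : ν → Conv (γ ⊕ Fin d)) (hF : ∀ l, at0 (F l) = 0) (l : ν) : at0 (rst F l) = 0 := by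
  unfold rst
  rw [at0_sub, hF]

lemma rst_comp (F : ν → Conv (γ ⊕ Fin d)) (hF : ∀ l, at0 (F l) = 0) (a : Conv ν) :
    sub (resT γ d) (at0_resT γ d) (sub F hF a) = sub (rst F) (at0_rst F hF) a :=
  sub_sub' _ _ _ _ _ a

lemma nss_pull {κ : Type} [Fintype κ] (F : ν → Conv (γ ⊕ Fin d)) (hF : ∀ l, at0 (F l) = 0)
    (g : κ → Conv ν)
    (hW : ∀ᶠ z in 𝓝 (0 : γ ⊕ Fin d → ℂ), (∀ k, gev (g k) (tev F z) = 0) ↔ ∀ i : γ, z (Sum.inl i) = 0)
    (b : Conv (γ ⊕ Fin d)) (hb : sub (resT γ d) (at0_resT γ d) b = 0) :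
    ∃ M : ℕ, b ^ M ∈ Ideal.span (Set.range (fun k => sub F hF (g k))) := by
  have h1 : b ∈ (Ideal.span (Set.range (fun k => sub F hF (g k)))).radical := by
    have h2 : Ideal.span (Set.range (fun i : γ => (cX (Sum.inl i) : Conv (γ ⊕ Fin d)))) ≤
        (Ideal.span (Set.range (fun k => sub F hF (g k)))).radical := by
      rw [Ideal.span_le]
      rintro _ ⟨i, rfl⟩
      apply nss
      have e1 : ∀ᶠ z in 𝓝 (0 : γ ⊕ Fin d → ℂ), ∀ k, gev (sub F hF (g k)) z = gev (g k) (tev F z) :=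
        eventually_all.mpr (fun k => gev_sub' F hF (g k))
      filter_upwards [hW, e1] with z h3 h4 h5
      rw [gev_cX]
      exact h3.mp (fun k => by rw [← h4]; exact h5 k) i
    exact h2 (ker_res b hb)
  exact Ideal.mem_radical_iff.mp h1

lemma restrict_zero {κ : Type} [Fintype κ] (F : ν → Conv (γ ⊕ Fin d)) (hF : ∀ l, at0 (F l) = 0)
    (g : κ → Conv ν)
    (hW : ∀ᶠ z in 𝓝 (0 : γ ⊕ Fin d → ℂ), (∀ k, gev (g k) (tev F z) = 0) ↔ ∀ i : γ, z (Sum.inl i) = 0) (k : κ) :
    sub (rst F) (at0_rst F hF) (g k) = 0 := by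
  rw [← rst_comp F hF]
  apply gev_ext
  filter_upwards [gev_sub' (resT γ d) (at0_resT γ d) (sub F hF (g k)),
    (tendsto_tev (resT γ d) (at0_resT γ d)).eventually (gev_sub' F hF (g k)),
    (tendsto_tev (resT γ d) (at0_resT γ d)).eventually hW] with z h1 h2 h3
  rw [h1, h2, gev_zero]
  apply h3.mpr
  intro i
  show gev (resT γ d (Sum.inl i)) z = 0
  exact gev_zero z

theorem core_alg (hcard : Fintype.card (γ ⊕ Fin d) = Fintype.card ν) (F : ν → Conv (γ ⊕ Fin d))
    (hF : ∀ l, at0 (F l) = 0) (N : ℕ) (hN : ∀ i, (cX i : Conv (γ ⊕ Fin d)) ^ N ∈ Ideal.span (Set.range F))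
    {κ : Type} [Fintype κ] (g : κ → Conv ν)
    (hW : ∀ᶠ z in 𝓝 (0 : γ ⊕ Fin d → ℂ), (∀ k, gev (g k) (tev F z) = 0) ↔ ∀ i : γ, z (Sum.inl i) = 0) :
    ∃ v : Fin d → ν → ℂ, IsRegular (Conv (Fin d)) (List.ofFn fun i => sub (rst F) (at0_rst F hF) (lin ν (v i))) ∧
      ∀ a : Conv ν, at0 a = 0 → ∃ a' : Fin d → Conv ν, sub (rst F) (at0_rst F hF) a =
        ∑ i, sub (rst F) (at0_rst F hF) (lin ν (v i)) * sub (rst F) (at0_rst F hF) (a' i) := by
  classical
  let algB : Algebra (Conv ν) (Conv (γ ⊕ Fin d)) := (sub F hF : Conv ν →+* Conv (γ ⊕ Fin d)).toAlgebra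
  let algT : Algebra (Conv ν) (Conv (Fin d)) := (sub (rst F) (at0_rst F hF) : Conv ν →+* Conv (Fin d)).toAlgebra
  have hst : IsScalarTower ℂ (Conv ν) (Conv (Fin d)) := IsScalarTower.of_algebraMap_eq (fun z => by
    show _ = sub (rst F) (at0_rst F hF) (algebraMap ℂ (Conv ν) z)
    rw [AlgHom.commutes])
  obtain ⟨hBfin, hBfree⟩ := free_conv hcard F hF N hN
  have hpr : ∀ j : Fin d, (cX j : Conv (Fin d)) ^ N ∈ Ideal.span (Set.range (rst F)) := by
    intro j
    have h1 := Ideal.mem_map_of_mem (sub (resT γ d) (at0_resT γ d) : Conv (γ ⊕ Fin d) →+* Conv (Fin d)) (hN (Sum.inr j))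
    rw [Ideal.map_span, ← Set.range_comp] at h1
    have h2 : (sub (resT γ d) (at0_resT γ d) : Conv (γ ⊕ Fin d) →+* Conv (Fin d)) ((cX (Sum.inr j)) ^ N) = cX j ^ N := by
      show sub (resT γ d) (at0_resT γ d) ((cX (Sum.inr j)) ^ N) = _
      rw [map_pow, sub_cX]; rfl
    rw [h2] at h1
    exact h1
  have hTfin : Module.Finite (Conv ν) (Conv (Fin d)) := finite_conv (rst F) (at0_rst F hF) N hpr
  let π : Conv (γ ⊕ Fin d) →ₐ[Conv ν] Conv (Fin d) :=
    { (sub (resT γ d) (at0_resT γ d) : Conv (γ ⊕ Fin d) →+* Conv (Fin d)) with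
      commutes' := fun a => rst_comp F hF a }
  have hπ : ∀ b, π b = sub (resT γ d) (at0_resT γ d) b := fun b => rfl
  let b := Module.finBasis (Conv ν) (Conv (γ ⊕ Fin d))
  have hD : Module.finrank (Conv ν) (Conv (γ ⊕ Fin d)) ≠ 0 := (Module.finrank_pos (R := Conv ν) (M := Conv (γ ⊕ Fin d))).ne'
  have hwfn : (List.finRange d).map (cX : Fin d → Conv (Fin d)) = List.ofFn (cX : Fin d → Conv (Fin d)) := by
    rw [List.ofFn_eq_map]
  have hmain := main_alg π (sub (secT γ d) at0_secT : Conv (Fin d) →+* Conv (γ ⊕ Fin d)) (fun t => res_sec t) hD b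
    (by
      intro x hx
      obtain ⟨M, hM⟩ := nss_pull F hF g hW x hx
      refine ⟨M, ?_⟩
      have hle : Ideal.span (Set.range (fun k => sub F hF (g k))) ≤
          (RingHom.ker (algebraMap (Conv ν) (Conv (Fin d)))).map (algebraMap (Conv ν) (Conv (γ ⊕ Fin d))) := by
        rw [Ideal.span_le]
        rintro _ ⟨k, rfl⟩
        apply Ideal.mem_map_of_mem
        exact restrict_zero F hF g hW k
      exact hle hM)
    (fun k => pd k) (cX : Fin d → Conv (Fin d)) maximalIdeal_eq_span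
    (by
      rw [← hwfn]
      exact coords_regular _ (List.nodup_finRange d))
    pd_cX exists_poly conv_exp (cX : ν → Conv ν)
    (by
      intro a ha
      rw [mem_maximalIdeal_iff] at ha ⊢
      show at0 (sub (rst F) (at0_rst F hF) a) = 0
      rw [at0_sub, ha])
    (fun l a => pd l a)
    (by
      intro k a
      show pd k (sub (rst F) (at0_rst F hF) a) = ∑ l, sub (rst F) (at0_rst F hF) (pd l a) * pd k (sub (rst F) (at0_rst F hF) (cX l))
      rw [pd_sub]
      apply Finset.sum_congr rfl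
      intro l _
      rw [sub_cX])
    N
    (by
      intro j
      have h1 : (fun l => algebraMap (Conv ν) (Conv (Fin d)) (cX l)) = rst F := by
        funext l
        show sub (rst F) (at0_rst F hF) (cX l) = _
        rw [sub_cX]
      rw [h1]
      exact hpr j)
    (lin ν) lin_single lin_mem
    (by
      intro v hv
      exact Jac_ne_zero _ (by
        intro i
        show at0 (sub (rst F) (at0_rst F hF) (lin ν (v i))) = 0
        rw [at0_sub, ← mem_maximalIdeal_iff]
        exact lin_mem _) hv)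
  obtain ⟨v, hv, hv'⟩ := hmain
  exact ⟨v, hv, fun a ha => hv' a ((mem_maximalIdeal_iff a).mpr ha)⟩

end core

end Pool.Agent.Helper296
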