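import Pool.Agent.Helper296.Main3

set_option autoImplicit false
set_option linter.unusedSectionVars false
set_option linter.unusedVariables false
set_option linter.unusedSimpArgs false

namespace Pool.Agent.Helper296

open IsLocalRing RingTheory.Sequence Filter
open scoped Topology ENNReal

section aux

variable {σ ν : Type} [Fintype σ] [DecidableEq σ] [Fintype ν] [DecidableEq ν]

lemma gev_lin (u : ν → ℂ) : ∀ᶠ y in 𝓝 (0 : ν → ℂ), gev (lin ν u) y = ∑ l, u l * y l := by
  have e1 : ∀ᶠ y in 𝓝 (0 : ν → ℂ), ∀ l, gev (u l • (cX l : Conv ν)) y = u l * y l := by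
    apply eventually_all.mpr
    intro l
    filter_upwards [gev_mul (algebraMap ℂ (Conv ν) (u l)) (cX l)] with y hy
    rw [Algebra.smul_def, hy, gev_algebraMap, gev_cX]
  filter_upwards [gev_sum Finset.univ (fun l => u l • (cX l : Conv ν)), e1] with y h1 h2
  rw [lin_apply, h1]
  exact Finset.sum_congr rfl (fun l _ => h2 l)

/-- contraction of ideals along the free extension -/
lemma contraction (hcard : Fintype.card σ = Fintype.card ν) (F : ν → Conv σ) (hF : ∀ l, at0 (F l) = 0) (N : ℕ)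
    (hN : ∀ i, (cX i : Conv σ) ^ N ∈ Ideal.span (Set.range F)) {κ : Type} [Fintype κ] (g : κ → Conv ν) (a : Conv ν)
    (h : sub F hF a ∈ Ideal.span (Set.range (fun k => sub F hF (g k)))) : a ∈ Ideal.span (Set.range g) := by
  classical
  let alg : Algebra (Conv ν) (Conv σ) := (sub F hF : Conv ν →+* Conv σ).toAlgebra
  obtain ⟨h1, h2⟩ := free_conv hcard F hF N hN
  let e := Module.finBasis (Conv ν) (Conv σ)
  have hD : 0 < Module.finrank (Conv ν) (Conv σ) := Module.finrank_pos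
  let i0 : Fin (Module.finrank (Conv ν) (Conv σ)) := ⟨0, hD⟩
  rw [Ideal.mem_span_range_iff_exists_fun] at h
  obtain ⟨c, hc⟩ := h
  have h3 : a • e i0 = ∑ k, g k • (c k * e i0) := by
    have e1 : a • e i0 = sub F hF a * e i0 := rfl
    have e2 : ∀ k, g k • (c k * e i0) = sub F hF (g k) * (c k * e i0) := fun k => rfl
    rw [e1, ← hc, Finset.sum_mul]
    apply Finset.sum_congr rfl
    intro k _
    rw [e2]; ring
  have h4 := congrArg (fun x => e.repr x i0) h3
  simp only [map_sum, map_smul, Finsupp.coe_smul, Pi.smul_apply, Module.Basis.repr_self, Finsupp.single_eq_same,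
    smul_eq_mul, mul_one, Finsupp.coe_finsetSum, Finset.sum_apply] at h4
  rw [h4]
  apply Ideal.sum_mem
  intro k _
  exact Ideal.mul_mem_right _ _ (Ideal.subset_span ⟨k, rfl⟩)

/-- elements of an ideal vanish on its zero set -/
lemma vanish_of_mem {κ : Type} [Fintype κ] (g : κ → Conv ν) (a : Conv ν) (h : a ∈ Ideal.span (Set.range g)) :
    ∀ᶠ y in 𝓝 (0 : ν → ℂ), (∀ k, gev (g k) y = 0) → gev a y = 0 := by
  rw [Ideal.mem_span_range_iff_exists_fun] at h
  obtain ⟨c, rfl⟩ := h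
  have e1 : ∀ᶠ y in 𝓝 (0 : ν → ℂ), ∀ k, gev (c k * g k) y = gev (c k) y * gev (g k) y :=
    eventually_all.mpr (fun k => gev_mul _ _)
  filter_upwards [gev_sum Finset.univ (fun k => c k * g k), e1] with y h1 h2 h3
  rw [h1]
  apply Finset.sum_eq_zero
  intro k _
  rw [h2, h3, mul_zero]

/-- reduction to power series in the linear forms -/
lemma exists_phi {d : ℕ} {T : Type*} [CommRing T] (ψ : Conv ν →+* T) (t : Fin d → Conv ν) (ht : ∀ i, at0 (t i) = 0)
    (hP : ∀ a : Conv ν, at0 a = 0 → ∃ a' : Fin d → Conv ν, ψ a = ∑ i, ψ (t i) * ψ (a' i)) (a : Conv ν) :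
    ∃ φ : Conv (Fin d), ψ a = ψ (sub t ht φ) := by
  obtain ⟨r₂, hr₂, hr₂', ha⟩ := a.2
  obtain ⟨r, s, h1, h2, h3, h4, h5, h6, h7⟩ := fin_thm t ht (RingHom.ker ψ) 1 (fun l => by
    obtain ⟨a', ha'⟩ := hP (cX l) (at0_cX l)
    rw [pow_one]
    have e1 : (cX l : Conv ν) = ∑ i, t i * a' i + (cX l - ∑ i, t i * a' i) := by ring
    rw [e1]
    apply Submodule.add_mem_sup
    · apply Ideal.sum_mem
      intro i _
      exact Ideal.mul_mem_right _ _ (Ideal.subset_span ⟨i, rfl⟩)
    · rw [RingHom.mem_ker, map_sub, map_sum, ha', sub_eq_zero]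
      apply Finset.sum_congr rfl
      intro i _
      rw [map_mul]) r₂ hr₂
  obtain ⟨q, _, hq⟩ := h7 a (nrm_ne_top_mono (fun _ => h3) ha)
  refine ⟨q default, ?_⟩
  rw [RingHom.mem_ker, map_sub, sub_eq_zero] at hq
  rw [hq, Fintype.sum_unique]
  congr 1
  have : (∏ i, (cX i : Conv ν) ^ (((default : ν → Fin 1) i : Fin 1) : ℕ)) = 1 := by
    apply Finset.prod_eq_one
    intro i _
    have : (((default : ν → Fin 1) i : Fin 1) : ℕ) = 0 := by simp
    rw [this, pow_zero]
  rw [this, mul_one]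

end aux

section core

variable {γ : Type} [Fintype γ] [DecidableEq γ] {d : ℕ}
variable {ν : Type} [Fintype ν] [DecidableEq ν]

theorem core (hcard : Fintype.card (γ ⊕ Fin d) = Fintype.card ν) (F : ν → Conv (γ ⊕ Fin d))
    (hF : ∀ l, at0 (F l) = 0) (N : ℕ) (hN : ∀ i, (cX i : Conv (γ ⊕ Fin d)) ^ N ∈ Ideal.span (Set.range F))
    {κ : Type} [Fintype κ] (g : κ → Conv ν)
    (hW : ∀ᶠ z in 𝓝 (0 : γ ⊕ Fin d → ℂ), (∀ k, gev (g k) (tev F z) = 0) ↔ ∀ i : γ, z (Sum.inl i) = 0) :
    ∃ (r : ℕ) (h : Fin r → Conv ν),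
      Function.Surjective (fderiv ℂ (fun (y : ν → ℂ) (j : Fin r) => gev (h j) y) 0) ∧
      ∀ᶠ y in 𝓝 (0 : ν → ℂ), (∀ k, gev (g k) y = 0) ↔ ∀ j, gev (h j) y = 0 := by
  classical
  obtain ⟨v, hv, hP⟩ := core_alg hcard F hF N hN g hW
  set ψ : Conv ν →ₐ[ℂ] Conv (Fin d) := sub (rst F) (at0_rst F hF) with hψ
  set t : Fin d → Conv ν := fun i => lin ν (v i) with ht
  have ht0 : ∀ i, at0 (t i) = 0 := fun i => (mem_maximalIdeal_iff _).mp (lin_mem _)
  let Lf : (ν → ℂ) →ₗ[ℂ] (Fin d → ℂ) := Matrix.mulVecLin (Matrix.of v)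
  have hLf : ∀ y i, Lf y i = ∑ l, v i l * y l := fun y i => rfl
  have htev : ∀ᶠ y in 𝓝 (0 : ν → ℂ), tev t y = Lf y := by
    have e1 : ∀ᶠ y in 𝓝 (0 : ν → ℂ), ∀ i, gev (t i) y = ∑ l, v i l * y l := eventually_all.mpr (fun i => gev_lin (v i))
    filter_upwards [e1] with y hy
    funext i
    exact hy i
  let K := LinearMap.ker Lf
  let r := Module.finrank ℂ K
  let κe : K ≃ₗ[ℂ] (Fin r → ℂ) := LinearEquiv.ofFinrankEq K (Fin r → ℂ) (by rw [Module.finrank_fin_fun])
  obtain ⟨P, hPK⟩ := LinearMap.exists_leftInverse_of_injective K.subtype (Submodule.ker_subtype K)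
  have hPx : ∀ x : K, P (x : ν → ℂ) = x := fun x => LinearMap.congr_fun hPK x
  let E : (ν → ℂ) →ₗ[ℂ] (Fin r → ℂ) := κe.toLinearMap ∘ₗ P
  have hE : ∀ x : K, E (x : ν → ℂ) = κe x := fun x => by
    show κe (P x) = κe x
    rw [hPx]
  -- injectivity
  have hker : LinearMap.ker (Lf.prod E) = ⊥ := by
    rw [eq_bot_iff]
    intro y hy
    have hy' : (Lf y, E y) = ((0, 0) : (Fin d → ℂ) × (Fin r → ℂ)) := hy
    obtain ⟨h1, h2⟩ := Prod.mk.inj hy'
    have h3 : E ((⟨y, h1⟩ : K) : ν → ℂ) = 0 := h2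
    rw [hE] at h3
    have h4 : (⟨y, h1⟩ : K) = 0 := by simpa using h3
    rw [Submodule.mem_bot]
    exact congrArg Subtype.val h4
  obtain ⟨G, hG⟩ := LinearMap.exists_leftInverse_of_injective (Lf.prod E) hker
  have hG' : ∀ y, G (Lf y, E y) = y := fun y => LinearMap.congr_fun hG y
  -- germs
  let e : Fin r → Conv ν := fun j => lin ν (fun l => E (Pi.single l 1) j)
  have he : ∀ᶠ y in 𝓝 (0 : ν → ℂ), ∀ j, gev (e j) y = E y j := by
    apply eventually_all.mpr
    intro j
    filter_upwards [gev_lin (fun l => E (Pi.single l 1) j)] with y hy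
    show gev (lin ν (fun l => E (Pi.single l 1) j)) y = E y j
    rw [hy]
    have h1 : y = ∑ l, y l • (Pi.single l 1 : ν → ℂ) := by
      ext k
      simp [Pi.single_apply]
    conv_rhs => rw [h1, map_sum]
    rw [Finset.sum_apply]
    apply Finset.sum_congr rfl
    intro l _
    rw [map_smul, Pi.smul_apply, smul_eq_mul, mul_comm]
  have hphi : ∀ j, ∃ φ : Conv (Fin d), ψ (e j) = ψ (sub t ht0 φ) := fun j =>
    exists_phi (ψ : Conv ν →+* Conv (Fin d)) t ht0 hP (e j)
  choose φ hφ using hphi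
  let h : Fin r → Conv ν := fun j => e j - sub t ht0 (φ j)
  have hψh : ∀ j, ψ (h j) = 0 := fun j => by
    show ψ (e j - sub t ht0 (φ j)) = 0
    rw [map_sub, hφ, sub_self]
  have hφ0 : ∀ j, at0 (φ j) = 0 := by
    intro j
    have h1 : at0 (ψ (h j)) = 0 := by rw [hψh, map_zero]
    rw [hψ, at0_sub] at h1
    have h2 : at0 (h j) = at0 (e j) - at0 (sub t ht0 (φ j)) := map_sub _ _ _
    have h3 : at0 (e j) = 0 := (mem_maximalIdeal_iff _).mp (lin_mem _)
    rw [h2, h3, at0_sub, zero_sub, neg_eq_zero] at h1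
    exact h1
  have hh : ∀ᶠ y in 𝓝 (0 : ν → ℂ), ∀ j, gev (h j) y = E y j - gev (φ j) (Lf y) := by
    have e1 : ∀ᶠ y in 𝓝 (0 : ν → ℂ), ∀ j, gev (h j) y = gev (e j) y - gev (sub t ht0 (φ j)) y :=
      eventually_all.mpr (fun j => gev_sub _ _)
    have e2 : ∀ᶠ y in 𝓝 (0 : ν → ℂ), ∀ j, gev (sub t ht0 (φ j)) y = gev (φ j) (tev t y) :=
      eventually_all.mpr (fun j => gev_sub' t ht0 _)
    filter_upwards [e1, e2, he, htev] with y h1 h2 h3 h4
    intro j
    rw [h1, h2, h3, h4]
  refine ⟨r, h, ?_, ?_⟩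
  · -- derivative
    have hLc : HasFDerivAt (fun y => Lf y) (LinearMap.toContinuousLinearMap Lf) (0 : ν → ℂ) :=
      (LinearMap.toContinuousLinearMap Lf).hasFDerivAt
    have hEc : HasFDerivAt (fun y => E y) (LinearMap.toContinuousLinearMap E) (0 : ν → ℂ) :=
      (LinearMap.toContinuousLinearMap E).hasFDerivAt
    have hφd : HasFDerivAt (fun (u : Fin d → ℂ) (j : Fin r) => gev (φ j) u)
        (ContinuousLinearMap.pi (fun j => fderiv ℂ (gev (φ j)) (Lf 0))) (Lf 0) := by
      rw [hasFDerivAt_pi]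
      intro j
      rw [map_zero]
      exact (gev_analyticAt (φ j)).differentiableAt.hasFDerivAt
    have hcomp := hEc.sub (hφd.comp (0 : ν → ℂ) hLc)
    have heq : (fun (y : ν → ℂ) (j : Fin r) => gev (h j) y) =ᶠ[𝓝 0]
        ((fun y => E y) - ((fun (u : Fin d → ℂ) (j : Fin r) => gev (φ j) u) ∘ fun y => Lf y)) := by
      filter_upwards [hh] with y hy
      funext j
      exact hy j
    have hfd := (hcomp.congr_of_eventuallyEq heq).fderiv
    rw [hfd]
    intro u
    refine ⟨((κe.symm u : K) : ν → ℂ), ?_⟩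
    have h1 : Lf ((κe.symm u : K) : ν → ℂ) = 0 := (κe.symm u).2
    have h2 : E ((κe.symm u : K) : ν → ℂ) = u := by rw [hE]; exact κe.apply_symm_apply u
    show E ((κe.symm u : K) : ν → ℂ) - (ContinuousLinearMap.pi (fun j => fderiv ℂ (gev (φ j)) (Lf 0)))
      (Lf ((κe.symm u : K) : ν → ℂ)) = u
    rw [h1, h2, map_zero, sub_zero]
  · -- zero sets
    -- first inclusion
    have hsub1 : ∀ᶠ y in 𝓝 (0 : ν → ℂ), ∀ j, (∀ k, gev (g k) y = 0) → gev (h j) y = 0 := by
      apply eventually_all.mpr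
      intro j
      have h1 : sub (resT γ d) (at0_resT γ d) (sub F hF (h j)) = 0 := by
        rw [rst_comp F hF]
        exact hψh j
      obtain ⟨M, hM⟩ := nss_pull F hF g hW _ h1
      rw [← map_pow] at hM
      have h2 := contraction hcard F hF N hN g _ hM
      filter_upwards [vanish_of_mem g _ h2, gev_pow (h j) M] with y h3 h4 h5
      have h6 := h3 h5
      rw [h4] at h6
      by_contra hne
      exact pow_ne_zero M hne h6
    -- second inclusion
    let Φ : (Fin d → ℂ) → (ν → ℂ) := fun u => G (u, fun j => gev (φ j) u)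
    have hΦan : AnalyticAt ℂ Φ 0 := by
      have h1 : AnalyticAt ℂ (fun u : Fin d → ℂ => ((u, fun j => gev (φ j) u) : (Fin d → ℂ) × (Fin r → ℂ))) 0 :=
        analyticAt_id.prod (AnalyticAt.pi (fun j => gev_analyticAt (φ j)))
      exact ((LinearMap.toContinuousLinearMap G).analyticAt _).comp h1
    have hΦan' : ∀ l, AnalyticAt ℂ (fun u => Φ u l) 0 := fun l =>
      ((ContinuousLinearMap.proj (R := ℂ) (φ := fun _ : ν => ℂ) l).analyticAt _).comp hΦan
    have hΦ0 : Φ 0 = 0 := by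
      show G ((0 : Fin d → ℂ), fun j => gev (φ j) 0) = 0
      have : (fun j => gev (φ j) (0 : Fin d → ℂ)) = 0 := by
        funext j
        rw [gev_at_zero, hφ0]; rfl
      rw [this]
      exact map_zero G
    let Φg : ν → Conv (Fin d) := fun l => mk (fun u => Φ u l) (hΦan' l)
    have hΦg : ∀ᶠ u in 𝓝 (0 : Fin d → ℂ), tev Φg u = Φ u := by
      have e1 : ∀ᶠ u in 𝓝 (0 : Fin d → ℂ), ∀ l, gev (Φg l) u = Φ u l := eventually_all.mpr (fun l => gev_mk _ _)
      filter_upwards [e1] with u hu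
      funext l
      exact hu l
    have hΦg0 : ∀ l, at0 (Φg l) = 0 := by
      intro l
      rw [← gev_at_zero]
      have := congrFun hΦg.self_of_nhds l
      rw [hΦ0] at this
      exact this
    have hq : ∀ k, sub Φg hΦg0 (g k) = 0 := by
      intro k
      set ℓ : Fin d → Conv (Fin d) := fun i => ψ (t i) with hℓ
      have hℓ0 : ∀ i, at0 (ℓ i) = 0 := fun i => by
        rw [hℓ]
        simp only
        rw [hψ, at0_sub, ht0]
      obtain ⟨N', hN'⟩ := primary_of_regular d (cX : Fin d → Conv (Fin d)) maximalIdeal_eq_span (List.ofFn ℓ)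
        (List.length_ofFn) hv
      rw [ofList_ofFn] at hN'
      have hinj := injective_conv (σ := Fin d) (ν := Fin d) rfl ℓ hℓ0 N'
        (fun i => hN' (Ideal.pow_mem_pow ((mem_maximalIdeal_iff _).mpr (at0_cX i)) N'))
      apply hinj
      rw [map_zero]
      apply gev_ext
      have e1 : ∀ᶠ w in 𝓝 (0 : Fin d → ℂ), ∀ i, gev (ℓ i) w = gev (t i) (tev (rst F) w) :=
        eventually_all.mpr (fun i => gev_sub' (rst F) (at0_rst F hF) (t i))
      have e2 : ∀ᶠ w in 𝓝 (0 : Fin d → ℂ), ∀ j, gev (ψ (h j)) w = gev (h j) (tev (rst F) w) :=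
        eventually_all.mpr (fun j => gev_sub' (rst F) (at0_rst F hF) (h j))
      have htd := tendsto_tev (rst F) (at0_rst F hF)
      filter_upwards [gev_sub' ℓ hℓ0 (sub Φg hΦg0 (g k)), (tendsto_tev ℓ hℓ0).eventually (gev_sub' Φg hΦg0 (g k)),
        (tendsto_tev ℓ hℓ0).eventually hΦg, e1, e2, htd.eventually htev, htd.eventually hh,
        gev_sub' (rst F) (at0_rst F hF) (g k)] with w w1 w2 w3 w4 w5 w6 w7 w8
      rw [w1, w2, w3, gev_zero]
      have f1 : tev ℓ w = Lf (tev (rst F) w) := by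
        rw [← w6]
        funext i
        exact w4 i
      have f2 : (fun j => gev (φ j) (Lf (tev (rst F) w))) = E (tev (rst F) w) := by
        funext j
        have g1 := w7 j
        rw [← w5 j, hψh j, gev_zero] at g1
        exact (sub_eq_zero.mp g1.symm).symm
      have f3 : Φ (tev ℓ w) = tev (rst F) w := by
        rw [f1]
        show G (Lf (tev (rst F) w), fun j => gev (φ j) (Lf (tev (rst F) w))) = _
        rw [f2, hG']
      rw [f3, ← w8, restrict_zero F hF g hW k, gev_zero]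
    have hLt : Tendsto (fun y => Lf y) (𝓝 (0 : ν → ℂ)) (𝓝 (0 : Fin d → ℂ)) := by
      have := (LinearMap.toContinuousLinearMap Lf).continuous.tendsto (0 : ν → ℂ)
      rw [map_zero] at this
      exact this
    have e1 : ∀ᶠ u in 𝓝 (0 : Fin d → ℂ), ∀ k, gev (sub Φg hΦg0 (g k)) u = gev (g k) (tev Φg u) :=
      eventually_all.mpr (fun k => gev_sub' Φg hΦg0 (g k))
    filter_upwards [hsub1, hh, hLt.eventually e1, hLt.eventually hΦg] with y h1 h2 h3 h4
    constructor
    · intro hg j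
      exact h1 j hg
    · intro hhj k
      have f2 : (fun j => gev (φ j) (Lf y)) = E y := by
        funext j
        have g1 := h2 j
        rw [hhj j] at g1
        exact (sub_eq_zero.mp g1.symm).symm
      have f3 : Φ (Lf y) = y := by
        show G (Lf y, fun j => gev (φ j) (Lf y)) = _
        rw [f2, hG']
      have f4 := h3 k
      rw [h4, f3, hq k, gev_zero] at f4
      exact f4.symm

end core

end Pool.Agent.Helper296
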