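import Pool.Agent.Helper296.Main4

set_option autoImplicit false
set_option linter.unusedSectionVars false
set_option linter.unusedVariables false
set_option linter.unusedSimpArgs false

namespace Pool.Agent.Helper296

open IsLocalRing RingTheory.Sequence Filter
open scoped Topology ENNReal

/-- straightening of a submanifold germ -/
lemma straighten {n c : ℕ} (h : (Fin n → ℂ) → (Fin c → ℂ)) (hh : AnalyticAt ℂ h 0) (h0 : h 0 = 0)
    (hs : Function.Surjective (fderiv ℂ h 0)) :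
    ∃ (d : ℕ) (H : (Fin n → ℂ) → (Fin c ⊕ Fin d → ℂ)) (Θ : (Fin c ⊕ Fin d → ℂ) → (Fin n → ℂ)), c + d = n ∧
      (∀ z i, H z (Sum.inl i) = h z i) ∧ H 0 = 0 ∧ Θ 0 = 0 ∧ AnalyticAt ℂ Θ 0 ∧
      (∀ᶠ u in 𝓝 (0 : Fin c ⊕ Fin d → ℂ), H (Θ u) = u) := by
  classical
  let A' : (Fin n → ℂ) →ₗ[ℂ] (Fin c → ℂ) := (fderiv ℂ h 0 : (Fin n → ℂ) →ₗ[ℂ] (Fin c → ℂ))
  let K := LinearMap.ker A'
  let d := Module.finrank ℂ K
  have hcd : c + d = n := by
    have h1 := LinearMap.finrank_range_add_finrank_ker A'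
    have h2 : LinearMap.range A' = ⊤ := LinearMap.range_eq_top.mpr hs
    rw [h2, finrank_top, Module.finrank_fin_fun, Module.finrank_fin_fun] at h1
    exact h1
  let κe : K ≃ₗ[ℂ] (Fin d → ℂ) := LinearEquiv.ofFinrankEq K (Fin d → ℂ) (by rw [Module.finrank_fin_fun])
  obtain ⟨P, hPK⟩ := LinearMap.exists_leftInverse_of_injective K.subtype (Submodule.ker_subtype K)
  have hPx : ∀ x : K, P (x : Fin n → ℂ) = x := fun x => LinearMap.congr_fun hPK x
  let E : (Fin n → ℂ) →ₗ[ℂ] (Fin d → ℂ) := κe.toLinearMap ∘ₗ P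
  have hE : ∀ x : K, E (x : Fin n → ℂ) = κe x := fun x => by
    show κe (P x) = κe x
    rw [hPx]
  let H : (Fin n → ℂ) → (Fin c ⊕ Fin d → ℂ) := fun z => Sum.elim (h z) (E z)
  let H' : (Fin n → ℂ) →ₗ[ℂ] (Fin c ⊕ Fin d → ℂ) :=
    { toFun := fun x => Sum.elim (A' x) (E x)
      map_add' := by
        intro x y
        funext i
        rcases i with i | j
        · simp
        · simp
      map_smul' := by
        intro a x
        funext i
        rcases i with i | j
        · simp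
        · simp }
  have hinj : Function.Injective H' := by
    rw [injective_iff_map_eq_zero]
    intro x hx
    have h1 : A' x = 0 := by
      funext i
      exact congrFun hx (Sum.inl i)
    have h2 : E x = 0 := by
      funext j
      exact congrFun hx (Sum.inr j)
    have h3 : E ((⟨x, h1⟩ : K) : Fin n → ℂ) = 0 := h2
    rw [hE] at h3
    have h4 : (⟨x, h1⟩ : K) = 0 := by simpa using h3
    exact congrArg Subtype.val h4
  have hfr : Module.finrank ℂ (Fin n → ℂ) = Module.finrank ℂ (Fin c ⊕ Fin d → ℂ) := by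
    rw [Module.finrank_fin_fun, Module.finrank_fintype_fun_eq_card, Fintype.card_sum, Fintype.card_fin, Fintype.card_fin, hcd]
  let He : (Fin n → ℂ) ≃ₗ[ℂ] (Fin c ⊕ Fin d → ℂ) := LinearEquiv.ofInjectiveOfFinrankEq H' hinj hfr
  let Hc : (Fin n → ℂ) ≃L[ℂ] (Fin c ⊕ Fin d → ℂ) := He.toContinuousLinearEquiv
  have hHan : AnalyticAt ℂ H 0 := by
    rw [analyticAt_pi_iff]
    intro i
    rcases i with i | j
    · exact ((ContinuousLinearMap.proj (R := ℂ) (φ := fun _ : Fin c => ℂ) i).analyticAt _).comp hh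
    · exact ((ContinuousLinearMap.proj (R := ℂ) (φ := fun _ : Fin d => ℂ) j).comp (LinearMap.toContinuousLinearMap E)).analyticAt _
  have hHd : HasFDerivAt H (Hc : (Fin n → ℂ) →L[ℂ] (Fin c ⊕ Fin d → ℂ)) 0 := by
    rw [hasFDerivAt_pi']
    intro i
    rcases i with i | j
    · have h1 : HasFDerivAt (fun z => h z i) ((ContinuousLinearMap.proj (R := ℂ) (φ := fun _ : Fin c => ℂ) i).comp (fderiv ℂ h 0)) 0 :=
        (ContinuousLinearMap.proj (R := ℂ) (φ := fun _ : Fin c => ℂ) i).hasFDerivAt.comp 0 hh.differentiableAt.hasFDerivAt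
      refine h1.congr_fderiv ?_
      ext x
      rfl
    · have h1 : HasFDerivAt (fun z => E z j) ((ContinuousLinearMap.proj (R := ℂ) (φ := fun _ : Fin d => ℂ) j).comp (LinearMap.toContinuousLinearMap E)) 0 :=
        ((ContinuousLinearMap.proj (R := ℂ) (φ := fun _ : Fin d => ℂ) j).comp (LinearMap.toContinuousLinearMap E)).hasFDerivAt
      refine h1.congr_fderiv ?_
      ext x
      rfl
  have hH0 : H 0 = 0 := by
    funext i
    rcases i with i | j
    · show h 0 i = 0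
      rw [h0]; rfl
    · show E 0 j = 0
      rw [map_zero]; rfl
  have hcd' : ContDiffAt ℂ ⊤ H 0 := hHan.contDiffAt
  have hHs := hcd'.hasStrictFDerivAt' hHd (by simp)
  let Θ := hcd'.localInverse hHd (by simp)
  have hΘ0 : Θ 0 = 0 := by
    have := hcd'.localInverse_apply_image hHd (by simp)
    rwa [hH0] at this
  have hΘan : AnalyticAt ℂ Θ 0 := by
    have := hcd'.to_localInverse hHd (by simp)
    rw [hH0] at this
    exact ContDiffAt.analyticAt this
  have hright : ∀ᶠ u in 𝓝 (0 : Fin c ⊕ Fin d → ℂ), H (Θ u) = u := by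
    have := hHs.eventually_right_inverse
    rw [hH0] at this
    exact this
  exact ⟨d, H, Θ, hcd, fun z i => rfl, hH0, hΘ0, hΘan, hright⟩

theorem main_theorem (n : ℕ) (f : (Fin n → ℂ) → (Fin n → ℂ)) (V : Set (Fin n → ℂ))
    (hf : AnalyticAt ℂ f 0) (hf0 : f 0 = 0) (hiso : ∀ᶠ z in 𝓝[≠] (0 : Fin n → ℂ), f z ≠ 0)
    (hV : ∃ (m : ℕ) (g : (Fin n → ℂ) → (Fin m → ℂ)),
      AnalyticAt ℂ g 0 ∧ V =ᶠ[𝓝 (0 : Fin n → ℂ)] g ⁻¹' {0})
    (hW : ∃ (r : ℕ) (h : (Fin n → ℂ) → (Fin r → ℂ)),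
      AnalyticAt ℂ h 0 ∧ Function.Surjective (fderiv ℂ h 0) ∧
      f ⁻¹' V =ᶠ[𝓝 (0 : Fin n → ℂ)] h ⁻¹' {0}) :
    ∃ (r : ℕ) (h : (Fin n → ℂ) → (Fin r → ℂ)),
      AnalyticAt ℂ h 0 ∧ Function.Surjective (fderiv ℂ h 0) ∧
      V =ᶠ[𝓝 (0 : Fin n → ℂ)] h ⁻¹' {0} := by
  classical
  obtain ⟨m, g, hg, hVg⟩ := hV
  obtain ⟨c, h, hh, hs, hWh⟩ := hW
  have hVg' : ∀ᶠ y in 𝓝 (0 : Fin n → ℂ), y ∈ V ↔ g y = 0 := by
    filter_upwards [eventuallyEq_set.mp hVg] with y hy
    rw [hy]; rfl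
  have hWh' : ∀ᶠ z in 𝓝 (0 : Fin n → ℂ), f z ∈ V ↔ h z = 0 := by
    filter_upwards [eventuallyEq_set.mp hWh] with z hz
    have h1 : z ∈ f ⁻¹' V ↔ f z ∈ V := Iff.rfl
    rw [← h1, hz]; rfl
  by_cases h0 : h 0 = 0
  · -- main case
    obtain ⟨d, H, Θ, hcd, hHh, hH0, hΘ0, hΘan, hHΘ⟩ := straighten h hh h0 hs
    have hΘt : Tendsto Θ (𝓝 0) (𝓝 0) := by
      have := hΘan.continuousAt.tendsto
      rwa [hΘ0] at this
    have hfΘ : AnalyticAt ℂ (fun u => f (Θ u)) 0 := by
      apply AnalyticAt.fun_comp (g := f) (f := Θ) _ hΘan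
      rw [hΘ0]; exact hf
    have hfΘl : ∀ l, AnalyticAt ℂ (fun u => f (Θ u) l) 0 := fun l =>
      ((ContinuousLinearMap.proj (R := ℂ) (φ := fun _ : Fin n => ℂ) l).analyticAt _).comp hfΘ
    let F : Fin n → Conv (Fin c ⊕ Fin d) := fun l => mk (fun u => f (Θ u) l) (hfΘl l)
    have hFe : ∀ᶠ u in 𝓝 (0 : Fin c ⊕ Fin d → ℂ), tev F u = f (Θ u) := by
      have e1 : ∀ᶠ u in 𝓝 (0 : Fin c ⊕ Fin d → ℂ), ∀ l, gev (F l) u = f (Θ u) l :=
        eventually_all.mpr (fun l => gev_mk _ _)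
      filter_upwards [e1] with u hu
      funext l
      exact hu l
    have hF : ∀ l, at0 (F l) = 0 := by
      intro l
      rw [← gev_at_zero]
      have := congrFun hFe.self_of_nhds l
      rw [hΘ0, hf0] at this
      exact this
    have hgl : ∀ k, AnalyticAt ℂ (fun y => g y k) 0 := fun k =>
      ((ContinuousLinearMap.proj (R := ℂ) (φ := fun _ : Fin m => ℂ) k).analyticAt _).comp hg
    let Gg : Fin m → Conv (Fin n) := fun k => mk (fun y => g y k) (hgl k)
    have hGe : ∀ᶠ y in 𝓝 (0 : Fin n → ℂ), ∀ k, gev (Gg k) y = g y k := eventually_all.mpr (fun k => gev_mk _ _)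
    -- isolated zero
    have hiso' : ∀ᶠ z in 𝓝 (0 : Fin n → ℂ), f z = 0 → z = 0 := by
      rw [eventually_nhdsWithin_iff] at hiso
      filter_upwards [hiso] with z hz hfz
      by_contra hne
      exact hz hne hfz
    have hrad : ∀ i : Fin c ⊕ Fin d, ∃ N : ℕ, (cX i : Conv (Fin c ⊕ Fin d)) ^ N ∈ Ideal.span (Set.range F) := by
      intro i
      have h1 : (cX i : Conv (Fin c ⊕ Fin d)) ∈ (Ideal.span (Set.range F)).radical := by
        apply nss
        filter_upwards [hΘt.eventually hiso', hFe, hHΘ] with u h1 h2 h3 h4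
        rw [gev_cX]
        have h5 : f (Θ u) = 0 := by
          rw [← h2]
          funext l
          exact h4 l
        have h6 := h1 h5
        rw [h6, hH0] at h3
        rw [← h3]; rfl
      exact Ideal.mem_radical_iff.mp h1
    choose Ni hNi using hrad
    have hN : ∀ i : Fin c ⊕ Fin d, (cX i : Conv (Fin c ⊕ Fin d)) ^ (∑ j, Ni j) ∈ Ideal.span (Set.range F) := by
      intro i
      have hle : Ni i ≤ ∑ j, Ni j := Finset.single_le_sum (fun _ _ => Nat.zero_le _) (Finset.mem_univ i)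
      exact Ideal.pow_mem_of_pow_mem _ (hNi i) hle
    have hWW : ∀ᶠ u in 𝓝 (0 : Fin c ⊕ Fin d → ℂ), (∀ k, gev (Gg k) (tev F u) = 0) ↔ ∀ i : Fin c, u (Sum.inl i) = 0 := by
      have hft : Tendsto (fun u => f (Θ u)) (𝓝 (0 : Fin c ⊕ Fin d → ℂ)) (𝓝 0) := by
        have := hfΘ.continuousAt.tendsto
        rwa [hΘ0, hf0] at this
      filter_upwards [hFe, hft.eventually hGe, hft.eventually hVg', hΘt.eventually hWh', hHΘ] with u h1 h2 h3 h4 h5
      have h6 : (∀ k, gev (Gg k) (tev F u) = 0) ↔ g (f (Θ u)) = 0 := by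
        rw [h1]
        constructor
        · intro h7
          funext k
          rw [← h2 k]
          exact h7 k
        · intro h7 k
          rw [h2 k, h7]; rfl
      rw [h6, ← h3, h4]
      constructor
      · intro h7 i
        rw [← h5, hHh, h7]; rfl
      · intro h7
        funext i
        rw [← hHh, h5]
        exact h7 i
    obtain ⟨r, hr, hsurj, heq⟩ := core (γ := Fin c) (d := d) (ν := Fin n) (by simp [hcd]) F hF _ hN Gg hWW
    refine ⟨r, fun y j => gev (hr j) y, AnalyticAt.pi (fun j => gev_analyticAt (hr j)), hsurj, ?_⟩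
    rw [eventuallyEq_set]
    filter_upwards [heq, hVg', hGe] with y h1 h2 h3
    rw [h2]
    have h4 : g y = 0 ↔ ∀ k, gev (Gg k) y = 0 := by
      constructor
      · intro h5 k
        rw [h3 k, h5]; rfl
      · intro h5
        funext k
        rw [← h3 k]
        exact h5 k
    rw [h4, h1]
    constructor
    · intro h5
      show (fun j => gev (hr j) y) = 0
      funext j
      exact h5 j
    · intro h5 j
      exact congrFun h5 j
  · -- trivial case
    refine ⟨c, h, hh, hs, ?_⟩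
    have h1 : ¬ (f 0 ∈ V) := by
      rw [hWh'.self_of_nhds]; exact h0
    rw [hf0, hVg'.self_of_nhds] at h1
    rw [eventuallyEq_set]
    filter_upwards [hVg', hg.continuousAt.eventually_ne h1, hh.continuousAt.eventually_ne h0] with y h2 h3 h4
    rw [h2]
    constructor
    · intro h5; exact absurd h5 h3
    · intro h5; exact absurd h5 h4

end Pool.Agent.Helper296
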