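import Pool.Agent.Helper296.FinThm

set_option autoImplicit false
set_option linter.unusedSectionVars false
set_option linter.unusedVariables false
set_option linter.unusedSimpArgs false

namespace Pool.Agent.Helper296

open scoped ENNReal BigOperators NNReal Topology
open MvPowerSeries Filter

/-- in a Noetherian local domain in which every nonzero prime contains h, primes containing h are maximal -/
lemma prime_eq_max {D : Type*} [CommRing D] [IsDomain D] [IsNoetherianRing D] [IsLocalRing D] {h : D}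
    (h0 : h ≠ 0) (hall : ∀ P : Ideal D, P.IsPrime → P ≠ ⊥ → h ∈ P)
    (P : Ideal D) (hP : P.IsPrime) (hhP : h ∈ P) : P = IsLocalRing.maximalIdeal D := by
  classical
  by_contra hne
  set m := IsLocalRing.maximalIdeal D with hm
  have hfin : (Ideal.span {h}).minimalPrimes.Finite := Ideal.finite_minimalPrimes_of_isNoetherianRing D _
  have hnsub : ¬ ((m : Set D) ⊆ ⋃ i ∈ (hfin.toFinset : Set (Ideal D)), (i : Set D)) := by
    intro hsub
    rw [Ideal.subset_union_prime (f := fun i : Ideal D => i) ⊥ ⊥] at hsub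
    · obtain ⟨Q, hQ, hmQ⟩ := hsub
      rw [Set.Finite.mem_toFinset] at hQ
      have hQP : Q.IsPrime := hQ.1.1
      have hQm : Q ≤ m := IsLocalRing.le_maximalIdeal hQP.ne_top
      have hQeq : Q = m := le_antisymm hQm hmQ
      have hPm : P ≤ m := IsLocalRing.le_maximalIdeal hP.ne_top
      have h1 : (Ideal.span {h}) ≤ P := by rwa [Ideal.span_singleton_le_iff_mem]
      have h2 := hQ.2 ⟨hP, h1⟩ (by rw [hQeq]; exact hPm)
      rw [hQeq] at h2
      exact hne (le_antisymm hPm h2)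
    · intro i hi _ _
      rw [Set.Finite.mem_toFinset] at hi
      exact hi.1.1
  obtain ⟨u, hum, hu⟩ := Set.not_subset.mp hnsub
  have hu' : ∀ Q ∈ (Ideal.span {h}).minimalPrimes, u ∉ Q := by
    intro Q hQ huQ
    apply hu
    simp only [Set.mem_iUnion]
    exact ⟨Q, by simpa using hQ, huQ⟩
  -- minimal prime over u
  have hum' : Ideal.span {u} ≤ m := by rwa [Ideal.span_singleton_le_iff_mem]
  obtain ⟨P', hP', hP'm⟩ := Ideal.exists_minimalPrimes_le hum'
  have hP'prime : P'.IsPrime := hP'.1.1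
  have huP' : u ∈ P' := hP'.1.2 (Ideal.mem_span_singleton_self u)
  have hht : P'.height ≤ 1 := Ideal.height_le_one_of_isPrincipal_of_mem_minimalPrimes _ P' hP'
  have hu0 : u ≠ 0 := by
    rintro rfl
    obtain ⟨Q, hQ, _⟩ := Ideal.exists_minimalPrimes_le (I := Ideal.span {h}) (J := P) (by rwa [Ideal.span_singleton_le_iff_mem])
    exact hu' Q hQ Q.zero_mem
  have hP'ne : P' ≠ ⊥ := by
    rintro rfl
    exact hu0 (by simpa using huP')
  have hhP' := hall P' hP'prime hP'ne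
  obtain ⟨Q, hQ, hQP'⟩ := Ideal.exists_minimalPrimes_le (I := Ideal.span {h}) (J := P') (by rwa [Ideal.span_singleton_le_iff_mem])
  have hQprime : Q.IsPrime := hQ.1.1
  have hlt : Q < P' := lt_of_le_of_ne hQP' (fun h => hu' Q hQ (h ▸ huP'))
  have hbot : (⊥ : Ideal D) < Q := by
    rw [bot_lt_iff_ne_bot]
    rintro rfl
    exact h0 (by simpa using hQ.1.2 (Ideal.mem_span_singleton_self h))
  have hbp : (⊥ : Ideal D).IsPrime := Ideal.isPrime_bot
  have h1 : Q.height + 1 ≤ P'.height := Ideal.height_add_one_le_of_lt_of_isPrime hlt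
  have h2 : (⊥ : Ideal D).height + 1 ≤ Q.height := Ideal.height_add_one_le_of_lt_of_isPrime hbot
  have h3 : (1 : ℕ∞) + 1 ≤ 1 := by
    calc (1 : ℕ∞) + 1 ≤ ((⊥ : Ideal D).height + 1) + 1 := by gcongr; exact le_add_self
      _ ≤ Q.height + 1 := by gcongr
      _ ≤ P'.height := h1
      _ ≤ 1 := hht
  exact absurd h3 (by decide)

variable {σ : Type} [Fintype σ] [DecidableEq σ]

/-- series with finite norm -/
def Er (r : ℝ≥0∞) (hr : r ≠ ∞) : Subalgebra ℂ (Conv σ) where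
  carrier := {a | nrm (fun _ => r) (a : MvPowerSeries σ ℂ) ≠ ∞}
  mul_mem' := fun {a b} ha hb => ne_top_of_le_ne_top (ENNReal.mul_ne_top ha hb) (nrm_mul_le _ _)
  add_mem' := fun {a b} ha hb => ne_top_of_le_ne_top (ENNReal.add_ne_top.mpr ⟨ha, hb⟩) (nrm_add_le _ _)
  algebraMap_mem' c := by
    have : ((algebraMap ℂ (Conv σ) c : Conv σ) : MvPowerSeries σ ℂ) = C c := by
      rw [c_eq_algebraMap]; rfl
    show nrm _ _ ≠ ∞
    rw [this, nrm_C]; simp

variable {r : ℝ≥0∞} {hr' : r ≠ ∞}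

lemma mem_Er {a : Conv σ} : a ∈ Er r hr' ↔ nrm (fun _ => r) (a : MvPowerSeries σ ℂ) ≠ ∞ := Iff.rfl

/-- evaluation on Er -/
noncomputable def evE (z : σ → ℂ) (hz : ∀ i, ‖z i‖ₑ ≤ r) : (Er r hr' : Subalgebra ℂ (Conv σ)) →ₐ[ℂ] ℂ where
  toFun a := gev (a : Conv σ) z
  map_one' := by simp
  map_mul' a b := ev_mul (w := fun _ => r) hz a.2 b.2
  map_zero' := by simp
  map_add' a b := ev_add (w := fun _ => r) hz a.2 b.2
  commutes' c := by
    show gev (algebraMap ℂ (Conv σ) c) z = c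
    simp

lemma evE_apply (z : σ → ℂ) (hz : ∀ i, ‖z i‖ₑ ≤ r) (a : (Er r hr' : Subalgebra ℂ (Conv σ))) :
    evE z hz a = gev (a : Conv σ) z := rfl

lemma cX_mem_Er (i : σ) : cX i ∈ (Er r hr' : Subalgebra ℂ (Conv σ)) := by
  rw [mem_Er]
  show nrm _ (X i) ≠ ∞
  rw [nrm_X]
  exact hr'

/-- invertibility in Er -/
lemma isUnit_one_sub (hr0 : r ≠ 0) (a : (Er r hr' : Subalgebra ℂ (Conv σ)))
    (ha : nrm (fun _ => r) ((a : Conv σ) : MvPowerSeries σ ℂ) < 1) : IsUnit (1 - a) := by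
  classical
  obtain ⟨q, R, hq, hR, hR0, heq⟩ := div_thm (ι := Unit) (β := fun _ => (0 : σ →₀ ℕ)) (sel := fun _ => some ())
      (w := fun _ => r) (fun _ => hr0) (fun _ => hr') (fun α j _ => zero_le) (fun _ => ((a : Conv σ) : MvPowerSeries σ ℂ))
      (nrm (fun _ => r) ((a : Conv σ) : MvPowerSeries σ ℂ)) ha (fun _ => by simp) 1 (by rw [nrm_one]; simp)
  have hR00 : R = 0 := by
    ext α
    rw [hR0 α (by simp), coeff_zero]
  rw [hR00, add_zero] at heq
  have hqc : IsConv (q ()) := ⟨r, hr0, hr', hq ()⟩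
  set Q : (Er r hr' : Subalgebra ℂ (Conv σ)) := ⟨⟨q (), hqc⟩, hq ()⟩
  have : (1 - a) * Q = 1 := by
    apply Subtype.ext
    apply Subtype.ext
    rw [mul_comm]
    show q () * (1 - ((a : Conv σ) : MvPowerSeries σ ℂ)) = 1
    have h6 := heq.symm
    rw [monomial_zero_one, Finset.univ_unique, Finset.sum_singleton] at h6
    exact h6
  exact IsUnit.of_mul_eq_one _ this

/-- truncation -/
noncomputable def trF (a : MvPowerSeries σ ℂ) (F : Finset (σ →₀ ℕ)) : MvPowerSeries σ ℂ :=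
  ∑ α ∈ F, monomial α (coeff α a)

lemma coeff_trF (a : MvPowerSeries σ ℂ) (F : Finset (σ →₀ ℕ)) (β : σ →₀ ℕ) [Decidable (β ∈ F)] :
    coeff β (trF a F) = if β ∈ F then coeff β a else 0 := by
  classical
  unfold trF
  rw [map_sum]
  by_cases h : β ∈ F
  · rw [Finset.sum_eq_single β]
    · simp [h]
    · intro b _ hb
      rw [coeff_monomial_ne (Ne.symm hb)]
    · intro h'; exact absurd h h'
  · rw [if_neg h]
    apply Finset.sum_eq_zero
    intro b hb
    rw [coeff_monomial_ne]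
    rintro rfl
    exact h hb

lemma tendsto_nrm_trF {a : MvPowerSeries σ ℂ} {w : σ → ℝ≥0∞} (ha : nrm w a ≠ ∞) :
    Tendsto (fun F : Finset (σ →₀ ℕ) => nrm w (a - trF a F)) atTop (𝓝 0) := by
  classical
  have h := ENNReal.tendsto_tsum_compl_atTop_zero ha
  refine h.congr (fun F => ?_)
  unfold nrm
  refine (tsum_subtype (f := fun α : σ →₀ ℕ => ‖coeff α a‖ₑ * mono w α) (s := {x | x ∉ F})).trans ?_
  congr 1
  ext α
  rw [map_sub, coeff_trF, Set.indicator_apply]
  by_cases h : α ∈ F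
  · simp [h]
  · simp [h]

lemma monomial_eq_prod (α : σ →₀ ℕ) (c : ℂ) :
    (⟨monomial α c, isConv_monomial α c⟩ : Conv σ) = algebraMap ℂ _ c * ∏ i, cX i ^ α i := by
  apply gev_ext
  have e4 : ∀ᶠ z in 𝓝 (0 : σ → ℂ), ∀ i, gev (cX i ^ (α i : ℕ)) z = gev (cX i) z ^ (α i : ℕ) :=
    eventually_all.mpr (fun i => gev_pow _ _)
  filter_upwards [gev_mul (algebraMap ℂ (Conv σ) c) (∏ i, cX i ^ α i), gev_prod Finset.univ (fun i : σ => (cX i : Conv σ) ^ α i), e4] with z h1 h2 h3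
  rw [h1, h2, gev_algebraMap]
  show ev (monomial α c) z = _
  rw [ev_monomial]
  unfold mono
  simp only [h3, gev_cX]

/-- characters of Er are evaluations -/
lemma char_eval (hr0 : r ≠ 0) (χ : (Er r hr' : Subalgebra ℂ (Conv σ)) →ₐ[ℂ] ℂ) :
    (∀ i, ‖χ ⟨cX i, cX_mem_Er i⟩‖ₑ ≤ r) ∧ ∀ a, χ a = gev (a : Conv σ) (fun i => χ ⟨cX i, cX_mem_Er i⟩) := by
  classical
  have hbound : ∀ a, ‖χ a‖ₑ ≤ nrm (fun _ => r) ((a : Conv σ) : MvPowerSeries σ ℂ) := by
    intro a
    by_contra hlt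
    push Not at hlt
    have hχ0 : χ a ≠ 0 := by
      intro h
      rw [h, enorm_zero] at hlt
      exact not_lt_bot hlt
    set b : (Er r hr' : Subalgebra ℂ (Conv σ)) := (χ a)⁻¹ • a with hb
    have hbn : nrm (fun _ => r) ((b : Conv σ) : MvPowerSeries σ ℂ) < 1 := by
      show nrm (fun _ => r) ((χ a)⁻¹ • ((a : Conv σ) : MvPowerSeries σ ℂ)) < 1
      rw [nrm_smul, enorm_inv hχ0, mul_comm, ← div_eq_mul_inv]
      rw [ENNReal.div_lt_iff (Or.inl (by simpa using hχ0)) (Or.inl (by simp)), one_mul]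
      exact hlt
    have hu := (isUnit_one_sub hr0 b hbn).map χ
    rw [map_sub χ 1 b, map_one, hb, map_smul, smul_eq_mul, inv_mul_cancel₀ hχ0, sub_self] at hu
    exact not_isUnit_zero hu
  have hz : ∀ i, ‖χ ⟨cX i, cX_mem_Er i⟩‖ₑ ≤ r := by
    intro i
    refine (hbound _).trans ?_
    show nrm _ (X i) ≤ r
    rw [nrm_X]
  refine ⟨hz, ?_⟩
  intro a
  set ζ : σ → ℂ := fun i => χ ⟨cX i, cX_mem_Er i⟩ with hζ
  -- truncations
  have hmonmem : ∀ (α : σ →₀ ℕ) (c : ℂ), (⟨monomial α c, isConv_monomial α c⟩ : Conv σ) ∈ (Er r hr' : Subalgebra ℂ (Conv σ)) := by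
    intro α c
    rw [mem_Er]
    show nrm _ (monomial α c) ≠ ∞
    rw [nrm_monomial]
    exact ENNReal.mul_ne_top (by simp) (mono_ne_top (fun _ => hr') α)
  have hmon : ∀ (α : σ →₀ ℕ) (c : ℂ), χ ⟨⟨monomial α c, isConv_monomial α c⟩, hmonmem α c⟩ = c * mono ζ α := by
    intro α c
    have : (⟨⟨monomial α c, isConv_monomial α c⟩, hmonmem α c⟩ : (Er r hr' : Subalgebra ℂ (Conv σ))) =
      algebraMap ℂ _ c * ∏ i, (⟨cX i, cX_mem_Er i⟩ : (Er r hr' : Subalgebra ℂ (Conv σ))) ^ α i := by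
      apply Subtype.ext
      push_cast
      exact monomial_eq_prod α c
    rw [this, map_mul, map_prod]
    simp only [map_pow, AlgHom.commutes]
    rfl
  have key : ∀ F : Finset (σ →₀ ℕ), ‖χ a - gev (a : Conv σ) ζ‖ₑ ≤
      2 * nrm (fun _ => r) (((a : Conv σ) : MvPowerSeries σ ℂ) - trF ((a : Conv σ) : MvPowerSeries σ ℂ) F) := by
    intro F
    set aF : (Er r hr' : Subalgebra ℂ (Conv σ)) := ∑ α ∈ F, ⟨⟨monomial α (coeff α ((a : Conv σ) : MvPowerSeries σ ℂ)), isConv_monomial α _⟩, hmonmem α _⟩ with haF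
    have haF' : ((aF : Conv σ) : MvPowerSeries σ ℂ) = trF ((a : Conv σ) : MvPowerSeries σ ℂ) F := by
      rw [haF]
      push_cast
      rfl
    have h1 : χ aF = gev (aF : Conv σ) ζ := by
      have h2 : gev (aF : Conv σ) ζ = evE (hr' := hr') ζ hz aF := rfl
      rw [h2, haF, map_sum, map_sum]
      apply Finset.sum_congr rfl
      intro α _
      rw [hmon, evE_apply]
      show _ = ev (monomial α _) ζ
      rw [ev_monomial]
    have h3 : χ a - gev (a : Conv σ) ζ = χ (a - aF) - evE (hr' := hr') ζ hz (a - aF) := by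
      rw [map_sub χ a aF, map_sub (evE (hr' := hr') ζ hz) a aF, h1, evE_apply, evE_apply]
      ring
    rw [h3]
    have h4 : ((((a - aF : (Er r hr' : Subalgebra ℂ (Conv σ))) : Conv σ)) : MvPowerSeries σ ℂ) =
      ((a : Conv σ) : MvPowerSeries σ ℂ) - trF ((a : Conv σ) : MvPowerSeries σ ℂ) F := by
      rw [← haF']; rfl
    calc ‖χ (a - aF) - evE (hr' := hr') ζ hz (a - aF)‖ₑ ≤ ‖χ (a - aF)‖ₑ + ‖evE (hr' := hr') ζ hz (a - aF)‖ₑ := enorm_sub_le
      _ ≤ nrm (fun _ => r) (((a : Conv σ) : MvPowerSeries σ ℂ) - trF ((a : Conv σ) : MvPowerSeries σ ℂ) F) +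
          nrm (fun _ => r) (((a : Conv σ) : MvPowerSeries σ ℂ) - trF ((a : Conv σ) : MvPowerSeries σ ℂ) F) := by
          gcongr
          · rw [← h4]; exact hbound _
          · rw [← h4]
            exact enorm_ev_le _ hz
      _ = _ := by ring
  have hlim : Tendsto (fun F : Finset (σ →₀ ℕ) => 2 * nrm (fun _ => r) (((a : Conv σ) : MvPowerSeries σ ℂ) - trF ((a : Conv σ) : MvPowerSeries σ ℂ) F))
      atTop (𝓝 (2 * 0)) := by
    apply ENNReal.Tendsto.const_mul (tendsto_nrm_trF a.2)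
    right; simp
  rw [mul_zero] at hlim
  have h5 : ‖χ a - gev (a : Conv σ) ζ‖ₑ ≤ 0 := ge_of_tendsto' hlim key
  have h6 : χ a - gev (a : Conv σ) ζ = 0 := by simpa using h5
  exact sub_eq_zero.mp h6

end Pool.Agent.Helper296
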