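import Mathlib

set_option autoImplicit false
set_option linter.unusedSectionVars false
set_option linter.unusedVariables false
set_option linter.unusedSimpArgs false

namespace Pool.Agent.Helper296

open scoped ENNReal BigOperators
open MvPowerSeries

variable {σ : Type*} [Fintype σ]

/-- value of a monomial exponent -/
def mono {M : Type*} [CommMonoid M] (w : σ → M) (α : σ →₀ ℕ) : M := ∏ i, w i ^ α i

lemma mono_add {M : Type*} [CommMonoid M] (w : σ → M) (α β : σ →₀ ℕ) :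
    mono w (α + β) = mono w α * mono w β := by
  simp [mono, pow_add, Finset.prod_mul_distrib]

@[simp] lemma mono_zero {M : Type*} [CommMonoid M] (w : σ → M) : mono w (0 : σ →₀ ℕ) = 1 := by
  simp [mono]

lemma mono_single {M : Type*} [CommMonoid M] (w : σ → M) (i : σ) (n : ℕ) :
    mono w (Finsupp.single i n) = w i ^ n := by
  classical
  rw [mono, Finset.prod_eq_single i]
  · simp
  · intro b _ hb
    simp [Finsupp.single_apply, Ne.symm hb]
  · simp

lemma mono_ne_zero {w : σ → ℝ≥0∞} (hw : ∀ i, w i ≠ 0) (α : σ →₀ ℕ) : mono w α ≠ 0 := by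
  rw [mono, Finset.prod_ne_zero_iff]
  intro i _
  exact pow_ne_zero _ (hw i)

lemma mono_ne_top {w : σ → ℝ≥0∞} (hw : ∀ i, w i ≠ ∞) (α : σ →₀ ℕ) : mono w α ≠ ∞ := by
  rw [mono]
  exact ENNReal.prod_ne_top (fun i _ => ENNReal.pow_ne_top (hw i))

lemma mono_le_mono {w w' : σ → ℝ≥0∞} (h : ∀ i, w i ≤ w' i) (α : σ →₀ ℕ) :
    mono w α ≤ mono w' α :=
  Finset.prod_le_prod' (fun i _ => pow_le_pow_left' (h i) _)

/-- weighted l1 norm -/
noncomputable def nrm (w : σ → ℝ≥0∞) (a : MvPowerSeries σ ℂ) : ℝ≥0∞ :=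
  ∑' α : σ →₀ ℕ, ‖coeff α a‖ₑ * mono w α

variable {w w' : σ → ℝ≥0∞}

lemma le_nrm (a : MvPowerSeries σ ℂ) (α : σ →₀ ℕ) : ‖coeff α a‖ₑ * mono w α ≤ nrm w a :=
  ENNReal.le_tsum (f := fun α : σ →₀ ℕ => ‖coeff α a‖ₑ * mono w α) α

@[simp] lemma nrm_zero : nrm w (0 : MvPowerSeries σ ℂ) = 0 := by simp [nrm]

lemma nrm_add_le (a b : MvPowerSeries σ ℂ) : nrm w (a + b) ≤ nrm w a + nrm w b := by
  unfold nrm
  rw [← ENNReal.tsum_add]
  apply ENNReal.tsum_le_tsum
  intro α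
  rw [← add_mul, map_add]
  gcongr
  exact enorm_add_le _ _

lemma nrm_neg (a : MvPowerSeries σ ℂ) : nrm w (-a) = nrm w a := by
  simp [nrm]

lemma nrm_sub_le (a b : MvPowerSeries σ ℂ) : nrm w (a - b) ≤ nrm w a + nrm w b := by
  rw [sub_eq_add_neg]
  refine (nrm_add_le _ _).trans ?_
  rw [nrm_neg]

lemma nrm_sum_le {ι : Type*} (s : Finset ι) (f : ι → MvPowerSeries σ ℂ) :
    nrm w (∑ i ∈ s, f i) ≤ ∑ i ∈ s, nrm w (f i) := by
  classical
  induction s using Finset.induction_on with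
  | empty => simp
  | insert a s ha ih =>
    rw [Finset.sum_insert ha, Finset.sum_insert ha]
    exact (nrm_add_le _ _).trans (by gcongr)

lemma nrm_smul (c : ℂ) (a : MvPowerSeries σ ℂ) : nrm w (c • a) = ‖c‖ₑ * nrm w a := by
  unfold nrm
  rw [← ENNReal.tsum_mul_left]
  congr 1
  ext α
  rw [coeff_smul, enorm_mul, mul_assoc]

lemma nrm_mono (h : ∀ i, w i ≤ w' i) (a : MvPowerSeries σ ℂ) : nrm w a ≤ nrm w' a := by
  apply ENNReal.tsum_le_tsum
  intro α
  gcongr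
  exact mono_le_mono h α

lemma nrm_monomial (α : σ →₀ ℕ) (c : ℂ) : nrm w (monomial α c) = ‖c‖ₑ * mono w α := by
  classical
  unfold nrm
  rw [tsum_eq_single α]
  · simp [coeff_monomial_same]
  · intro β hβ
    rw [coeff_monomial_ne hβ]
    simp

lemma nrm_X (i : σ) : nrm w (X i : MvPowerSeries σ ℂ) = w i := by
  rw [X_def, nrm_monomial, mono_single]; simp

lemma nrm_C (c : ℂ) : nrm w (C c : MvPowerSeries σ ℂ) = ‖c‖ₑ := by
  rw [← monomial_zero_eq_C_apply, nrm_monomial]; simp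

lemma nrm_one : nrm w (1 : MvPowerSeries σ ℂ) = 1 := by
  rw [← map_one C, nrm_C]; simp

lemma nrm_mul_le (a b : MvPowerSeries σ ℂ) : nrm w (a * b) ≤ nrm w a * nrm w b := by
  classical
  unfold nrm
  have h1 : ∀ α : σ →₀ ℕ, ‖coeff α (a * b)‖ₑ * mono w α ≤
      ∑ p ∈ Finset.HasAntidiagonal.antidiagonal α, (‖coeff p.1 a‖ₑ * mono w p.1) * (‖coeff p.2 b‖ₑ * mono w p.2) := by
    intro α
    rw [coeff_mul]
    calc ‖∑ p ∈ Finset.HasAntidiagonal.antidiagonal α, coeff p.1 a * coeff p.2 b‖ₑ * mono w α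
        ≤ (∑ p ∈ Finset.HasAntidiagonal.antidiagonal α, ‖coeff p.1 a * coeff p.2 b‖ₑ) * mono w α := by
          gcongr; exact enorm_sum_le _ _
      _ = ∑ p ∈ Finset.HasAntidiagonal.antidiagonal α, (‖coeff p.1 a‖ₑ * mono w p.1) * (‖coeff p.2 b‖ₑ * mono w p.2) := by
          rw [Finset.sum_mul]
          apply Finset.sum_congr rfl
          intro p hp
          rw [Finset.HasAntidiagonal.mem_antidiagonal] at hp
          rw [← hp, mono_add, enorm_mul]
          ring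
  refine (ENNReal.tsum_le_tsum h1).trans ?_
  set F : (σ →₀ ℕ) × (σ →₀ ℕ) → ℝ≥0∞ :=
    fun p => (‖coeff p.1 a‖ₑ * mono w p.1) * (‖coeff p.2 b‖ₑ * mono w p.2) with hF
  have h2 : ∑' α : σ →₀ ℕ, ∑ p ∈ Finset.HasAntidiagonal.antidiagonal α, F p = ∑' p, F p := by
    rw [← (Finset.HasAntidiagonal.sigmaAntidiagonalEquivProd (A := σ →₀ ℕ)).tsum_eq F,
      ENNReal.tsum_sigma']
    congr 1
    ext α
    rw [tsum_fintype]
    exact (Finset.sum_coe_sort (Finset.HasAntidiagonal.antidiagonal α) F).symm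
  rw [h2, ENNReal.tsum_prod', ← ENNReal.tsum_mul_right]
  apply le_of_eq
  congr 1
  ext α
  simp only [hF]
  rw [ENNReal.tsum_mul_left]

lemma nrm_pow_le (a : MvPowerSeries σ ℂ) (n : ℕ) : nrm w (a ^ n) ≤ nrm w a ^ n := by
  induction n with
  | zero => simp [nrm_one]
  | succ n ih =>
    rw [pow_succ, pow_succ]
    exact (nrm_mul_le _ _).trans (by gcongr)

end Pool.Agent.Helper296
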