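import Pool.Agent.Helper296.Ev

set_option autoImplicit false
set_option linter.unusedSectionVars false
set_option linter.unusedVariables false
set_option linter.unusedSimpArgs false

namespace Pool.Agent.Helper296

open scoped ENNReal BigOperators NNReal Topology
open MvPowerSeries Filter

variable {σ τ : Type} [Fintype σ] [Fintype τ]

/-- evaluate germ -/
noncomputable def gev (a : Conv σ) (z : σ → ℂ) : ℂ := ev (a : MvPowerSeries σ ℂ) z

lemma gev_analyticAt (a : Conv σ) : AnalyticAt ℂ (gev a) 0 := analyticAt_ev a.2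

lemma eventually_small (r : ℝ≥0∞) (hr : r ≠ 0) : ∀ᶠ z in 𝓝 (0 : σ → ℂ), ∀ i, ‖z i‖ₑ ≤ r := by
  have hball : ∀ᶠ z in 𝓝 (0 : σ → ℂ), z ∈ Metric.eball (0 : σ → ℂ) r :=
    Metric.eball_mem_nhds _ (pos_iff_ne_zero.mpr hr)
  filter_upwards [hball] with z hz i
  have h1 : ‖z‖ₑ < r := by rwa [Metric.mem_eball, edist_zero_right] at hz
  refine le_trans ?_ h1.le
  rw [← ofReal_norm, ← ofReal_norm]
  exact ENNReal.ofReal_le_ofReal (norm_le_pi_norm _ _)

lemma gev_add (a b : Conv σ) : ∀ᶠ z in 𝓝 (0 : σ → ℂ), gev (a + b) z = gev a z + gev b z := by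
  classical
  obtain ⟨r, hr, hr', _, h⟩ := exists_common_radius (Finset.univ : Finset Bool)
    (fun i => if i then (a : MvPowerSeries σ ℂ) else b) (by
      intro i _; cases i
      · exact b.2
      · exact a.2) 1 one_ne_zero
  have ha : nrm (fun _ => r) (a : MvPowerSeries σ ℂ) ≠ ∞ := by simpa using h true (Finset.mem_univ _)
  have hb : nrm (fun _ => r) (b : MvPowerSeries σ ℂ) ≠ ∞ := by simpa using h false (Finset.mem_univ _)
  filter_upwards [eventually_small r hr] with z hz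
  exact ev_add hz ha hb

lemma gev_mul (a b : Conv σ) : ∀ᶠ z in 𝓝 (0 : σ → ℂ), gev (a * b) z = gev a z * gev b z := by
  classical
  obtain ⟨r, hr, hr', _, h⟩ := exists_common_radius (Finset.univ : Finset Bool)
    (fun i => if i then (a : MvPowerSeries σ ℂ) else b) (by
      intro i _; cases i
      · exact b.2
      · exact a.2) 1 one_ne_zero
  have ha : nrm (fun _ => r) (a : MvPowerSeries σ ℂ) ≠ ∞ := by simpa using h true (Finset.mem_univ _)
  have hb : nrm (fun _ => r) (b : MvPowerSeries σ ℂ) ≠ ∞ := by simpa using h false (Finset.mem_univ _)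
  filter_upwards [eventually_small r hr] with z hz
  exact ev_mul hz ha hb

@[simp] lemma gev_zero (z : σ → ℂ) : gev (0 : Conv σ) z = 0 := ev_zero z
@[simp] lemma gev_one (z : σ → ℂ) : gev (1 : Conv σ) z = 1 := ev_one z
lemma gev_neg (a : Conv σ) (z : σ → ℂ) : gev (-a) z = - gev a z := ev_neg _ z

@[simp] lemma gev_algebraMap (c : ℂ) (z : σ → ℂ) : gev (algebraMap ℂ (Conv σ) c) z = c := by
  have : ((algebraMap ℂ (Conv σ) c : Conv σ) : MvPowerSeries σ ℂ) = C c := by
    rw [c_eq_algebraMap]; rfl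
  unfold gev
  rw [this, ev_C]

lemma gev_sub (a b : Conv σ) : ∀ᶠ z in 𝓝 (0 : σ → ℂ), gev (a - b) z = gev a z - gev b z := by
  filter_upwards [gev_add a (-b)] with z hz
  rw [sub_eq_add_neg, hz, gev_neg, sub_eq_add_neg]

lemma gev_ext {a b : Conv σ} (h : ∀ᶠ z in 𝓝 (0 : σ → ℂ), gev a z = gev b z) : a = b := by
  have h1 : ∀ᶠ z in 𝓝 (0 : σ → ℂ), gev (a - b) z = 0 := by
    filter_upwards [h, gev_sub a b] with z h1 h2
    rw [h2, h1, sub_self]
  have h2 : ((a - b : Conv σ) : MvPowerSeries σ ℂ) = 0 := eq_zero_of_ev_eventually_zero (a - b).2 h1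
  have h3 : a - b = 0 := Subtype.ext h2
  exact sub_eq_zero.mp h3

lemma gev_sum {ι : Type*} (s : Finset ι) (f : ι → Conv σ) :
    ∀ᶠ z in 𝓝 (0 : σ → ℂ), gev (∑ i ∈ s, f i) z = ∑ i ∈ s, gev (f i) z := by
  classical
  induction s using Finset.induction_on with
  | empty => simp
  | insert a s ha ih =>
    filter_upwards [ih, gev_add (f a) (∑ i ∈ s, f i)] with z h1 h2
    rw [Finset.sum_insert ha, Finset.sum_insert ha, h2, h1]

lemma gev_prod {ι : Type*} (s : Finset ι) (f : ι → Conv σ) :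
    ∀ᶠ z in 𝓝 (0 : σ → ℂ), gev (∏ i ∈ s, f i) z = ∏ i ∈ s, gev (f i) z := by
  classical
  induction s using Finset.induction_on with
  | empty => simp
  | insert a s ha ih =>
    filter_upwards [ih, gev_mul (f a) (∏ i ∈ s, f i)] with z h1 h2
    rw [Finset.prod_insert ha, Finset.prod_insert ha, h2, h1]

lemma gev_pow (a : Conv σ) (n : ℕ) :
    ∀ᶠ z in 𝓝 (0 : σ → ℂ), gev (a ^ n) z = gev a z ^ n := by
  induction n with
  | zero => simp
  | succ n ih =>
    filter_upwards [ih, gev_mul (a ^ n) a] with z h1 h2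
    rw [pow_succ, h2, h1, pow_succ]

/-- germ of an analytic function -/
noncomputable def mk (f : (σ → ℂ) → ℂ) (hf : AnalyticAt ℂ f 0) : Conv σ :=
  ⟨(exists_conv_of_analyticAt hf).choose, (exists_conv_of_analyticAt hf).choose_spec.1⟩

lemma gev_mk (f : (σ → ℂ) → ℂ) (hf : AnalyticAt ℂ f 0) :
    ∀ᶠ z in 𝓝 (0 : σ → ℂ), gev (mk f hf) z = f z :=
  (exists_conv_of_analyticAt hf).choose_spec.2

lemma mk_eq_iff {f : (σ → ℂ) → ℂ} {hf : AnalyticAt ℂ f 0} {a : Conv σ} :
    mk f hf = a ↔ ∀ᶠ z in 𝓝 (0 : σ → ℂ), f z = gev a z := by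
  constructor
  · rintro rfl
    filter_upwards [gev_mk f hf] with z hz
    exact hz.symm
  · intro h
    apply gev_ext
    filter_upwards [gev_mk f hf, h] with z h1 h2
    rw [h1, h2]

/-- value at zero, as an algebra homomorphism -/
noncomputable def at0 : Conv σ →ₐ[ℂ] ℂ where
  toFun a := constantCoeff (a : MvPowerSeries σ ℂ)
  map_one' := by simp
  map_mul' a b := by simp
  map_zero' := by simp
  map_add' a b := by simp
  commutes' c := by
    have : ((algebraMap ℂ (Conv σ) c : Conv σ) : MvPowerSeries σ ℂ) = C c := by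
      rw [c_eq_algebraMap]; rfl
    rw [this]; simp

lemma gev_at_zero (a : Conv σ) : gev a 0 = at0 a := ev_at_zero _

lemma isUnit_iff (a : Conv σ) : IsUnit a ↔ at0 a ≠ 0 := by
  constructor
  · intro h
    exact (h.map at0).ne_zero
  · intro h
    have h0 : gev a 0 ≠ 0 := by rwa [gev_at_zero]
    set b : Conv σ := mk (fun z => (gev a z)⁻¹) ((gev_analyticAt a).inv h0) with hb
    refine IsUnit.of_mul_eq_one b (gev_ext ?_)
    have h1 : ∀ᶠ z in 𝓝 (0 : σ → ℂ), gev a z ≠ 0 := (gev_analyticAt a).continuousAt.eventually_ne h0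
    filter_upwards [gev_mul a b, gev_mk (fun z => (gev a z)⁻¹) ((gev_analyticAt a).inv h0), h1] with z h2 h3 h4
    rw [h2, hb, h3, gev_one, mul_inv_cancel₀ h4]

instance instNontrivialConv : Nontrivial (Conv σ) := by
  refine ⟨⟨0, 1, ?_⟩⟩
  intro h
  have := congrArg at0 h
  simp at this

instance instLocalConv : IsLocalRing (Conv σ) := by
  apply IsLocalRing.of_nonunits_add
  intro a b ha hb
  rw [mem_nonunits_iff, isUnit_iff, not_not] at *
  rw [map_add, ha, hb, add_zero]

lemma mem_maximalIdeal_iff (a : Conv σ) : a ∈ IsLocalRing.maximalIdeal (Conv σ) ↔ at0 a = 0 := by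
  rw [IsLocalRing.mem_maximalIdeal, mem_nonunits_iff, isUnit_iff, not_not]

instance instDomainConv : IsDomain (Conv σ) := by
  have : IsDomain (MvPowerSeries σ ℂ) := NoZeroDivisors.to_isDomain _
  infer_instance

/-- coordinate germ -/
noncomputable def cX (i : σ) : Conv σ := ⟨X i, by
  rw [X_def]; exact isConv_monomial _ _⟩

@[simp] lemma gev_cX (i : σ) (z : σ → ℂ) : gev (cX i) z = z i := ev_X i z

@[simp] lemma at0_cX (i : σ) : at0 (cX i : Conv σ) = 0 := by
  rw [← gev_at_zero]; simp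

/-- tuple evaluation -/
noncomputable def tev (t : σ → Conv τ) (z : τ → ℂ) : σ → ℂ := fun i => gev (t i) z

lemma tev_analyticAt (t : σ → Conv τ) : AnalyticAt ℂ (tev t) 0 :=
  AnalyticAt.pi (fun i => gev_analyticAt (t i))

lemma tev_zero (t : σ → Conv τ) (ht : ∀ i, at0 (t i) = 0) : tev t 0 = 0 := by
  ext i
  simp [tev, gev_at_zero, ht i]

lemma tendsto_tev (t : σ → Conv τ) (ht : ∀ i, at0 (t i) = 0) :
    Tendsto (tev t) (𝓝 0) (𝓝 0) := by
  have := (tev_analyticAt t).continuousAt.tendsto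
  rwa [tev_zero t ht] at this

lemma subst_analyticAt (t : σ → Conv τ) (ht : ∀ i, at0 (t i) = 0) (a : Conv σ) :
    AnalyticAt ℂ (fun z => gev a (tev t z)) 0 := by
  apply AnalyticAt.fun_comp (g := gev a) (f := tev t) _ (tev_analyticAt t)
  rw [tev_zero t ht]
  exact gev_analyticAt a

/-- substitution of germs vanishing at the origin -/
noncomputable def sub (t : σ → Conv τ) (ht : ∀ i, at0 (t i) = 0) : Conv σ →ₐ[ℂ] Conv τ where
  toFun a := mk (fun z => gev a (tev t z)) (subst_analyticAt t ht a)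
  map_one' := by
    rw [mk_eq_iff]; simp
  map_mul' a b := by
    rw [mk_eq_iff]
    filter_upwards [gev_mul (mk _ (subst_analyticAt t ht a)) (mk _ (subst_analyticAt t ht b)),
      gev_mk _ (subst_analyticAt t ht a), gev_mk _ (subst_analyticAt t ht b),
      (tendsto_tev t ht).eventually (gev_mul a b)] with z h1 h2 h3 h4
    rw [h1, h2, h3, h4]
  map_zero' := by
    rw [mk_eq_iff]; simp
  map_add' a b := by
    rw [mk_eq_iff]
    filter_upwards [gev_add (mk _ (subst_analyticAt t ht a)) (mk _ (subst_analyticAt t ht b)),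
      gev_mk _ (subst_analyticAt t ht a), gev_mk _ (subst_analyticAt t ht b),
      (tendsto_tev t ht).eventually (gev_add a b)] with z h1 h2 h3 h4
    rw [h1, h2, h3, h4]
  commutes' c := by
    rw [mk_eq_iff]; simp

lemma gev_sub' (t : σ → Conv τ) (ht : ∀ i, at0 (t i) = 0) (a : Conv σ) :
    ∀ᶠ z in 𝓝 (0 : τ → ℂ), gev (sub t ht a) z = gev a (tev t z) :=
  gev_mk _ (subst_analyticAt t ht a)

lemma sub_cX (t : σ → Conv τ) (ht : ∀ i, at0 (t i) = 0) (i : σ) : sub t ht (cX i) = t i := by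
  apply gev_ext
  filter_upwards [gev_sub' t ht (cX i)] with z hz
  rw [hz, gev_cX]; rfl

lemma at0_sub (t : σ → Conv τ) (ht : ∀ i, at0 (t i) = 0) (a : Conv σ) : at0 (sub t ht a) = at0 a := by
  have h := (gev_sub' t ht a).self_of_nhds
  rwa [gev_at_zero, tev_zero t ht, gev_at_zero] at h

/-- partial derivative germs -/
lemma pd_analyticAt (i : σ) [DecidableEq σ] (a : Conv σ) :
    AnalyticAt ℂ (fun z => fderiv ℂ (gev a) z (Pi.single i 1)) 0 := by
  have h := (gev_analyticAt a).fderiv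
  exact ((ContinuousLinearMap.apply ℂ ℂ (Pi.single i (1:ℂ) : σ → ℂ)).analyticAt _).comp h

lemma eventually_differentiableAt (a : Conv σ) : ∀ᶠ z in 𝓝 (0 : σ → ℂ), DifferentiableAt ℂ (gev a) z := by
  filter_upwards [(gev_analyticAt a).eventually_analyticAt] with z hz
  exact hz.differentiableAt

variable [DecidableEq σ] [DecidableEq τ]

noncomputable def pdFun (i : σ) (a : Conv σ) : Conv σ := mk _ (pd_analyticAt i a)

lemma gev_pdFun (i : σ) (a : Conv σ) :
    ∀ᶠ z in 𝓝 (0 : σ → ℂ), gev (pdFun i a) z = fderiv ℂ (gev a) z (Pi.single i 1) :=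
  gev_mk _ (pd_analyticAt i a)

lemma fderiv_congr {f g : (σ → ℂ) → ℂ} (h : ∀ᶠ z in 𝓝 (0 : σ → ℂ), f z = g z) :
    ∀ᶠ z in 𝓝 (0 : σ → ℂ), fderiv ℂ f z = fderiv ℂ g z := by
  filter_upwards [h.eventually_nhds] with z hz
  exact Filter.EventuallyEq.fderiv_eq hz

lemma pdFun_add (i : σ) (a b : Conv σ) : pdFun i (a + b) = pdFun i a + pdFun i b := by
  apply gev_ext
  filter_upwards [gev_pdFun i (a+b), gev_pdFun i a, gev_pdFun i b, gev_add (pdFun i a) (pdFun i b),
    fderiv_congr (gev_add a b), eventually_differentiableAt a, eventually_differentiableAt b]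
    with z h1 h2 h3 h4 h5 h6 h7
  rw [h1, h4, h2, h3, h5]
  rw [fderiv_fun_add h6 h7]
  rfl

lemma pdFun_mul (i : σ) (a b : Conv σ) : pdFun i (a * b) = a * pdFun i b + b * pdFun i a := by
  apply gev_ext
  filter_upwards [gev_pdFun i (a*b), gev_pdFun i a, gev_pdFun i b, gev_add (a * pdFun i b) (b * pdFun i a),
    fderiv_congr (gev_mul a b), eventually_differentiableAt a, eventually_differentiableAt b,
    gev_mul a (pdFun i b), gev_mul b (pdFun i a)]
    with z h1 h2 h3 h4 h5 h6 h7 h8 h9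
  rw [h1, h4, h8, h9, h2, h3, h5]
  rw [fderiv_fun_mul h6 h7]
  simp

lemma pdFun_algebraMap (i : σ) (c : ℂ) : pdFun i (algebraMap ℂ (Conv σ) c) = 0 := by
  apply gev_ext
  have h : gev (algebraMap ℂ (Conv σ) c) = fun _ => c := by ext z; simp
  filter_upwards [gev_pdFun i (algebraMap ℂ (Conv σ) c)] with z h1
  rw [h1, h]
  simp

/-- partial derivative as a derivation -/
noncomputable def pd (i : σ) : Derivation ℂ (Conv σ) (Conv σ) :=
  Derivation.mk' {
    toFun := pdFun i
    map_add' := pdFun_add i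
    map_smul' := by
      intro c a
      simp only [RingHom.id_apply]
      rw [Algebra.smul_def, pdFun_mul, pdFun_algebraMap, mul_zero, add_zero, Algebra.smul_def] }
    (by
      intro a b
      simp only [LinearMap.coe_mk, AddHom.coe_mk, smul_eq_mul]
      exact pdFun_mul i a b)

lemma pd_apply (i : σ) (a : Conv σ) : pd i a = pdFun i a := rfl

lemma gev_pd (i : σ) (a : Conv σ) :
    ∀ᶠ z in 𝓝 (0 : σ → ℂ), gev (pd i a) z = fderiv ℂ (gev a) z (Pi.single i 1) := gev_pdFun i a

lemma pd_cX (i j : σ) : pd i (cX j) = if i = j then 1 else 0 := by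
  apply gev_ext
  have h : gev (cX j : Conv σ) = fun z => z j := by ext z; simp
  filter_upwards [gev_pd i (cX j)] with z h1
  rw [h1, h]
  have h2 : fderiv ℂ (fun z : σ → ℂ => z j) z = ContinuousLinearMap.proj j :=
    (ContinuousLinearMap.proj (R := ℂ) (φ := fun _ : σ => ℂ) j).fderiv
  rw [h2]
  simp only [ContinuousLinearMap.proj_apply]
  split_ifs with hij
  · subst hij; simp
  · simp [Pi.single_apply, Ne.symm hij]

/-- chain rule -/
lemma pd_sub (t : σ → Conv τ) (ht : ∀ i, at0 (t i) = 0) (a : Conv σ) (j : τ) :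
    pd j (sub t ht a) = ∑ i, sub t ht (pd i a) * pd j (t i) := by
  apply gev_ext
  have hd := (tendsto_tev t ht).eventually (eventually_differentiableAt a)
  have h5 : ∀ᶠ z in 𝓝 (0 : τ → ℂ), ∀ i, gev (pd j (t i)) z = fderiv ℂ (gev (t i)) z (Pi.single j 1) :=
    eventually_all.mpr (fun i => gev_pd j (t i))
  have h6 : ∀ᶠ z in 𝓝 (0 : τ → ℂ), ∀ i, gev (sub t ht (pd i a)) z = gev (pd i a) (tev t z) :=
    eventually_all.mpr (fun i => gev_sub' t ht _)
  have h7 : ∀ᶠ z in 𝓝 (0 : τ → ℂ), ∀ i, gev (pd i a) (tev t z) = fderiv ℂ (gev a) (tev t z) (Pi.single i 1) :=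
    (tendsto_tev t ht).eventually (eventually_all.mpr (fun i => gev_pd i a))
  have h8 : ∀ᶠ z in 𝓝 (0 : τ → ℂ), ∀ i, gev (sub t ht (pd i a) * pd j (t i)) z =
      gev (sub t ht (pd i a)) z * gev (pd j (t i)) z :=
    eventually_all.mpr (fun i => gev_mul _ _)
  have h9 : ∀ᶠ z in 𝓝 (0 : τ → ℂ), ∀ i, DifferentiableAt ℂ (gev (t i)) z :=
    eventually_all.mpr (fun i => eventually_differentiableAt _)
  filter_upwards [gev_pd j (sub t ht a), fderiv_congr (gev_sub' t ht a),
    gev_sum Finset.univ (fun i => sub t ht (pd i a) * pd j (t i)), hd, h5, h6, h7, h8, h9] with z h1 h2 h3 h4 h5 h6 h7 h8 h9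
  rw [h1, h2, h3]
  have hdt : HasFDerivAt (tev t) (ContinuousLinearMap.pi (fun i => fderiv ℂ (gev (t i)) z)) z := by
    rw [hasFDerivAt_pi]
    intro i
    exact (h9 i).hasFDerivAt
  have hcomp : HasFDerivAt (fun z => gev a (tev t z)) _ z := h4.hasFDerivAt.comp z hdt
  rw [hcomp.fderiv]
  simp only [ContinuousLinearMap.comp_apply]
  have hv : (ContinuousLinearMap.pi (fun i => fderiv ℂ (gev (t i)) z)) (Pi.single j 1) =
      ∑ i, (fderiv ℂ (gev (t i)) z (Pi.single j 1)) • (Pi.single i (1:ℂ) : σ → ℂ) := by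
    ext k
    simp [Pi.single_apply]
  rw [hv, map_sum]
  apply Finset.sum_congr rfl
  intro i _
  rw [h8 i, h6 i, h7 i, h5 i, map_smul, smul_eq_mul, mul_comm]

end Pool.Agent.Helper296
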