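import Pool.Agent.Helper296.Alg3

set_option autoImplicit false
set_option linter.unusedSectionVars false
set_option linter.unusedVariables false
set_option linter.unusedSimpArgs false

namespace Pool.Agent.Helper296

section triang

variable {K : Type*} [Field K]

/-- common eigenvectors -/
lemma exists_common_eigenvector [IsAlgClosed K] {C : Type*} [CommRing C] {D : ℕ}
    (μ : C →+* Matrix (Fin (D + 1)) (Fin (D + 1)) K) :
    ∃ (v : Fin (D + 1) → K) (χ : C → K), v ≠ 0 ∧ ∀ c, (μ c).mulVec v = χ c • v := by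
  classical
  obtain ⟨W, hW⟩ := exists_minimal_of_wellFoundedLT
    (fun W : Submodule K (Fin (D + 1) → K) => W ≠ ⊥ ∧ ∀ c, ∀ w ∈ W, (μ c).mulVec w ∈ W)
    ⟨⊤, top_ne_bot, fun _ _ _ => trivial⟩
  obtain ⟨⟨hWne, hWinv⟩, hWmin⟩ := hW
  have hnt : Nontrivial W := Submodule.nontrivial_iff_ne_bot.mpr hWne
  have key : ∀ c, ∃ x : K, ∀ w ∈ W, (μ c).mulVec w = x • w := by
    intro c
    let f : Module.End K W := (Matrix.mulVecLin (μ c)).restrict (hWinv c)
    obtain ⟨x, hx⟩ := Module.End.exists_eigenvalue f
    obtain ⟨u, hu⟩ := hx.exists_hasEigenvector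
    have hu1 : (μ c).mulVec (u : Fin (D + 1) → K) = x • (u : Fin (D + 1) → K) := by
      have := congrArg Subtype.val hu.apply_eq_smul
      exact this
    have hu0 : (u : Fin (D + 1) → K) ≠ 0 := by
      intro h
      exact hu.2 (Subtype.ext h)
    let W' : Submodule K (Fin (D + 1) → K) := W ⊓ LinearMap.ker (Matrix.mulVecLin (μ c) - x • LinearMap.id)
    have hmem : ∀ w, w ∈ W' ↔ w ∈ W ∧ (μ c).mulVec w = x • w := by
      intro w
      rw [Submodule.mem_inf, LinearMap.mem_ker, LinearMap.sub_apply, sub_eq_zero]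
      rfl
    refine ⟨x, ?_⟩
    have hle : W ≤ W' := by
      apply hWmin _ inf_le_left
      refine ⟨?_, ?_⟩
      · intro hbot
        have : (u : Fin (D + 1) → K) ∈ W' := (hmem _).mpr ⟨u.2, hu1⟩
        rw [show W' = ⊥ from hbot, Submodule.mem_bot] at this
        exact hu0 this
      · intro c' w hw
        rw [hmem] at hw ⊢
        refine ⟨hWinv c' w hw.1, ?_⟩
        rw [Matrix.mulVec_mulVec, ← map_mul, mul_comm c c', map_mul, ← Matrix.mulVec_mulVec, hw.2,
          Matrix.mulVec_smul]
    intro w hw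
    exact ((hmem w).mp (hle hw)).2
  choose χ hχ using key
  obtain ⟨v, hv, hv0⟩ := Submodule.exists_mem_ne_zero_of_ne_bot hWne
  exact ⟨v, χ, hv0, fun c => hχ c v hv⟩

/-- completing a vector to an invertible matrix -/
lemma exists_completion {D : ℕ} (v : Fin (D + 1) → K) (hv : v ≠ 0) :
    ∃ g g' : Matrix (Fin (D + 1)) (Fin (D + 1)) K, g * g' = 1 ∧ g' * g = 1 ∧ g'.mulVec (Pi.single 0 1) = v := by
  classical
  obtain ⟨N, hN⟩ := Submodule.exists_isCompl (K ∙ v)
  have hfr : Module.finrank K N = D := by
    have h1 := Submodule.finrank_add_eq_of_isCompl hN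
    rw [finrank_span_singleton hv, Module.finrank_fin_fun] at h1
    omega
  let bN := Module.finBasisOfFinrankEq K N hfr
  have hdisj : ∀ c : K, ∀ x ∈ N, c • v + x = 0 → c = 0 := by
    intro c x hx h
    have h1 : c • v ∈ N := by
      have : c • v = -x := eq_neg_of_add_eq_zero_left h
      rw [this]; exact N.neg_mem hx
    have h2 : c • v ∈ (K ∙ v) := Submodule.smul_mem _ _ (Submodule.mem_span_singleton_self v)
    have h3 : c • v = 0 := by
      have := hN.disjoint
      rw [Submodule.disjoint_def] at this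
      exact this _ h2 h1
    exact (smul_eq_zero.mp h3).resolve_right hv
  have hspan : ∀ z : Fin (D + 1) → K, ∃ c : K, z + c • v ∈ N := by
    intro z
    have : z ∈ (K ∙ v) ⊔ N := by rw [hN.sup_eq_top]; trivial
    obtain ⟨y, hy, w, hw, hyw⟩ := Submodule.mem_sup.mp this
    obtain ⟨c, rfl⟩ := Submodule.mem_span_singleton.mp hy
    refine ⟨-c, ?_⟩
    rw [← hyw, neg_smul]
    simpa using hw
  let b := Module.Basis.mkFinCons v bN hdisj hspan
  have hb0 : b 0 = v := by
    show (Module.Basis.mkFinCons v bN hdisj hspan) 0 = v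
    rw [Module.Basis.coe_mkFinCons]
    rfl
  refine ⟨b.toMatrix (Pi.basisFun K (Fin (D + 1))), (Pi.basisFun K (Fin (D + 1))).toMatrix b,
    Module.Basis.toMatrix_mul_toMatrix_flip _ _, Module.Basis.toMatrix_mul_toMatrix_flip _ _, ?_⟩
  ext i
  rw [Matrix.mulVec_single_one]
  show (Pi.basisFun K (Fin (D + 1))).toMatrix b i 0 = v i
  rw [Module.Basis.toMatrix_apply, hb0]
  simp

/-- block extension -/
def ext1 {D : ℕ} (M : Matrix (Fin D) (Fin D) K) : Matrix (Fin (D + 1)) (Fin (D + 1)) K :=
  Matrix.of (Fin.cons (Fin.cons 1 0) (fun i => Fin.cons 0 (M i)))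

@[simp] lemma ext1_zero_zero {D : ℕ} (M : Matrix (Fin D) (Fin D) K) : ext1 M 0 0 = 1 := rfl
@[simp] lemma ext1_zero_succ {D : ℕ} (M : Matrix (Fin D) (Fin D) K) (j : Fin D) : ext1 M 0 j.succ = 0 := rfl
@[simp] lemma ext1_succ_zero {D : ℕ} (M : Matrix (Fin D) (Fin D) K) (i : Fin D) : ext1 M i.succ 0 = 0 := rfl
@[simp] lemma ext1_succ_succ {D : ℕ} (M : Matrix (Fin D) (Fin D) K) (i j : Fin D) : ext1 M i.succ j.succ = M i j := rfl

lemma ext1_mul {D : ℕ} (M N : Matrix (Fin D) (Fin D) K) : ext1 M * ext1 N = ext1 (M * N) := by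
  ext i j
  rw [Matrix.mul_apply, Fin.sum_univ_succ]
  refine Fin.cases ?_ (fun i => ?_) i <;> refine Fin.cases ?_ (fun j => ?_) j <;>
    simp [Matrix.mul_apply]

lemma ext1_one {D : ℕ} : ext1 (1 : Matrix (Fin D) (Fin D) K) = 1 := by
  ext i j
  refine Fin.cases ?_ (fun i => ?_) i <;> refine Fin.cases ?_ (fun j => ?_) j
  · simp
  · rw [ext1_zero_succ, Matrix.one_apply_ne]
    exact (Fin.succ_ne_zero j).symm
  · rw [ext1_succ_zero, Matrix.one_apply_ne]
    exact (Fin.succ_ne_zero i)
  · rw [ext1_succ_succ]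
    by_cases h : i = j
    · subst h; simp
    · rw [Matrix.one_apply_ne h, Matrix.one_apply_ne]
      intro h'
      exact h (Fin.succ_injective _ h')

theorem triang [IsAlgClosed K] {C : Type*} [CommRing C] : ∀ (D : ℕ) (μ : C →+* Matrix (Fin D) (Fin D) K),
    ∃ (g g' : Matrix (Fin D) (Fin D) K) (χ : Fin D → C →+* K), g * g' = 1 ∧ g' * g = 1 ∧
      ∀ c, (∀ i j, j < i → (g * μ c * g') i j = 0) ∧ ∀ i, (g * μ c * g') i i = χ i c := by
  classical
  intro D
  induction D with
  | zero =>
    intro μ
    exact ⟨1, 1, fun i => i.elim0, by simp, by simp, fun c => ⟨fun i => i.elim0, fun i => i.elim0⟩⟩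
  | succ D ih =>
    intro μ
    obtain ⟨v, χ0, hv0, hv⟩ := exists_common_eigenvector μ
    obtain ⟨g1, g1', hg1, hg1', hgv⟩ := exists_completion v hv0
    set N : C → Matrix (Fin (D + 1)) (Fin (D + 1)) K := fun c => g1 * μ c * g1' with hN
    have hNmul : ∀ c c', N (c * c') = N c * N c' := by
      intro c c'
      simp only [hN, map_mul]
      calc g1 * (μ c * μ c') * g1' = g1 * μ c * 1 * μ c' * g1' := by noncomm_ring
        _ = g1 * μ c * (g1' * g1) * μ c' * g1' := by rw [hg1']
        _ = _ := by noncomm_ring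
    have hcol : ∀ c i, N c i 0 = χ0 c * (if i = 0 then 1 else 0) := by
      intro c i
      have h1 : (N c).mulVec (Pi.single 0 1) = χ0 c • (Pi.single 0 1 : Fin (D + 1) → K) := by
        simp only [hN]
        rw [← Matrix.mulVec_mulVec, ← Matrix.mulVec_mulVec, hgv, hv, Matrix.mulVec_smul, ← hgv,
          Matrix.mulVec_mulVec, hg1, Matrix.one_mulVec]
      have h2 := congrFun h1 i
      rw [Matrix.mulVec_single_one] at h2
      simpa [Pi.single_apply] using h2
    have hcol0 : ∀ c, N c 0 0 = χ0 c := fun c => by rw [hcol]; simp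
    have hcols : ∀ c (i : Fin D), N c i.succ 0 = 0 := fun c i => by rw [hcol]; simp
    let μ' : C →+* Matrix (Fin D) (Fin D) K :=
      { toFun := fun c => (N c).submatrix Fin.succ Fin.succ
        map_one' := by
          have : N 1 = 1 := by simp only [hN, map_one, mul_one]; exact hg1
          rw [this]
          ext i j
          simp [Matrix.submatrix_apply, Matrix.one_apply]
        map_mul' := by
          intro c c'
          rw [hNmul]
          ext i j
          rw [Matrix.submatrix_apply, Matrix.mul_apply, Fin.sum_univ_succ, hcols, zero_mul, zero_add]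
          rfl
        map_zero' := by
          have : N 0 = 0 := by simp only [hN, map_zero, mul_zero, zero_mul]
          rw [this]; rfl
        map_add' := by
          intro c c'
          have : N (c + c') = N c + N c' := by simp only [hN, map_add]; noncomm_ring
          rw [this]; rfl }
    have hμ' : ∀ c i j, μ' c i j = N c i.succ j.succ := fun c i j => rfl
    let χ0' : C →+* K :=
      { toFun := fun c => N c 0 0
        map_one' := by
          have : N 1 = 1 := by simp only [hN, map_one, mul_one]; exact hg1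
          rw [this, Matrix.one_apply_eq]
        map_mul' := by
          intro c c'
          rw [hNmul, Matrix.mul_apply, Fin.sum_univ_succ]
          simp [hcols]
        map_zero' := by
          have : N 0 = 0 := by simp only [hN, map_zero, mul_zero, zero_mul]
          rw [this]; rfl
        map_add' := by
          intro c c'
          have : N (c + c') = N c + N c' := by simp only [hN, map_add]; noncomm_ring
          rw [this]; rfl }
    obtain ⟨g2, g2', χ, hg2, hg2', hχ⟩ := ih μ'
    refine ⟨ext1 g2 * g1, g1' * ext1 g2', Fin.cons χ0' χ, ?_, ?_, ?_⟩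
    · calc ext1 g2 * g1 * (g1' * ext1 g2') = ext1 g2 * (g1 * g1') * ext1 g2' := by noncomm_ring
        _ = 1 := by rw [hg1, mul_one, ext1_mul, hg2, ext1_one]
    · calc g1' * ext1 g2' * (ext1 g2 * g1) = g1' * (ext1 g2' * ext1 g2) * g1 := by noncomm_ring
        _ = 1 := by rw [ext1_mul, hg2', ext1_one, mul_one, hg1']
    · intro c
      have hP : ext1 g2 * g1 * μ c * (g1' * ext1 g2') = ext1 g2 * N c * ext1 g2' := by
        simp only [hN]; noncomm_ring
      rw [hP]
      have h00 : (ext1 g2 * N c * ext1 g2') 0 0 = N c 0 0 := by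
        simp [Matrix.mul_apply, Fin.sum_univ_succ]
      have hs0 : ∀ i : Fin D, (ext1 g2 * N c * ext1 g2') i.succ 0 = 0 := by
        intro i
        simp [Matrix.mul_apply, Fin.sum_univ_succ, hcols]
      have hss : ∀ i j : Fin D, (ext1 g2 * N c * ext1 g2') i.succ j.succ = (g2 * μ' c * g2') i j := by
        intro i j
        simp [Matrix.mul_apply, Fin.sum_univ_succ, hcols, hμ']
      refine ⟨?_, ?_⟩
      · intro i j
        refine Fin.cases ?_ (fun i => ?_) i
        · intro h; exact absurd h (Fin.not_lt_zero j)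
        · refine Fin.cases ?_ (fun j => ?_) j
          · intro _; exact hs0 i
          · intro h
            rw [hss]
            exact (hχ c).1 i j (Fin.succ_lt_succ_iff.mp h)
      · intro i
        refine Fin.cases ?_ (fun i => ?_) i
        · rw [h00]; rfl
        · rw [hss, (hχ c).2 i]; rfl

end triang

section formula

variable {K : Type*} [Field K] {D : ℕ}

/-- upper triangular -/
def UT (M : Matrix (Fin D) (Fin D) K) : Prop := ∀ i j, j < i → M i j = 0

lemma UT_mul {M N : Matrix (Fin D) (Fin D) K} (hM : UT M) (hN : UT N) :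
    UT (M * N) ∧ ∀ i, (M * N) i i = M i i * N i i := by
  constructor
  · intro i j hij
    rw [Matrix.mul_apply]
    apply Finset.sum_eq_zero
    intro l _
    by_cases h : l < i
    · rw [hM i l h, zero_mul]
    · rw [hN l j (by omega), mul_zero]
  · intro i
    rw [Matrix.mul_apply, Finset.sum_eq_single i]
    · intro l _ hl
      rcases lt_or_gt_of_ne hl with h | h
      · rw [hM i l h, zero_mul]
      · rw [hN l i h, mul_zero]
    · intro h; exact absurd (Finset.mem_univ i) h

lemma UT_one : UT (1 : Matrix (Fin D) (Fin D) K) := by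
  intro i j h
  exact Matrix.one_apply_ne (ne_of_gt h)

lemma UT_list (l : List (Matrix (Fin D) (Fin D) K)) (h : ∀ x ∈ l, UT x) :
    UT l.prod ∧ ∀ i, l.prod i i = (l.map (fun x => x i i)).prod := by
  induction l with
  | nil =>
    refine ⟨?_, ?_⟩
    · rw [List.prod_nil]; exact UT_one
    · intro i; simp
  | cons x l ih =>
    obtain ⟨h1, h2⟩ := ih (fun y hy => h y (List.mem_cons_of_mem _ hy))
    obtain ⟨h3, h4⟩ := UT_mul (h x List.mem_cons_self) h1
    refine ⟨by rw [List.prod_cons]; exact h3, ?_⟩
    intro i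
    rw [List.prod_cons, h4, h2, List.map_cons, List.prod_cons]

variable {d : ℕ}

/-- entrywise derivation -/
def mder (δ : K → K) (M : Matrix (Fin D) (Fin D) K) : Matrix (Fin D) (Fin D) K := M.map δ

lemma mder_mul (δ : K → K) (h0 : δ 0 = 0) (hadd : ∀ a b, δ (a + b) = δ a + δ b)
    (hmul : ∀ a b, δ (a * b) = a * δ b + b * δ a) (M N : Matrix (Fin D) (Fin D) K) :
    mder δ (M * N) = mder δ M * N + M * mder δ N := by
  ext i j
  have hsum : ∀ (f : Fin D → K), δ (∑ l, f l) = ∑ l, δ (f l) := fun f =>
    map_sum (⟨⟨δ, h0⟩, hadd⟩ : K →+ K) f Finset.univ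
  simp only [mder, Matrix.map_apply, Matrix.mul_apply, Matrix.add_apply, hsum, hmul]
  rw [← Finset.sum_add_distrib]
  apply Finset.sum_congr rfl
  intro l _
  ring

/-- trace as an additive map -/
def trA : Matrix (Fin D) (Fin D) K →+ K := Matrix.traceAddMonoidHom (Fin D) K

lemma trA_apply (M : Matrix (Fin D) (Fin D) K) : trA M = Matrix.trace M := rfl

theorem AT_formula [IsAlgClosed K] {C : Type*} [CommRing C] (μ : C →+* Matrix (Fin D) (Fin D) K) :
    ∃ χ : Fin D → C →+* K, (∀ c : C, Matrix.trace (μ c) = ∑ i, χ i c) ∧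
      (∀ c : C, ∀ x : K, μ c = Matrix.scalar (Fin D) x → ∀ i, χ i c = x) ∧
      (∀ c : C, IsNilpotent (μ c) → ∀ i, χ i c = 0) ∧
      ∀ (δ : Fin d → K → K) (hadd : ∀ k a b, δ k (a + b) = δ k a + δ k b)
        (hmul : ∀ k a b, δ k (a * b) = a * δ k b + b * δ k a) (b0 : C) (w : Fin d → C),
      AT trA (μ b0) (fun j b => mder (δ j) (μ (w b))) =
        ∑ i, χ i b0 * Matrix.det (Matrix.of (fun m j => δ j (χ i (w m)))) := by
  classical
  obtain ⟨g, g', χ, hgg, hgg', hχ⟩ := triang D μ
  let cj : Matrix (Fin D) (Fin D) K →+* Matrix (Fin D) (Fin D) K :=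
    { toFun := fun M => g * M * g'
      map_one' := by rw [mul_one, hgg]
      map_mul' := by
        intro M N
        calc g * (M * N) * g' = g * M * 1 * N * g' := by noncomm_ring
          _ = g * M * (g' * g) * N * g' := by rw [hgg']
          _ = _ := by noncomm_ring
      map_zero' := by simp
      map_add' := by intro M N; noncomm_ring }
  have hcj : ∀ M, cj M = g * M * g' := fun M => rfl
  have htr : ∀ M, trA (cj M) = trA M := by
    intro M
    rw [hcj, trA_apply, trA_apply, Matrix.trace_mul_comm, ← mul_assoc, hgg', one_mul]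
  have hUT : ∀ c, UT (cj (μ c)) := fun c i j h => (hχ c).1 i j h
  have hdiag : ∀ c i, cj (μ c) i i = χ i c := fun c i => (hχ c).2 i
  refine ⟨χ, ?_, ?_, ?_, ?_⟩
  · intro c
    rw [← trA_apply, ← htr, trA_apply, Matrix.trace]
    apply Finset.sum_congr rfl
    intro i _
    exact hdiag c i
  · intro c x hx i
    rw [← hdiag, hx, hcj]
    have : g * (Matrix.scalar (Fin D) x) * g' = Matrix.scalar (Fin D) x := by
      rw [← Matrix.scalar_commute x (fun r => mul_comm _ _) g, mul_assoc, hgg, mul_one]
    rw [this]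
    simp
  · intro c hc i
    obtain ⟨n, hn⟩ := hc
    have h1 : χ i (c ^ n) = 0 := by
      rw [← hdiag, map_pow, hn, map_zero, Matrix.zero_apply]
    rw [map_pow] at h1
    by_contra h
    exact pow_ne_zero n h h1
  · intro δ hadd hmul b0 w
    have h00 : ∀ k, δ k 0 = 0 := fun k => by
      have := hadd k 0 0
      simpa using this
    have h01 : ∀ k, δ k 1 = 0 := fun k => by
      have := hmul k 1 1
      simpa using this
    -- conjugated data
    have h1 : AT trA (μ b0) (fun j b => mder (δ j) (μ (w b))) =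
        AT trA (cj (μ b0)) (fun j b => cj (mder (δ j) (μ (w b)))) := by
      unfold AT
      apply Finset.sum_congr rfl
      intro π _
      congr 1
      rw [← htr, map_mul, map_list_prod, List.map_ofFn]
      rfl
    have hcomm : ∀ c c', cj (μ c) * cj (μ c') = cj (μ c') * cj (μ c) := by
      intro c c'
      rw [← map_mul, ← map_mul, ← map_mul, ← map_mul, mul_comm]
    have hg'd : ∀ j, mder (δ j) g' = - (g' * mder (δ j) g * g') := by
      intro j
      have e1 := mder_mul (δ j) (h00 j) (hadd j) (hmul j) g g'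
      rw [hgg] at e1
      have e2 : mder (δ j) (1 : Matrix (Fin D) (Fin D) K) = 0 := by
        ext a b
        simp only [mder, Matrix.map_apply, Matrix.one_apply, Matrix.zero_apply]
        split_ifs
        · exact h01 j
        · exact h00 j
      rw [e2] at e1
      have e3 : g' * (mder (δ j) g * g' + g * mder (δ j) g') = g' * mder (δ j) g * g' + mder (δ j) g' := by
        calc g' * (mder (δ j) g * g' + g * mder (δ j) g') = g' * mder (δ j) g * g' + (g' * g) * mder (δ j) g' := by noncomm_ring
          _ = _ := by rw [hgg', one_mul]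
      rw [← e1, mul_zero] at e3
      exact eq_neg_of_add_eq_zero_right e3.symm
    have h2 : AT trA (cj (μ b0)) (fun j b => cj (mder (δ j) (μ (w b)))) =
        AT trA (cj (μ b0)) (fun j b => mder (δ j) (cj (μ (w b)))) := by
      apply AT_inv trA (fun x y => Matrix.trace_mul_comm x y) (cj (μ b0)) (fun b => cj (μ (w b)))
        (fun a => hcomm _ _) (fun a b => hcomm _ _) _ _ (fun j => - (mder (δ j) g * g'))
      · intro j a b
        have e1 := congrArg (mder (δ j)) (hcomm (w a) (w b))
        rw [mder_mul (δ j) (h00 j) (hadd j) (hmul j), mder_mul (δ j) (h00 j) (hadd j) (hmul j)] at e1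
        rw [sub_eq_sub_iff_add_eq_add]
        rw [add_comm, e1, add_comm]
      · intro j b
        simp only [hcj]
        rw [mder_mul (δ j) (h00 j) (hadd j) (hmul j), mder_mul (δ j) (h00 j) (hadd j) (hmul j), hg'd j]
        have e1 : mder (δ j) g * g' * (g * μ (w b) * g') = mder (δ j) g * μ (w b) * g' := by
          calc mder (δ j) g * g' * (g * μ (w b) * g') = mder (δ j) g * (g' * g) * μ (w b) * g' := by noncomm_ring
            _ = _ := by rw [hgg', mul_one]
        rw [neg_mul, e1]
        noncomm_ring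
    rw [h1, h2]
    unfold AT
    have hUTm : ∀ j c, UT (mder (δ j) (cj (μ c))) := by
      intro j c a b hab
      simp only [mder, Matrix.map_apply]
      rw [hUT c a b hab, h00]
    have h3 : ∀ π : Equiv.Perm (Fin d), trA (cj (μ b0) * (List.ofFn (fun j => mder (δ j) (cj (μ (w (π j)))))).prod) =
        ∑ i, χ i b0 * ∏ j, δ j (χ i (w (π j))) := by
      intro π
      obtain ⟨h4, h5⟩ := UT_list (List.ofFn (fun j => mder (δ j) (cj (μ (w (π j)))))) (by
        intro x hx
        rw [List.mem_ofFn] at hx
        obtain ⟨j, rfl⟩ := hx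
        exact hUTm j _)
      obtain ⟨_, h6⟩ := UT_mul (hUT b0) h4
      rw [trA_apply, Matrix.trace]
      apply Finset.sum_congr rfl
      intro i _
      rw [Matrix.diag_apply, h6, h5, hdiag, List.map_ofFn, List.prod_ofFn]
      congr 1
      apply Finset.prod_congr rfl
      intro j _
      show δ j (cj (μ (w (π j))) i i) = _
      rw [hdiag]
    simp_rw [h3, Finset.smul_sum]
    rw [Finset.sum_comm]
    apply Finset.sum_congr rfl
    intro i _
    rw [Matrix.det_apply, Finset.mul_sum]
    apply Finset.sum_congr rfl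
    intro π _
    rw [mul_smul_comm]
    rfl

end formula

end Pool.Agent.Helper296
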